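import Mathlib

/-!
Diffeomorphisms of the two dimensional sphere: structural stability.
-/

set_option autoImplicit false

open Set Metric Filter Topology Function

namespace Pool.Agent.Lib.MP_6d0683_an

/-- the unit sphere of the three dimensional space -/
abbrev Sph : Type := {p : ℂ × ℝ // ‖p.1‖ ^ 2 + p.2 ^ 2 = 1}

/-- the sign of a chart -/
def sgn (s : Bool) : ℝ := if s then 1 else -1

theorem par_mem (s : Bool) (z : ℂ) :
    ‖(2 / (1 + ‖z‖ ^ 2) : ℝ) • z‖ ^ 2 + (sgn s * ((‖z‖ ^ 2 - 1) / (1 + ‖z‖ ^ 2))) ^ 2 = 1 := by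
  have h : 0 < 1 + ‖z‖ ^ 2 := by positivity
  have h2 : sgn s ^ 2 = 1 := by cases s <;> simp [sgn]
  rw [norm_smul, Real.norm_eq_abs, mul_pow, mul_pow, sq_abs, h2]
  field_simp
  ring

/-- inverse stereographic projections; the closed unit disc goes onto the southern hemisphere
for `s = true` and onto the northern hemisphere for `s = false` -/
noncomputable def par (s : Bool) (z : ℂ) : Sph :=
  ⟨((2 / (1 + ‖z‖ ^ 2) : ℝ) • z, sgn s * ((‖z‖ ^ 2 - 1) / (1 + ‖z‖ ^ 2))), par_mem s z⟩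

/-- stereographic projections -/
noncomputable def chart (s : Bool) (x : Sph) : ℂ := (1 / (1 - sgn s * x.1.2) : ℝ) • x.1.1

/-- a map of the sphere read in the charts s and s' -/
noncomputable def loc (s s' : Bool) (f : Sph → Sph) (z : ℂ) : ℂ := chart s' (f (par s z))

/-- maps of class C^k -/
def IsCk (k : ℕ) (f : Sph → Sph) : Prop :=
  ∀ s, ContDiff ℝ k fun z => (f (par s z)).1

/-- diffeomorphisms of class C^k -/
def IsDiffeo (k : ℕ) (f : Sph ≃ₜ Sph) : Prop := IsCk k f ∧ IsCk k f.symm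

/-- C^k distance at most ε -/
def Close (k : ℕ) (ε : ℝ) (f g : Sph → Sph) : Prop :=
  ∀ s, ∀ i ≤ k, ∀ z ∈ closedBall (0 : ℂ) 1,
    ‖iteratedFDeriv ℝ i (fun w => (f (par s w)).1 - (g (par s w)).1) z‖ ≤ ε

/-- C^k structural stability, version of Peixoto -/
def Stable (k : ℕ) (f : Sph ≃ₜ Sph) : Prop :=
  ∃ ε > 0, ∀ g : Sph ≃ₜ Sph, IsDiffeo k g → Close k ε f g →
    ∃ χ : Sph ≃ₜ Sph, ∀ x, χ (f x) = g (χ x)

/-- C^k structural stability, version of Andronov and Pontryagin -/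
def StableAP (k : ℕ) (f : Sph ≃ₜ Sph) : Prop :=
  ∀ η > 0, ∃ ε > 0, ∀ g : Sph ≃ₜ Sph, IsDiffeo k g → Close k ε f g →
    ∃ χ : Sph ≃ₜ Sph, (∀ x, χ (f x) = g (χ x)) ∧ ∀ x, dist (χ x) x < η

end Pool.Agent.Lib.MP_6d0683_an
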