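import Pool.Agent.Lib.MP_6d0683_an.Sph1
import Pool.Agent.Lib.MP_3fe454_an.S2.Lin
import Pool.Agent.Lib.MP_3fe454_an.S2.Defs2

-- part Pool.Agent.Lib.MP_6d0683_an.Sd2
section

/-!
Local stable graphs and sinks.
-/

set_option autoImplicit false

open Set Metric Filter Topology Function

namespace Pool.Agent.Lib.MP_6d0683_an

open MP_3fe454_an.PD MP_3fe454_an.S2

variable {G : ℂ → ℂ} {c : ℂ}

/-- projection to the unit interval -/
def sd2_p (x : ℝ) : ℝ := max (-1) (min x 1)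

theorem sd2_p_le (x : ℝ) : |sd2_p x| ≤ 1 :=
  abs_le.2 ⟨le_max_left _ _, max_le (by norm_num) (min_le_right _ _)⟩

theorem sd2_p_lip (x y : ℝ) : |sd2_p x - sd2_p y| ≤ |x - y| := by
  refine (abs_max_sub_max_le_max _ _ _ _).trans (max_le (by simp) ?_)
  refine (abs_min_sub_min_le_max _ _ _ _).trans (max_le le_rfl (by simp))

theorem sd2_p_eq {x : ℝ} (h : |x| ≤ 1) : sd2_p x = x := by
  rw [sd2_p, min_eq_left (abs_le.1 h).2, max_eq_right (abs_le.1 h).1]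

theorem sd2_model (D : Sd G c) : ∃ T : ℝ × ℝ → ℝ × ℝ,
    (∀ u v, D.toCst.St (u - v) (T u - T v)) ∧ T 0 = 0 ∧
      ∀ w ∈ D.Bx, T (D.A (w - c)) = D.A (G w - c) := by
  let cl : ℝ × ℝ → ℝ × ℝ := fun u => (sd2_p u.1, sd2_p u.2)
  have c1 : ∀ u, ‖cl u‖ ≤ 1 := fun u => norm_prod_le_iff.2 ⟨sd2_p_le _, sd2_p_le _⟩
  have c2 : ∀ u v, ‖cl u - cl v‖ ≤ ‖u - v‖ := fun u v =>
    norm_prod_le_iff.2 ⟨(sd2_p_lip _ _).trans (norm_fst_le (u - v)),
      (sd2_p_lip _ _).trans (norm_snd_le (u - v))⟩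
  have c3 : ∀ u, ‖u‖ ≤ 1 → cl u = u := fun u hu =>
    Prod.ext (sd2_p_eq ((norm_fst_le u).trans hu)) (sd2_p_eq ((norm_snd_le u).trans hu))
  have p1 : ∀ u, D.A (c + D.A.symm u - c) = u := fun u => by
    rw [add_sub_cancel_left, D.A.apply_symm_apply]
  have h3 : ∀ w ∈ D.Bx, ((D.s * (D.A (w - c)).1, D.l * (D.A (w - c)).2) : ℝ × ℝ) +
      (D.A (G (c + D.A.symm (cl (D.A (w - c)))) - c) -
        (D.s * (cl (D.A (w - c))).1, D.l * (cl (D.A (w - c))).2)) = D.A (G w - c) :=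
    fun w hw => by rw [c3 _ hw, D.A.symm_apply_apply, add_sub_cancel, add_sub_cancel]
  refine ⟨fun u => (D.s * u.1, D.l * u.2) + (D.A (G (c + D.A.symm (cl u)) - c) -
    (D.s * (cl u).1, D.l * (cl u).2)), fun u v => ?_, ?_, h3⟩
  · have h := D.est (c + D.A.symm (cl u)) (c + D.A.symm (cl v)) (by rw [p1]; exact c1 u)
      (by rw [p1]; exact c1 v)
    rw [add_sub_add_left_eq_sub, ← map_sub, D.A.apply_symm_apply,
      ← sub_sub_sub_cancel_right _ _ c, map_sub D.A (_ - c)] at h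
    refine le_trans (le_of_eq ?_) (le_trans h (mul_le_mul_of_nonneg_left (c2 u v) D.e_nn))
    congr 1
    ext <;> simp only [Prod.fst_sub, Prod.fst_add, Prod.snd_sub, Prod.snd_add] <;> ring
  · have := h3 c (by simp [Sd.Bx])
    rwa [D.fix, sub_self, map_zero] at this

theorem Sd.exists_gr (D : Sd G c) : ∃ γ, D.Gr γ := by
  obtain ⟨T, hT, h0, hG⟩ := sd2_model D
  have hS : ∀ u, D.toCst.St u (T u) := fun u => by simpa only [h0, sub_zero] using hT u 0
  have hc : Continuous T := (LipschitzWith.of_dist_le' (K := D.s + D.e) fun u v => by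
    rw [dist_eq_norm, dist_eq_norm]; exact (hT u v).le).continuous
  choose u u0 u1 u2 using Cst.exists_fwd (k := D.toCst) (fun _ => T) (fun _ => hc) fun _ => hS
  have hb : ∀ y n, ‖u y n‖ ≤ |y| := fun y n => by
    have a1 := Cst.decay_fwd (k := D.toCst) (u := u y) (fun n => by rw [u1]; exact hS _) (u2 y) n
    have a2 : ‖u y 0‖ ≤ |y| := norm_prod_le_iff.2 ⟨(u2 y 0).trans_eq (by rw [u0]), by
      rw [u0]; exact le_rfl⟩
    have a3 : (D.l + D.e) ^ n ≤ 1 := pow_le_one₀ (add_nonneg D.l_nn D.e_nn) D.hl.le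
    exact (a1.trans (mul_le_of_le_one_left (norm_nonneg _) a3)).trans a2
  have h3 : ∀ w, |D.Y w| ≤ 1 → D.X w = (u (D.Y w) 0).1 → ∀ n : ℕ, G^[n] w ∈ D.Bx := by
    intro w hw hX n
    have key : ∀ n : ℕ, D.A (G^[n] w - c) = u (D.Y w) n := fun n => by
      induction n with
      | zero => exact Prod.ext hX (u0 _).symm
      | succ n ih =>
        rw [u1, ← ih, iterate_succ_apply']
        exact (hG _ (by rw [Sd.Bx, mem_ofPred_eq, ih]; exact (hb _ _).trans hw)).symm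
    rw [Sd.Bx, mem_ofPred_eq, key]
    exact (hb _ _).trans hw
  refine ⟨fun y => (u y 0).1, fun a b => ?_, ?_, h3, fun w hw => ?_⟩
  · have := Cst.cone_fwd (k := D.toCst) (u := fun n => u a n - u b n) (C := |a| + |b|)
      (fun n => by rw [u1, u1]; exact hT _ _)
      (fun n => (norm_sub_le _ _).trans (add_le_add (hb _ _) (hb _ _))) 0
    simpa only [Prod.fst_sub, Prod.snd_sub, u0] using this
  · have := u2 0 0
    rw [u0, abs_zero] at this
    exact abs_nonpos_iff.1 this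
  · obtain ⟨w', hx, hy⟩ := D.exists_pt (u (D.Y w) 0).1 (D.Y w)
    have a1 : |D.Y w| ≤ 1 := (norm_snd_le (D.A (w - c))).trans (hw 0)
    have a2 := (D.pair_fwd hw (h3 w' (by rw [hy]; exact a1) (by rw [hx, hy])) 0).1
    rw [iterate_zero_apply, iterate_zero_apply, ← D.X_sub, ← D.Y_sub, hy, sub_self, abs_zero,
      abs_nonpos_iff, sub_eq_zero] at a2
    exact a2.trans hx

theorem Sd.Gr.cont {D : Sd G c} {γ : ℝ → ℝ} (h : D.Gr γ) : Continuous γ :=
  (LipschitzWith.of_dist_le' (K := 1) fun a b => by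
    rw [one_mul, Real.dist_eq, Real.dist_eq]; exact h.1 a b).continuous

theorem Sd.Gr.stay {D : Sd G c} {γ : ℝ → ℝ} (h : D.Gr γ) {z w : ℂ} {ρ : ℝ} (hρ : ρ ≤ 1)
    (hz : ∀ n : ℕ, G^[n] z ∈ D.Bx) (hw : w ∈ D.Bx) (hzw : ‖D.A (w - z)‖ < ρ / 2)
    (hX : D.X w = γ (D.Y w)) {n : ℕ} (hn : G^[n] z ∈ D.Op (ρ / 2)) : G^[n] w ∈ D.Op ρ := by
  have a1 := (D.pair_fwd (h.2.2.1 w ((norm_snd_le (D.A (w - c))).trans hw) hX) hz n).2
  have a2 := norm_add_le (D.A (G^[n] w - G^[n] z)) (D.A (G^[n] z - c))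
  rw [← map_add, sub_add_sub_cancel] at a2
  have a3 : ‖D.A (G^[n] z - c)‖ < ρ / 2 := hn
  change ‖D.A (G^[n] w - c)‖ < ρ
  linarith

theorem Sd.exists_in (D : Sd G c) :
    ∃ z ∈ D.Bx, z ≠ c ∧ Tendsto (fun n : ℕ => G^[n] z) atTop (𝓝 c) := by
  obtain ⟨γ, h⟩ := D.exists_gr
  obtain ⟨z, hx, hy⟩ := D.exists_pt (γ 1) 1
  have a1 := h.2.2.1 z (by rw [hy, abs_one]) (by rw [hx, hy])
  refine ⟨z, a1 0, fun e => ?_, D.tend_fwd a1⟩
  rw [e, Sd.Y, sub_self, map_zero] at hy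
  exact zero_ne_one hy

theorem exists_snk {L : ℂ →L[ℝ] ℂ} (hL : HasStrictFDerivAt G L c) (hc : G c = c)
    (N : Seminorm ℝ ℂ) {θ a b : ℝ} (h0 : 0 ≤ θ) (h1 : θ < 1) (ha : 0 < a)
    (hl : ∀ v, a * ‖v‖ ≤ N v) (hu : ∀ v, N v ≤ b * ‖v‖) (hN : ∀ v, N (L v) ≤ θ * N v) :
    Nonempty (Snk G c) := by
  have hb : 0 < b := by
    have := (hl 1).trans (hu 1)
    rw [norm_one] at this
    linarith
  have h2 : 0 < 1 - θ := by linarith
  obtain ⟨δ, d0, h⟩ := Metric.eventually_nhds_iff.1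
    (hL.isLittleO.def (c := (1 - θ) / 2 * a / b) (by positivity))
  have K0 : 0 < 2 / (a * δ) := by positivity
  obtain ⟨K, hK⟩ : ∃ K : Seminorm ℝ ℂ, ∀ v, K v = 2 / (a * δ) * N v :=
    ⟨NNReal.mk _ K0.le • N, fun v => rfl⟩
  have key : ∀ w, 2 / (a * δ) * N (w - c) ≤ 1 → dist w c < δ := fun w hw => by
    rw [div_mul_eq_mul_div, div_le_one (by positivity)] at hw
    have a1 : a * (2 * ‖w - c‖) ≤ a * δ := by linarith [hl (w - c)]
    have a2 := le_of_mul_le_mul_left a1 ha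
    rw [dist_eq_norm]
    linarith
  refine ⟨⟨K, (1 + θ) / 2, 2 / (a * δ) * a, 2 / (a * δ) * b, by positivity, by linarith,
    by positivity, fun v => ?_, fun v => ?_, hc, fun w w' hw hw' => ?_⟩⟩
  · rw [hK, mul_assoc]
    exact mul_le_mul_of_nonneg_left (hl v) K0.le
  · rw [hK, mul_assoc]
    exact mul_le_mul_of_nonneg_left (hu v) K0.le
  · rw [hK] at hw hw'
    rw [hK, hK, mul_left_comm]
    refine mul_le_mul_of_nonneg_left ?_ K0.le
    have a0 : ‖G w - G w' - L (w - w')‖ ≤ (1 - θ) / 2 * a / b * ‖w - w'‖ :=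
      h (y := (w, w')) (by rw [Prod.dist_eq]; exact max_lt (key w hw) (key w' hw'))
    have a1 := map_add_le_add N (G w - G w' - L (w - w')) (L (w - w'))
    rw [sub_add_cancel] at a1
    have a2 := (hu _).trans (mul_le_mul_of_nonneg_left a0 hb.le)
    have a3 : b * ((1 - θ) / 2 * a / b * ‖w - w'‖) = (1 - θ) / 2 * (a * ‖w - w'‖) := by
      field_simp
    have a4 := mul_le_mul_of_nonneg_left (hl (w - w')) (show 0 ≤ (1 - θ) / 2 by linarith)
    linarith [hN (w - w')]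

theorem exists_snk_diag {L : ℂ →L[ℝ] ℂ} (hL : HasStrictFDerivAt G L c) (hc : G c = c)
    (A : ℂ ≃L[ℝ] ℝ × ℝ) {s l : ℝ} (hs : |s| < 1) (hl : |l| < 1)
    (hA : ∀ v, A (L v) = (s * (A v).1, l * (A v).2)) : Nonempty (Snk G c) := by
  obtain ⟨a, a0, ha⟩ := (A : ℂ →L[ℝ] ℝ × ℝ).bound
  obtain ⟨b, b0, hb⟩ := (A.symm : ℝ × ℝ →L[ℝ] ℂ).bound
  have hb' : ∀ v, ‖v‖ ≤ b * ‖A v‖ := fun v => by simpa using hb (A v)
  refine exists_snk hL hc ((normSeminorm ℝ (ℝ × ℝ)).comp A.toLinearEquiv.toLinearMap)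
    (θ := max |s| |l|) (a := b⁻¹) (b := a) (le_max_of_le_left (abs_nonneg _)) (max_lt hs hl)
    (inv_pos.2 b0) (fun v => ?_) (fun v => ha v) fun v => ?_
  · exact (inv_mul_le_iff₀ b0).2 (hb' v)
  · change ‖A (L v)‖ ≤ max |s| |l| * ‖A v‖
    rw [hA]
    refine norm_prod_le_iff.2 ⟨?_, ?_⟩
    · rw [norm_mul]
      exact mul_le_mul (le_max_left _ _) (norm_fst_le _) (norm_nonneg _)
        (le_max_of_le_left (abs_nonneg _))
    · rw [norm_mul]
      exact mul_le_mul (le_max_right _ _) (norm_snd_le _) (norm_nonneg _)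
        (le_max_of_le_left (abs_nonneg _))

theorem sd2_cont (T : Snk G c) : Continuous T.N :=
  (LipschitzWith.of_dist_le' (K := T.b) fun x y => by
    rw [Real.dist_eq, dist_eq_norm]
    exact (abs_sub_map_le_sub T.N x y).trans (T.up _)).continuous

theorem sd2_ball (T : Snk G c) {r : ℝ} (hr : 0 < r) : ∀ᶠ y in 𝓝 c, T.N (y - c) < r :=
  ((sd2_cont T).comp (continuous_sub_right c)).continuousAt.eventually_lt continuousAt_const
    (by simpa using hr)

theorem sd2_step (T : Snk G c) {w : ℂ} (hw : T.N (w - c) ≤ 1) :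
    T.N (G w - c) ≤ T.θ * T.N (w - c) := by
  have := T.contr w c hw (by simp)
  rwa [T.fix] at this

theorem sd2_der (T : Snk G c) {w : ℂ} (hw : T.N (w - c) < 1) {L : ℂ →L[ℝ] ℂ}
    (hL : HasFDerivAt G L w) (v : ℂ) : T.N (L v) ≤ T.θ * T.N v := by
  have a1 := ((sd2_cont T).tendsto _).comp
    (HasDerivAt.tendsto_slope_zero_right (hL.hasLineDerivAt v))
  have a2 : ∀ᶠ t : ℝ in 𝓝 0, T.N (w + t • v - c) < 1 :=
    ((sd2_cont T).comp (by fun_prop)).continuousAt.eventually_lt continuousAt_const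
      (by simpa using hw)
  refine le_of_tendsto a1 ?_
  filter_upwards [nhdsWithin_le_nhds a2, self_mem_nhdsWithin] with t h1 h2
  have h3 : 0 < t := h2
  have a3 := T.contr _ _ h1.le hw.le
  rw [add_sub_cancel_left, map_smul_eq_mul, Real.norm_of_nonneg h3.le, mul_left_comm] at a3
  rw [comp_apply, zero_add, zero_smul, add_zero, map_smul_eq_mul,
    Real.norm_of_nonneg (inv_pos.2 h3).le]
  exact (inv_mul_le_iff₀ h3).2 a3

theorem Snk.stab (T : Snk G c) : Stab G c := by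
  intro U hU
  obtain ⟨ε, ε0, hε⟩ := Metric.mem_nhds_iff.1 hU
  have r0 : 0 < min 1 (T.a * ε) := lt_min one_pos (mul_pos T.a_pos ε0)
  refine ⟨{y | T.N (y - c) < min 1 (T.a * ε)}, sd2_ball T r0, fun y hy n => hε ?_⟩
  have key : T.N (G^[n] y - c) < min 1 (T.a * ε) := by
    induction n with
    | zero => exact hy
    | succ n ih =>
      rw [iterate_succ_apply']
      exact ((sd2_step T (ih.le.trans (min_le_left _ _))).trans
        (mul_le_of_le_one_left (apply_nonneg _ _) T.θ_lt.le)).trans_lt ih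
  rw [mem_ball, dist_eq_norm]
  exact lt_of_mul_lt_mul_left ((T.low _).trans_lt (key.trans_le (min_le_right _ _))) T.a_pos.le

theorem Snk.decay (T : Snk G c) {o a : ℕ → ℂ} {L : ℕ → ℂ →L[ℝ] ℂ}
    (ho : Tendsto o atTop (𝓝 c)) (hL : ∀ n, HasFDerivAt G (L n) (o n))
    (ha : ∀ n, a (n + 1) = L n (a n)) : Tendsto a atTop (𝓝 0) := by
  obtain ⟨m, hm⟩ := eventually_atTop.1 (ho.eventually (sd2_ball T one_pos))
  have key : ∀ j, T.N (a (j + m)) ≤ T.θ ^ j * T.N (a m) := fun j => by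
    induction j with
    | zero => simp
    | succ j ih =>
      rw [Nat.add_right_comm, ha, pow_succ', mul_assoc]
      exact (sd2_der T (hm _ (Nat.le_add_left _ _)) (hL _) _).trans
        (mul_le_mul_of_nonneg_left ih T.θ_nn)
  have a1 := ((tendsto_pow_atTop_nhds_zero_of_lt_one T.θ_nn T.θ_lt).mul_const
    (T.N (a m))).const_mul T.a⁻¹
  rw [zero_mul, mul_zero] at a1
  exact (tendsto_add_atTop_iff_nat m).1 (squeeze_zero_norm
    (fun j => (le_inv_mul_iff₀ T.a_pos).2 ((T.low _).trans (key j))) a1)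

theorem Snk.back (T : Snk G c) {w : ℕ → ℂ} (h : ∀ n, G (w (n + 1)) = w n)
    (hw : Tendsto w atTop (𝓝 c)) (n : ℕ) : w n = c := by
  obtain ⟨m, hm⟩ := eventually_atTop.1 (hw.eventually (sd2_ball T one_pos))
  have k1 : ∀ j i, m ≤ i → T.N (w i - c) ≤ T.θ ^ j := fun j => by
    induction j with
    | zero => exact fun i hi => (hm i hi).le.trans_eq (pow_zero _).symm
    | succ j ih =>
      intro i hi
      rw [← h, pow_succ']
      exact (sd2_step T (hm _ (by omega)).le).trans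
        (mul_le_mul_of_nonneg_left (ih _ (by omega)) T.θ_nn)
  have k2 : ∀ j i, w (i + j) = c → w i = c := fun j => by
    induction j with
    | zero => exact fun i hi => hi
    | succ j ih => exact fun i hi => ih i (by rw [← h, add_assoc, hi, T.fix])
  have k3 := (T.low _).trans (ge_of_tendsto'
    (tendsto_pow_atTop_nhds_zero_of_lt_one T.θ_nn T.θ_lt) fun j => k1 j (n + m) (by omega))
  exact k2 m n (sub_eq_zero.1 (norm_le_zero_iff.1 (nonpos_of_mul_nonpos_right k3 T.a_pos)))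

end Pool.Agent.Lib.MP_6d0683_an
end

-- part Pool.Agent.Lib.MP_6d0683_an.Fam
section

/-!
Families of deformations.
-/

set_option autoImplicit false

open Set Metric Filter Topology Function

namespace Pool.Agent.Lib.MP_6d0683_an

open MP_3fe454_an.PD MP_3fe454_an.S2

section

variable {P : Type} [NormedAddCommGroup P] [NormedSpace ℝ P] {ψ : P × ℂ → ℂ} {r : ℝ}

theorem Fam.cont (h : Fam ψ r) (F : Dis) (n : ℕ) :
    Continuous fun p : P × ℂ => (F.f ∘ fun z => ψ (p.1, z))^[n] p.2 := by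
  induction n with
  | zero => exact continuous_snd
  | succ n ih =>
    simp only [iterate_succ_apply']
    exact F.cf.comp ((h.smooth 0).continuous.comp (continuous_fst.prodMk ih))

theorem Fam.der (h : Fam ψ r) (F : Dis) (n : ℕ) : ∃ E : P × ℂ → ℂ →L[ℝ] ℂ, Continuous E ∧
    ∀ t, MapsTo (fun z => ψ (t, z)) (ball 0 1) (ball 0 1) → ∀ z, ‖z‖ < 1 →
      HasFDerivAt (F.f ∘ fun z => ψ (t, z))^[n] (E (t, z)) z := by
  have h1 : ContDiff ℝ 1 ψ := by exact_mod_cast h.smooth 1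
  induction n with
  | zero => exact ⟨fun _ => ContinuousLinearMap.id ℝ ℂ, continuous_const,
      fun _ _ z _ => hasFDerivAt_id z⟩
  | succ n ih =>
    obtain ⟨E, hE, hd⟩ := ih
    have hc := continuous_fst.prodMk (h.cont F n)
    refine ⟨fun p => ((F.D (ψ (p.1, (F.f ∘ fun z => ψ (p.1, z))^[n] p.2))).comp
      ((fderiv ℝ ψ (p.1, (F.f ∘ fun z => ψ (p.1, z))^[n] p.2)).comp
        (ContinuousLinearMap.inr ℝ P ℂ))).comp (E p),
      ((F.cD.comp (h1.continuous.comp hc)).clm_comp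
        (((h1.continuous_fderiv one_ne_zero).comp hc).clm_comp continuous_const)).clm_comp hE,
      fun t ht z hz => ?_⟩
    have hm : (F.f ∘ fun z => ψ (t, z))^[n] z ∈ ball (0 : ℂ) 1 := by
      cases n with
      | zero => exact mem_ball_zero_iff.2 hz
      | succ n =>
        rw [iterate_succ_apply']
        exact mem_ball_zero_iff.2 ((F.maps _).trans_lt F.r0_lt)
    rw [iterate_succ']
    have h2 := (h1.differentiable one_ne_zero _).hasFDerivAt.comp _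
      (hasFDerivAt_prodMk_right t ((F.f ∘ fun z => ψ (t, z))^[n] z))
    exact (HasFDerivAt.comp (f := fun z => ψ (t, z)) _
      (lin_strict F (mem_ball_zero_iff.1 (ht hm))).hasFDerivAt h2).comp z (hd t ht z hz)

theorem Fam.small (h : Fam ψ r) (F : Dis) {ε : ℝ} (hε : 0 < ε) :
    ∀ᶠ t in 𝓝 (0 : P), ∀ z, ‖ψ (t, z) - z‖ < ε ∧ ‖F.f (ψ (t, z)) - F.f z‖ < ε := by
  have hc := (h.smooth 0).continuous
  have c1 : Continuous fun p : P × ℂ => ‖ψ p - p.2‖ := (hc.sub continuous_snd).norm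
  have c2 : Continuous fun p : P × ℂ => ‖F.f (ψ p) - F.f p.2‖ :=
    ((F.cf.comp hc).sub (F.cf.comp continuous_snd)).norm
  filter_upwards [(isCompact_closedBall (0 : ℂ) r).eventually_forall_of_forall_eventually
    (x₀ := (0 : P)) (P := fun t z => ‖ψ (t, z) - z‖ < ε ∧ ‖F.f (ψ (t, z)) - F.f z‖ < ε) fun y _ =>
      (c1.continuousAt.eventually_lt continuousAt_const (by simpa [h.zero] using hε)).and
        (c2.continuousAt.eventually_lt continuousAt_const (by simpa [h.zero] using hε))]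
    with t ht z
  rcases le_total ‖z‖ r with hz | hz
  · exact ht z (mem_closedBall_zero_iff.2 hz)
  · simpa [h.supp t z hz] using hε

end

theorem fam_bump (c : ℂ) {r : ℝ} (h0 : 0 < r) : ∃ b : ℂ → ℝ, (∀ n : ℕ, ContDiff ℝ n b) ∧
    (∀ z, z ∉ ball c r → b z = 0) ∧ ∀ z ∈ closedBall c (r / 2), b z = 1 :=
  let b : ContDiffBump c := ⟨r / 2, r, half_pos h0, half_lt_self h0⟩
  ⟨b, fun n => by exact_mod_cast b.contDiff (n := n),
    fun z hz => b.zero_of_le_dist (not_lt.1 hz), fun z hz => b.one_of_mem_closedBall hz⟩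

theorem fam_out {c z : ℂ} {r R : ℝ} (h : ‖c‖ + r ≤ R) (hz : R ≤ ‖z‖) : z ∉ ball c r := fun hb => by
  rw [mem_ball, dist_eq_norm] at hb
  linarith [norm_sub_norm_le z c]

/-- independent local translations -/
theorem exists_bump {m : ℕ} (c : Fin m → ℂ) (r : Fin m → ℝ) (h0 : ∀ i, 0 < r i)
    (h1 : ∀ i, ‖c i‖ + r i < 1) : ∃ (ψ : (Fin m → ℂ) × ℂ → ℂ) (R : ℝ), Fam ψ R ∧
      (∀ v z, (∀ i, z ∉ ball (c i) (r i)) → ψ (v, z) = z) ∧
      (∀ v i w z, z ∉ ball (c i) (r i) → ψ (v + Pi.single i w, z) = ψ (v, z)) ∧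
      ∀ v i w z, z ∈ closedBall (c i) (r i / 2) → ψ (v + Pi.single i w, z) = ψ (v, z) + w := by
  choose b hb hb0 hb1 using fun i => fam_bump (c i) (h0 i)
  obtain ⟨R, hR, hR1⟩ := ((eventually_all.2 fun i => (eventually_ge_nhds (h1 i)).filter_mono
    nhdsWithin_le_nhds).and (self_mem_nhdsWithin : Iio (1 : ℝ) ∈ 𝓝[<] 1)).exists
  have e : ∀ (v : Fin m → ℂ) i w z, ∑ j, b j z • (v + Pi.single i w : Fin m → ℂ) j =
      ∑ j, b j z • v j + b i z • w := fun v i w z => by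
    simp [Finset.sum_add_distrib, Pi.single_apply]
  have o : ∀ (v : Fin m → ℂ) z, (∀ i, z ∉ ball (c i) (r i)) → z + ∑ j, b j z • v j = z :=
    fun v z hz => by simp [fun i => hb0 i z (hz i)]
  refine ⟨fun p => p.2 + ∑ j, b j p.2 • p.1 j, R, ⟨fun n => ?_, fun z => by simp, hR1,
    fun t z hz => o t z fun i => fam_out (hR i) hz⟩, o, fun v i w z hz => ?_, fun v i w z hz => ?_⟩
  · exact contDiff_snd.add (ContDiff.sum fun j _ => ((hb j n).comp contDiff_snd).smul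
      ((contDiff_apply ℝ ℂ j).comp contDiff_fst))
  · simp only [e, hb0 i z hz, zero_smul, add_zero]
  · simp only [e, hb1 i z hz, one_smul, add_assoc]

/-- a local affine deformation in the direction e -/
theorem exists_shear (c e : ℂ) (ℓ : ℂ →L[ℝ] ℝ) {r : ℝ} (h0 : 0 < r) (h1 : ‖c‖ + r < 1) :
    ∃ (ψ : (ℝ × ℝ) × ℂ → ℂ) (R : ℝ), Fam ψ R ∧ (∀ t z, z ∉ ball c r → ψ (t, z) = z) ∧
      ∀ t z, z ∈ closedBall c (r / 2) → ψ (t, z) = z + (t.1 * ℓ (z - c) + t.2) • e := by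
  obtain ⟨b, hb, hb0, hb1⟩ := fam_bump c h0
  refine ⟨fun p => p.2 + (b p.2 * (p.1.1 * ℓ (p.2 - c) + p.1.2)) • e, ‖c‖ + r,
    ⟨fun n => ?_, fun z => by simp, h1, fun t z hz => by simp [hb0 z (fam_out le_rfl hz)]⟩,
    fun t z hz => by simp [hb0 z hz], fun t z hz => by simp only [hb1 z hz, one_mul]⟩
  have := hb n
  fun_prop

theorem det_sub_one (L : ℂ →L[ℝ] ℂ) : (L - 1).det ≠ 0 ↔ ∀ v, L v = v → v = 0 := by
  rw [ContinuousLinearMap.det, Ne, LinearMap.det_eq_zero_iff_ker_ne_bot, not_not,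
    LinearMap.ker_eq_bot']
  simp [sub_eq_zero]

theorem nondeg_fin {T : ℂ → ℂ} (hT : Continuous T) {K : Set ℂ} (hK : IsCompact K)
    (h : ∀ z ∈ K, T z = z → ∃ L : ℂ →L[ℝ] ℂ, HasFDerivAt T L z ∧ ∀ v, L v = v → v = 0) :
    {z | z ∈ K ∧ T z = z}.Finite := by
  refine (hK.inter_right (isClosed_eq hT continuous_id)).finite
    (isDiscrete_iff_nhdsNE.2 fun z hz => ?_)
  obtain ⟨L, hL, hv⟩ := h z hz.1 hz.2
  obtain ⟨C, -, hC⟩ := ((L - 1 : ℂ →L[ℝ] ℂ) : ℂ →ₗ[ℝ] ℂ).exists_antilipschitzWith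
    (LinearMap.ker_eq_bot'.2 fun v e => hv v (by simpa [sub_eq_zero] using e))
  rw [inf_principal_eq_bot]
  filter_upwards [(hL.sub (hasFDerivAt_id z)).eventually_ne (c := 0) ⟨C, hC⟩] with w hw hw'
  exact hw (sub_eq_zero.2 hw'.2)

theorem strict_iter (F : Dis) (n : ℕ) {z : ℂ} (hz : ‖z‖ < 1) :
    HasStrictFDerivAt F.f^[n] (fderiv ℝ F.f^[n] z) z ∧ (fderiv ℝ F.f^[n] z).det ≠ 0 ∧
      (0 < n → |(fderiv ℝ F.f^[n] z).det| < 1) := by
  obtain ⟨-, L, h1, h2, h3⟩ := lin_iter F n hz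
  rw [h1.hasFDerivAt.fderiv]
  exact ⟨h1, h2, fun hn => h3.trans_lt (pow_lt_one₀ F.b_pos.le F.b_lt hn.ne')⟩

theorem fderiv_equiv (F : Dis) (n : ℕ) {z : ℂ} (hz : ‖z‖ < 1) :
    ∃ L : ℂ ≃L[ℝ] ℂ, (L : ℂ →L[ℝ] ℂ) = fderiv ℝ F.f^[n] z := by
  exact ⟨_, ContinuousLinearMap.coe_toContinuousLinearEquivOfDetNeZero _ (strict_iter F n hz).2.1⟩

/-- points which are not chain recurrent are robustly wandering -/
theorem wander (F : Dis) {x : ℂ} {ε : ℝ} (hε : 0 < ε) (hx : ¬ Ch F.f ε x x) :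
    ∃ r > 0, ∀ T : ℂ → ℂ, (∀ w, ‖T w - F.f w‖ < r) → ∀ w ∈ ball x r, ∀ j : ℕ, 1 ≤ j →
      T^[j] w ∉ ball x r := by
  obtain ⟨δ, hδ, hc⟩ := Metric.continuousAt_iff.1 (F.cf.continuousAt (x := x)) (ε / 3)
    (by positivity)
  obtain ⟨r, hr, h1, h2⟩ : ∃ r > 0, r ≤ δ ∧ r ≤ ε / 3 :=
    ⟨min δ (ε / 3), by positivity, min_le_left _ _, min_le_right _ _⟩
  refine ⟨r, hr, fun T hT w hw j hj hb => hx ?_⟩
  have key : ∀ i : ℕ, ∀ y, dist (T^[i + 1] w) y < r → Ch F.f ε x y := fun i => by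
    induction i with
    | zero =>
      refine fun y hy => Relation.TransGen.single ?_
      have e1 := hc ((mem_ball.1 hw).trans_le h1)
      have e2 := hT w
      have e3 := dist_triangle4 (F.f x) (F.f w) (T w) y
      rw [← dist_eq_norm, dist_comm] at e2
      rw [dist_comm] at e1
      rw [← dist_eq_norm]
      simp only [zero_add, iterate_one] at hy
      linarith
    | succ i ih =>
      refine fun y hy => Relation.TransGen.tail (ih _ (by simpa using hr : dist (T^[i + 1] w)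
        (T^[i + 1] w) < r)) ?_
      have e2 := hT (T^[i + 1] w)
      have e3 := dist_triangle (F.f (T^[i + 1] w)) (T (T^[i + 1] w)) y
      rw [← dist_eq_norm, dist_comm] at e2
      rw [iterate_succ_apply'] at hy
      rw [← dist_eq_norm]
      linarith
  obtain ⟨i, rfl⟩ := Nat.exists_eq_add_of_le' hj
  exact key i x hb

end Pool.Agent.Lib.MP_6d0683_an
end

-- part Pool.Agent.Lib.MP_6d0683_an.Hyp2
section

/-!
A neutral periodic point can be turned into a sink or into a saddle.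
-/

set_option autoImplicit false

open Set Metric Filter Topology Function

namespace Pool.Agent.Lib.MP_6d0683_an

open MP_3fe454_an.PD MP_3fe454_an.S2

variable {S : Type} [TopologicalSpace S]

theorem neutral_form {L : ℂ →L[ℝ] ℂ} (h0 : L.det ≠ 0) (h1 : |L.det| < 1) (h : ¬ Hyp L) :
    ∃ (A : ℂ ≃L[ℝ] ℝ × ℝ) (ε μ : ℝ), ε * ε = 1 ∧ μ * μ < 1 ∧
      ∀ v, A (L v) = (ε * (A v).1, μ * (A v).2) := by
  simp only [Hyp, not_forall] at h
  obtain ⟨v, hv, v0⟩ := h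
  rcases lin_dich L h0 h1 with ⟨N, θ, c, C, -, a1, a2, a3, -, a5⟩ | ⟨A, s, l, a0, a1, a2, a3⟩
  · have h2 := a5 v
    have h3 := (mul_pos a2 (norm_pos_iff.2 v0)).trans_le (a3 v)
    rw [hv] at h2
    nlinarith
  have hl : l < 1 := by nlinarith
  have hs : s = 1 := by
    have h2 := a3 v
    rw [hv] at h2
    have h3 : (A v).2 = 0 := by
      have := congrArg Prod.snd h2
      exact (mul_eq_zero.1 (show (1 - l) * (A v).2 = 0 by linear_combination this)).resolve_left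
        (by linarith)
    have h4 : (A v).1 ≠ 0 := fun e => v0 (A.map_eq_zero_iff.1 (Prod.ext e h3))
    exact (mul_left_eq_self₀.1 (congrArg Prod.fst h2).symm).resolve_right h4
  subst hs
  have e1 : L (L (A.symm (1, 0))) = A.symm (1, 0) := A.injective (by rw [a3]; simp)
  have e2 : L (L (A.symm (0, 1))) = l • A.symm (0, 1) := A.injective (by rw [a3, map_smul]; simp)
  have b1 : (A (L (A.symm (1, 0)))).2 = 0 := by
    have := congrArg Prod.snd (a3 (L (A.symm (1, 0))))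
    rw [e1] at this
    exact (mul_eq_zero.1 (show (1 - l) * _ = 0 by linear_combination this)).resolve_left
      (by linarith)
  have b2 : (A (L (A.symm (0, 1)))).1 = 0 := by
    have := congrArg Prod.fst (a3 (L (A.symm (0, 1))))
    rw [e2, map_smul, map_smul, Prod.smul_fst, smul_eq_mul] at this
    exact (mul_eq_zero.1 (show (1 - l) * _ = 0 by linear_combination -this)).resolve_left
      (by linarith)
  have key : ∀ v, A (L v) =
      ((A (L (A.symm (1, 0)))).1 * (A v).1, (A (L (A.symm (0, 1)))).2 * (A v).2) := fun v => by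
    have : v = (A v).1 • A.symm (1, 0) + (A v).2 • A.symm (0, 1) :=
      A.injective (by rw [map_add, map_smul, map_smul]; simp)
    conv_lhs => rw [this]
    simp only [map_add, map_smul]
    exact Prod.ext (by simp [b2, mul_comm]) (by simp [b1, mul_comm])
  refine ⟨A, _, _, ?_, ?_, key⟩
  · have := congrArg Prod.fst (key (L (A.symm (1, 0))))
    rw [e1] at this
    simpa using this.symm
  · have := congrArg Prod.snd (key (L (A.symm (0, 1))))
    rw [e2, map_smul] at this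
    have h2 : l = (A (L (A.symm (0, 1)))).2 * (A (L (A.symm (0, 1)))).2 := by simpa using this
    exact h2 ▸ hl

theorem hyp2_germ (F : Dis) {ψ : ℂ → ℂ} {p : ℂ} {K : Set ℂ} (hK : IsClosed K)
    (hψ : ∀ z, z ∉ K → ψ z = z) (hc : ContinuousAt ψ p) (hp : ψ p = p) (j : ℕ)
    (hj : ∀ i, 0 < i → i ≤ j → F.f^[i] p ∉ K) :
    (F.f ∘ ψ)^[j + 1] =ᶠ[𝓝 p] F.f^[j + 1] ∘ ψ := by
  induction j with
  | zero => exact EventuallyEq.rfl
  | succ j ih =>
    have h1 : ∀ᶠ z in 𝓝 p, (F.f^[j + 1] ∘ ψ) z ∈ Kᶜ :=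
      ((F.cf.iterate (j + 1)).continuousAt.comp hc).eventually_mem (hK.isOpen_compl.mem_nhds (by
        rw [comp_apply, hp]
        exact hj _ j.succ_pos le_rfl))
    filter_upwards [h1, ih fun i h0 hi => hj i h0 (hi.trans j.le_succ)] with z h2 h3
    rw [iterate_succ_apply', h3, comp_apply, hψ _ h2, comp_apply, comp_apply,
      iterate_succ_apply' F.f (j + 1)]

theorem hyp2_stab {g : S ≃ₜ S} {m : ℕ} {x : S} (h : Stab g^[m] x) (j : ℕ) :
    Stab g^[m] (g^[j] x) := by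
  induction j with
  | zero => exact h
  | succ j ih =>
    rw [iterate_succ_apply']
    exact ih.conj g fun y => (iterate_succ_apply' g m y).symm

theorem hyp2_fix {α : Type} {f : α → α} {n : ℕ} {x : α} (h : f^[n] x = x) (j : ℕ) :
    f^[n] (f^[j] x) = f^[j] x := by
  rw [← iterate_add_apply, add_comm, iterate_add_apply, h]

theorem hyp2_only (X : Sys S) {n : ℕ} {p : ℂ} {K : Set ℂ} (hK : K ⊆ Disc)
    (h1 : ∀ z ∈ K, X.F.f^[n] z = z → z = p) {x : S} (hx : X.f^[n] x = x) (hm : x ∈ X.σ '' K) :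
    x = X.σ p := by
  obtain ⟨z, hz, rfl⟩ := hm
  rw [X.iter (hK hz)] at hx
  rw [h1 z hz (X.emb.injective hx)]

theorem hyp2_agree {X : Sys S} {ψ : ℂ → ℂ} {g : S ≃ₜ S} (h : Pert X.σ X.f ψ g) {n : ℕ} {p : ℂ}
    {K : Set ℂ} (hK : K ⊆ Disc) (hψ : ∀ z, z ∉ K → ψ z = z) (hp : ψ p = p) (hD : p ∈ Disc)
    (h1 : ∀ z ∈ K, X.F.f^[n] z = z → z = p) {x : S} (hx : X.f^[n] x = x) (j : ℕ) :
    g^[j] x = X.f^[j] x := by
  induction j with
  | zero => rfl
  | succ j ih =>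
    rw [iterate_succ_apply', iterate_succ_apply', ih]
    by_cases hm : X.f^[j] x ∈ X.σ '' K
    · rw [hyp2_only X hK h1 (hyp2_fix hx j) hm, h.ins p hD, hp]
    · exact h.eq_off hψ hm

theorem hyp2_der (F : Dis) {ψ : ℂ → ℂ} {p : ℂ} {r τ ε μ : ℝ} {n : ℕ} (hn : 0 < n) (hr : 0 < r)
    {L : ℂ →L[ℝ] ℂ} (hL : HasStrictFDerivAt F.f^[n] L p) (hp : F.f^[n] p = p)
    (A : ℂ ≃L[ℝ] ℝ × ℝ) (hε : ε * ε = 1) (hA : ∀ v, A (L v) = (ε * (A v).1, μ * (A v).2))
    (h1 : ∀ z, z ∉ closedBall p r → ψ z = z)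
    (h2 : ∀ z ∈ closedBall p (r / 2), ψ z = z + (τ * (A (z - p)).1) • A.symm (1, 0))
    (h3 : ∀ i, 0 < i → i < n → F.f^[i] p ∉ closedBall p r) :
    (F.f ∘ ψ)^[n + n] p = p ∧ ∃ L' : ℂ →L[ℝ] ℂ, HasStrictFDerivAt (F.f ∘ ψ)^[n + n] L' p ∧
      ∀ v, A (L' v) = ((1 + τ) ^ 2 * (A v).1, μ * μ * (A v).2) := by
  have ψp : ψ p = p := by rw [h2 p (mem_closedBall_self (half_pos hr).le)]; simp
  obtain ⟨M, hM, hM'⟩ : ∃ M : ℂ →L[ℝ] ℂ, HasStrictFDerivAt ψ M p ∧
      ∀ v, A (M v) = ((1 + τ) * (A v).1, (A v).2) := by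
    let B : ℂ →L[ℝ] ℂ := (τ • (ContinuousLinearMap.fst ℝ ℝ ℝ).comp (A : ℂ →L[ℝ] ℝ × ℝ)).smulRight
      (A.symm (1, 0))
    refine ⟨ContinuousLinearMap.id ℝ ℂ + B, ?_, fun v => ?_⟩
    · have h4 := (hasStrictFDerivAt_id (𝕜 := ℝ) p).add
        (HasStrictFDerivAt.comp (f := fun z => z - p) p B.hasStrictFDerivAt
          ((hasStrictFDerivAt_id p).sub_const p))
      refine h4.congr_of_eventuallyEq ?_
      filter_upwards [closedBall_mem_nhds p (half_pos hr)] with z hz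
      rw [h2 z hz]
      simp [B]
    · change A (v + (τ * (A v).1) • A.symm (1, 0)) = _
      rw [map_add, map_smul]
      exact Prod.ext (by simp [add_mul]) (by simp)
  obtain ⟨j, rfl⟩ : ∃ j, n = j + 1 := ⟨n - 1, by omega⟩
  have h4 := hyp2_germ F isClosed_closedBall h1 hM.continuousAt ψp j fun i h0 hi =>
    h3 i h0 (by omega)
  have h5 : HasStrictFDerivAt (F.f ∘ ψ)^[j + 1] (L.comp M) p :=
    (HasStrictFDerivAt.comp p (by rwa [ψp]) hM).congr_of_eventuallyEq h4.symm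
  have h6 : (F.f ∘ ψ)^[j + 1] p = p := by rw [h4.eq_of_nhds, comp_apply, ψp, hp]
  rw [iterate_add]
  refine ⟨by rw [comp_apply, h6, h6], (L.comp M).comp (L.comp M),
    HasStrictFDerivAt.comp (f := (F.f ∘ ψ)^[j + 1]) p (by rwa [h6]) h5, fun v => ?_⟩
  simp only [ContinuousLinearMap.comp_apply, hA, hM', Prod.mk.injEq]
  exact ⟨by linear_combination (1 + τ) ^ 2 * (A v).1 * hε, by ring⟩

theorem hyp_min [T2Space S] (X : Sys S) {n : ℕ} (hn : 0 < n)
    (hf : {z | X.F.f^[n] z = z}.Finite) {p : ℂ} (hp : minimalPeriod X.F.f p = n) :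
    Hyp (fderiv ℝ X.F.f^[n] p) := by
  by_contra hh
  have pp : p ∈ periodicPts X.F.f := minimalPeriod_pos_iff_mem_periodicPts.1 (hp ▸ hn)
  have pf : X.F.f^[n] p = p := hp ▸ iterate_minimalPeriod
  have p1 : ‖p‖ < 1 := (X.F.Λ_norm (X.F.periodic_mem_Λ pp)).trans_lt X.F.r0_lt
  have pD : p ∈ Disc := mem_closedBall_zero_iff.2 p1.le
  obtain ⟨hL, d0, d1⟩ := strict_iter X.F n p1
  obtain ⟨A, ε, μ, hε, hμ, hA⟩ := neutral_form d0 (d1 hn) hh
  obtain ⟨r, r0, r1, hr⟩ : ∃ r > 0, ‖p‖ + r < 1 ∧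
      ∀ z ∈ closedBall p r, X.F.f^[n] z = z → z = p := by
    obtain ⟨δ, δ0, hδ⟩ := Metric.nhds_basis_closedBall.mem_iff.1
      ((hf.sdiff (t := {p})).isClosed.isOpen_compl.mem_nhds (x := p) fun h => h.2 rfl)
    refine ⟨min δ ((1 - ‖p‖) / 2), lt_min δ0 (by linarith), ?_, fun z hz h => ?_⟩
    · linarith [min_le_right δ ((1 - ‖p‖) / 2)]
    · by_contra h'
      exact hδ (closedBall_subset_closedBall (min_le_left _ _) hz) ⟨h, h'⟩
  have KD : closedBall p r ⊆ Disc :=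
    closedBall_subset_closedBall' (by rw [dist_zero_right]; linarith)
  have off : ∀ i, 0 < i → i < n → X.F.f^[i] p ∉ closedBall p r := fun i h0 hi h => by
    have h1 : IsPeriodicPt X.F.f i p := hr _ h (hyp2_fix pf i)
    have := h1.minimalPeriod_le h0
    omega
  obtain ⟨ψ, R, hψ, ψ1, ψ2⟩ := exists_shear p (A.symm (1, 0))
    ((ContinuousLinearMap.fst ℝ ℝ ℝ).comp (A : ℂ →L[ℝ] ℝ × ℝ)) r0 r1
  have ψ3 : ∀ t z, z ∉ closedBall p r → ψ (t, z) = z := fun t z hz =>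
    ψ1 t z fun h => hz (ball_subset_closedBall h)
  have ψ4 : ∀ τ : ℝ, ∀ z ∈ closedBall p (r / 2),
      ψ ((τ, 0), z) = z + (τ * (A (z - p)).1) • A.symm (1, 0) := fun τ z hz => by
    rw [ψ2 _ z hz, add_zero]
    rfl
  have ψ5 : ∀ τ : ℝ, ψ ((τ, 0), p) = p := fun τ => by
    rw [ψ4 τ p (mem_closedBall_self (half_pos r0).le)]
    simp
  have der := fun τ : ℝ => hyp2_der X.F (ψ := fun z => ψ ((τ, 0), z)) hn r0 hL pf A hε hA
    (ψ3 _) (ψ4 τ) off
  obtain ⟨δ, δ0, hδ⟩ := Metric.eventually_nhds_iff.1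
    ((Continuous.prodMk_left (0 : ℝ)).continuousAt (x := (0 : ℝ)) (X.fam _ ψ R hψ))
  have t0 : 0 < min δ 1 / 2 := half_pos (lt_min δ0 one_pos)
  have t1 : min δ 1 / 2 < δ := (half_lt_self (lt_min δ0 one_pos)).trans_le (min_le_left _ _)
  have t2 : min δ 1 / 2 < 1 := (half_lt_self (lt_min δ0 one_pos)).trans_le (min_le_right _ _)
  generalize min δ 1 / 2 = τ at t0 t1 t2
  obtain ⟨g, hg⟩ := hδ (y := τ) (by rwa [dist_zero_right, Real.norm_of_nonneg t0.le])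
  obtain ⟨g', hg'⟩ := hδ (y := -τ) (by rwa [dist_zero_right, norm_neg, Real.norm_of_nonneg t0.le])
  have ch : ∀ {τ : ℝ} {g : S ≃ₜ S}, Pert X.σ X.f (fun z => ψ ((τ, 0), z)) g →
      (Stab g^[n + n] (X.σ p) ↔ Stab (X.F.f ∘ fun z => ψ ((τ, 0), z))^[n + n] p) := fun h =>
    stab_chart X.emb (fun z hz => h.iter hz _)
      (MapsTo.iterate (fun z _ => X.F.f_mem_Disc _) _) p1
  have ns : ¬ Stab g^[n + n] (X.σ p) := by
    obtain ⟨h1, L', h2, h3⟩ := der τ
    obtain ⟨D, -⟩ := exists_sd h2 h1 A (by nlinarith) (mul_self_nonneg μ) hμ h3 univ univ_mem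
    exact fun h => D.not_stab ((ch hg).1 h)
  have st : Stab g'^[n + n] (X.σ p) := by
    obtain ⟨h1, L', h2, h3⟩ := der (-τ)
    obtain ⟨T⟩ := exists_snk_diag h2 h1 A (by rw [abs_of_nonneg (sq_nonneg _)]; nlinarith)
      (by rwa [abs_of_nonneg (mul_self_nonneg μ)]) h3
    exact (ch hg').2 T.stab
  have fin := X.fin hn hf
  have ag := fun {x} (hx : X.f^[n] x = x) => hyp2_agree hg KD (ψ3 _) (ψ5 _) pD hr hx
  have ag' := fun {x} (hx : X.f^[n] x = x) => hyp2_agree hg' KD (ψ3 _) (ψ5 _) pD hr hx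
  have σp : X.f^[n] (X.σ p) = X.σ p := by rw [X.iter pD, pf]
  refine ns ((hg.conj.symm.trans hg'.conj).stab_eq (hg.conj.fin fin) (fun x hx hs => ?_) _
    ((ag' σp n).trans σp) st)
  have hx' := hg.conj.fix_eq fin (fun y hy => (ag hy n).trans hy) x hx
  refine ⟨(ag' hx' n).trans hx', ?_⟩
  by_cases ho : ∀ j < n + n, X.f^[j] x ∉ X.σ '' closedBall p r
  · exact (hs.germ (hg.germ (isCompact_closedBall p r) (ψ3 _) ho)).germ
      (hg'.germ (isCompact_closedBall p r) (ψ3 _) ho).symm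
  · simp only [not_forall, not_not] at ho
    obtain ⟨j, -, hj⟩ := ho
    have h1 := hyp2_stab hs j
    rw [ag hx', hyp2_only X KD hr (hyp2_fix hx' j) hj] at h1
    exact absurd h1 ns

end Pool.Agent.Lib.MP_6d0683_an
end

-- part Pool.Agent.Lib.MP_6d0683_an.Hyp1
section

/-!
Finitely many points of a given period, by the theorem of Sard.
-/

set_option autoImplicit false

open Set Metric Filter Topology Function

namespace Pool.Agent.Lib.MP_6d0683_an

open MP_3fe454_an.PD MP_3fe454_an.S2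

variable {S : Type} [TopologicalSpace S]

theorem hyp1_ind {P ι : Type} [TopologicalSpace P] [Fintype ι] {N : Set P} (hN : IsOpen N)
    (ne : N.Nonempty) {A : ι → Set P} (hA : ∀ i, IsOpen (A i))
    (h : ∀ i, ∀ v ∈ N, ∃ᶠ v' in 𝓝 v, v' ∈ A i) : ∃ v ∈ N, ∀ i, v ∈ A i := by
  classical
  have k : ∀ s : Finset ι, (N ∩ ⋂ i ∈ s, A i).Nonempty := fun s => by
    induction s using Finset.induction_on with
    | empty => simpa using ne
    | insert i s _ ih =>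
      obtain ⟨v, hv⟩ := ih
      obtain ⟨v', a, b⟩ := ((h i v hv.1).and_eventually
        ((hN.inter (isOpen_biInter_finset fun j _ => hA j)).mem_nhds hv)).exists
      exact ⟨v', b.1, by rw [Finset.set_biInter_insert]; exact ⟨a, b.2⟩⟩
  obtain ⟨v, a, b⟩ := k Finset.univ
  exact ⟨v, a, fun i => mem_iInter₂.1 b i (Finset.mem_univ i)⟩

theorem hyp1_norm (F : Dis) {φ : ℂ → ℂ} {n : ℕ} (hn : 0 < n) {z : ℂ} (h : (F.f ∘ φ)^[n] z = z) :
    ‖z‖ ≤ F.r0 := by
  obtain ⟨k, rfl⟩ := Nat.exists_eq_succ_of_ne_zero hn.ne'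
  rw [← h, iterate_succ_apply']
  exact F.maps _

theorem hyp1_radii (F : Dis) (n : ℕ) {p : ℂ} (hp : ‖p‖ < 1)
    (h : ∀ j, 1 ≤ j → j < n → F.f^[j] p ≠ p) : ∃ r r' : ℝ, 0 < r ∧ 0 < r' ∧ r' < r / 2 ∧
      ‖p‖ + r < 1 ∧ ∀ z ∈ closedBall p r', ∀ j, 1 ≤ j → j < n → F.f^[j] z ∉ closedBall p r := by
  have h1 : ∀ᶠ r in 𝓝 (0 : ℝ), ∀ j ∈ Finset.Ico 1 n, r < dist (F.f^[j] p) p :=
    (eventually_all_finset _).2 fun j hj => eventually_lt_nhds
      (dist_pos.2 (h j (Finset.mem_Ico.1 hj).1 (Finset.mem_Ico.1 hj).2))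
  obtain ⟨r, ⟨a, b⟩, r0⟩ := (((h1.and (eventually_lt_nhds (sub_pos.2 hp))).filter_mono
    (nhdsWithin_le_nhds (s := Ioi 0))).and self_mem_nhdsWithin).exists
  have h2 : ∀ᶠ z in 𝓝 p, ∀ j ∈ Finset.Ico 1 n, r < dist (F.f^[j] z) p :=
    (eventually_all_finset _).2 fun j hj =>
      ((F.cf.iterate j).dist continuous_const).continuousAt.eventually (eventually_gt_nhds (a j hj))
  obtain ⟨ε, ε0, hε⟩ := nhds_basis_closedBall.eventually_iff.1 h2
  have r1 : (0 : ℝ) < r := r0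
  exact ⟨r, min ε (r / 4), r1, by positivity, (min_le_right _ _).trans_lt (by linarith),
    by linarith, fun z hz j a b => (hε (closedBall_subset_closedBall (min_le_left _ _) hz) j
      (Finset.mem_Ico.2 ⟨a, b⟩)).not_ge⟩

/-- one local translation removes the degenerate fixed points in a small disc -/
theorem sard_slice (F : Dis) {m : ℕ} {ψ : (Fin m → ℂ) × ℂ → ℂ} {R : ℝ} (hψ : Fam ψ R)
    {c : ℂ} {r r' : ℝ} (hr : r' < r / 2) {i : Fin m}
    (h1 : ∀ v w z, z ∉ ball c r → ψ (v + Pi.single i w, z) = ψ (v, z))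
    (h2 : ∀ v w z, z ∈ closedBall c (r / 2) → ψ (v + Pi.single i w, z) = ψ (v, z) + w)
    {n : ℕ} (hn : 0 < n) {N : Set (Fin m → ℂ)} (hN : IsOpen N)
    (hm : ∀ v ∈ N, MapsTo (fun z => ψ (v, z)) (ball 0 1) (ball 0 1))
    (ha : ∀ v ∈ N, ∀ z ∈ closedBall c r', ∀ j, 1 ≤ j → j < n →
      (F.f ∘ fun z => ψ (v, z))^[j] z ∉ closedBall c r) {v : Fin m → ℂ} (hv : v ∈ N) :
    ∃ᶠ v' in 𝓝 v, ∀ z ∈ closedBall c r', (F.f ∘ fun z => ψ (v', z))^[n] z = z →
      ∀ L : ℂ →L[ℝ] ℂ, HasFDerivAt (F.f ∘ fun z => ψ (v', z))^[n] L z → (L - 1).det ≠ 0 := by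
  obtain ⟨k, rfl⟩ := Nat.exists_eq_succ_of_ne_zero hn.ne'
  obtain ⟨E, -, hE⟩ := hψ.der F k
  let φ : ℂ → ℂ := (F.f ∘ fun z => ψ (v, z))^[k] ∘ F.f
  let A : ℂ → ℂ →L[ℝ] ℂ := fderiv ℝ fun z => ψ (v, z)
  let B : ℂ → ℂ →L[ℝ] ℂ := fun y => (E (v, F.f y)).comp (F.D y)
  have hA : ∀ z, HasFDerivAt (fun z => ψ (v, z)) (A z) z := fun z =>
    ((((hψ.smooth 1).differentiable (by simp)).comp
      ((differentiable_const v).prodMk differentiable_id)) z).hasFDerivAt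
  have hB : ∀ y, ‖y‖ < 1 → HasFDerivAt φ (B y) y := fun y hy =>
    (hE v (hm v hv) _ ((F.maps y).trans_lt F.r0_lt)).comp y (lin_strict F hy).hasFDerivAt
  have h3 := MeasureTheory.addHaar_image_eq_zero_of_det_fderivWithin_eq_zero MeasureTheory.volume
    (f := fun y => ψ (v, φ y) - y) (f' := fun y => (A (φ y)).comp (B y) - 1)
    (s := {y | ‖y‖ < 1 ∧ ((A (φ y)).comp (B y) - 1).det = 0})
    (fun y hy => (((hA _).comp y (hB y hy.1)).sub (hasFDerivAt_id y)).hasFDerivWithinAt)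
    fun y hy => hy.2
  have h4 := mem_closure_iff_frequently.1
    (MeasureTheory.Measure.dense_of_ae (MeasureTheory.measure_eq_zero_iff_ae_notMem.1 h3) 0)
  have h5 : Tendsto (fun w : ℂ => v + Pi.single i (-w)) (𝓝 0) (𝓝 v) :=
    (continuous_const.add ((continuous_single i).comp continuous_neg)).tendsto' 0 v (by simp)
  refine h5.frequently ((h4.and_eventually (h5.eventually (hN.mem_nhds hv))).mono
    fun w ⟨hw, hv'⟩ z hz e L hL => (det_sub_one L).2 fun u hu => ?_)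
  have hb : closedBall c (r / 2) ∈ 𝓝 z := closedBall_mem_nhds_of_mem (hz.trans_lt hr)
  have h6 : ∀ᶠ z' in 𝓝 z, ∀ j ∈ Finset.Ico 1 (k + 1),
      (F.f ∘ fun z => ψ (v + Pi.single i (-w), z))^[j] z' ∉ closedBall c r :=
    (eventually_all_finset _).2 fun j hj =>
      ((hψ.cont F j).comp (Continuous.prodMk_right _)).continuousAt.eventually
        (isClosed_closedBall.isOpen_compl.mem_nhds
          (ha _ hv' z hz j (Finset.mem_Ico.1 hj).1 (Finset.mem_Ico.1 hj).2))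
  have h7 : (F.f ∘ fun z => ψ (v + Pi.single i (-w), z))^[k + 1] =ᶠ[𝓝 z]
      φ ∘ fun z => ψ (v, z) + -w := by
    filter_upwards [hb, h6] with z' a b
    have : ∀ j ≤ k, (F.f ∘ fun z => ψ (v + Pi.single i (-w), z))^[j + 1] z' =
        (F.f ∘ fun z => ψ (v, z))^[j] (F.f (ψ (v, z') + -w)) := fun j => by
      induction j with
      | zero => exact fun _ => congrArg F.f (h2 v _ z' a)
      | succ j ih =>
        intro hj
        rw [iterate_succ_apply' _ j, ← ih (by omega), iterate_succ_apply' _ (j + 1)]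
        exact congrArg F.f (h1 v _ _ fun k =>
          b (j + 1) (Finset.mem_Ico.2 ⟨by omega, by omega⟩) (ball_subset_closedBall k))
    exact this k le_rfl
  have hy : ‖ψ (v, z) + -w‖ < 1 := by
    rw [← h2 v _ z (mem_of_mem_nhds hb)]
    exact mem_ball_zero_iff.1 (hm _ hv'
      (mem_ball_zero_iff.2 ((hyp1_norm F k.succ_pos e).trans_lt F.r0_lt)))
  have h8 : φ (ψ (v, z) + -w) = z := h7.eq_of_nhds.symm.trans e
  have h9 : L = (B (ψ (v, z) + -w)).comp (A z) := hL.unique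
    ((HasFDerivAt.comp z (f := fun z => ψ (v, z) + -w) (hB _ hy)
      ((hA z).add_const _)).congr_of_eventuallyEq h7)
  have h10 := (det_sub_one _).1 fun e => hw ⟨_, ⟨hy, e⟩, by simp only [h8]; ring⟩
  rw [h9, ContinuousLinearMap.comp_apply] at hu
  rw [← hu, h10 (A z u) (by rw [ContinuousLinearMap.comp_apply, hu, h8]), map_zero]

theorem fin_fix (X : Sys S) {n : ℕ} (hn : 0 < n)
    (h : ∀ z, X.F.f^[n] z = z → minimalPeriod X.F.f z < n →
      ∀ v, fderiv ℝ X.F.f^[n] z v = v → v = 0) : {z | X.F.f^[n] z = z}.Finite := by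
  have cl : ∀ {P : Type} [NormedAddCommGroup P] [NormedSpace ℝ P] {ψ : P × ℂ → ℂ} {R : ℝ},
      Fam ψ R → ∀ E : P × ℂ → ℂ →L[ℝ] ℂ, Continuous E → IsClosed {p : P × ℂ |
        (X.F.f ∘ fun z => ψ (p.1, z))^[n] p.2 = p.2 ∧ (E p - 1).det = 0} := fun hψ E hE =>
    (isClosed_eq (hψ.cont X.F n) continuous_snd).inter
      (isClosed_eq (ContinuousLinearMap.continuous_det.comp (hE.sub continuous_const))
        continuous_const)
  have f0 : Fam (Prod.snd : ℝ × ℂ → ℂ) 0 :=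
    ⟨fun _ => contDiff_snd, fun _ => rfl, zero_lt_one, fun _ _ _ => rfl⟩
  obtain ⟨E0, c0, hE0⟩ := f0.der X.F n
  replace hE0 : ∀ z, ‖z‖ < 1 → HasFDerivAt X.F.f^[n] (E0 (0, z)) z := hE0 0 (mapsTo_id _)
  have lt : ∀ z ∈ closedBall (0 : ℂ) X.F.r0, ‖z‖ < 1 := fun z hz =>
    (mem_closedBall_zero_iff.1 hz).trans_lt X.F.r0_lt
  let Q := closedBall (0 : ℂ) X.F.r0 ∩ {z | X.F.f^[n] z = z ∧ (E0 (0, z) - 1).det = 0}
  have hQ : IsCompact Q := (isCompact_closedBall _ _).inter_right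
    ((cl f0 E0 c0).preimage (Continuous.prodMk_right 0))
  have h1 : ∀ p ∈ Q, ∀ j, 1 ≤ j → j < n → X.F.f^[j] p ≠ p := fun p hp j a b e =>
    (det_sub_one _).2 ((hE0 p (lt p hp.1)).fderiv ▸ h p hp.2.1
      ((IsPeriodicPt.minimalPeriod_le a e).trans_lt b)) hp.2.2
  choose! r r' r0 r1 r2 r3 r4 using fun p hp => hyp1_radii X.F n (lt p (And.left hp)) (h1 p hp)
  obtain ⟨t, t1, t2⟩ := hQ.elim_nhds_subcover (fun p => ball p (r' p))
    fun p hp => ball_mem_nhds p (r1 p hp)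
  let c : Fin t.card → ℂ := fun i => (t.equivFin.symm i).1
  have hc : ∀ i, c i ∈ Q := fun i => t1 _ (t.equivFin.symm i).2
  obtain ⟨ψ, R, hψ, -, b1, b2⟩ := exists_bump c (fun i => r (c i)) (fun i => r0 _ (hc i))
    fun i => r3 _ (hc i)
  obtain ⟨E, cE, hE⟩ := hψ.der X.F n
  have z0 : (X.F.f ∘ fun z => ψ (0, z)) = X.F.f := funext fun z => congrArg X.F.f (hψ.zero z)
  have e1 := X.fam _ ψ R hψ
  have e2 : ∀ᶠ v in 𝓝 (0 : Fin t.card → ℂ), ∀ i, ∀ j ∈ Finset.Ico 1 n,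
      ∀ z ∈ closedBall (c i) (r' (c i)),
        (X.F.f ∘ fun z => ψ (v, z))^[j] z ∉ closedBall (c i) (r (c i)) :=
    eventually_all.2 fun i => (eventually_all_finset _).2 fun j hj =>
      (isCompact_closedBall _ _).eventually_forall_of_forall_eventually fun z hz =>
        (hψ.cont X.F j).continuousAt.eventually (isClosed_closedBall.isOpen_compl.mem_nhds (by
          dsimp only
          rw [z0]
          exact r4 _ (hc i) z hz j (Finset.mem_Ico.1 hj).1 (Finset.mem_Ico.1 hj).2))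
  have e3 : ∀ᶠ v in 𝓝 (0 : Fin t.card → ℂ),
      ∀ z ∈ closedBall (0 : ℂ) X.F.r0 \ ⋃ p ∈ t, ball p (r' p),
        ¬ ((X.F.f ∘ fun z => ψ (v, z))^[n] z = z ∧ (E (v, z) - 1).det = 0) :=
    ((isCompact_closedBall _ _).diff (isOpen_biUnion fun _ _ => isOpen_ball)
      ).eventually_forall_of_forall_eventually fun z hz =>
        (cl hψ E cE).isOpen_compl.mem_nhds fun k => by
          have k1 := hE 0 (fun z hz => by simpa only [hψ.zero] using hz) z (lt z hz.1)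
          have k2 := k.1
          rw [z0] at k1 k2
          exact hz.2 (t2 ⟨hz.1, k2, k1.unique (hE0 z (lt z hz.1)) ▸ k.2⟩)
  obtain ⟨N, n1, n2, n3⟩ := _root_.eventually_nhds_iff.1 (e1.and (e2.and e3))
  have hm : ∀ v ∈ N, MapsTo (fun z => ψ (v, z)) (ball 0 1) (ball 0 1) := fun v hv =>
    (n1 v hv).1.elim fun _ k => k.maps
  obtain ⟨v, hv, k⟩ := hyp1_ind n2 ⟨0, n3⟩ (A := fun i => {v | ∀ z ∈ closedBall (c i) (r' (c i)),
      ¬ ((X.F.f ∘ fun z => ψ (v, z))^[n] z = z ∧ (E (v, z) - 1).det = 0)})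
    (fun i => isOpen_iff_mem_nhds.2 fun v hv =>
      (isCompact_closedBall _ _).eventually_forall_of_forall_eventually fun z hz =>
        (cl hψ E cE).isOpen_compl.mem_nhds (hv z hz))
    fun i v hv => ((sard_slice X.F hψ (r2 _ (hc i)) (fun v => b1 v i) (fun v => b2 v i) hn n2 hm
      (fun v hv z hz j a b => (n1 v hv).2.1 i j (Finset.mem_Ico.2 ⟨a, b⟩) z hz) hv).and_eventually
        (n2.mem_nhds hv)).mono fun v' ⟨a, b⟩ z hz k => a z hz k.1 _
          (hE v' (hm v' b) z ((hyp1_norm X.F hn k.1).trans_lt X.F.r0_lt)) k.2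
  obtain ⟨⟨g, hg⟩, -, k'⟩ := n1 v hv
  refine hg.fin hn ((nondeg_fin ((hψ.cont X.F n).comp (Continuous.prodMk_right v))
    (isCompact_closedBall 0 X.F.r0) fun z hz e => ⟨_, hE v hg.maps z (lt z hz),
      (det_sub_one _).1 fun d => k' z ⟨hz, fun a => ?_⟩ ⟨e, d⟩⟩).subset
        fun z hz => ⟨mem_closedBall_zero_iff.2 (hyp1_norm X.F hn hz), hz⟩)
  obtain ⟨p, hp, a⟩ := mem_iUnion₂.1 a
  refine k (t.equivFin ⟨p, hp⟩) z ?_ ⟨e, d⟩
  simp only [c, Equiv.symm_apply_apply]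
  exact ball_subset_closedBall a

end Pool.Agent.Lib.MP_6d0683_an
end

-- part Pool.Agent.Lib.MP_6d0683_an.Orb1
section

/-!
Limits of orbits and solutions of the derivative cocycle.
-/

set_option autoImplicit false

open Set Metric Filter Topology Function

namespace Pool.Agent.Lib.MP_6d0683_an

open MP_3fe454_an.PD MP_3fe454_an.S2

variable {F : Dis} {M : ℕ}

theorem conv_of_fin {K P : Set ℂ} (hK : IsCompact K) (hP : P.Finite) {T : ℂ → ℂ}
    (hT : Continuous T) (hf : ∀ c ∈ P, T c = c) {y : ℕ → ℂ} (hy : ∀ n, y n ∈ K)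
    (hs : (∀ n, y (n + 1) = T (y n)) ∨ ∀ n, y n = T (y (n + 1)))
    (hc : ∀ c, MapClusterPt c atTop y → c ∈ P) : ∃ c ∈ P, Tendsto y atTop (𝓝 c) := by
  obtain ⟨U, hU, hd⟩ := hP.t2_separation
  have eq : ∀ c ∈ P, ∀ c' ∈ P, ∀ w, w ∈ U c → w ∈ U c' → c = c' := fun c h c' h' w h1 h2 =>
    hd.elim_set h h' w h1 h2
  have hO : (⋃ c ∈ P, U c ∩ T ⁻¹' U c) ∈ 𝓝ˢ P :=
    (isOpen_biUnion fun c _ => (hU c).2.inter ((hU c).2.preimage hT)).mem_nhdsSet.2
      fun c h => mem_biUnion h ⟨(hU c).1, by rw [mem_preimage, hf c h]; exact (hU c).1⟩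
  obtain ⟨N, hN⟩ := eventually_atTop.1 ((hK.tendsto_nhdsSet_of_mapClusterPt
    (Eventually.of_forall hy) fun c _ h => hc c h).eventually hO)
  obtain ⟨c, hcP, h0⟩ := mem_iUnion₂.1 (hN N le_rfl)
  have key : ∀ n, N ≤ n → y n ∈ U c ∩ T ⁻¹' U c := by
    intro n hn
    induction n, hn using Nat.le_induction with
    | base => exact h0
    | succ n hn ih =>
      obtain ⟨c', hc', h1⟩ := mem_iUnion₂.1 (hN (n + 1) (by omega))
      have : c = c' := by
        rcases hs with hs | hs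
        · exact eq c hcP c' hc' _ (hs n ▸ ih.2) h1.1
        · exact eq c hcP c' hc' _ ih.1 (hs n ▸ h1.2)
      exact this ▸ h1
  refine ⟨c, hcP, hK.tendsto_nhds_of_unique_mapClusterPt (Eventually.of_forall hy) fun x _ h => ?_⟩
  obtain ⟨n, h1, h2⟩ := ((h.frequently ((hU x).2.mem_nhds (hU x).1)).and_eventually
    (eventually_ge_atTop N)).exists
  exact eq x (hc x h) c hcP _ h1 (key n h2).1

theorem orb_mem {o : ℤ → ℂ} (hm : ∀ n, o n ∈ Disc) (ho : ∀ n, o (n + 1) = F.f (o n)) (n : ℤ) :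
    o n ∈ F.Λ := by
  have key : ∀ (k : ℕ) (t : ℤ), F.f^[k] (o t) = o (t + k) := by
    intro k t
    induction k with
    | zero => simp
    | succ k ih => rw [iterate_succ_apply', ih, ← ho, Nat.cast_succ, add_assoc]
  exact mem_iInter.2 fun k => ⟨o (n - k), hm _, by rw [key, sub_add_cancel]⟩

theorem orb1_ch {o : ℤ → ℂ} (ho : Orb F o) {ε : ℝ} (hε : 0 < ε) {i j : ℤ} (hij : i + 2 ≤ j)
    {c c' : ℂ} (h1 : ‖F.f c - F.f (o i)‖ < ε) (h2 : ‖o j - c'‖ < ε) : Ch F.f ε c c' := by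
  have key : ∀ k : ℕ, Ch F.f ε c (o (i + 1 + k)) := by
    intro k
    induction k with
    | zero =>
      refine Relation.TransGen.single ?_
      rwa [Nat.cast_zero, add_zero, (ho i).2]
    | succ k ih =>
      refine Relation.TransGen.tail ih ?_
      rwa [Nat.cast_succ, ← add_assoc, (ho _).2, sub_self, norm_zero]
  refine Relation.TransGen.tail (key (j - i - 2).toNat) ?_
  rwa [← (ho _).2, show i + 1 + ((j - i - 2).toNat : ℤ) + 1 = j by omega]

theorem orb1_clu (hG : Good F M) {o : ℤ → ℂ} (ho : Orb F o) {t : ℕ → ℤ}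
    (ht : ∀ n m, n + 2 ≤ m → t n + 2 ≤ t m ∨ t m + 2 ≤ t n) {c : ℂ}
    (h : MapClusterPt c atTop fun n => o (t n)) : c ∈ periodicPts F.f := by
  refine hG.cr c fun ε hε => ?_
  have h1 : ∀ᶠ w in 𝓝 c, ‖F.f c - F.f w‖ < ε ∧ ‖w - c‖ < ε := by
    refine Eventually.and ?_ ?_
    · exact ((continuous_const.sub F.cf).norm.tendsto c).eventually_lt_const (by simpa using hε)
    · exact ((continuous_id.sub continuous_const).norm.tendsto c).eventually_lt_const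
        (by simpa using hε)
  have h2 := h.frequently h1
  obtain ⟨n, hn⟩ := h2.exists
  obtain ⟨m, hm, hnm⟩ := (h2.and_eventually (eventually_ge_atTop (n + 2))).exists
  rcases ht n m hnm with h3 | h3
  · exact orb1_ch ho hε h3 hn.1 hm.2
  · exact orb1_ch ho hε h3 hm.1 hn.2

theorem orb_lim (hG : Good F M) {o : ℤ → ℂ} (ho : Orb F o) :
    ∃ p ∈ periodicPts F.f, ∃ q ∈ periodicPts F.f,
      Tendsto (fun n : ℤ => o (M * n)) atBot (𝓝 p) ∧
      Tendsto (fun n : ℤ => o (M * n)) atTop (𝓝 q) ∧ (p = q → ∀ n : ℤ, o (M * n) = p) := by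
  have hM : (1 : ℤ) ≤ M := by exact_mod_cast hG.pos
  obtain ⟨q, hq, h1⟩ := conv_of_fin (y := fun n : ℕ => o (M * n)) F.Λ_compact hG.fin
    (F.cf.iterate M) hG.fix (fun n => (ho _).1)
    (Or.inl fun n => by rw [← ho.add, Nat.cast_succ, mul_add, mul_one])
    fun c hc => orb1_clu hG ho (fun n m h => Or.inl (by
      have : (n : ℤ) + 2 ≤ m := by exact_mod_cast h
      nlinarith)) hc
  obtain ⟨p, hp, h2⟩ := conv_of_fin (y := fun n : ℕ => o (M * -n)) F.Λ_compact hG.fin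
    (F.cf.iterate M) hG.fix (fun n => (ho _).1)
    (Or.inr fun n => by rw [← ho.add]; congr 1; push_cast; ring)
    fun c hc => orb1_clu hG ho (fun n m h => Or.inr (by
      have : (n : ℤ) + 2 ≤ m := by exact_mod_cast h
      nlinarith)) hc
  have h3 : Tendsto (fun n : ℤ => o (M * n)) atTop (𝓝 q) := by
    rw [← Nat.map_cast_int_atTop, tendsto_map'_iff]
    exact h1
  have h4 : Tendsto (fun n : ℤ => o (M * n)) atBot (𝓝 p) := by
    rw [← tendsto_comp_neg_atTop_iff, ← Nat.map_cast_int_atTop, tendsto_map'_iff]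
    exact h2
  refine ⟨p, hp, q, hq, h4, h3, fun e n => ?_⟩
  subst e
  have h5 : o (M * n) ∈ periodicPts F.f := by
    refine hG.cr _ fun ε hε => ?_
    obtain ⟨a, ha, ha'⟩ := ((h4.eventually (ball_mem_nhds p (half_pos hε))).and
      (eventually_le_atBot (n - 2))).exists
    obtain ⟨b, hb, hb'⟩ := ((h3.eventually (ball_mem_nhds p (half_pos hε))).and
      (eventually_ge_atTop (n + 2))).exists
    have h6 : ‖o (M * b) - o (M * a)‖ < ε := by
      rw [← dist_eq_norm]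
      exact (dist_triangle_right _ _ p).trans_lt (by
        have := mem_ball.1 ha
        have := mem_ball.1 hb
        linarith)
    exact Relation.TransGen.trans
      (orb1_ch ho hε (i := M * n) (j := M * b) (by nlinarith) (by simpa using hε) h6)
      (orb1_ch ho hε (i := M * a) (j := M * n) (by nlinarith) (by simpa using hε)
        (by simpa using hε))
  refine tendsto_nhds_unique (tendsto_const_nhds.congr' ?_) h3
  filter_upwards [eventually_ge_atTop n] with m hm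
  obtain ⟨k, rfl⟩ : ∃ k : ℕ, m = n + k := ⟨(m - n).toNat, by omega⟩
  rw [mul_add, ← Nat.cast_mul, ho.add]
  exact (IsPeriodicPt.mul_const (hG.fix _ h5) k).symm

theorem sol_exists {o : ℤ → ℂ} (hm : ∀ n, ‖o n‖ < 1) (n0 : ℤ) (v : ℂ) :
    ∃ a, Sol F.f^[M] o a ∧ a n0 = v := by
  choose L hL using fun n => fderiv_equiv F M (hm n)
  refine ⟨fun n => Int.inductionOn' (motive := fun _ => ℂ) n n0 v (fun k _ w => L k w)
    fun k _ w => (L (k - 1)).symm w, fun n => ?_, Int.inductionOn'_self⟩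
  rw [← hL]
  rcases le_or_gt n0 n with h | h
  · exact Int.inductionOn'_add_one h
  · have h1 := Int.inductionOn'_sub_one (motive := fun _ => ℂ) (z := n + 1) (b := n0) (zero := v)
      (succ := fun k _ w => L k w) (pred := fun k _ w => (L (k - 1)).symm w) h
    simp only [add_sub_cancel_right] at h1
    simp only [h1, ContinuousLinearEquiv.coe_coe, ContinuousLinearEquiv.apply_symm_apply]

theorem Sol.add {T : ℂ → ℂ} {o a b : ℤ → ℂ} (ha : Sol T o a) (hb : Sol T o b) :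
    Sol T o (a + b) := by
  intro n
  simp only [Pi.add_apply, map_add, ha n, hb n]

theorem Sol.smul {T : ℂ → ℂ} {o a : ℤ → ℂ} (ha : Sol T o a) (t : ℝ) : Sol T o (t • a) := by
  intro n
  simp only [Pi.smul_apply, map_smul, ha n]

theorem Sol.zero {o a : ℤ → ℂ} (hm : ∀ n, ‖o n‖ < 1) (ha : Sol F.f^[M] o a) {n0 : ℤ}
    (h : a n0 = 0) (n : ℤ) : a n = 0 := by
  refine Int.inductionOn' n n0 h (fun k _ hk => by rw [ha k, hk, map_zero]) fun k _ hk => ?_
  obtain ⟨L, hL⟩ := fderiv_equiv F M (hm (k - 1))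
  have h1 := ha (k - 1)
  rw [sub_add_cancel, hk, ← hL] at h1
  exact L.injective (h1.symm.trans (map_zero L).symm)

theorem Sol.ext {o a b : ℤ → ℂ} (hm : ∀ n, ‖o n‖ < 1) (ha : Sol F.f^[M] o a)
    (hb : Sol F.f^[M] o b) {n0 : ℤ} (h : a n0 = b n0) : a = b := by
  funext n
  have := (ha.add (hb.smul (-1))).zero hm (n0 := n0) (by simp [h]) n
  simpa [add_neg_eq_zero] using this

theorem orb1_add {o a : ℤ → ℂ} (ho : Orb F o) (ha : Sol F.f o a) (n : ℤ) (j : ℕ) :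
    a (n + j) = fderiv ℝ F.f^[j] (o n) (a n) := by
  have h1 : ∀ t, ‖o t‖ < 1 := fun t => (F.Λ_norm (ho t).1).trans_lt F.r0_lt
  induction j with
  | zero => simp
  | succ j ih =>
    rw [Nat.cast_succ, ← add_assoc, ha, ih, iterate_succ', fderiv_comp _ (by
      rw [← ho.add]
      exact (lin_strict F (h1 _)).hasFDerivAt.differentiableAt)
      (strict_iter F j (h1 n)).1.hasFDerivAt.differentiableAt, ho.add]
    rfl

theorem orb1_bound {o a : ℤ → ℂ} (ho : Orb F o) (ha : Sol F.f o a) (hM : 0 < M) (n : ℤ) :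
    ‖a n‖ ≤ F.M ^ M * ‖a (M * (n / M))‖ := by
  have h0 : 0 ≤ F.M := zero_le_one.trans F.one_le_M
  have key : ∀ (t : ℤ) (j : ℕ), ‖a (t + j)‖ ≤ F.M ^ j * ‖a t‖ := by
    intro t j
    induction j with
    | zero => simp
    | succ j ih =>
      rw [Nat.cast_succ, ← add_assoc, ha,
        (lin_strict F ((F.Λ_norm (ho _).1).trans_lt F.r0_lt)).hasFDerivAt.fderiv, pow_succ',
        mul_assoc]
      exact (ContinuousLinearMap.le_opNorm _ _).trans
        (mul_le_mul (F.up _ (F.Λ_sub_Disc (ho _).1)) ih (norm_nonneg _) h0)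
  have hM' : (0 : ℤ) < M := by exact_mod_cast hM
  have h1 := Int.emod_nonneg n hM'.ne'
  have h2 := Int.emod_lt_of_pos n hM'
  have h3 := key (M * (n / M)) (n % M).toNat
  rw [Int.toNat_of_nonneg h1, Int.mul_ediv_add_emod] at h3
  exact h3.trans (mul_le_mul_of_nonneg_right (pow_le_pow_right₀ F.one_le_M (by omega))
    (norm_nonneg _))

theorem Sol.pow {o a : ℤ → ℂ} (ho : Orb F o) (ha : Sol F.f o a) (M : ℕ) :
    Sol F.f^[M] (fun n => o (M * n)) fun n => a (M * n) := by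
  intro n
  simp only [mul_add, mul_one]
  exact orb1_add ho ha _ M

theorem Sol.top {o a : ℤ → ℂ} (ho : Orb F o) (ha : Sol F.f o a) (hM : 0 < M)
    (h : Tendsto (fun n : ℤ => a (M * n)) atTop (𝓝 0)) : Tendsto a atTop (𝓝 0) := by
  have hM' : (0 : ℤ) < M := by exact_mod_cast hM
  have h1 : Tendsto (fun n : ℤ => n / M) atTop atTop :=
    tendsto_atTop_atTop.2 fun b => ⟨b * M, fun n hn => (Int.le_ediv_iff_mul_le hM').2 hn⟩
  refine squeeze_zero_norm (orb1_bound ho ha hM) ?_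
  simpa using (h.comp h1).norm.const_mul (F.M ^ M)

theorem Sol.bot {o a : ℤ → ℂ} (ho : Orb F o) (ha : Sol F.f o a) (hM : 0 < M)
    (h : Tendsto (fun n : ℤ => a (M * n)) atBot (𝓝 0)) : Tendsto a atBot (𝓝 0) := by
  have hM' : (0 : ℤ) < M := by exact_mod_cast hM
  have h1 : Tendsto (fun n : ℤ => n / M) atBot atBot :=
    tendsto_atBot_atBot.2 fun b => ⟨b * M, fun n hn => Int.ediv_le_of_le_mul hM' hn⟩
  refine squeeze_zero_norm (orb1_bound ho ha hM) ?_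
  simpa using (h.comp h1).norm.const_mul (F.M ^ M)

/-- the same tangency seen from another point of the orbit -/
def Tang.shift (τ : Tang F M) (m : ℤ) : Tang F M where
  p := τ.p
  q := τ.q
  o := fun n => τ.o (n + m)
  a := fun n => τ.a (n + m)
  ne := τ.ne
  p_per := τ.p_per
  q_per := τ.q_per
  p_sd := τ.p_sd
  q_sd := τ.q_sd
  mem := fun n => τ.mem _
  orb := fun n => by rw [← τ.orb, add_right_comm]
  top := τ.top.comp (tendsto_atTop_add_const_right _ m tendsto_id)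
  bot := τ.bot.comp (tendsto_atBot_add_const_right _ m tendsto_id)
  sol := fun n => by
    show τ.a (n + 1 + m) = _
    rw [add_right_comm]
    exact τ.sol _
  a_ne := fun h => τ.a_ne (τ.sol.zero (fun n => (F.Λ_norm (τ.mem n)).trans_lt F.r0_lt) h 0)
  a_top := τ.a_top.comp (tendsto_atTop_add_const_right _ m tendsto_id)
  a_bot := τ.a_bot.comp (tendsto_atBot_add_const_right _ m tendsto_id)

theorem Tang.fwd (τ : Tang F M) (n : ℕ) : (F.f^[M])^[n] (τ.o 0) = τ.o n := by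
  induction n with
  | zero => rfl
  | succ n ih => rw [iterate_succ_apply', ih, ← τ.orb, Nat.cast_succ]

theorem Tang.bwd (τ : Tang F M) (n : ℕ) : F.g^[M * n] (τ.o 0) = τ.o (-n) := by
  have h : (F.f^[M])^[n] (τ.o (0 + -n)) = τ.o (n + -n) := (τ.shift (-n)).fwd n
  rw [zero_add, add_neg_cancel, ← iterate_mul] at h
  rw [← h, F.iter_g_f (F.Λ_sub_Disc (τ.mem _))]

theorem Tang.not_per (τ : Tang F M) (hG : Good F M) : τ.o 0 ∉ periodicPts F.f := by
  intro h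
  have h1 := hG.fix _ h
  have h2 : τ.o 0 = τ.q := by
    refine tendsto_nhds_unique (tendsto_const_nhds.congr' ?_) τ.top
    filter_upwards [eventually_ge_atTop 0] with m hm
    lift m to ℕ using hm
    rw [← τ.fwd]
    exact (iterate_fixed h1 m).symm
  have h3 : τ.o 0 = τ.p := by
    refine tendsto_nhds_unique (tendsto_const_nhds.congr' ?_) τ.bot
    filter_upwards [eventually_le_atBot 0] with m hm
    obtain ⟨k, rfl⟩ : ∃ k : ℕ, m = -k := ⟨(-m).toNat, by omega⟩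
    rw [← τ.bwd]
    exact (g_fix F hG.pos h1 k).symm
  exact τ.ne (h3.symm.trans h2)

end Pool.Agent.Lib.MP_6d0683_an
end

-- part Pool.Agent.Lib.MP_6d0683_an.Sec
section

/-!
Secants of the invariant sets at a tangency.
-/

set_option autoImplicit false

open Set Metric Filter Topology Function

namespace Pool.Agent.Lib.MP_6d0683_an

open MP_3fe454_an.PD MP_3fe454_an.S2

variable {F : Dis} {M : ℕ}

/-- if limits of unit secants lie in the kernel of a form, the form is small on secants -/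
theorem sec_lim {x : ℂ} {R : ℂ × ℂ → Prop} (ℓ : ℂ →L[ℝ] ℝ)
    (h : ∀ (y y' : ℕ → ℂ) (ν : ℂ), Tendsto y atTop (𝓝 x) → Tendsto y' atTop (𝓝 x) →
      (∀ k, R (y k, y' k) ∧ y k ≠ y' k) →
      Tendsto (fun k => ‖y k - y' k‖⁻¹ • (y k - y' k)) atTop (𝓝 ν) → ℓ ν = 0)
    {η : ℝ} (hη : 0 < η) : ∀ᶠ yy in 𝓝 (x, x), R yy → |ℓ (yy.1 - yy.2)| ≤ η * ‖yy.1 - yy.2‖ := by
  by_contra hc
  rw [Filter.not_eventually] at hc
  obtain ⟨p, hp, hq⟩ := Filter.exists_seq_forall_of_frequently hc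
  have hR : ∀ k, R (p k) := fun k => by
    by_contra h0
    exact hq k fun h1 => absurd h1 h0
  have hlt : ∀ k, η * ‖(p k).1 - (p k).2‖ < |ℓ ((p k).1 - (p k).2)| := fun k => by
    by_contra h0
    exact hq k fun _ => not_lt.1 h0
  have hne : ∀ k, (p k).1 - (p k).2 ≠ 0 := fun k h0 => by
    have := hlt k
    rw [h0] at this
    simp at this
  have hu : ∀ k, ‖(p k).1 - (p k).2‖⁻¹ • ((p k).1 - (p k).2) ∈ sphere (0 : ℂ) 1 := fun k => by
    rw [mem_sphere_zero_iff_norm, norm_smul, norm_inv, norm_norm,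
      inv_mul_cancel₀ (norm_ne_zero_iff.2 (hne k))]
  obtain ⟨ν, -, φ, hφ, hν⟩ := (isCompact_sphere (0 : ℂ) 1).tendsto_subseq hu
  have hp' : Tendsto (p ∘ φ) atTop (𝓝 (x, x)) := hp.comp hφ.tendsto_atTop
  have h0 : ℓ ν = 0 := h (fun k => (p (φ k)).1) (fun k => (p (φ k)).2) ν
    ((continuous_fst.tendsto _).comp hp') ((continuous_snd.tendsto _).comp hp')
    (fun k => ⟨hR (φ k), sub_ne_zero.1 (hne (φ k))⟩) hν
  have h1 : Tendsto (fun k => |ℓ (‖(p (φ k)).1 - (p (φ k)).2‖⁻¹ • ((p (φ k)).1 - (p (φ k)).2))|)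
      atTop (𝓝 |ℓ ν|) := ((ℓ.continuous.tendsto ν).comp hν).abs
  have h2 : η ≤ |ℓ ν| := ge_of_tendsto' h1 fun k => by
    have hpos : 0 < ‖(p (φ k)).1 - (p (φ k)).2‖ := norm_pos_iff.2 (hne _)
    rw [map_smul, smul_eq_mul, abs_mul, abs_of_pos (inv_pos.2 hpos), ← div_eq_inv_mul,
      le_div_iff₀ hpos]
    exact (hlt _).le
  rw [h0, abs_zero] at h2
  exact absurd hη (not_lt.2 h2)

theorem sec_push {T : ℂ → ℂ} {L : ℂ →L[ℝ] ℂ} {x ν : ℂ} (hT : HasStrictFDerivAt T L x)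
    {y y' : ℕ → ℂ} {r : ℕ → ℝ} (hy : Tendsto y atTop (𝓝 x)) (hy' : Tendsto y' atTop (𝓝 x))
    (h : Tendsto (fun k => r k • (y k - y' k)) atTop (𝓝 ν)) :
    Tendsto (fun k => r k • (T (y k) - T (y' k))) atTop (𝓝 (L ν)) := by
  have h1 : (fun k => T (y k) - T (y' k) - L (y k - y' k)) =o[atTop] fun k => y k - y' k :=
    hT.isLittleO.comp_tendsto (hy.prodMk_nhds hy')
  have h2 : (fun k => r k • (T (y k) - T (y' k) - L (y k - y' k))) =o[atTop]
      fun k => r k • (y k - y' k) := (Asymptotics.isBigO_refl r atTop).smul_isLittleO h1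
  have h3 : Tendsto (fun k => r k • (T (y k) - T (y' k) - L (y k - y' k))) atTop (𝓝 0) :=
    (Asymptotics.isLittleO_one_iff ℝ).1 (h2.trans_isBigO (h.isBigO_one ℝ))
  have h4 := h3.add ((L.continuous.tendsto ν).comp h)
  rw [zero_add] at h4
  refine h4.congr fun k => ?_
  simp only [Function.comp_apply, map_smul]
  rw [← smul_add, sub_add_cancel]

theorem strict_back (F : Dis) (M : ℕ) {z : ℂ} (hz : ‖z‖ < 1) : ∃ L : ℂ →L[ℝ] ℂ,
    HasStrictFDerivAt F.g^[M] L (F.f^[M] z) ∧ ∀ v, L (fderiv ℝ F.f^[M] z v) = v := by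
  obtain ⟨E, hE⟩ := fderiv_equiv F M hz
  have hzD : z ∈ Disc := mem_closedBall_zero_iff.2 hz.le
  refine ⟨(E.symm : ℂ →L[ℝ] ℂ), ?_, fun v => ?_⟩
  · refine HasStrictFDerivAt.of_local_left_inverse (f := F.f^[M])
      (F.cg.iterate M).continuousAt ?_ ?_
    · rw [F.iter_g_f hzD, hE]
      exact (strict_iter F M hz).1
    · filter_upwards [F.Ω_mem_nhds hz M] with y hy
      exact (F.Ω_pull hy).2
  · rw [← hE]
    exact E.symm_apply_apply v

theorem sec_cone {c : ℂ} {G : ℂ → ℂ} (D : Sd G c) {d : ℕ → ℂ} {r : ℕ → ℝ} {v : ℂ}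
    (h : Tendsto (fun k => r k • d k) atTop (𝓝 v)) :
    ((∀ k, |(D.A (d k)).1| ≤ |(D.A (d k)).2|) → |(D.A v).1| ≤ |(D.A v).2|) ∧
      ((∀ k, |(D.A (d k)).2| ≤ |(D.A (d k)).1|) → |(D.A v).2| ≤ |(D.A v).1|) := by
  have h0 : Tendsto (fun k => D.A (r k • d k)) atTop (𝓝 (D.A v)) :=
    (D.A.continuous.tendsto v).comp h
  have h1 : Tendsto (fun k => |(D.A (r k • d k)).1|) atTop (𝓝 |(D.A v).1|) :=
    ((continuous_fst.tendsto _).comp h0).abs
  have h2 : Tendsto (fun k => |(D.A (r k • d k)).2|) atTop (𝓝 |(D.A v).2|) :=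
    ((continuous_snd.tendsto _).comp h0).abs
  have e1 : ∀ k, |(D.A (r k • d k)).1| = |r k| * |(D.A (d k)).1| := fun k => by
    rw [map_smul, Prod.smul_fst, smul_eq_mul, abs_mul]
  have e2 : ∀ k, |(D.A (r k • d k)).2| = |r k| * |(D.A (d k)).2| := fun k => by
    rw [map_smul, Prod.smul_snd, smul_eq_mul, abs_mul]
  constructor
  · intro hc
    refine le_of_tendsto_of_tendsto' h1 h2 fun k => ?_
    rw [e1, e2]
    exact mul_le_mul_of_nonneg_left (hc k) (abs_nonneg _)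
  · intro hc
    refine le_of_tendsto_of_tendsto' h2 h1 fun k => ?_
    rw [e1, e2]
    exact mul_le_mul_of_nonneg_left (hc k) (abs_nonneg _)

theorem sec_st {c : ℂ} (D : Sd F.f^[M] c) {o a : ℤ → ℂ} (hm : ∀ n, ‖o n‖ < 1)
    (ha : Sol F.f^[M] o a) {n m : ℤ} (hn : o n ∈ D.Op 1) (e : m = n + 1) :
    D.toCst.St (D.A (a n)) (D.A (a m)) := by
  rw [e, ha n]
  exact D.deriv hn (strict_iter F M (hm n)).1.hasFDerivAt _

theorem sec_bdd {u : ℕ → ℝ × ℝ} (h : Tendsto u atTop (𝓝 0)) : ∃ C, ∀ n, ‖u n‖ ≤ C := by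
  obtain ⟨C, hC⟩ := (Metric.isBounded_range_of_tendsto u h).exists_norm_le
  exact ⟨C, fun n => hC _ ⟨n, rfl⟩⟩

theorem sec_comb {c : ℂ} {G : ℂ → ℂ} (D : Sd G c) (a b : ℤ → ℂ) (t : ℝ) (n : ℤ) {C C' : ℝ}
    (ha : ‖D.A (a n)‖ ≤ C) (hb : ‖D.A (b n)‖ ≤ C') :
    ‖D.A ((b + t • a) n)‖ ≤ C' + |t| * C := by
  rw [Pi.add_apply, Pi.smul_apply, map_add, map_smul]
  refine (norm_add_le _ _).trans (add_le_add hb ?_)
  rw [norm_smul, Real.norm_eq_abs]
  exact mul_le_mul_of_nonneg_left ha (abs_nonneg _)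

theorem sec_fwd (τ : Tang F M) (D : Sd F.f^[M] τ.q) (h : ∀ n : ℕ, τ.o n ∈ D.Op 1)
    (ℓ : ℂ →L[ℝ] ℝ) (hℓ : ℓ (τ.a 0) = 0) {η : ℝ} (hη : 0 < η) :
    ∀ᶠ yy in 𝓝 (τ.o 0, τ.o 0), (∀ n : ℕ, (F.f^[M])^[n] yy.1 ∈ D.Bx) →
      (∀ n : ℕ, (F.f^[M])^[n] yy.2 ∈ D.Bx) → |ℓ (yy.1 - yy.2)| ≤ η * ‖yy.1 - yy.2‖ := by
  have hm : ∀ n, ‖τ.o n‖ < 1 := fun n => (F.Λ_norm (τ.mem n)).trans_lt F.r0_lt
  have key := sec_lim (x := τ.o 0) (R := fun yy => (∀ n : ℕ, (F.f^[M])^[n] yy.1 ∈ D.Bx) ∧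
    ∀ n : ℕ, (F.f^[M])^[n] yy.2 ∈ D.Bx) ℓ ?_ hη
  · exact key.mono fun yy hy h1 h2 => hy ⟨h1, h2⟩
  intro y y' ν hy hy' hR hν
  obtain ⟨b, hb, hb0⟩ := sol_exists (F := F) (M := M) hm 0 ν
  have hcont : ∀ n : ℕ, Continuous (F.f^[M])^[n] := fun n => (F.cf.iterate M).iterate n
  have hlim : ∀ {w : ℕ → ℂ}, Tendsto w atTop (𝓝 (τ.o 0)) → ∀ n : ℕ,
      Tendsto (fun k => (F.f^[M])^[n] (w k)) atTop (𝓝 (τ.o n)) := fun hw n => by
    rw [← τ.fwd n]
    exact ((hcont n).tendsto _).comp hw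
  have hpush : ∀ n : ℕ, Tendsto (fun k => ‖y k - y' k‖⁻¹ •
      ((F.f^[M])^[n] (y k) - (F.f^[M])^[n] (y' k))) atTop (𝓝 (b n)) := by
    intro n
    induction n with
    | zero => simpa [hb0] using hν
    | succ n ih =>
      have := sec_push (strict_iter F M (hm n)).1 (hlim hy n) (hlim hy' n) ih
      rw [← hb n] at this
      simp only [iterate_succ_apply', Nat.cast_succ]
      exact this
  have hcone : ∀ n : ℕ, |(D.A (b n)).1| ≤ |(D.A (b n)).2| := fun n =>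
    (sec_cone D (hpush n)).1 fun k => (D.pair_fwd (hR k).1.1 (hR k).1.2 n).1
  have hst : ∀ {a : ℤ → ℂ}, Sol F.f^[M] τ.o a → ∀ n : ℕ,
      D.toCst.St (D.A (a n)) (D.A (a (n + 1 : ℕ))) := fun ha n =>
    sec_st D hm ha (h n) (Nat.cast_succ n)
  have hbb : ∀ n : ℕ, ‖D.A (b n)‖ ≤ ‖D.A (b (0 : ℕ))‖ := fun n => by
    have h1 := Cst.decay_fwd (u := fun n : ℕ => D.A (b n)) (hst hb) hcone n
    have h2 : (D.l + D.e) ^ n ≤ 1 := pow_le_one₀ (add_nonneg D.l_nn D.e_nn) D.hl.le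
    exact h1.trans (mul_le_of_le_one_left (norm_nonneg _) h2)
  have ha0 : Tendsto (fun n : ℕ => D.A (τ.a n)) atTop (𝓝 0) := by
    have := (D.A.continuous.tendsto 0).comp (τ.a_top.comp tendsto_natCast_atTop_atTop)
    rwa [map_zero] at this
  obtain ⟨C, hC⟩ := sec_bdd ha0
  have hne : (D.A (τ.a 0)).2 ≠ 0 := fun h0 => by
    have h1 := Cst.zero_fwd (u := fun n : ℕ => D.A (τ.a n)) (hst τ.sol) hC
      (by simp only [Nat.cast_zero]; rw [h0, abs_zero]; exact abs_nonneg _)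
    simp only [Nat.cast_zero] at h1
    exact τ.a_ne (D.A.map_eq_zero_iff.1 h1)
  obtain ⟨t, ht⟩ : ∃ t : ℝ, (D.A (b 0)).2 + t * (D.A (τ.a 0)).2 = 0 :=
    ⟨-(D.A (b 0)).2 / (D.A (τ.a 0)).2, by rw [div_mul_cancel₀ _ hne, add_neg_cancel]⟩
  have h1 := Cst.zero_fwd (u := fun n : ℕ => D.A ((b + t • τ.a) n))
    (hst (hb.add (τ.sol.smul t))) (fun n => sec_comb D τ.a b t n (hC n) (hbb n)) (by
      simp only [Nat.cast_zero]
      have : (D.A ((b + t • τ.a) 0)).2 = 0 := by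
        rw [Pi.add_apply, Pi.smul_apply, map_add, map_smul, Prod.snd_add, Prod.smul_snd,
          smul_eq_mul, ht]
      rw [this, abs_zero]
      exact abs_nonneg _)
  simp only [Nat.cast_zero] at h1
  have h2 : b 0 + t • τ.a 0 = 0 := D.A.map_eq_zero_iff.1 h1
  have h3 := congrArg ℓ h2
  rw [map_add, map_smul, hℓ, hb0, map_zero, smul_zero, add_zero] at h3
  exact h3

theorem sec_bwd (τ : Tang F M) (D : Sd F.f^[M] τ.p) {n0 : ℕ}
    (h : ∀ n : ℕ, n0 ≤ n → τ.o (-n) ∈ D.Op 1) (ℓ : ℂ →L[ℝ] ℝ) (hℓ : ℓ (τ.a 0) = 0) {η : ℝ}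
    (hη : 0 < η) : ∀ᶠ yy in 𝓝 (τ.o 0, τ.o 0), yy.1 ∈ Lu F M D n0 → yy.2 ∈ Lu F M D n0 →
      |ℓ (yy.1 - yy.2)| ≤ η * ‖yy.1 - yy.2‖ := by
  have hm : ∀ n, ‖τ.o n‖ < 1 := fun n => (F.Λ_norm (τ.mem n)).trans_lt F.r0_lt
  have key := sec_lim (x := τ.o 0) (R := fun yy => yy.1 ∈ Lu F M D n0 ∧ yy.2 ∈ Lu F M D n0)
    ℓ ?_ hη
  · exact key.mono fun yy hy h1 h2 => hy ⟨h1, h2⟩
  intro y y' ν hy hy' hR hν
  obtain ⟨b, hb, hb0⟩ := sol_exists (F := F) (M := M) hm 0 ν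
  have hsucc : ∀ (n : ℕ) (w : ℂ), F.g^[M * (n + 1)] w = F.g^[M] (F.g^[M * n] w) := fun n w => by
    rw [Nat.mul_succ, add_comm, iterate_add_apply]
  have hidx : ∀ n : ℕ, -(n : ℤ) = -((n + 1 : ℕ) : ℤ) + 1 := fun n => by push_cast; ring
  have hlim : ∀ {w : ℕ → ℂ}, Tendsto w atTop (𝓝 (τ.o 0)) → ∀ n : ℕ,
      Tendsto (fun k => F.g^[M * n] (w k)) atTop (𝓝 (τ.o (-n))) := fun hw n => by
    rw [← τ.bwd n]
    exact ((F.cg.iterate _).tendsto _).comp hw
  have hpush : ∀ n : ℕ, Tendsto (fun k => ‖y k - y' k‖⁻¹ •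
      (F.g^[M * n] (y k) - F.g^[M * n] (y' k))) atTop (𝓝 (b (-n))) := by
    intro n
    induction n with
    | zero => simpa [hb0] using hν
    | succ n ih =>
      obtain ⟨L, hL, hL'⟩ := strict_back F M (hm (-((n + 1 : ℕ) : ℤ)))
      rw [← τ.orb, ← hidx] at hL
      have := sec_push hL (hlim hy n) (hlim hy' n) ih
      rw [hidx n, hb, hL'] at this
      simp only [hsucc]
      exact this
  have hseq : ∀ w ∈ Lu F M D n0, ∀ j : ℕ, F.g^[M * (n0 + j)] w ∈ D.Bx ∧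
      F.f^[M] (F.g^[M * (n0 + (j + 1))] w) = F.g^[M * (n0 + j)] w := fun w hw j => by
    refine ⟨hw.2 _ (Nat.le_add_right _ _), ?_⟩
    rw [← add_assoc, hsucc]
    exact F.iter_f_g (F.iter_g_mem_Λ hw.1 _) M
  have hcone : ∀ j : ℕ, |(D.A (b (-((n0 + j : ℕ) : ℤ)))).2| ≤
      |(D.A (b (-((n0 + j : ℕ) : ℤ)))).1| := fun j =>
    (sec_cone D (hpush (n0 + j))).2 fun k =>
      (D.pair_bwd (w := fun j => F.g^[M * (n0 + j)] (y k))
        (w' := fun j => F.g^[M * (n0 + j)] (y' k)) (hseq _ (hR k).1.1) (hseq _ (hR k).1.2) j).1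
  have hst : ∀ {a : ℤ → ℂ}, Sol F.f^[M] τ.o a → ∀ j : ℕ,
      D.toCst.St (D.A (a (-((n0 + (j + 1) : ℕ) : ℤ)))) (D.A (a (-((n0 + j : ℕ) : ℤ)))) :=
    fun ha j => sec_st D hm ha (h _ (Nat.le_add_right _ _)) (hidx (n0 + j))
  have hbb : ∀ j : ℕ, ‖D.A (b (-((n0 + j : ℕ) : ℤ)))‖ ≤ ‖D.A (b (-((n0 + 0 : ℕ) : ℤ)))‖ :=
    fun j => by
      have h1 := Cst.decay_bwd (u := fun j : ℕ => D.A (b (-((n0 + j : ℕ) : ℤ)))) (hst hb) hcone j
      have h2 : 1 ≤ (D.s - D.e) ^ j := one_le_pow₀ D.hs.le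
      exact (le_mul_of_one_le_left (norm_nonneg _) h2).trans h1
  have ha0 : Tendsto (fun j : ℕ => D.A (τ.a (-((n0 + j : ℕ) : ℤ)))) atTop (𝓝 0) := by
    have h1 : Tendsto (fun j : ℕ => -((n0 + j : ℕ) : ℤ)) atTop atBot :=
      tendsto_neg_atTop_atBot.comp (tendsto_natCast_atTop_atTop.comp
        (tendsto_atTop_mono (fun j => Nat.le_add_left j n0) tendsto_id))
    have := (D.A.continuous.tendsto 0).comp (τ.a_bot.comp h1)
    rwa [map_zero] at this
  obtain ⟨C, hC⟩ := sec_bdd ha0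
  have hne : (D.A (τ.a (-((n0 + 0 : ℕ) : ℤ)))).1 ≠ 0 := fun h0 => by
    have h1 := Cst.zero_bwd (u := fun j : ℕ => D.A (τ.a (-((n0 + j : ℕ) : ℤ)))) (hst τ.sol) hC h0
    exact τ.a_ne (τ.sol.zero hm (D.A.map_eq_zero_iff.1 h1) 0)
  obtain ⟨t, ht⟩ : ∃ t : ℝ, (D.A (b (-((n0 + 0 : ℕ) : ℤ)))).1 +
      t * (D.A (τ.a (-((n0 + 0 : ℕ) : ℤ)))).1 = 0 :=
    ⟨-(D.A (b (-((n0 + 0 : ℕ) : ℤ)))).1 / (D.A (τ.a (-((n0 + 0 : ℕ) : ℤ)))).1, by
      rw [div_mul_cancel₀ _ hne, add_neg_cancel]⟩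
  have hs := hb.add (τ.sol.smul t)
  have h1 := Cst.zero_bwd (u := fun j : ℕ => D.A ((b + t • τ.a) (-((n0 + j : ℕ) : ℤ))))
    (hst hs) (fun j => sec_comb D τ.a b t _ (hC j) (hbb j)) (by
      show (D.A ((b + t • τ.a) (-((n0 + 0 : ℕ) : ℤ)))).1 = 0
      rw [Pi.add_apply, Pi.smul_apply, map_add, map_smul, Prod.fst_add, Prod.smul_fst,
        smul_eq_mul, ht])
  have h2 : b 0 + t • τ.a 0 = 0 := hs.zero hm (D.A.map_eq_zero_iff.1 h1) 0
  have h3 := congrArg ℓ h2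
  rw [map_add, map_smul, hℓ, hb0, map_zero, smul_zero, add_zero] at h3
  exact h3

end Pool.Agent.Lib.MP_6d0683_an
end
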