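import Pool.Agent.Lib.MP_6d0683_an.Sph1
import Pool.Agent.Lib.MP_6d0683_an.Sec

/-!
No contact means no touching.
-/

set_option autoImplicit false

open Set Metric Filter Topology Function

namespace Pool.Agent.Lib.MP_6d0683_an

open MP_3fe454_an.PD MP_3fe454_an.S2

variable {S : Type} [TopologicalSpace S] {X : Sys S} {ψ : ℂ → ℂ} {g : S ≃ₜ S} {M : ℕ}

theorem sad_box [T2Space S] (h : Pert X.σ X.f ψ g) (hG : Good X.F M) {K : Set ℂ}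
    (hK : IsCompact K) (hψ : ∀ z, z ∉ K → ψ z = z) (hP : ∀ c ∈ periodicPts X.F.f, c ∉ K)
    (hKD : K ⊆ Disc) {x : S} (hx : Sad g^[M] g.symm^[M] x) :
    ∃ c ∈ periodicPts X.F.f, x = X.σ c ∧ ¬ Nonempty (Snk X.F.f^[M] c) := by
  obtain ⟨k1, k2⟩ := h.keep hG hK hψ hP hKD x
  obtain ⟨k3, k4⟩ := k2 (k1.1 hx.1)
  rcases X.per_cases ⟨M, hG.pos, k1.1 hx.1⟩ with ⟨c, hc, rfl⟩ | ⟨-, hs⟩
  · refine ⟨c, hc, rfl, fun ⟨T⟩ => hx.2.1 (Stab.germ k3.symm ?_)⟩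
    exact (stab_chart X.emb (fun z hz => X.iter hz M) (fun z hz => X.F.iter_mem_Disc hz M)
      ((X.F.Λ_norm (X.F.periodic_mem_Λ hc)).trans_lt X.F.r0_lt)).2 T.stab
  · exact absurd (Stab.germ k4.symm (hs.iter M)) hx.2.2

theorem gen3_back (F : Dis) (hM : 0 < M) {y : ℕ → ℂ} (h1 : ∀ j, y j ∈ Disc)
    (h2 : ∀ j, F.f^[M] (y (j + 1)) = y j) : y 0 ∈ F.Λ ∧ ∀ j, F.g^[M * j] (y 0) = y j := by
  have h3 : ∀ j, F.f^[M * j] (y j) = y 0 := fun j => by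
    induction j with
    | zero => rfl
    | succ j ih => rw [Nat.mul_succ, iterate_add_apply, h2, ih]
  refine ⟨mem_iInter.2 fun j => F.Ω_anti (Nat.le_mul_of_pos_left j hM) ⟨y j, h1 j, h3 j⟩,
    fun j => ?_⟩
  rw [← h3 j, F.iter_g_f (h1 j)]

omit [TopologicalSpace S] in
theorem gen3_fwd {σ : ℂ → S} (hσ : Injective σ) {Γ : S → S} {G : ℂ → ℂ} {B : Set ℂ}
    (h : ∀ w ∈ B, Γ (σ w) = σ (G w)) {w : ℂ}
    (hw : (∀ j : ℕ, Γ^[j] (σ w) ∈ σ '' B) ∨ ∀ j : ℕ, G^[j] w ∈ B) (j : ℕ) :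
    Γ^[j] (σ w) = σ (G^[j] w) := by
  induction j with
  | zero => rfl
  | succ j ih =>
    rw [iterate_succ_apply', iterate_succ_apply', ih, h]
    rcases hw with hw | hw
    · have := hw j
      rwa [ih, hσ.mem_set_image] at this
    · exact hw j

theorem gen3_sign {C : Set ℂ} (hC : IsPreconnected C) {φ : ℂ → ℝ} (hφ : Continuous φ)
    (h : ∀ w ∈ C, φ w ≠ 0) : ∃ b, ∀ w ∈ C, 0 ≤ sg b * φ w := by
  by_contra hn
  push Not at hn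
  obtain ⟨w1, a1, b1⟩ := hn true
  obtain ⟨w2, a2, b2⟩ := hn false
  simp only [sg, if_true, one_mul] at b1
  simp only [sg, Bool.false_eq_true, if_false, neg_mul, one_mul, neg_lt_zero] at b2
  obtain ⟨w, hw, e⟩ := hC.intermediate_value a1 a2 hφ.continuousOn ⟨b1.le, b2.le⟩
  exact h w hw e

theorem no_touch [T2Space S] (h : Pert X.σ X.f ψ g) (hG : Good X.F M) (hc : Continuous ψ)
    {K : Set ℂ} (hK : IsCompact K) (hψ : ∀ z, z ∉ K → ψ z = z)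
    (hP : ∀ c ∈ periodicPts X.F.f, c ∉ K) (hKD : K ⊆ Disc) {𝒟 : Set (SdG X.F.f^[M])}
    (ha : ∀ c ∈ periodicPts X.F.f, Nonempty (Snk X.F.f^[M] c) ∨ ∃ E ∈ 𝒟, E.c = c)
    (hb : ∀ E ∈ 𝒟, E.D.Bx ⊆ ball 0 1 ∧ ∀ w ∈ E.D.Bx, ∀ j < M, X.F.f^[j] w ∉ K)
    (hn : NoT X.F M (X.F.f ∘ ψ) 𝒟) : ¬ Touch g^[M] g.symm^[M] := by
  rintro ⟨p, q, x, sp, sq, hpq, tq, tp, V0, hV0, U0, hU0, main⟩
  have get : ∀ {p : S}, Sad g^[M] g.symm^[M] p → ∃ E ∈ 𝒟, p = X.σ E.c := fun hp => by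
    obtain ⟨c, c1, rfl, c2⟩ := sad_box h hG hK hψ hP hKD hp
    obtain ⟨E, e1, rfl⟩ := (ha c c1).resolve_left c2
    exact ⟨E, e1, rfl⟩
  obtain ⟨E, hE, rfl⟩ := get sp
  obtain ⟨E', hE', rfl⟩ := get sq
  have hi := X.emb.injective
  have hT : Continuous (X.F.f ∘ ψ) := X.F.cf.comp hc
  have hB : ∀ k, MapsTo (X.F.f ∘ ψ)^[k] (ball 0 1) (ball 0 1) := fun k =>
    MapsTo.iterate (fun w _ => mem_ball_zero_iff.2 ((X.F.maps _).trans_lt X.F.r0_lt)) k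
  have hΓ : ∀ z ∈ ball (0 : ℂ) 1, ∀ k : ℕ,
      (g^[M])^[k] (X.σ z) = X.σ ((X.F.f ∘ ψ)^[M * k] z) := fun z hz k => by
    rw [← iterate_mul, h.iter (ball_subset_closedBall hz)]
  have hbox : ∀ E ∈ 𝒟, ∀ w ∈ E.D.Bx, g^[M] (X.σ w) = X.σ (X.F.f^[M] w) := fun E hE w hw => by
    rw [h.iter (ball_subset_closedBall ((hb E hE).1 hw)),
      sys_iter_eq (f := X.F.f) (g := X.F.f ∘ ψ) fun j hj =>
        congr_arg X.F.f (hψ _ ((hb E hE).2 w hw j hj))]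
  have l1 : LeftInverse g.symm^[M] g^[M] := LeftInverse.iterate g.symm_apply_apply M
  have l2 : LeftInverse g^[M] g.symm^[M] := LeftInverse.iterate g.apply_symm_apply M
  have nb : ∀ (E : SdG X.F.f^[M]) {r : ℝ}, 0 < r → X.σ '' E.D.Op r ∈ 𝓝 (X.σ E.c) :=
    fun E r hr => X.emb.image_mem_nhds.2 (E.D.Op_nhds hr)
  have hV := inter_mem hV0 (nb E' one_pos)
  have hU := inter_mem hU0 (nb E one_pos)
  obtain ⟨ρ, r0, r1, r2⟩ := E'.D.Op_small (X.emb.continuous.continuousAt hV)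
  obtain ⟨ρ', s0, s1, s2⟩ := E.D.Op_small (X.emb.continuous.continuousAt hU)
  obtain ⟨n, m1, m2, m3⟩ := ((main _ hV inter_subset_left _ hU inter_subset_left).and
    ((eventually_forall_ge_atTop.2 (tq.eventually_mem (nb E' (half_pos r0)))).and
      (eventually_forall_ge_atTop.2 (tp.eventually_mem (nb E (half_pos s0)))))).exists
  choose y y1 y2 using fun j => m3 (j + n) (Nat.le_add_left n j)
  have y3 : ∀ j, y j ∈ E.D.Bx := fun j => E.D.Op_sub (by linarith) (y1 j)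
  have y4 : ∀ j, X.F.f^[M] (y (j + 1)) = y j := fun j => hi (by
    rw [← hbox E hE _ (y3 _), y2, y2, Nat.succ_add, iterate_succ_apply', l2])
  obtain ⟨y5, y6⟩ := gen3_back X.F hG.pos
    (fun j => ball_subset_closedBall ((hb E hE).1 (y3 j))) y4
  have y7 := (hb E hE).1 (y3 0)
  have hx : X.σ ((X.F.f ∘ ψ)^[M * n] (y 0)) = x := by
    rw [← hΓ _ y7, y2, zero_add, l2.iterate n]
  have two : ∀ w, (X.F.f ∘ ψ)^[M * (n + n)] w = (X.F.f ∘ ψ)^[M * n] ((X.F.f ∘ ψ)^[M * n] w) :=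
    fun w => by rw [mul_add, iterate_add_apply]
  generalize hx0 : (X.F.f ∘ ψ)^[M * n] (y 0) = x0 at hx
  have x1 : x0 ∈ ball (0 : ℂ) 1 := hx0 ▸ hB _ y7
  subst hx
  generalize hz : (X.F.f ∘ ψ)^[M * n] x0 = z
  have z0 : ∀ j : ℕ, (g^[M])^[j] (X.σ z) ∈ X.σ '' E'.D.Op (ρ / 2) := fun j => by
    rw [← hz, ← hΓ _ x1, ← iterate_add_apply]
    exact m2 _ (Nat.le_add_left n j)
  have z1 : ∀ j : ℕ, (X.F.f^[M])^[j] z ∈ E'.D.Op (ρ / 2) := fun j => by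
    have := z0 j
    rwa [gen3_fwd hi (hbox E' hE') (Or.inl fun j =>
      image_mono (E'.D.Op_sub (by linarith)) (z0 j)), hi.mem_set_image] at this
  have z2 : ∀ j : ℕ, (X.F.f^[M])^[j] z ∈ E'.D.Bx := fun j => E'.D.Op_sub (by linarith) (z1 j)
  have hd : Continuous fun w => E'.d ((X.F.f ∘ ψ)^[M * n] w) :=
    (E'.D.cX.sub (E'.gr.cont.comp E'.D.cY)).comp (hT.iterate _)
  have hW : {w | (X.F.f ∘ ψ)^[M * n] w ∈ E'.D.Op 1 ∧
      ‖E'.D.A ((X.F.f ∘ ψ)^[M * n] w - z)‖ < ρ / 2} ∩ ball 0 1 ∈ 𝓝 x0 := by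
    refine IsOpen.mem_nhds ((((E'.D.Op_open 1).preimage (hT.iterate _)).inter
      (isOpen_lt (E'.D.A.continuous.comp ((hT.iterate _).sub continuous_const)).norm
        continuous_const)).inter isOpen_ball) ⟨⟨?_, ?_⟩, x1⟩
    · rw [hz]; exact E'.D.Op_mono (by linarith) (z1 0)
    · rw [hz]; simpa using r0
  obtain ⟨C, c1, c2, c3⟩ := m1 _ (X.emb.image_mem_nhds.2 hW)
  obtain ⟨b, hbs⟩ := gen3_sign (c2.preimage_of_isOpenMap hi X.emb.isOpenMap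
    fun w hw => image_subset_range _ _ (c1 hw).1) hd fun w hw e => by
      obtain ⟨⟨a1, a2⟩, a3⟩ := hi.mem_set_image.1 (c1 hw).1
      refine (c1 hw).2 fun j hj => ?_
      obtain ⟨i, rfl⟩ := Nat.exists_eq_add_of_le' hj
      have a4 := E'.D.Op_sub le_rfl a1
      have a5 := E'.gr.2.2.1 _ ((norm_snd_le _).trans a4) (sub_eq_zero.1 e)
      rw [iterate_add_apply, hΓ _ a3, gen3_fwd hi (hbox E' hE') (Or.inr a5)]
      exact r2 (E'.gr.stay r1 z2 a4 a2 (sub_eq_zero.1 e) (z1 i))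
  refine hn E hE E' hE' (fun e => hpq (congr_arg _ e)) (n + n) (y 0)
    ⟨y5, fun j _ => y6 j ▸ y3 j⟩ (by rw [two, hx0, hz]; exact z2 0)
    (by rw [two, hx0, hz]; exact sub_eq_zero.2 (E'.gr.2.2.2 z z2)) b ?_
  have k1 : Tendsto (fun w => X.σ ((X.F.f ∘ ψ)^[M * n] w)) (𝓝 (y 0)) (𝓝 (X.σ x0)) :=
    (X.emb.continuous.comp (hT.iterate _)).tendsto' _ _ (congr_arg _ hx0)
  have k2 : ∀ᶠ w in 𝓝 (y 0), ‖E.D.A (w - y 0)‖ < ρ' / 2 :=
    (E.D.A.continuous.comp (continuous_id.sub continuous_const)).norm.continuousAt.eventually_lt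
      continuousAt_const (by simpa using s0)
  filter_upwards [k1.eventually c3, k2] with w w1 w2 w3
  have w4 : ∀ j, X.F.g^[M * j] w ∈ E.D.Bx ∧
      X.F.f^[M] (X.F.g^[M * (j + 1)] w) = X.F.g^[M * j] w := fun j =>
    ⟨w3.2 j j.zero_le, by
      rw [Nat.mul_succ, add_comm, iterate_add_apply, X.F.iter_f_g (X.F.iter_g_mem_Λ w3.1 _)]⟩
  have w5 : w ∈ ball (0 : ℂ) 1 := (hb E hE).1 (w4 0).1
  have w6 : ∀ j : ℕ, (g.symm^[M])^[j] (X.σ w) = X.σ (X.F.g^[M * j] w) := fun j => by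
    induction j with
    | zero => rfl
    | succ j ih => rw [iterate_succ_apply', ih, ← (w4 j).2, ← hbox E hE _ (w4 _).1, l1]
  have w7 : X.σ ((X.F.f ∘ ψ)^[M * n] w) ∈ Fw g.symm^[M] (U0 ∩ X.σ '' E.D.Op 1) n := by
    intro j hj
    obtain ⟨i, rfl⟩ := Nat.exists_eq_add_of_le' hj
    rw [← hΓ _ w5, iterate_add_apply, l1.iterate n, w6]
    refine s2 ?_
    have a1 : ‖E.D.A (X.F.g^[M * i] w - y i)‖ ≤ ‖E.D.A (w - y 0)‖ :=
      (E.D.pair_bwd (w := fun j => X.F.g^[M * j] w) w4 (fun j => ⟨y3 j, y4 j⟩) i).2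
    have a2 : ‖E.D.A (y i - E.c)‖ < ρ' / 2 := y1 i
    have a3 := norm_add_le (E.D.A (X.F.g^[M * i] w - y i)) (E.D.A (y i - E.c))
    rw [← map_add, sub_add_sub_cancel] at a3
    change ‖E.D.A (X.F.g^[M * i] w - E.c)‖ < ρ'
    linarith
  rw [two]
  rcases w1 w7 with a | a
  · have a1 : ∀ j : ℕ, (g^[M])^[j] (X.σ ((X.F.f ∘ ψ)^[M * n] ((X.F.f ∘ ψ)^[M * n] w))) ∈
        X.σ '' E'.D.Bx := fun j => by
      rw [← hΓ _ (hB _ w5), ← iterate_add_apply]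
      exact image_mono (E'.D.Op_sub le_rfl) (a _ (Nat.le_add_left n j)).2
    have a2 := E'.gr.2.2.2 _ fun j => by
      have := a1 j
      rwa [gen3_fwd hi (hbox E' hE') (Or.inl a1), hi.mem_set_image] at this
    rw [SdG.d, a2, sub_self, mul_zero]
  · exact hbs _ a

end Pool.Agent.Lib.MP_6d0683_an
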