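import Pool.Agent.Lib.MP_6d0683_an.Defs
import Mathlib

-- part Pool.Agent.Lib.MP_6d0683_an.MS
section

/-!
The Morse-Smale property.
-/

set_option autoImplicit false

open Set Metric Filter Topology Function

namespace Pool.Agent.Lib.MP_6d0683_an

/-- the chart of the hemisphere which contains the point -/
noncomputable def hemi (x : Sph) : Bool := decide (x.1.2 ≤ 0)

/-- the derivative at x in the charts of the hemispheres of x and of its image -/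
noncomputable def der (f : Sph → Sph) (x : Sph) : ℂ →L[ℝ] ℂ :=
  fderiv ℝ (loc (hemi x) (hemi (f x)) f) (chart (hemi x) x)

/-- finite chain recurrent set and strong transversality -/
def MorseSmale (f : Sph → Sph) : Prop :=
  {x | ∀ ε > 0, Relation.TransGen (fun u v => dist (f u) v < ε) x x}.Finite ∧
    ∀ x : ℤ → Sph, (∀ n, x (n + 1) = f (x n)) → ∀ v : ℂ, ∃ a b : ℤ → ℂ,
      (∀ n, a (n + 1) = der f (x n) (a n)) ∧ (∀ n, b (n + 1) = der f (x n) (b n)) ∧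
        a 0 + b 0 = v ∧ Tendsto a atTop (𝓝 0) ∧ Tendsto b atBot (𝓝 0)

end Pool.Agent.Lib.MP_6d0683_an
end

-- part Pool.Agent.Lib.MP_6d0683_an.Rb0
section

/-!
Perturbations of invertible operators.
-/

set_option autoImplicit false

open Set Metric Filter Topology Function

namespace Pool.Agent.Lib.MP_6d0683_an

theorem pert_surj {V : Type} [NormedAddCommGroup V] [NormedSpace ℝ V] [CompleteSpace V]
    (T : V →L[ℝ] V) (hT : Surjective T) {c : ℝ} (hc : 0 < c) (hl : ∀ w, c * ‖w‖ ≤ ‖T w‖)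
    (Φ : V → V) {κ r : ℝ} (hκ : 0 ≤ κ) (hr : 0 ≤ r)
    (h : ∀ w w', ‖w‖ ≤ r → ‖w'‖ ≤ r → ‖Φ w - Φ w' - T (w - w')‖ ≤ κ * ‖w - w'‖) {y : V}
    (hy : ‖y - Φ 0‖ ≤ (c - κ) * r) : ∃ w, ‖w‖ ≤ r ∧ Φ w = y := by
  let R : T.NonlinearRightInverse := ⟨surjInv hT, ⟨c⁻¹, by positivity⟩, fun y => by
    have := hl (surjInv hT y)
    rw [surjInv_eq hT] at this
    exact (le_inv_mul_iff₀ hc).2 this, surjInv_eq hT⟩
  have h1 : ApproximatesLinearOn Φ T (closedBall 0 r) ⟨κ, hκ⟩ := fun w hw w' hw' =>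
    h w w' (mem_closedBall_zero_iff.1 hw) (mem_closedBall_zero_iff.1 hw')
  obtain ⟨w, hw, e⟩ := h1.surjOn_closedBall_of_nonlinearRightInverse R hr subset_rfl (a := y) (by
    rw [mem_closedBall_iff_norm]
    exact hy.trans_eq (congrArg (fun t => (t - κ) * r) (inv_inv c).symm))
  exact ⟨w, mem_closedBall_zero_iff.1 hw, e⟩

theorem rb0_surj {V : Type} [NormedAddCommGroup V] [NormedSpace ℝ V] [CompleteSpace V]
    (T T' : V →L[ℝ] V) (hT : Surjective T) {c κ : ℝ} (hκ : 0 ≤ κ) (hc : κ < c)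
    (hl : ∀ w, c * ‖w‖ ≤ ‖T w‖) (h : ∀ w, ‖T' w - T w‖ ≤ κ * ‖w‖) : Surjective T' := fun y => by
  have h1 := sub_pos.2 hc
  obtain ⟨w, -, e⟩ := pert_surj T hT (hκ.trans_lt hc) hl T' hκ (r := ‖y‖ / (c - κ)) (y := y)
    (by positivity) (fun w w' _ _ => by rw [← map_sub]; exact h _)
    (by rw [map_zero, sub_zero, mul_div_cancel₀ _ h1.ne'])
  exact ⟨w, e⟩

theorem surj_of_low {V : Type} [NormedAddCommGroup V] [NormedSpace ℝ V] [CompleteSpace V]
    (S : V →L[ℝ] V) {c : ℝ} (hc : 0 < c) (hl : ∀ t : ℝ, 0 ≤ t → ∀ w, c * ‖w‖ ≤ ‖S w + t • w‖) :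
    Surjective S := by
  have h : ∀ j : ℕ, ∀ t : ℝ, 0 ≤ t → ‖S‖ + 1 - j * (c / 2) ≤ t →
      Surjective (S + t • ContinuousLinearMap.id ℝ V) := fun j => by
    induction j with
    | zero =>
      intro t _ ht
      have h1 : ‖S‖ < t := by simp at ht; linarith
      have h2 : 0 < t := (norm_nonneg S).trans_lt h1
      refine rb0_surj (t • ContinuousLinearMap.id ℝ V) _ (fun y => ⟨t⁻¹ • y, by simp [h2.ne']⟩)
        (norm_nonneg S) h1 (fun w => ?_) fun w => ?_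
      · simp [norm_smul, abs_of_pos h2]
      · simpa using S.le_opNorm w
    | succ j ih =>
      intro t h0 ht
      refine rb0_surj _ _ (ih (t + c / 2) (by positivity) (by push_cast at ht; linarith))
        (half_pos hc).le (half_lt_self hc) (hl _ (by positivity)) fun w => ?_
      simp [add_smul, norm_smul, abs_of_pos hc]
  obtain ⟨j, hj⟩ := exists_nat_ge ((‖S‖ + 1) / (c / 2))
  simpa using h j 0 le_rfl (sub_nonpos.2 ((div_le_iff₀ (half_pos hc)).1 hj))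

end Pool.Agent.Lib.MP_6d0683_an
end

-- part Pool.Agent.Lib.MP_6d0683_an.Rb1
section

/-!
Linear cocycles with the transversality property: the uniform estimate.
-/

set_option autoImplicit false

open Set Metric Filter Topology Function
open scoped RealInnerProductSpace

namespace Pool.Agent.Lib.MP_6d0683_an

/-- a linear cocycle over a homeomorphism with the transversality property -/
structure Coc (X E : Type) [TopologicalSpace X] [NormedAddCommGroup E] [NormedSpace ℝ E] where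
  f : X ≃ₜ X
  A : C(X, E →L[ℝ] E)
  tr : ∀ o : ℤ → X, (∀ n, o (n + 1) = f (o n)) → ∀ u, ∃ a b : ℤ → E,
    (∀ n, a (n + 1) = A (o n) (a n)) ∧ (∀ n, b (n + 1) = A (o n) (b n)) ∧
      A (o 0) u = a 1 + b 1 ∧ Tendsto a atTop (𝓝 0) ∧ Tendsto b atBot (𝓝 0)

namespace Coc

variable {X E : Type} [TopologicalSpace X] [CompactSpace X] [NormedAddCommGroup E]
  [InnerProductSpace ℝ E] [FiniteDimensional ℝ E] (K : Coc X E)

/-- the adjoint cocycle -/
noncomputable def B : C(X, E →L[ℝ] E) :=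
  haveI := FiniteDimensional.complete ℝ E
  ⟨fun x => ContinuousLinearMap.adjoint (K.A x),
    ContinuousLinearMap.adjoint.continuous.comp K.A.continuous⟩

theorem inner_B (x : X) (u w : E) : ⟪u, K.B x w⟫ = ⟪K.A x u, w⟫ := by
  haveI := FiniteDimensional.complete ℝ E
  exact ContinuousLinearMap.adjoint_inner_right _ _ _

theorem B_sub (a b : X) : ‖K.B a - K.B b‖ = ‖K.A a - K.A b‖ := by
  haveI := FiniteDimensional.complete ℝ E
  show ‖ContinuousLinearMap.adjoint _ - ContinuousLinearMap.adjoint _‖ = _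
  rw [← map_sub, LinearIsometryEquiv.norm_map]

theorem A_le (x : X) (u : E) : ‖K.A x u‖ ≤ ‖K.A‖ * ‖u‖ :=
  (K.A x).le_of_opNorm_le (K.A.norm_coe_le_norm x) u

theorem B_le (x : X) (u : E) : ‖K.B x u‖ ≤ ‖K.B‖ * ‖u‖ :=
  (K.B x).le_of_opNorm_le (K.B.norm_coe_le_norm x) u

/-- the adjoint operator along an orbit -/
noncomputable def Ls (o : ℤ → X) (w : ℤ → E) (n : ℤ) : E := w (n - 1) - K.B (o n) (w n)

/-- the product of the operator and of its adjoint along an orbit -/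
noncomputable def Ss (o : ℤ → X) (w : ℤ → E) (n : ℤ) : E :=
  K.Ls o w (n + 1) - K.A (o n) (K.Ls o w n)

theorem rb1_const {o : ℤ → X} {w : ℤ → E} {C : ℝ} (hw : ∀ n, ‖w n‖ ≤ C)
    (h : ∀ n, K.Ls o w n = 0) (n : ℤ) {a : ℤ → E}
    (ha : ∀ j, a (j + 1) = K.A (o (n + 1 + j)) (a j)) {l : Filter ℤ} [l.NeBot]
    (hl : Tendsto a l (𝓝 0)) : ⟪a 1, w (n + 1)⟫ = 0 := by
  have h1 : ∀ j, ⟪a (j + 1), w (n + (j + 1))⟫ = ⟪a j, w (n + j)⟫ := fun j => by
    have h4 := h (n + 1 + j)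
    rw [Ls, sub_eq_zero, show n + 1 + j - 1 = n + j by ring] at h4
    rw [ha, ← inner_B, h4, show n + (j + 1) = n + 1 + j by ring]
  have h2 : ∀ j : ℤ, ⟪a j, w (n + j)⟫ = ⟪a 0, w (n + 0)⟫ := fun j => by
    induction j using Int.induction_on with
    | zero => rfl
    | succ i ih => rw [h1, ih]
    | pred i ih => rw [← h1, sub_add_cancel, ih]
  have h3 : Tendsto (fun j => ⟪a j, w (n + j)⟫) l (𝓝 0) := by
    refine squeeze_zero_norm (a := fun j => ‖a j‖ * C) (fun j => ?_) ?_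
    · exact (norm_inner_le_norm _ _).trans (mul_le_mul_of_nonneg_left (hw _) (norm_nonneg _))
    · simpa using hl.norm.mul_const C
  simp only [h2] at h3
  rw [h2]
  exact tendsto_nhds_unique tendsto_const_nhds h3

theorem adj_zero {o : ℤ → X} (ho : ∀ n, o (n + 1) = K.f (o n)) {w : ℤ → E} {C : ℝ}
    (hw : ∀ n, ‖w n‖ ≤ C) (h : ∀ n, K.Ls o w n = 0) (n : ℤ) : w n = 0 := by
  obtain ⟨a, b, ha, hb, e, la, lb⟩ := K.tr (fun j => o (n + 1 + j))
    (fun j => by rw [← add_assoc, ho]) (w n)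
  have h1 := K.rb1_const hw h n ha la
  have h2 := K.rb1_const hw h n hb lb
  have h3 : w n = K.B (o (n + 1)) (w (n + 1)) := by
    have h4 := h (n + 1)
    rwa [Ls, sub_eq_zero, add_sub_cancel_right] at h4
  rw [add_zero] at e
  rw [← inner_self_eq_zero (𝕜 := ℝ)]
  calc ⟪w n, w n⟫ = ⟪w n, K.B (o (n + 1)) (w (n + 1))⟫ := by rw [← h3]
    _ = 0 := by rw [inner_B, e, inner_add_left, h1, h2, add_zero]

theorem rb1_seq {β t : ℤ → ℝ} {C M : ℝ} (h1 : ∀ n, β (n + 1) + t n ^ 2 ≤ β n)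
    (h2 : ∀ n, |β n| ≤ C * t n) (h3 : ∀ n, |β n| ≤ M) (n : ℤ) : t n = 0 := by
  have ha : Antitone β := antitone_int_of_succ_le fun n => by
    have := h1 n
    nlinarith [sq_nonneg (t n)]
  have hb : BddBelow (range β) := ⟨-M, by
    rintro _ ⟨n, rfl⟩
    exact (abs_le.1 (h3 n)).1⟩
  have hb' : BddAbove (range β) := ⟨M, by
    rintro _ ⟨n, rfl⟩
    exact (abs_le.1 (h3 n)).2⟩
  have key : ∀ (l : Filter ℤ) [l.NeBot] (L : ℝ), Tendsto β l (𝓝 L) →
      Tendsto (fun n : ℤ => n + 1) l l → L = 0 := fun l _ L k1 k2 => by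
    have k3 : L ^ 2 ≤ C ^ 2 * (L - L) :=
      le_of_tendsto_of_tendsto' (k1.pow 2) ((k1.sub (k1.comp k2)).const_mul _) fun n => by
        have k4 : β n ^ 2 ≤ (C * t n) ^ 2 := sq_le_sq' (abs_le.1 (h2 n)).1 (abs_le.1 (h2 n)).2
        have k5 := mul_le_mul_of_nonneg_left (h1 n) (sq_nonneg C)
        simp only [comp_apply]
        nlinarith
    rw [sub_self, mul_zero] at k3
    exact pow_eq_zero_iff two_ne_zero |>.1 (le_antisymm k3 (sq_nonneg L))
  have e1 := key atTop _ (tendsto_atTop_ciInf ha hb) (tendsto_atTop_add_const_right _ _ tendsto_id)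
  have e2 := key atBot _ (tendsto_atBot_ciSup ha hb') (tendsto_atBot_add_const_right _ _ tendsto_id)
  have e3 := ciInf_le hb (n + 1)
  have e4 := le_ciSup hb' n
  have e5 := h1 n
  exact pow_eq_zero_iff two_ne_zero |>.1 (le_antisymm (by linarith) (sq_nonneg _))

theorem energy {o : ℤ → X} {w : ℤ → E} {C : ℝ} (hw : ∀ n, ‖w n‖ ≤ C)
    (h : ∀ n, ⟪K.Ss o w n, w n⟫ ≤ 0) (n : ℤ) : K.Ls o w n = 0 := by
  have hC : 0 ≤ C := (norm_nonneg _).trans (hw 0)
  have h1 : ∀ n, ⟪K.Ls o w (n + 1), w (n + 1 - 1)⟫ + ‖K.Ls o w n‖ ^ 2 ≤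
      ⟪K.Ls o w n, w (n - 1)⟫ := fun n => by
    have h2 := h n
    have h3 : K.B (o n) (w n) = w (n - 1) - K.Ls o w n := by rw [Ls, sub_sub_cancel]
    rw [Ss, inner_sub_left, ← inner_B, h3, inner_sub_right, real_inner_self_eq_norm_sq] at h2
    rw [add_sub_cancel_right]
    linarith
  have h2 : ∀ n, |⟪K.Ls o w n, w (n - 1)⟫| ≤ C * ‖K.Ls o w n‖ := fun n => by
    rw [mul_comm]
    exact (abs_real_inner_le_norm _ _).trans (mul_le_mul_of_nonneg_left (hw _) (norm_nonneg _))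
  have h3 : ∀ n, ‖K.Ls o w n‖ ≤ C + ‖K.B‖ * C := fun n =>
    (norm_sub_le _ _).trans (add_le_add (hw _) ((K.B_le _ _).trans
      (mul_le_mul_of_nonneg_left (hw _) (norm_nonneg K.B))))
  exact norm_eq_zero.1 (rb1_seq (M := C * (C + ‖K.B‖ * C)) h1 h2
    (fun n => (h2 n).trans (mul_le_mul_of_nonneg_left (h3 n) hC)) n)

omit [CompactSpace X] in
theorem rb1_Ls (o : ℤ → X) (w : ℤ → E) (k : ℤ) (t : ℝ) (j : ℤ) :
    K.Ls (fun j => o (k + j)) (fun j => t • w (k + j)) j = t • K.Ls o w (k + j) := by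
  simp only [Ls, map_smul, smul_sub, add_sub_assoc]

omit [CompactSpace X] in
theorem rb1_Ss (o : ℤ → X) (w : ℤ → E) (k : ℤ) (t : ℝ) (j : ℤ) :
    K.Ss (fun j => o (k + j)) (fun j => t • w (k + j)) j = t • K.Ss o w (k + j) := by
  simp only [Ss, rb1_Ls, map_smul, smul_sub, add_assoc]

/-- normalised approximate solutions -/
def rb1_Z (r : ℝ) : Set ((ℤ → X) × (ℤ → E)) :=
  {p | (∀ n, p.1 (n + 1) = K.f (p.1 n)) ∧ (∀ n, ‖p.2 n‖ ≤ 1) ∧ 1 / 2 ≤ ‖p.2 0‖ ∧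
    ∀ n, ⟪K.Ss p.1 p.2 n, p.2 n⟫ ≤ r}

omit [CompactSpace X] in
theorem rb1_cL (n : ℤ) : Continuous fun p : (ℤ → X) × (ℤ → E) => K.Ls p.1 p.2 n := by
  unfold Ls
  refine Continuous.sub (by fun_prop) (Continuous.clm_apply (K.B.continuous.comp ?_) ?_) <;>
    fun_prop

omit [CompactSpace X] in
theorem rb1_cS (n : ℤ) : Continuous fun p : (ℤ → X) × (ℤ → E) => K.Ss p.1 p.2 n := by
  unfold Ss
  refine (K.rb1_cL _).sub (Continuous.clm_apply (K.A.continuous.comp ?_) (K.rb1_cL _))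
  fun_prop

omit [CompactSpace X] in
theorem rb1_closed [T2Space X] (r : ℝ) : IsClosed (K.rb1_Z r) := by
  simp only [rb1_Z, ofPred_and, ofPred_forall]
  refine (isClosed_iInter fun n => isClosed_eq (by fun_prop) (K.f.continuous.comp (by fun_prop))).inter
    ((isClosed_iInter fun n => isClosed_le (by fun_prop) continuous_const).inter
      ((isClosed_le continuous_const (by fun_prop)).inter
        (isClosed_iInter fun n => isClosed_le ((K.rb1_cS n).inner (by fun_prop)) continuous_const)))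

theorem rb1_compact [T2Space X] (r : ℝ) : IsCompact (K.rb1_Z r) := by
  refine ((isCompact_univ (X := ℤ → X)).prod (isCompact_univ_pi fun _ : ℤ =>
    isCompact_closedBall (0 : E) 1)).of_isClosed_subset (K.rb1_closed r) fun p hp => ?_
  exact ⟨trivial, fun n _ => mem_closedBall_zero_iff.2 (hp.2.1 n)⟩

theorem rb1_empty [T2Space X] : ∃ c > 0, ∀ p, p ∉ K.rb1_Z c := by
  by_contra hc
  have h1 : ∀ k : ℕ, (K.rb1_Z (1 / ((k : ℝ) + 1))).Nonempty := fun k => by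
    by_contra h
    exact hc ⟨_, Nat.one_div_pos_of_nat, fun p hp => h ⟨p, hp⟩⟩
  obtain ⟨p, hp⟩ := IsCompact.nonempty_iInter_of_sequence_nonempty_isCompact_isClosed
    (fun k : ℕ => K.rb1_Z (1 / ((k : ℝ) + 1)))
    (fun k p hp => ⟨hp.1, hp.2.1, hp.2.2.1, fun n => (hp.2.2.2 n).trans
      (Nat.one_div_le_one_div (Nat.le_succ k))⟩) h1 (K.rb1_compact _) fun _ => K.rb1_closed _
  rw [mem_iInter] at hp
  have h2 : ∀ n, ⟪K.Ss p.1 p.2 n, p.2 n⟫ ≤ 0 := fun n =>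
    ge_of_tendsto' tendsto_one_div_add_atTop_nhds_zero_nat fun k => (hp k).2.2.2 n
  have h3 := K.adj_zero (hp 0).1 (hp 0).2.1 (K.energy (hp 0).2.1 h2) 0
  have h4 := (hp 0).2.2.1
  rw [h3, norm_zero] at h4
  linarith

theorem key [T2Space X] : ∃ c > 0, ∀ o : ℤ → X, (∀ n, o (n + 1) = K.f (o n)) →
    ∀ (w : ℤ → E) (C r : ℝ), (∀ n, ‖w n‖ ≤ C) → 0 ≤ r →
      (∀ n, ⟪K.Ss o w n, w n⟫ ≤ r * ‖w n‖) → ∀ n, c * ‖w n‖ ≤ r := by
  obtain ⟨c, hc, hZ⟩ := K.rb1_empty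
  refine ⟨c, hc, fun o ho w C r hw hr h n => ?_⟩
  by_contra hn
  rw [not_le] at hn
  have hb : BddAbove (range fun j => ‖w j‖) := ⟨C, by
    rintro _ ⟨j, rfl⟩
    exact hw j⟩
  have h1 : ∀ j, ‖w j‖ ≤ ⨆ j, ‖w j‖ := le_ciSup hb
  generalize hm : (⨆ j, ‖w j‖) = m at h1
  have h2 : 0 < m := ((mul_pos_iff_of_pos_left hc).1 (hr.trans_lt hn)).trans_le (h1 n)
  obtain ⟨k, hk⟩ := exists_lt_of_lt_ciSup (show m / 2 < ⨆ j, ‖w j‖ by rw [hm]; linarith)
  have h3 : 0 < m⁻¹ := inv_pos.2 h2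
  have h4 : m⁻¹ * m = 1 := inv_mul_cancel₀ h2.ne'
  refine hZ (fun j => o (k + j), fun j => m⁻¹ • w (k + j)) ⟨fun j => ?_, fun j => ?_, ?_, fun j => ?_⟩
  · show o (k + (j + 1)) = K.f (o (k + j))
    rw [← add_assoc, ho]
  · show ‖m⁻¹ • w (k + j)‖ ≤ 1
    rw [norm_smul, Real.norm_of_nonneg h3.le, ← h4]
    exact mul_le_mul_of_nonneg_left (h1 _) h3.le
  · show 1 / 2 ≤ ‖m⁻¹ • w (k + 0)‖
    rw [norm_smul, Real.norm_of_nonneg h3.le, add_zero]
    nlinarith [mul_le_mul_of_nonneg_left hk.le h3.le]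
  · show ⟪K.Ss (fun j => o (k + j)) (fun j => m⁻¹ • w (k + j)) j, m⁻¹ • w (k + j)⟫ ≤ c
    rw [rb1_Ss, real_inner_smul_left, real_inner_smul_right]
    have h5 : ⟪K.Ss o w (k + j), w (k + j)⟫ ≤ c * m * m :=
      (h _).trans (mul_le_mul (hn.le.trans (mul_le_mul_of_nonneg_left (h1 n) hc.le)) (h1 _)
        (norm_nonneg _) (mul_pos hc h2).le)
    calc m⁻¹ * (m⁻¹ * ⟪K.Ss o w (k + j), w (k + j)⟫) ≤ m⁻¹ * (m⁻¹ * (c * m * m)) := by gcongr
      _ = c * (m⁻¹ * m) * (m⁻¹ * m) := by ring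
      _ = c := by rw [h4, mul_one, mul_one]

end Coc

end Pool.Agent.Lib.MP_6d0683_an
end

-- part Pool.Agent.Lib.MP_6d0683_an.Rb2
section

/-!
The conjugacy equation is solved with the pseudo-inverse of the linearised operator.
-/

set_option autoImplicit false

open Set Metric Filter Topology Function
open scoped RealInnerProductSpace

namespace Pool.Agent.Lib.MP_6d0683_an

variable {X E : Type} [TopologicalSpace X] [CompactSpace X] [NormedAddCommGroup E]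
  [InnerProductSpace ℝ E]

/-- the operator of a cocycle on continuous maps -/
noncomputable def opr (φ : C(X, X)) (A : C(X, E →L[ℝ] E)) : C(X, E) →L[ℝ] C(X, E) :=
  LinearMap.mkContinuous
    { toFun := fun η => ⟨fun x => η (φ x) - A x (η x), by fun_prop⟩
      map_add' := fun η η' => by
        ext x
        simp only [ContinuousMap.coe_mk, ContinuousMap.add_apply, map_add]
        abel
      map_smul' := fun t η => by
        ext x
        simp [smul_sub] } (1 + ‖A‖) fun η => by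
    refine (ContinuousMap.norm_le _ (by positivity)).2 fun x => (norm_sub_le _ _).trans ?_
    have h1 := η.norm_coe_le_norm (φ x)
    have h2 := (A x).le_of_opNorm_le_of_le (A.norm_coe_le_norm x) (η.norm_coe_le_norm x)
    linarith

theorem opr_apply (φ : C(X, X)) (A : C(X, E →L[ℝ] E)) (η : C(X, E)) (x : X) :
    opr φ A η x = η (φ x) - A x (η x) := rfl

theorem opr_le (φ : C(X, X)) (A : C(X, E →L[ℝ] E)) (η : C(X, E)) :
    ‖opr φ A η‖ ≤ (1 + ‖A‖) * ‖η‖ :=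
  (opr φ A).le_of_opNorm_le (LinearMap.mkContinuous_norm_le _ (by positivity) _) η

namespace Coc

variable [FiniteDimensional ℝ E] (K : Coc X E)

/-- the adjoint operator on continuous maps -/
noncomputable def Lc : C(X, E) →L[ℝ] C(X, E) := opr ⟨K.f.symm, K.f.symm.continuous⟩ K.B

/-- the product of the operator and of its adjoint on continuous maps -/
noncomputable def Sc : C(X, E) →L[ℝ] C(X, E) := opr ⟨K.f, K.f.continuous⟩ K.A ∘L K.Lc

theorem orb_succ (f : X ≃ₜ X) (x : X) (n : ℤ) : (f ^ (n + 1)) x = f ((f ^ n) x) := by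
  rw [add_comm, zpow_one_add]
  rfl

theorem Lc_orb {o : ℤ → X} (ho : ∀ n, o (n + 1) = K.f (o n)) (w : C(X, E)) (n : ℤ) :
    K.Lc w (o n) = K.Ls o (fun n => w (o n)) n := by
  have h : K.f.symm (o n) = o (n - 1) := by
    rw [K.f.symm_apply_eq, ← ho, sub_add_cancel]
  show w (K.f.symm (o n)) - _ = _
  rw [h]
  rfl

theorem Sc_orb {o : ℤ → X} (ho : ∀ n, o (n + 1) = K.f (o n)) (w : C(X, E)) (n : ℤ) :
    K.Sc w (o n) = K.Ss o (fun n => w (o n)) n := by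
  show K.Lc w (K.f (o n)) - K.A (o n) (K.Lc w (o n)) = _
  rw [← ho, K.Lc_orb ho, K.Lc_orb ho]
  rfl

theorem low [T2Space X] : ∃ c > 0, ∀ t : ℝ, 0 ≤ t → ∀ w, c * ‖w‖ ≤ ‖K.Sc w + t • w‖ := by
  obtain ⟨c, hc, h⟩ := K.key
  refine ⟨c, hc, fun t ht w => (le_div_iff₀' hc).1
    ((ContinuousMap.norm_le _ (by positivity)).2 fun x => (le_div_iff₀' hc).2 ?_)⟩
  refine h (fun n => (K.f ^ n) x) (orb_succ K.f x) (fun n => w ((K.f ^ n) x)) ‖w‖ _
    (fun n => w.norm_coe_le_norm _) (norm_nonneg _) (fun n => ?_) 0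
  rw [← K.Sc_orb (orb_succ K.f x)]
  generalize (K.f ^ n) x = y
  have h1 := real_inner_le_norm ((K.Sc w + t • w) y) (w y)
  have h2 := mul_le_mul_of_nonneg_right ((K.Sc w + t • w).norm_coe_le_norm y) (norm_nonneg (w y))
  have h3 := mul_nonneg ht (real_inner_self_nonneg (x := w y))
  rw [ContinuousMap.add_apply, ContinuousMap.smul_apply] at h1 h2
  rw [inner_add_left, real_inner_smul_left] at h1
  linarith

theorem solve [T2Space X] (ι : C(X, E)) : ∃ κ > 0, ∀ r > 0, ∃ ε > 0, ∀ (γ : E → E) (ρ : ℝ),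
    (1 + ‖K.B‖) * r ≤ ρ → (∀ x u, ‖u‖ ≤ ρ → ContinuousAt γ (ι x + u)) →
    (∀ x, ‖γ (ι x) - ι (K.f x)‖ ≤ ε) →
    (∀ x u v, ‖u‖ ≤ ρ → ‖v‖ ≤ ρ → ‖γ (ι x + u) - γ (ι x + v) - K.A x (u - v)‖ ≤ κ * ‖u - v‖) →
    ∃ w : C(X, E), ‖w‖ ≤ r ∧ ∀ x, ι (K.f x) + K.Lc w (K.f x) = γ (ι x + K.Lc w x) := by
  have := FiniteDimensional.complete ℝ E
  obtain ⟨c, hc, h⟩ := K.low
  have hB : 0 < 1 + ‖K.B‖ := by positivity
  refine ⟨c / 2 / (1 + ‖K.B‖), by positivity, fun r hr => ⟨c / 2 * r, by positivity,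
    fun γ ρ h1 h2 h3 h4 => ?_⟩⟩
  have h5 : ∀ (w : C(X, E)) x, ‖K.Lc w x‖ ≤ (1 + ‖K.B‖) * ‖w‖ := fun w x =>
    ((K.Lc w).norm_coe_le_norm x).trans (opr_le _ _ w)
  have h6 : ∀ w : C(X, E), ‖w‖ ≤ r → ∀ x, ‖K.Lc w x‖ ≤ ρ := fun w hw x =>
    (h5 w x).trans ((by gcongr : _ ≤ _).trans h1)
  have h7 : ∀ w : C(X, E), ‖w‖ ≤ r → ∀ x, ContinuousMap.mkD
      (fun x => K.Lc w (K.f x) + ι (K.f x) - γ (ι x + K.Lc w x)) 0 x =
        K.Lc w (K.f x) + ι (K.f x) - γ (ι x + K.Lc w x) := fun w hw x =>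
    ContinuousMap.mkD_apply_of_continuous (Continuous.sub (by fun_prop)
      (continuous_iff_continuousAt.2 fun y => ContinuousAt.comp (f := fun x => ι x + K.Lc w x)
        (h2 y _ (h6 w hw y)) (by fun_prop)))
  refine (pert_surj K.Sc (surj_of_low _ hc h) hc (fun w => by simpa using h 0 le_rfl w)
    (fun w => ContinuousMap.mkD (fun x => K.Lc w (K.f x) + ι (K.f x) - γ (ι x + K.Lc w x)) 0)
    (κ := c / 2) (y := 0) (by positivity) hr.le (fun w w' hw hw' => ?_) ?_).imp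
      fun w ⟨hw, e⟩ => ⟨hw, fun x => ?_⟩
  · refine (ContinuousMap.norm_le _ (by positivity)).2 fun x => ?_
    have h8 := h4 x _ _ (h6 w hw x) (h6 w' hw' x)
    have h9 := h5 (w - w') x
    have h10 : K.Sc (w - w') x = K.Lc (w - w') (K.f x) - K.A x (K.Lc (w - w') x) := rfl
    rw [ContinuousMap.sub_apply, ContinuousMap.sub_apply, h7 w hw, h7 w' hw', h10, ← norm_neg]
    rw [map_sub, ContinuousMap.sub_apply] at h9
    rw [map_sub, ContinuousMap.sub_apply, ContinuousMap.sub_apply]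
    refine (congrArg norm (by abel)).le.trans (h8.trans ?_)
    rw [div_mul_eq_mul_div, div_le_iff₀' hB, mul_left_comm]
    gcongr
  · refine (ContinuousMap.norm_le _ (by nlinarith)).2 fun x => ?_
    rw [ContinuousMap.sub_apply, h7 0 (by simpa using hr.le)]
    simpa [show c - c / 2 = c / 2 by ring] using h3 x
  · have := h7 w hw x
    rwa [e, ContinuousMap.zero_apply, eq_comm, sub_eq_zero, add_comm] at this

theorem inj [T2Space X] (ι : C(X, E)) {C : ℝ} (hA : ∀ a b, ‖K.A a - K.A b‖ ≤ C * ‖ι a - ι b‖) :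
    ∃ κ > 0, ∀ (w : C(X, E)) (ρ : ℝ), ‖w‖ ≤ κ → ‖K.Lc w‖ ≤ ρ →
      (∀ a b, ‖ι a - ι b‖ ≤ 2 * ρ →
        ‖ι (K.f a) - ι (K.f b) - K.A a (ι a - ι b)‖ ≤ κ * ‖ι a - ι b‖) →
      ∀ a b : ℤ → X, (∀ n, a (n + 1) = K.f (a n)) → (∀ n, b (n + 1) = K.f (b n)) →
        (∀ n, ι (a n) + K.Lc w (a n) = ι (b n) + K.Lc w (b n)) → ι (a 0) = ι (b 0) := by
  obtain ⟨c, hc, h⟩ := K.key
  obtain ⟨S, hS⟩ : ∃ S, S = |C| + (1 + ‖K.B‖) * ((1 + (1 + ‖K.A‖) * |C|) / c) := ⟨_, rfl⟩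
  have hS0 : 0 < S := by rw [hS]; positivity
  refine ⟨1 / (2 * S), by positivity, fun w ρ hw hρ h1 a b ha hb e => ?_⟩
  have hκ : 1 / (2 * S) * S = 1 / 2 := by field_simp
  have hκ0 : 0 < 1 / (2 * S) := by positivity
  generalize 1 / (2 * S) = κ at hw h1 hκ hκ0
  have h0 : ∀ n, ‖ι (a n) - ι (b n)‖ ≤ 2 * ρ := fun n => by
    rw [show ι (a n) - ι (b n) = K.Lc w (b n) - K.Lc w (a n) by linear_combination (norm := abel) e n]
    linarith [norm_sub_le (K.Lc w (b n)) (K.Lc w (a n)), (K.Lc w).norm_coe_le_norm (a n),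
      (K.Lc w).norm_coe_le_norm (b n)]
  have h2 : ∀ n, K.Ls a (fun n => w (a n) - w (b n)) n =
      (K.B (a n) - K.B (b n)) (w (b n)) - (ι (a n) - ι (b n)) := fun n => by
    have := e n
    rw [K.Lc_orb ha, K.Lc_orb hb] at this
    simp only [Ls, map_sub, sub_apply] at this ⊢
    linear_combination (norm := abel) this
  have step : ∀ δ, (∀ n, ‖ι (a n) - ι (b n)‖ ≤ δ) → ∀ n, ‖ι (a n) - ι (b n)‖ ≤ δ * (1 / 2) := by
    intro δ hδ
    have δ0 : 0 ≤ δ := (norm_nonneg _).trans (hδ 0)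
    have h3 : ∀ n, ‖(K.B (a n) - K.B (b n)) (w (b n))‖ ≤ |C| * δ * κ := fun n =>
      ContinuousLinearMap.le_of_opNorm_le_of_le _ (by
        rw [K.B_sub]
        exact (hA _ _).trans (mul_le_mul (le_abs_self C) (hδ n) (norm_nonneg _) (abs_nonneg C)))
        ((w.norm_coe_le_norm _).trans hw)
    have h4 : ∀ n, ‖K.Ss a (fun n => w (a n) - w (b n)) n‖ ≤ (1 + (1 + ‖K.A‖) * |C|) * (κ * δ) :=
      fun n => by
        have k1 := (h1 _ _ (h0 n)).trans (mul_le_mul_of_nonneg_left (hδ n) hκ0.le)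
        have k2 := (K.A_le (a n) _).trans (mul_le_mul_of_nonneg_left (h3 n) (norm_nonneg K.A))
        rw [← ha, ← hb] at k1
        have k3 := norm_sub_le_of_le (norm_sub_le_of_le (h3 (n + 1)) k2) k1
        rw [Ss, h2, h2, map_sub]
        exact (congrArg norm (by abel)).le.trans (k3.trans (le_of_eq (by ring)))
    have h5 := h a ha (fun n => w (a n) - w (b n)) (‖w‖ + ‖w‖) _
      (fun n => norm_sub_le_of_le (w.norm_coe_le_norm _) (w.norm_coe_le_norm _)) (by positivity)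
      fun n => (real_inner_le_norm _ _).trans (mul_le_mul_of_nonneg_right (h4 n) (norm_nonneg _))
    simp only [← le_div_iff₀' hc] at h5
    intro n
    have k1 := norm_sub_le_of_le (h3 n) (norm_sub_le_of_le (h5 (n - 1))
      ((K.B_le (a n) _).trans (mul_le_mul_of_nonneg_left (h5 n) (norm_nonneg K.B))))
    have k2 := h2 n
    rw [Ls] at k2
    rw [k2, sub_sub_cancel] at k1
    refine k1.trans (le_of_eq ?_)
    rw [← hκ, hS]
    ring
  have h6 : ∀ k : ℕ, ∀ n, ‖ι (a n) - ι (b n)‖ ≤ 2 * ρ * (1 / 2) ^ k := fun k => by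
    induction k with
    | zero => simpa using h0
    | succ k ih =>
      rw [pow_succ, ← mul_assoc]
      exact step _ ih
  have h7 := (tendsto_pow_atTop_nhds_zero_of_lt_one (r := (1 / 2 : ℝ)) (by norm_num)
    (by norm_num)).const_mul (2 * ρ)
  rw [mul_zero] at h7
  exact sub_eq_zero.1 (norm_le_zero_iff.1 (ge_of_tendsto' h7 fun k => h6 k 0))

theorem robbin [T2Space X] (ι : C(X, E)) {C : ℝ}
    (hA : ∀ a b, ‖K.A a - K.A b‖ ≤ C * ‖ι a - ι b‖) :
    ∃ κ > 0, ∀ ρ > 0, ∃ ε > 0, ∀ γ : E → E, (∀ x u, ‖u‖ ≤ ρ → ContinuousAt γ (ι x + u)) →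
      (∀ x, ‖γ (ι x) - ι (K.f x)‖ ≤ ε) →
      (∀ x u v, ‖u‖ ≤ ρ → ‖v‖ ≤ ρ →
        ‖γ (ι x + u) - γ (ι x + v) - K.A x (u - v)‖ ≤ κ * ‖u - v‖) →
      (∀ a b, ‖ι a - ι b‖ ≤ 2 * ρ →
        ‖ι (K.f a) - ι (K.f b) - K.A a (ι a - ι b)‖ ≤ κ * ‖ι a - ι b‖) →
      ∃ η : C(X, E), ‖η‖ ≤ ρ ∧ (∀ x, ι (K.f x) + η (K.f x) = γ (ι x + η x)) ∧
        ∀ a b : ℤ → X, (∀ n, a (n + 1) = K.f (a n)) → (∀ n, b (n + 1) = K.f (b n)) →
          (∀ n, ι (a n) + η (a n) = ι (b n) + η (b n)) → ι (a 0) = ι (b 0) := by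
  obtain ⟨κ, hκ, h1⟩ := K.solve ι
  obtain ⟨κ', hκ', h2⟩ := K.inj ι hA
  refine ⟨min κ κ', lt_min hκ hκ', fun ρ hρ => ?_⟩
  have hB : 0 < 1 + ‖K.B‖ := by positivity
  obtain ⟨ε, hε, h3⟩ := h1 (min κ' (ρ / (1 + ‖K.B‖))) (lt_min hκ' (by positivity))
  have h4 : (1 + ‖K.B‖) * min κ' (ρ / (1 + ‖K.B‖)) ≤ ρ :=
    (le_div_iff₀' hB).1 (min_le_right _ _)
  refine ⟨ε, hε, fun γ k1 k2 k3 k4 => ?_⟩
  obtain ⟨w, hw, h5⟩ := h3 γ ρ h4 k1 k2 fun x u v hu hv =>
    (k3 x u v hu hv).trans (by gcongr; exact min_le_left _ _)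
  have h6 : ‖K.Lc w‖ ≤ ρ := (opr_le _ _ w).trans ((by gcongr : _ ≤ _).trans h4)
  exact ⟨K.Lc w, h6, h5, h2 w ρ (hw.trans (min_le_left _ _)) h6 fun a b hab =>
    (k4 a b hab).trans (by gcongr; exact min_le_right _ _)⟩

end Coc

end Pool.Agent.Lib.MP_6d0683_an
end
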