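import Pool.Agent.Lib.MP_3fe454_an.S2.Defs2
import Pool.Agent.Lib.MP_6d0683_an.Rb2

-- part Pool.Agent.Lib.MP_6d0683_an.Base
section

/-!
Definitions used in the proof that stable dissipative maps without cascade are Morse-Smale.
-/

set_option autoImplicit false

open Set Metric Filter Topology Function

namespace Pool.Agent.Lib.MP_6d0683_an

open MP_3fe454_an.PD MP_3fe454_an.S2

section top

variable {S : Type} [TopologicalSpace S]

/-- Lyapunov stability at a point -/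
def Stab (G : S → S) (c : S) : Prop := ∀ U ∈ 𝓝 c, ∃ V ∈ 𝓝 c, ∀ y ∈ V, ∀ n : ℕ, G^[n] y ∈ U

/-- topological saddle; H is the inverse of G -/
def Sad (G H : S → S) (c : S) : Prop := G c = c ∧ ¬ Stab G c ∧ ¬ Stab H c

/-- points which stay in V from the time n on -/
def Fw (G : S → S) (V : Set S) (n : ℕ) : Set S := {z | ∀ j, n ≤ j → G^[j] z ∈ V}

/-- an unstable set touches a stable set from one side -/
def Touch (G H : S → S) : Prop :=
  ∃ p q x, Sad G H p ∧ Sad G H q ∧ p ≠ q ∧ Tendsto (fun n : ℕ => G^[n] x) atTop (𝓝 q) ∧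
    Tendsto (fun n : ℕ => H^[n] x) atTop (𝓝 p) ∧ ∃ V0 ∈ 𝓝 q, ∃ U0 ∈ 𝓝 p,
      ∀ V ∈ 𝓝 q, V ⊆ V0 → ∀ U ∈ 𝓝 p, U ⊆ U0 → ∀ᶠ n in atTop, ∀ W ∈ 𝓝 x,
        ∃ C, C ⊆ W \ Fw G V n ∧ IsPreconnected C ∧
          ∀ᶠ y in 𝓝 x, y ∈ Fw H U n → y ∈ Fw G V n ∪ C

/-- topological conjugacy -/
def Conj (f g : S ≃ₜ S) : Prop := ∃ χ : S ≃ₜ S, ∀ x, χ (f x) = g (χ x)

end top

/-- constants of a saddle -/
structure Cst where
  s : ℝ
  l : ℝ
  e : ℝ
  e_nn : 0 ≤ e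
  l_nn : 0 ≤ l
  hs : 1 < s - e
  hl : l + e < 1

/-- one step of an almost diagonal map -/
def Cst.St (k : Cst) (u u' : ℝ × ℝ) : Prop := ‖u' - (k.s * u.1, k.l * u.2)‖ ≤ k.e * ‖u‖

/-- linear chart at a hyperbolic saddle -/
structure Sd (G : ℂ → ℂ) (c : ℂ) extends Cst where
  A : ℂ ≃L[ℝ] ℝ × ℝ
  fix : G c = c
  est : ∀ w w', ‖A (w - c)‖ ≤ 1 → ‖A (w' - c)‖ ≤ 1 → toCst.St (A (w - w')) (A (G w - G w'))

namespace Sd

variable {G : ℂ → ℂ} {c : ℂ} (D : Sd G c)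

/-- the closed box -/
def Bx : Set ℂ := {w | ‖D.A (w - c)‖ ≤ 1}

/-- the open box of size r -/
def Op (r : ℝ) : Set ℂ := {w | ‖D.A (w - c)‖ < r}

/-- unstable coordinate -/
noncomputable def X (w : ℂ) : ℝ := (D.A (w - c)).1

/-- stable coordinate -/
noncomputable def Y (w : ℂ) : ℝ := (D.A (w - c)).2

/-- γ is the graph of the local stable manifold -/
def Gr (γ : ℝ → ℝ) : Prop :=
  (∀ a b, |γ a - γ b| ≤ |a - b|) ∧ γ 0 = 0 ∧
    (∀ w, |D.Y w| ≤ 1 → D.X w = γ (D.Y w) → ∀ n : ℕ, G^[n] w ∈ D.Bx) ∧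
    ∀ w, (∀ n : ℕ, G^[n] w ∈ D.Bx) → D.X w = γ (D.Y w)

end Sd

/-- adapted norm at a hyperbolic sink -/
structure Snk (G : ℂ → ℂ) (c : ℂ) where
  N : Seminorm ℝ ℂ
  θ : ℝ
  a : ℝ
  b : ℝ
  θ_nn : 0 ≤ θ
  θ_lt : θ < 1
  a_pos : 0 < a
  low : ∀ v, a * ‖v‖ ≤ N v
  up : ∀ v, N v ≤ b * ‖v‖
  fix : G c = c
  contr : ∀ w w', N (w - c) ≤ 1 → N (w' - c) ≤ 1 → N (G w - G w') ≤ θ * N (w - w')

/-- no eigenvalue 1 or -1 -/
def Hyp (L : ℂ →L[ℝ] ℂ) : Prop := ∀ v, L (L v) = v → v = 0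

/-- chains with jumps smaller than ε -/
def Ch (T : ℂ → ℂ) (ε : ℝ) : ℂ → ℂ → Prop := Relation.TransGen fun u v => ‖T u - v‖ < ε

/-- all periodic points are hyperbolic fixed points of the M-th iterate, they are finitely many
and form the chain recurrent set -/
structure Good (F : Dis) (M : ℕ) : Prop where
  pos : 0 < M
  fin : (periodicPts F.f).Finite
  fix : ∀ c ∈ periodicPts F.f, F.f^[M] c = c
  hyp : ∀ c ∈ periodicPts F.f,
    Nonempty (Snk F.f^[M] c) ∨ ∀ U ∈ 𝓝 c, ∃ D : Sd F.f^[M] c, D.Bx ⊆ U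
  cr : ∀ x, (∀ ε > 0, Ch F.f ε x x) → x ∈ periodicPts F.f

/-- smooth families of deformations of the identity supported in the disc of radius r -/
structure Fam {P : Type} [NormedAddCommGroup P] [NormedSpace ℝ P] (ψ : P × ℂ → ℂ) (r : ℝ) :
    Prop where
  smooth : ∀ n : ℕ, ContDiff ℝ n ψ
  zero : ∀ z, ψ (0, z) = z
  r_lt : r < 1
  supp : ∀ t z, r ≤ ‖z‖ → ψ (t, z) = z

/-- g is f composed with the deformation ψ in the chart σ, and is conjugate to f -/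
structure Pert {S : Type} [TopologicalSpace S] (σ : ℂ → S) (f : S ≃ₜ S) (ψ : ℂ → ℂ)
    (g : S ≃ₜ S) : Prop where
  conj : Conj f g
  maps : MapsTo ψ (ball 0 1) (ball 0 1)
  mapsD : MapsTo ψ Disc Disc
  ins : ∀ z ∈ Disc, g (σ z) = f (σ (ψ z))
  out : ∀ x, x ∉ σ '' Disc → g x = f x

/-- a stable homeomorphism which is dissipative in a chart -/
structure Sys (S : Type) [TopologicalSpace S] where
  σ : ℂ → S
  f : S ≃ₜ S
  F : Dis
  emb : IsOpenEmbedding σ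
  cj : ∀ z ∈ Disc, f (σ z) = σ (F.f z)
  out : ∀ x, x ∉ σ '' Disc → x ∈ periodicPts f → f x = x ∧ Stab f.symm x
  out_fin : {x | x ∉ σ '' Disc ∧ f x = x}.Finite
  fam : ∀ (P : Type) [NormedAddCommGroup P] [NormedSpace ℝ P] (ψ : P × ℂ → ℂ) (r : ℝ),
    Fam ψ r → ∀ᶠ t in 𝓝 (0 : P), ∃ g : S ≃ₜ S, Pert σ f (fun z => ψ (t, z)) g

/-- solutions of the derivative cocycle of T along the orbit o -/
def Sol (T : ℂ → ℂ) (o a : ℤ → ℂ) : Prop := ∀ n, a (n + 1) = fderiv ℝ T (o n) (a n)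

/-- a tangency between saddles for the M-th iterate -/
structure Tang (F : Dis) (M : ℕ) where
  p : ℂ
  q : ℂ
  o : ℤ → ℂ
  a : ℤ → ℂ
  ne : p ≠ q
  p_per : p ∈ periodicPts F.f
  q_per : q ∈ periodicPts F.f
  p_sd : ∀ U ∈ 𝓝 p, ∃ D : Sd F.f^[M] p, D.Bx ⊆ U
  q_sd : ∀ U ∈ 𝓝 q, ∃ D : Sd F.f^[M] q, D.Bx ⊆ U
  mem : ∀ n, o n ∈ F.Λ
  orb : ∀ n, o (n + 1) = F.f^[M] (o n)
  top : Tendsto o atTop (𝓝 q)
  bot : Tendsto o atBot (𝓝 p)
  sol : Sol F.f^[M] o a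
  a_ne : a 0 ≠ 0
  a_top : Tendsto a atTop (𝓝 0)
  a_bot : Tendsto a atBot (𝓝 0)

/-- a saddle chart with its stable graph -/
structure SdG (G : ℂ → ℂ) where
  c : ℂ
  D : Sd G c
  γ : ℝ → ℝ
  gr : D.Gr γ

/-- signed distance to the stable graph -/
noncomputable def SdG.d {G : ℂ → ℂ} (E : SdG G) (w : ℂ) : ℝ := E.D.X w - E.γ (E.D.Y w)

/-- points of the attractor whose past stays in the box from the time n0 on -/
def Lu (F : Dis) (M : ℕ) {c : ℂ} (D : Sd F.f^[M] c) (n0 : ℕ) : Set ℂ :=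
  {y | y ∈ F.Λ ∧ ∀ n, n0 ≤ n → F.g^[M * n] y ∈ D.Bx}

/-- a family of perturbations which moves all connections between saddles -/
structure Gen {S : Type} [TopologicalSpace S] (X : Sys S) (M m : ℕ)
    (ψ : (Fin m → ℂ) × ℂ → ℂ) (R η : ℝ) (K : Set ℂ) (𝒟 : Set (SdG X.F.f^[M])) : Prop where
  fam : Fam ψ R
  η_pos : 0 < η
  pert : ∀ v, ‖v‖ < η → ∃ g, Pert X.σ X.f (fun z => ψ (v, z)) g
  K_cpt : IsCompact K
  K_sub : K ⊆ Disc
  off : ∀ v z, z ∉ K → ψ (v, z) = z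
  K_per : ∀ c ∈ periodicPts X.F.f, c ∉ K
  fin : 𝒟.Finite
  all : ∀ c ∈ periodicPts X.F.f, Nonempty (Snk X.F.f^[M] c) ∨ ∃ E ∈ 𝒟, E.c = c
  box : ∀ E ∈ 𝒟, E.D.Bx ⊆ ball 0 1 ∧ ∀ w ∈ E.D.Bx, ∀ j < M, X.F.f^[j] w ∉ K
  move : ∀ v, ‖v‖ < η → ∀ E ∈ 𝒟, ∀ E' ∈ 𝒟, E.c ≠ E'.c → ∀ y ∈ E.D.Bx, ∀ n : ℕ,
    (X.F.f ∘ fun z => ψ (v, z))^[M * n] y ∈ E'.D.Bx →
      𝓝 ((X.F.f ∘ fun z => ψ (v, z))^[M * n] y) ≤
        map (fun v' => (X.F.f ∘ fun z => ψ (v', z))^[M * n] y) (𝓝 v)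

/-- no one sided contact between local unstable sets and stable graphs -/
def NoT (F : Dis) (M : ℕ) (T : ℂ → ℂ) (𝒟 : Set (SdG F.f^[M])) : Prop :=
  ∀ E ∈ 𝒟, ∀ E' ∈ 𝒟, E.c ≠ E'.c → ∀ n : ℕ, ∀ y ∈ Lu F M E.D 0, T^[M * n] y ∈ E'.D.Bx →
    E'.d (T^[M * n] y) = 0 → ∀ b : Bool,
      ¬ ∀ᶠ y' in 𝓝 y, y' ∈ Lu F M E.D 0 → 0 ≤ sg b * E'.d (T^[M * n] y')

end Pool.Agent.Lib.MP_6d0683_an
end

-- part Pool.Agent.Lib.MP_6d0683_an.Top
section

/-!
Conjugacy invariants.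
-/

set_option autoImplicit false

open Set Metric Filter Topology Function

namespace Pool.Agent.Lib.MP_6d0683_an

open MP_3fe454_an.PD MP_3fe454_an.S2

variable {S : Type} [TopologicalSpace S]

theorem top_iter {A B : Type} {G : A → A} {G' : B → B} (χ : A → B) (h : ∀ x, χ (G x) = G' (χ x))
    (n : ℕ) (x : A) : χ (G^[n] x) = G'^[n] (χ x) :=
  (Function.Semiconj.iterate_right (f := χ) (ga := G) (gb := G') h n) x

theorem top_symm {G G' : S → S} (χ : S ≃ₜ S) (h : ∀ x, χ (G x) = G' (χ x)) (y : S) :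
    χ.symm (G' y) = G (χ.symm y) := by
  apply χ.injective
  rw [h]
  simp

theorem Stab.conj {G G' : S → S} (χ : S ≃ₜ S) (h : ∀ x, χ (G x) = G' (χ x)) {c : S}
    (hc : Stab G c) : Stab G' (χ c) := by
  intro U hU
  obtain ⟨V, hV, hVU⟩ := hc (χ ⁻¹' U) (χ.continuous.continuousAt.preimage_mem_nhds hU)
  refine ⟨χ.symm ⁻¹' V, χ.symm.continuous.continuousAt.preimage_mem_nhds (by simpa using hV), ?_⟩
  intro y hy n
  have := hVU _ hy n
  rw [mem_preimage, top_iter χ h] at this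
  simpa using this

theorem Stab.germ {G G' : S → S} {c : S} (h : G =ᶠ[𝓝 c] G') (hc : Stab G c) : Stab G' c := by
  intro U hU
  obtain ⟨V, hV, hVU⟩ := hc (U ∩ {x | G x = G' x}) (inter_mem hU h)
  refine ⟨V, hV, fun y hy n => ?_⟩
  have key : ∀ n : ℕ, G'^[n] y = G^[n] y := by
    intro n
    induction n with
    | zero => rfl
    | succ n ih =>
      rw [iterate_succ_apply', iterate_succ_apply', ih]
      exact ((hVU y hy n).2).symm
  rw [key]
  exact (hVU y hy n).1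

theorem Stab.iter {G : S → S} {c : S} (hc : Stab G c) (m : ℕ) : Stab G^[m] c := by
  intro U hU
  obtain ⟨V, hV, hVU⟩ := hc U hU
  refine ⟨V, hV, fun y hy n => ?_⟩
  rw [← iterate_mul]
  exact hVU y hy _

theorem top_stab_iff {G G' : S → S} (χ : S ≃ₜ S) (h : ∀ x, χ (G x) = G' (χ x)) {c : S} :
    Stab G' (χ c) ↔ Stab G c := by
  refine ⟨fun hc => ?_, Stab.conj χ h⟩
  simpa using Stab.conj χ.symm (top_symm χ h) hc

theorem top_sad {G H G' H' : S → S} (χ : S ≃ₜ S) (h1 : ∀ x, χ (G x) = G' (χ x))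
    (h2 : ∀ x, χ (H x) = H' (χ x)) {c : S} (h : Sad G H c) : Sad G' H' (χ c) := by
  refine ⟨by rw [← h1, h.1], ?_, ?_⟩
  · rw [top_stab_iff χ h1]
    exact h.2.1
  · rw [top_stab_iff χ h2]
    exact h.2.2

theorem top_fw {G G' : S → S} (χ : S ≃ₜ S) (h : ∀ x, χ (G x) = G' (χ x)) (V : Set S) (n : ℕ)
    (x : S) : χ x ∈ Fw G' V n ↔ x ∈ Fw G (χ ⁻¹' V) n := by
  simp only [Fw, mem_ofPred_eq, mem_preimage, top_iter χ h]

theorem Touch.conj {G H G' H' : S → S} (χ : S ≃ₜ S) (h1 : ∀ x, χ (G x) = G' (χ x))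
    (h2 : ∀ x, χ (H x) = H' (χ x)) (h : Touch G H) : Touch G' H' := by
  obtain ⟨p, q, x, hp, hq, hpq, hx, hx', V0, hV0, U0, hU0, hm⟩ := h
  refine ⟨χ p, χ q, χ x, top_sad χ h1 h2 hp, top_sad χ h1 h2 hq,
    fun e => hpq (χ.injective e), ?_, ?_, χ '' V0, χ.isOpenMap.image_mem_nhds hV0,
    χ '' U0, χ.isOpenMap.image_mem_nhds hU0, ?_⟩
  · have := (χ.continuous.tendsto q).comp hx
    refine this.congr fun n => ?_
    exact top_iter χ h1 n x
  · have := (χ.continuous.tendsto p).comp hx'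
    refine this.congr fun n => ?_
    exact top_iter χ h2 n x
  intro V hV hVs U hU hUs
  have hV' : χ ⁻¹' V ⊆ V0 := fun y hy => by
    obtain ⟨y', hy', e⟩ := hVs hy
    rwa [← χ.injective e]
  have hU' : χ ⁻¹' U ⊆ U0 := fun y hy => by
    obtain ⟨y', hy', e⟩ := hUs hy
    rwa [← χ.injective e]
  filter_upwards [hm (χ ⁻¹' V) (χ.continuous.continuousAt.preimage_mem_nhds hV) hV'
    (χ ⁻¹' U) (χ.continuous.continuousAt.preimage_mem_nhds hU) hU'] with n hn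
  intro W hW
  obtain ⟨C, hC, hCc, hCe⟩ := hn (χ ⁻¹' W) (χ.continuous.continuousAt.preimage_mem_nhds hW)
  refine ⟨χ '' C, ?_, hCc.image χ χ.continuous.continuousOn, ?_⟩
  · rintro _ ⟨y, hy, rfl⟩
    exact ⟨(hC hy).1, fun hf => (hC hy).2 ((top_fw χ h1 V n y).1 hf)⟩
  · rw [← χ.map_nhds_eq, eventually_map]
    filter_upwards [hCe] with y hy hf
    rcases hy ((top_fw χ h2 U n y).1 hf) with h3 | h3
    · exact Or.inl ((top_fw χ h1 V n y).2 h3)
    · exact Or.inr ⟨y, h3, rfl⟩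

theorem Conj.symm {f g : S ≃ₜ S} (h : Conj f g) : Conj g f := by
  obtain ⟨χ, hχ⟩ := h
  exact ⟨χ.symm, top_symm χ hχ⟩

theorem Conj.trans {f g k : S ≃ₜ S} (h : Conj f g) (h' : Conj g k) : Conj f k := by
  obtain ⟨χ, hχ⟩ := h
  obtain ⟨χ', hχ'⟩ := h'
  refine ⟨χ.trans χ', fun x => ?_⟩
  simp only [Homeomorph.trans_apply]
  rw [hχ, hχ']

theorem Conj.touch {f g : S ≃ₜ S} (h : Conj f g) (M : ℕ) (ht : Touch f^[M] f.symm^[M]) :
    Touch g^[M] g.symm^[M] := by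
  obtain ⟨χ, hχ⟩ := h
  have hχ' : ∀ x, χ (f.symm x) = g.symm (χ x) := fun x => by
    apply g.injective
    rw [← hχ]
    simp
  exact Touch.conj χ (top_iter χ hχ M) (top_iter χ hχ' M) ht

theorem top_image {f g : S → S} (χ : S ≃ₜ S) (hχ : ∀ x, χ (f x) = g (χ x)) (n : ℕ) :
    χ '' {x | f^[n] x = x} = {x | g^[n] x = x} := by
  ext y
  constructor
  · rintro ⟨x, hx, rfl⟩
    have hx' : f^[n] x = x := hx
    show g^[n] (χ x) = χ x
    rw [← top_iter χ hχ, hx']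
  · intro hy
    have hy' : g^[n] y = y := hy
    refine ⟨χ.symm y, ?_, by simp⟩
    show f^[n] (χ.symm y) = χ.symm y
    rw [← top_iter χ.symm (top_symm χ hχ), hy']

theorem Conj.fin {f g : S ≃ₜ S} (h : Conj f g) {n : ℕ} (hf : {x | f^[n] x = x}.Finite) :
    {x | g^[n] x = x}.Finite := by
  obtain ⟨χ, hχ⟩ := h
  rw [← top_image χ hχ n]
  exact hf.image χ

theorem top_eq_of_image {A B : Set S} (χ : S ≃ₜ S) (hA : A.Finite) (hi : χ '' A = B)
    (hs : A ⊆ B) : A = B := by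
  refine Set.eq_of_subset_of_ncard_le hs ?_ (hi ▸ hA.image χ)
  rw [← hi, Set.ncard_image_of_injective A χ.injective]

theorem Conj.fix_eq {f g : S ≃ₜ S} (h : Conj f g) {n : ℕ} (hf : {x | f^[n] x = x}.Finite)
    (hs : ∀ x, f^[n] x = x → g^[n] x = x) (x : S) (hx : g^[n] x = x) : f^[n] x = x := by
  obtain ⟨χ, hχ⟩ := h
  have := top_eq_of_image χ hf (top_image χ hχ n) hs
  have hx' : x ∈ {x | g^[n] x = x} := hx
  rw [← this] at hx'
  exact hx'

theorem Conj.stab_eq {f g : S ≃ₜ S} (h : Conj f g) {n m : ℕ} (hf : {x | f^[n] x = x}.Finite)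
    (hs : ∀ x, f^[n] x = x → Stab f^[m] x → g^[n] x = x ∧ Stab g^[m] x) (x : S)
    (hx : g^[n] x = x) (hx' : Stab g^[m] x) : Stab f^[m] x := by
  obtain ⟨χ, hχ⟩ := h
  have hi : χ '' {x | f^[n] x = x ∧ Stab f^[m] x} = {x | g^[n] x = x ∧ Stab g^[m] x} := by
    ext y
    constructor
    · rintro ⟨x, hx, rfl⟩
      refine ⟨?_, Stab.conj χ (top_iter χ hχ m) hx.2⟩
      rw [← top_iter χ hχ, hx.1]
    · intro hy
      refine ⟨χ.symm y, ⟨?_, Stab.conj χ.symm (top_iter χ.symm (top_symm χ hχ) m) hy.2⟩, by simp⟩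
      rw [← top_iter χ.symm (top_symm χ hχ), hy.1]
  have := top_eq_of_image χ (hf.subset fun x hx => hx.1) hi fun x hx => hs x hx.1 hx.2
  have h3 : x ∈ {x | g^[n] x = x ∧ Stab g^[m] x} := ⟨hx, hx'⟩
  rw [← this] at h3
  exact h3.2

theorem germ_symm {f g : S ≃ₜ S} {n : ℕ} {c : S} (hc : f^[n] c = c) (h : g^[n] =ᶠ[𝓝 c] f^[n]) :
    g.symm^[n] =ᶠ[𝓝 c] f.symm^[n] := by
  have hl : ∀ (k : S ≃ₜ S) (x : S), k.symm^[n] (k^[n] x) = x := fun k x =>
    (LeftInverse.iterate (g := k.symm) (f := k) k.symm_apply_apply n) x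
  have hr : ∀ (k : S ≃ₜ S) (x : S), k^[n] (k.symm^[n] x) = x := fun k x =>
    (LeftInverse.iterate (g := k) (f := k.symm) k.apply_symm_apply n) x
  have hc' : f.symm^[n] c = c := by
    conv_lhs => rw [← hc]
    exact hl f c
  have ht : Tendsto (f.symm^[n]) (𝓝 c) (𝓝 c) := by
    have := (f.symm.continuous.iterate n).tendsto c
    rwa [hc'] at this
  filter_upwards [ht.eventually h] with y hy
  rw [hr] at hy
  conv_lhs => rw [← hy]
  exact hl g _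

theorem stab_chart {σ : ℂ → S} (hσ : IsOpenEmbedding σ) {T : S → S} {G : ℂ → ℂ}
    (h : ∀ z ∈ Disc, T (σ z) = σ (G z)) (hm : MapsTo G Disc Disc) {c : ℂ} (hc : ‖c‖ < 1) :
    Stab T (σ c) ↔ Stab G c := by
  have hD : Disc ∈ 𝓝 c :=
    mem_of_superset (isOpen_ball.mem_nhds (mem_ball_zero_iff.2 hc)) ball_subset_closedBall
  have key : ∀ z ∈ Disc, ∀ n : ℕ, T^[n] (σ z) = σ (G^[n] z) := by
    intro z hz n
    induction n with
    | zero => rfl
    | succ n ih => rw [iterate_succ_apply', iterate_succ_apply', ih, h _ (hm.iterate n hz)]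
  constructor
  · intro hs U hU
    obtain ⟨V, hV, hVU⟩ := hs (σ '' U) (hσ.isOpenMap.image_mem_nhds hU)
    refine ⟨σ ⁻¹' V ∩ Disc, inter_mem (hσ.continuous.continuousAt.preimage_mem_nhds hV) hD, ?_⟩
    intro y hy n
    obtain ⟨y', hy', e⟩ := hVU _ hy.1 n
    rw [key y hy.2] at e
    rwa [← hσ.injective e]
  · intro hs U hU
    obtain ⟨V, hV, hVU⟩ := hs (σ ⁻¹' U) (hσ.continuous.continuousAt.preimage_mem_nhds hU)
    refine ⟨σ '' (V ∩ Disc), hσ.isOpenMap.image_mem_nhds (inter_mem hV hD), ?_⟩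
    rintro _ ⟨y, hy, rfl⟩ n
    rw [key y hy.2]
    exact hVU y hy.1 n

theorem not_stab_back [T1Space S] {T T' : S → S} (h : LeftInverse T' T) {c z : S} (hz : z ≠ c)
    (ht : Tendsto (fun n : ℕ => T^[n] z) atTop (𝓝 c)) : ¬ Stab T' c := by
  intro hs
  obtain ⟨V, hV, hVU⟩ := hs {z}ᶜ (isOpen_compl_singleton.mem_nhds hz.symm)
  obtain ⟨n, hn⟩ := (ht.eventually hV).exists
  have := hVU _ hn n
  rw [h.iterate n z] at this
  exact this rfl

end Pool.Agent.Lib.MP_6d0683_an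
end

-- part Pool.Agent.Lib.MP_6d0683_an.Sys
section

/-!
Perturbations read in the chart.
-/

set_option autoImplicit false

open Set Metric Filter Topology Function

namespace Pool.Agent.Lib.MP_6d0683_an

open MP_3fe454_an.PD MP_3fe454_an.S2

variable {S : Type} [TopologicalSpace S] {X : Sys S} {ψ : ℂ → ℂ} {g : S ≃ₜ S}

theorem Sys.pert_id (X : Sys S) : Pert X.σ X.f id X.f := by
  exact ⟨⟨Homeomorph.refl _, fun _ => rfl⟩, mapsTo_id _, mapsTo_id _, fun _ _ => rfl, fun _ _ => rfl⟩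

theorem Pert.iter (h : Pert X.σ X.f ψ g) {z : ℂ} (hz : z ∈ Disc) (n : ℕ) :
    g^[n] (X.σ z) = X.σ ((X.F.f ∘ ψ)^[n] z) := by
  induction n generalizing z with
  | zero => rfl
  | succ n ih =>
    rw [iterate_succ_apply, iterate_succ_apply, h.ins z hz, X.cj _ (h.mapsD hz)]
    exact ih (X.F.f_mem_Disc _)

theorem Sys.iter (X : Sys S) {z : ℂ} (hz : z ∈ Disc) (n : ℕ) :
    X.f^[n] (X.σ z) = X.σ (X.F.f^[n] z) := by
  exact X.pert_id.iter hz n

theorem Sys.back (X : Sys S) {z : ℂ} (hz : z ∈ X.F.Λ) (n : ℕ) :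
    X.f.symm^[n] (X.σ z) = X.σ (X.F.g^[n] z) := by
  induction n generalizing z with
  | zero => rfl
  | succ n ih =>
    rw [iterate_succ_apply, iterate_succ_apply, ← ih (X.F.g_mem_Λ hz)]
    refine congrArg _ (X.f.symm_apply_eq.2 ?_)
    rw [X.cj _ (X.F.Λ_sub_Disc (X.F.g_mem_Λ hz)), X.F.f_g hz]

theorem Pert.inj (h : Pert X.σ X.f ψ g) : InjOn ψ Disc := by
  intro z hz w hw e
  exact X.emb.injective (g.injective (by rw [h.ins z hz, h.ins w hw, e]))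

theorem Pert.eq_off (h : Pert X.σ X.f ψ g) {K : Set ℂ} (hψ : ∀ z, z ∉ K → ψ z = z) {x : S}
    (hx : x ∉ X.σ '' K) : g x = X.f x := by
  by_cases k : x ∈ X.σ '' Disc
  · obtain ⟨z, hz, rfl⟩ := k
    rw [h.ins z hz, hψ z fun e => hx (mem_image_of_mem _ e)]
  · exact h.out x k

theorem sys_iter_eq {α : Type} {f g : α → α} {x : α} {n : ℕ}
    (h : ∀ j < n, g (f^[j] x) = f (f^[j] x)) : g^[n] x = f^[n] x := by
  induction n with
  | zero => rfl
  | succ n ih =>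
    rw [iterate_succ_apply', iterate_succ_apply', ih fun j hj => h j (hj.trans n.lt_succ_self),
      h n n.lt_succ_self]

theorem Pert.germ [T2Space S] (h : Pert X.σ X.f ψ g) {K : Set ℂ} (hK : IsCompact K)
    (hψ : ∀ z, z ∉ K → ψ z = z) {x : S} {n : ℕ} (hx : ∀ j < n, X.f^[j] x ∉ X.σ '' K) :
    g^[n] =ᶠ[𝓝 x] X.f^[n] := by
  have hc := (hK.image X.emb.continuous).isClosed.isOpen_compl
  filter_upwards [(eventually_all_finite (finite_lt_nat n)).2 fun j hj =>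
    (X.f.continuous.iterate j).continuousAt.eventually_mem (hc.mem_nhds (hx j hj))] with y hy
  exact sys_iter_eq fun j hj => h.eq_off hψ (hy j hj)

theorem Pert.fin' (h : Pert X.σ X.f ψ g) {n : ℕ} (hn : 0 < n)
    (hf : {z | (X.F.f ∘ ψ)^[n] z = z}.Finite) : {x | g^[n] x = x}.Finite := by
  refine ((hf.image X.σ).union X.out_fin).subset fun x hx => ?_
  by_cases k : x ∈ X.σ '' Disc
  · obtain ⟨z, hz, rfl⟩ := k
    exact .inl ⟨z, X.emb.injective ((h.iter hz n).symm.trans hx), rfl⟩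
  have h1 : ∀ j, g^[j] x ∉ X.σ '' Disc := by
    rintro j ⟨z, hz, e⟩
    obtain ⟨m, hm⟩ : ∃ m, n * j = m + j := Nat.exists_eq_add_of_le' (Nat.le_mul_of_pos_left j hn)
    have h2 : g^[n * j] x = x := IsPeriodicPt.mul_const (f := g) hx j
    rw [hm, iterate_add_apply, ← e, h.iter hz] at h2
    exact k ⟨_, MapsTo.iterate (fun w _ => X.F.f_mem_Disc _) m hz, h2⟩
  have h3 : X.f^[n] x = x := (sys_iter_eq fun j _ => (h.out _ (h1 j)).symm).trans hx
  exact .inr ⟨k, (X.out x k (mk_mem_periodicPts hn h3)).1⟩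

theorem Pert.fin (h : Pert X.σ X.f ψ g) {n : ℕ} (hn : 0 < n)
    (hf : {z | (X.F.f ∘ ψ)^[n] z = z}.Finite) : {z | X.F.f^[n] z = z}.Finite := by
  refine ((h.conj.symm.fin (h.fin' hn hf)).preimage X.emb.injective.injOn).subset fun z hz => ?_
  exact (X.iter (X.F.Λ_sub_Disc (X.F.periodic_mem_Λ (mk_mem_periodicPts hn hz))) n).trans
    (congrArg X.σ hz)

theorem Sys.fin (X : Sys S) {n : ℕ} (hn : 0 < n) (hf : {z | X.F.f^[n] z = z}.Finite) :
    {x | X.f^[n] x = x}.Finite := by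
  exact X.pert_id.fin' hn hf

theorem Pert.map_nhds (h : Pert X.σ X.f ψ g) {z : ℂ} (hz : ‖z‖ < 1) (n : ℕ) :
    map (X.F.f ∘ ψ)^[n] (𝓝 z) = 𝓝 ((X.F.f ∘ ψ)^[n] z) := by
  have h1 : ∀ (m : ℕ) (x : S), map g^[m] (𝓝 x) = 𝓝 (g^[m] x) := fun m x => by
    induction m with
    | zero => exact map_id
    | succ m ih => rw [iterate_succ', ← map_map, ih, g.map_nhds_eq, comp_apply]
  have h2 : Disc ∈ 𝓝 z := closedBall_mem_nhds_of_mem (mem_ball_zero_iff.2 hz)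
  refine map_injective X.emb.injective ?_
  rw [X.emb.map_nhds_eq, ← h.iter (mem_of_mem_nhds h2), ← h1, ← X.emb.map_nhds_eq, map_map, map_map]
  exact map_congr (mem_of_superset h2 fun w hw => (h.iter hw n).symm)

theorem Sys.per_cases (X : Sys S) {x : S} (hx : x ∈ periodicPts X.f) :
    (∃ c ∈ periodicPts X.F.f, x = X.σ c) ∨ (x ∉ X.σ '' Disc ∧ Stab X.f.symm x) := by
  by_cases k : x ∈ X.σ '' Disc
  · obtain ⟨z, hz, rfl⟩ := k
    obtain ⟨n, hn, e⟩ := hx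
    exact .inl ⟨z, mk_mem_periodicPts hn (X.emb.injective ((X.iter hz n).symm.trans e)), rfl⟩
  · exact .inr ⟨k, (X.out x k hx).2⟩

theorem Sys.no_cascade (X : Sys S) (h : ¬ Cascade X.f) : ¬ Cascade X.F.f := by
  rintro ⟨m, hm, k⟩
  refine h ⟨m, hm, fun j => ?_⟩
  obtain ⟨p, hp⟩ := k j
  have h1 : p ∈ Disc := X.F.Λ_sub_Disc (X.F.periodic_mem_Λ
    (minimalPeriod_pos_iff_mem_periodicPts.1 (by rw [hp]; positivity)))
  refine ⟨X.σ p, (minimalPeriod_eq_minimalPeriod_iff.2 fun n => ?_).trans hp⟩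
  rw [IsPeriodicPt, IsPeriodicPt, IsFixedPt, IsFixedPt, X.iter h1, X.emb.injective.eq_iff]

/-- a deformation supported away from the periodic points keeps the fixed points of the
M-th iterate, and the germs there -/
theorem Pert.keep [T2Space S] (h : Pert X.σ X.f ψ g) {M : ℕ} (hG : Good X.F M) {K : Set ℂ}
    (hK : IsCompact K) (hψ : ∀ z, z ∉ K → ψ z = z) (hP : ∀ c ∈ periodicPts X.F.f, c ∉ K)
    (hKD : K ⊆ Disc) (x : S) :
    (g^[M] x = x ↔ X.f^[M] x = x) ∧ (X.f^[M] x = x →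
      g^[M] =ᶠ[𝓝 x] X.f^[M] ∧ g.symm^[M] =ᶠ[𝓝 x] X.f.symm^[M]) := by
  have h1 : ∀ y, X.f^[M] y = y → g^[M] =ᶠ[𝓝 y] X.f^[M] := fun y hy => by
    refine h.germ hK hψ ?_
    rintro j - ⟨z, hz, e⟩
    refine hP z (mk_mem_periodicPts hG.pos (X.emb.injective ?_)) hz
    rw [← X.iter (hKD hz), e, ← iterate_add_apply, add_comm, iterate_add_apply, hy]
  have h2 : ∀ y, X.f^[M] y = y → g^[M] y = y := fun y hy => (h1 y hy).eq_of_nhds.trans hy
  exact ⟨⟨h.conj.fix_eq (X.fin hG.pos (hG.fin.subset fun _ => mk_mem_periodicPts hG.pos)) h2 x,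
    h2 x⟩, fun hx => ⟨h1 x hx, germ_symm hx (h1 x hx)⟩⟩

end Pool.Agent.Lib.MP_6d0683_an
end

-- part Pool.Agent.Lib.MP_6d0683_an.Seq
section

/-!
Sequences under almost diagonal maps.
-/

set_option autoImplicit false

open Set Metric Filter Topology Function

namespace Pool.Agent.Lib.MP_6d0683_an

open MP_3fe454_an.PD MP_3fe454_an.S2

namespace Cst

variable {k : Cst} {u u' : ℝ × ℝ}

private theorem nrm1 (hu : |u.2| ≤ |u.1|) : ‖u‖ = |u.1| := max_eq_left hu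

private theorem nrm2 (hu : |u.1| ≤ |u.2|) : ‖u‖ = |u.2| := max_eq_right hu

private theorem St.c1 (h : k.St u u') : |u'.1 - k.s * u.1| ≤ k.e * ‖u‖ :=
  (norm_fst_le (u' - (k.s * u.1, k.l * u.2))).trans h

private theorem St.c2 (h : k.St u u') : |u'.2| ≤ k.l * |u.2| + k.e * ‖u‖ := by
  have h1 : |u'.2 - k.l * u.2| ≤ k.e * ‖u‖ := (norm_snd_le (u' - (k.s * u.1, k.l * u.2))).trans h
  have h2 := abs_sub_abs_le_abs_sub u'.2 (k.l * u.2)
  rw [abs_mul, abs_of_nonneg k.l_nn] at h2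
  linarith

private theorem down {p : ℕ → Prop} (h : ∀ j, p (j + 1) → p j) {N : ℕ} (hN : p N) {j : ℕ}
    (hj : j ≤ N) : p j :=
  Nat.decreasingInduction (fun i _ hi => h i hi) hN hj

theorem St.fwd (h : k.St u u') (hu : |u.2| ≤ |u.1|) :
    |u'.2| ≤ |u'.1| ∧ (k.s - k.e) * |u.1| ≤ |u'.1| ∧ (0 < u.1 → 0 < u'.1) ∧
      (u.1 < 0 → u'.1 < 0) := by
  have h1 := abs_le.mp h.c1
  have h2 := h.c2
  rw [nrm1 hu] at h1 h2
  have e := k.e_nn
  have hs := k.hs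
  have a0 := abs_nonneg u.1
  have h3 : (k.s - k.e) * |u.1| ≤ |u'.1| := by
    have h4 := abs_sub_abs_le_abs_sub (k.s * u.1) u'.1
    rw [abs_sub_comm, abs_mul, abs_of_nonneg (by linarith : 0 ≤ k.s)] at h4
    have h5 := abs_le.mpr h1
    linarith
  refine ⟨?_, h3, fun h0 => ?_, fun h0 => ?_⟩
  · have h4 := mul_le_mul_of_nonneg_left hu k.l_nn
    nlinarith [k.hl]
  · rw [abs_of_pos h0] at h1
    nlinarith
  · rw [abs_of_neg h0] at h1
    nlinarith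

theorem St.fwd_lt (h : k.St u u') (hu : |u.2| < |u.1|) : |u'.2| < |u'.1| := by
  have h2 := h.c2
  rw [nrm1 hu.le] at h2
  have h3 := (h.fwd hu.le).2.1
  have h4 := mul_le_mul_of_nonneg_left hu.le k.l_nn
  have a0 : 0 < |u.1| := (abs_nonneg _).trans_lt hu
  nlinarith [k.hl, k.hs]

theorem St.ver (h : k.St u u') (hu : |u.1| ≤ |u.2|) : |u'.2| ≤ (k.l + k.e) * |u.2| := by
  have h2 := h.c2
  rw [nrm2 hu] at h2
  linarith

theorem St.le (h : k.St u u') : ‖u'‖ ≤ (k.s + k.e) * ‖u‖ := by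
  have e := k.e_nn
  have hs := k.hs
  have a1 : |u.1| ≤ ‖u‖ := norm_fst_le u
  have a2 : |u.2| ≤ ‖u‖ := norm_snd_le u
  have a0 := norm_nonneg u
  refine max_le ?_ ?_
  · have h1 := h.c1
    have h4 := abs_sub_abs_le_abs_sub u'.1 (k.s * u.1)
    rw [abs_mul, abs_of_nonneg (by linarith : 0 ≤ k.s)] at h4
    have h5 := mul_le_mul_of_nonneg_left a1 (by linarith : 0 ≤ k.s)
    rw [Real.norm_eq_abs]
    linarith
  · have h2 := h.c2
    have h5 := mul_le_mul_of_nonneg_left a2 k.l_nn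
    rw [Real.norm_eq_abs]
    nlinarith [k.hl]

theorem decay_fwd {u : ℕ → ℝ × ℝ} (h : ∀ n, k.St (u n) (u (n + 1)))
    (hc : ∀ n, |(u n).1| ≤ |(u n).2|) (n : ℕ) : ‖u n‖ ≤ (k.l + k.e) ^ n * ‖u 0‖ := by
  induction n with
  | zero => simp
  | succ n ih =>
    have h1 := (h n).ver (hc n)
    rw [nrm2 (hc n)] at ih
    rw [nrm2 (hc (n + 1)), pow_succ', mul_assoc]
    exact h1.trans (mul_le_mul_of_nonneg_left ih (add_nonneg k.l_nn k.e_nn))

private theorem zero_aux {u : ℕ → ℝ × ℝ} (h : ∀ n, k.St (u n) (u (n + 1))) {C : ℝ}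
    (hb : ∀ n, ‖u n‖ ≤ C) (h0 : |(u 0).2| ≤ |(u 0).1|) : (u 0).1 = 0 := by
  have key : ∀ j, |(u j).2| ≤ |(u j).1| ∧ (k.s - k.e) ^ j * |(u 0).1| ≤ |(u j).1| := by
    intro j
    induction j with
    | zero => exact ⟨h0, by simp⟩
    | succ j ih =>
      have h1 := (h j).fwd ih.1
      refine ⟨h1.1, le_trans ?_ h1.2.1⟩
      rw [pow_succ', mul_assoc]
      exact mul_le_mul_of_nonneg_left ih.2 (by linarith [k.hs])
  by_contra hne
  obtain ⟨j, hj⟩ := pow_unbounded_of_one_lt (C / |(u 0).1|) k.hs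
  rw [div_lt_iff₀ (abs_pos.mpr hne)] at hj
  have h2 : |(u j).1| ≤ C := (norm_fst_le (u j)).trans (hb j)
  linarith [(key j).2]

theorem cone_fwd {u : ℕ → ℝ × ℝ} (h : ∀ n, k.St (u n) (u (n + 1))) {C : ℝ}
    (hb : ∀ n, ‖u n‖ ≤ C) (n : ℕ) : |(u n).1| ≤ |(u n).2| := by
  by_contra hn
  have hn' := not_le.mp hn
  have h0 := zero_aux (u := fun j => u (n + j)) (fun j => h (n + j)) (fun j => hb (n + j)) hn'.le
  rw [show (u n).1 = 0 from h0, abs_zero] at hn'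
  exact hn'.not_ge (abs_nonneg _)

theorem decay_bwd {u : ℕ → ℝ × ℝ} (h : ∀ n, k.St (u (n + 1)) (u n))
    (hc : ∀ n, |(u n).2| ≤ |(u n).1|) (n : ℕ) : (k.s - k.e) ^ n * ‖u n‖ ≤ ‖u 0‖ := by
  induction n with
  | zero => simp
  | succ n ih =>
    have h1 := ((h n).fwd (hc (n + 1))).2.1
    rw [nrm1 (hc n)] at ih
    rw [nrm1 (hc (n + 1)), pow_succ, mul_assoc]
    exact (mul_le_mul_of_nonneg_left h1 (pow_nonneg (by linarith [k.hs]) n)).trans ih

theorem cone_bwd {u : ℕ → ℝ × ℝ} (h : ∀ n, k.St (u (n + 1)) (u n)) {C : ℝ}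
    (hb : ∀ n, ‖u n‖ ≤ C) (n : ℕ) : |(u n).2| ≤ |(u n).1| := by
  by_contra hn
  have hn' := not_le.mp hn
  have l0 := add_nonneg k.l_nn k.e_nn
  have key : ∀ j, |(u (n + j)).1| < |(u (n + j)).2| ∧
      |(u n).2| ≤ (k.l + k.e) ^ j * |(u (n + j)).2| := by
    intro j
    induction j with
    | zero => exact ⟨hn', by simp⟩
    | succ j ih =>
      have h1 : |(u (n + j + 1)).1| < |(u (n + j + 1)).2| :=
        not_le.mp fun h2 => ih.1.not_ge ((h (n + j)).fwd h2).1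
      refine ⟨h1, ih.2.trans ?_⟩
      rw [pow_succ, mul_assoc]
      exact mul_le_mul_of_nonneg_left ((h (n + j)).ver h1.le) (pow_nonneg l0 j)
  have lim := (tendsto_pow_atTop_nhds_zero_of_lt_one l0 k.hl).mul_const C
  rw [zero_mul] at lim
  have h3 : |(u n).2| ≤ 0 := ge_of_tendsto' lim fun j => (key j).2.trans
    (mul_le_mul_of_nonneg_left ((norm_snd_le (u (n + j))).trans (hb _)) (pow_nonneg l0 j))
  linarith [abs_nonneg (u n).1]

theorem tend_fwd {u : ℕ → ℝ × ℝ} (h : ∀ n, k.St (u n) (u (n + 1)))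
    (hc : ∀ n, |(u n).1| ≤ |(u n).2|) : Tendsto u atTop (𝓝 0) := by
  have lim := (tendsto_pow_atTop_nhds_zero_of_lt_one (add_nonneg k.l_nn k.e_nn) k.hl).mul_const
    ‖u 0‖
  rw [zero_mul] at lim
  exact squeeze_zero_norm (decay_fwd h hc) lim

theorem tend_bwd {u : ℕ → ℝ × ℝ} (h : ∀ n, k.St (u (n + 1)) (u n))
    (hc : ∀ n, |(u n).2| ≤ |(u n).1|) : Tendsto u atTop (𝓝 0) := by
  have p0 : 0 < k.s - k.e := by linarith [k.hs]
  have lim := (tendsto_pow_atTop_nhds_zero_of_lt_one (inv_nonneg.mpr p0.le)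
    (inv_lt_one_of_one_lt₀ k.hs)).mul_const ‖u 0‖
  rw [zero_mul] at lim
  refine squeeze_zero_norm (fun n => ?_) lim
  rw [inv_pow, le_inv_mul_iff₀ (pow_pos p0 n)]
  exact decay_bwd h hc n

/-- a bounded forward sequence whose first term is horizontal vanishes there -/
theorem zero_fwd {u : ℕ → ℝ × ℝ} (h : ∀ n, k.St (u n) (u (n + 1))) {C : ℝ}
    (hb : ∀ n, ‖u n‖ ≤ C) (h0 : |(u 0).2| ≤ |(u 0).1|) : u 0 = 0 := by
  have h1 := zero_aux h hb h0
  rw [h1, abs_zero] at h0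
  exact Prod.ext h1 (abs_nonpos_iff.mp h0)

/-- a bounded backward sequence whose first term is on the vertical axis vanishes there -/
theorem zero_bwd {u : ℕ → ℝ × ℝ} (h : ∀ n, k.St (u (n + 1)) (u n)) {C : ℝ}
    (hb : ∀ n, ‖u n‖ ≤ C) (h0 : (u 0).1 = 0) : u 0 = 0 := by
  have h1 := cone_bwd h hb 0
  rw [h0, abs_zero] at h1
  exact Prod.ext h0 (abs_nonpos_iff.mp h1)

theorem exists_fwd (T : ℕ → ℝ × ℝ → ℝ × ℝ) (hT : ∀ n, Continuous (T n))
    (h : ∀ n u, k.St u (T n u)) (y : ℝ) : ∃ u : ℕ → ℝ × ℝ, (u 0).2 = y ∧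
      (∀ n, u (n + 1) = T n (u n)) ∧ ∀ n, |(u n).1| ≤ |(u n).2| := by
  obtain ⟨U, U0, Us⟩ : ∃ U : ℕ → ℝ → ℝ × ℝ, (∀ x, U 0 x = (x, y)) ∧
      ∀ n x, U (n + 1) x = T n (U n x) :=
    ⟨fun n => Nat.rec (fun x => (x, y)) (fun n f x => T n (f x)) n, fun _ => rfl, fun _ _ => rfl⟩
  have hU : ∀ n, Continuous (U n) := by
    intro n
    induction n with
    | zero => exact (continuous_id.prodMk continuous_const).congr fun x => (U0 x).symm
    | succ n ih => exact ((hT n).comp ih).congr fun x => (Us n x).symm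
  have st : ∀ n x, k.St (U n x) (U (n + 1) x) := fun n x => Us n x ▸ h n _
  have y0 := abs_nonneg y
  have hor : ∀ x, |y| ≤ |x| → ∀ n, |(U n x).2| ≤ |(U n x).1| ∧ (0 < x → 0 < (U n x).1) ∧
      (x < 0 → (U n x).1 < 0) := by
    intro x hx n
    induction n with
    | zero => rw [U0]; exact ⟨hx, id, id⟩
    | succ n ih =>
      have h1 := (st n x).fwd ih.1
      exact ⟨h1.1, fun h0 => h1.2.2.1 (ih.2.1 h0), fun h0 => h1.2.2.2 (ih.2.2 h0)⟩
  let K : ℕ → Set ℝ := fun N =>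
    Icc (-(|y| + 1)) (|y| + 1) ∩ ⋂ j ≤ N, {x | |(U j x).1| ≤ |(U j x).2|}
  have cl : ∀ N, IsClosed (⋂ j ≤ N, {x | |(U j x).1| ≤ |(U j x).2|}) := fun N =>
    isClosed_biInter fun j _ => isClosed_le (hU j).fst.abs (hU j).snd.abs
  have ne : ∀ N, (K N).Nonempty := by
    intro N
    have h0 : |y| ≤ |(|y| + 1)| := le_trans (by linarith) (le_abs_self _)
    have h1 := (hor (|y| + 1) h0 N).2.1 (by linarith)
    have h2 := (hor (-(|y| + 1)) (by rwa [abs_neg]) N).2.2 (by linarith)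
    obtain ⟨x, hx, hx0⟩ := intermediate_value_Icc (by linarith : -(|y| + 1) ≤ |y| + 1)
      (hU N).fst.continuousOn (⟨h2.le, h1.le⟩ : (0 : ℝ) ∈ Icc _ _)
    refine ⟨x, hx, mem_iInter₂.mpr fun j hj => ?_⟩
    refine down (p := fun j => |(U j x).1| ≤ |(U j x).2|)
      (fun j hj => not_lt.mp fun h3 => hj.not_gt ((st j x).fwd_lt h3)) ?_ hj
    rw [show (U N x).1 = 0 from hx0, abs_zero]
    exact abs_nonneg _
  obtain ⟨x, hx⟩ := IsCompact.nonempty_iInter_of_sequence_nonempty_isCompact_isClosed K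
    (fun N => inter_subset_inter_right _
      (biInter_subset_biInter_left fun j hj => Nat.le_succ_of_le hj))
    ne (isCompact_Icc.inter_right (cl 0)) (fun N => isClosed_Icc.inter (cl N))
  exact ⟨fun n => U n x, congrArg Prod.snd (U0 x), fun n => Us n x,
    fun n => mem_iInter₂.mp (mem_iInter.mp hx n).2 n le_rfl⟩

theorem exists_bwd (T : ℕ → (ℝ × ℝ) ≃L[ℝ] (ℝ × ℝ)) (h : ∀ n u, k.St u (T n u)) :
    ∃ u : ℕ → ℝ × ℝ, u 0 ≠ 0 ∧ (∀ n, T n (u (n + 1)) = u n) ∧ ∀ n, |(u n).2| ≤ |(u n).1| := by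
  obtain ⟨L, L0, Ls⟩ : ∃ L : ℕ → (ℝ × ℝ) ≃L[ℝ] (ℝ × ℝ), (∀ w, L 0 w = w) ∧
      ∀ n w, T n (L (n + 1) w) = L n w :=
    ⟨fun n => Nat.rec (ContinuousLinearEquiv.refl ℝ _) (fun n f => f.trans (T n).symm) n,
      fun _ => rfl, fun n _ => (T n).apply_symm_apply _⟩
  let K : ℕ → Set (ℝ × ℝ) := fun N =>
    sphere 0 1 ∩ ⋂ j ≤ N, {w | |(L j w).2| ≤ |(L j w).1|}
  have cl : ∀ N, IsClosed (⋂ j ≤ N, {w | |(L j w).2| ≤ |(L j w).1|}) := fun N =>
    isClosed_biInter fun j _ => isClosed_le (L j).continuous.snd.abs (L j).continuous.fst.abs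
  have ne : ∀ N, (K N).Nonempty := by
    intro N
    have h0 : (L N).symm (1, 0) ≠ 0 := by simp [Prod.ext_iff]
    refine ⟨‖(L N).symm (1, 0)‖⁻¹ • (L N).symm (1, 0), ?_, mem_iInter₂.mpr fun j hj => ?_⟩
    · rw [mem_sphere_zero_iff_norm, norm_smul, norm_inv, norm_norm,
        inv_mul_cancel₀ (norm_ne_zero_iff.mpr h0)]
    · refine down (p := fun j => |(L j _).2| ≤ |(L j _).1|)
        (fun j hj => Ls j _ ▸ ((h j _).fwd hj).1) ?_ hj
      simp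
  obtain ⟨w, hw⟩ := IsCompact.nonempty_iInter_of_sequence_nonempty_isCompact_isClosed K
    (fun N => inter_subset_inter_right _
      (biInter_subset_biInter_left fun j hj => Nat.le_succ_of_le hj))
    ne ((isCompact_sphere 0 1).inter_right (cl 0)) (fun N => isClosed_sphere.inter (cl N))
  refine ⟨fun n => L n w, ?_, fun n => Ls n w,
    fun n => mem_iInter₂.mp (mem_iInter.mp hw n).2 n le_rfl⟩
  exact (L0 w).trans_ne (ne_of_mem_sphere (mem_iInter.mp hw 0).1 one_ne_zero)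

end Cst

end Pool.Agent.Lib.MP_6d0683_an
end

-- part Pool.Agent.Lib.MP_6d0683_an.Sd1
section

/-!
Charts at hyperbolic saddles.
-/

set_option autoImplicit false

open Set Metric Filter Topology Function

namespace Pool.Agent.Lib.MP_6d0683_an

open MP_3fe454_an.PD MP_3fe454_an.S2

variable {G : ℂ → ℂ} {c : ℂ}

theorem exists_sd {L : ℂ →L[ℝ] ℂ} (hL : HasStrictFDerivAt G L c) (hc : G c = c)
    (A : ℂ ≃L[ℝ] ℝ × ℝ) {s l : ℝ} (hs : 1 < s) (h0 : 0 ≤ l) (h1 : l < 1)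
    (hA : ∀ v, A (L v) = (s * (A v).1, l * (A v).2)) :
    ∀ U ∈ 𝓝 c, ∃ D : Sd G c, D.Bx ⊆ U := by
  intro U hU
  obtain ⟨e, e0, e1, e2⟩ : ∃ e : ℝ, 0 < e ∧ 1 < s - e ∧ l + e < 1 :=
    ⟨min (s - 1) (1 - l) / 2, by have := lt_min (sub_pos.2 hs) (sub_pos.2 h1); positivity,
      by linarith [min_le_left (s - 1) (1 - l)], by linarith [min_le_right (s - 1) (1 - l)]⟩
  obtain ⟨a, a0, ha⟩ := (A : ℂ →L[ℝ] ℝ × ℝ).bound
  obtain ⟨b, b0, hb⟩ := (A.symm : ℝ × ℝ →L[ℝ] ℂ).bound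
  have hb' : ∀ v, ‖v‖ ≤ b * ‖A v‖ := fun v => by simpa using hb (A v)
  obtain ⟨δ1, p1, q1⟩ := Metric.eventually_nhds_iff.1
    (hL.isLittleO.def (show 0 < e / (a * b) by positivity))
  obtain ⟨δ2, p2, q2⟩ := Metric.mem_nhds_iff.1 hU
  obtain ⟨δ, d0, d1, d2⟩ : ∃ δ : ℝ, 0 < δ ∧ δ < δ1 ∧ δ < δ2 :=
    ⟨min δ1 δ2 / 2, by have := lt_min p1 p2; positivity,
      by linarith [min_le_left δ1 δ2], by linarith [min_le_right δ1 δ2]⟩
  have k0 : 0 < b / δ := by positivity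
  obtain ⟨A', hA'⟩ : ∃ A' : ℂ ≃L[ℝ] ℝ × ℝ, ∀ v, A' v = (b / δ) • A v :=
    ⟨((LinearEquiv.smulOfNeZero ℝ ℂ _ k0.ne').trans A.toLinearEquiv).toContinuousLinearEquiv,
      fun v => A.map_smul _ v⟩
  have hn : ∀ v, ‖A' v‖ = b / δ * ‖A v‖ := fun v => by
    rw [hA', norm_smul, Real.norm_of_nonneg k0.le]
  have key : ∀ w, ‖A' (w - c)‖ ≤ 1 → ‖w - c‖ ≤ δ := fun w hw => by
    rw [hn, div_mul_eq_mul_div, div_le_iff₀ d0] at hw
    linarith [hb' (w - c)]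
  refine ⟨⟨⟨s, l, e, e0.le, h0, e1, e2⟩, A', hc, fun w w' hw hw' => ?_⟩, fun w hw =>
    q2 (mem_ball_iff_norm.2 ((key w hw).trans_lt d2))⟩
  have a0' : ‖G w - G w' - L (w - w')‖ ≤ e / (a * b) * ‖w - w'‖ := by
    refine q1 (y := (w, w')) ?_
    rw [Prod.dist_eq, dist_eq_norm, dist_eq_norm]
    exact max_lt ((key w hw).trans_lt d1) ((key w' hw').trans_lt d1)
  have a1 : A' (G w - G w') - (s * (A' (w - w')).1, l * (A' (w - w')).2) =
      A' (G w - G w' - L (w - w')) := by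
    rw [map_sub A' _ (L _), hA' (L _), hA, hA' (w - w')]
    congr 1
    ext <;> simp only [Prod.smul_fst, Prod.smul_snd, smul_eq_mul] <;> ring
  have a2 := (ha _).trans (mul_le_mul_of_nonneg_left (a0'.trans
    (mul_le_mul_of_nonneg_left (hb' _) (by positivity))) a0.le)
  have a3 : a * (e / (a * b) * (b * ‖A (w - w')‖)) = e * ‖A (w - w')‖ := by field_simp
  change ‖A' (G w - G w') - (s * (A' (w - w')).1, l * (A' (w - w')).2)‖ ≤ e * ‖A' (w - w')‖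
  rw [a1, hn, hn, mul_left_comm]
  exact mul_le_mul_of_nonneg_left (a2.trans_eq a3) k0.le

namespace Sd

variable (D : Sd G c)

theorem sd1_cont : Continuous fun w : ℂ => D.A (w - c) :=
  D.A.continuous.comp (continuous_id.sub continuous_const)

theorem sd1_X (u : ℝ × ℝ) : D.X (c + D.A.symm u) = u.1 := by simp [X]

theorem sd1_Y (u : ℝ × ℝ) : D.Y (c + D.A.symm u) = u.2 := by simp [Y]

theorem sd1_sg (b : Bool) : sg b * sg b = 1 := by cases b <;> simp [sg]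

theorem sd1_two {w w' : ℂ} (h : w ∈ D.Bx) (h' : w' ∈ D.Bx) : ‖D.A (w - w')‖ ≤ 2 := by
  have e : D.A (w - w') = D.A (w - c) - D.A (w' - c) := by rw [← map_sub, sub_sub_sub_cancel_right]
  have h1 : ‖D.A (w - c)‖ ≤ 1 := h
  have h2 : ‖D.A (w' - c)‖ ≤ 1 := h'
  rw [e]
  linarith [norm_sub_le (D.A (w - c)) (D.A (w' - c))]

theorem sd1_c : c ∈ D.Bx := by simp [Bx]

theorem sd1_st_fwd {w w' : ℂ} (h : ∀ n : ℕ, G^[n] w ∈ D.Bx) (h' : ∀ n : ℕ, G^[n] w' ∈ D.Bx)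
    (n : ℕ) : D.toCst.St (D.A (G^[n] w - G^[n] w')) (D.A (G^[n + 1] w - G^[n + 1] w')) := by
  rw [iterate_succ_apply', iterate_succ_apply']
  exact D.est _ _ (h n) (h' n)

theorem sd1_st_bwd {w w' : ℕ → ℂ} (h : ∀ n, w n ∈ D.Bx ∧ G (w (n + 1)) = w n)
    (h' : ∀ n, w' n ∈ D.Bx ∧ G (w' (n + 1)) = w' n) (n : ℕ) :
    D.toCst.St (D.A (w (n + 1) - w' (n + 1))) (D.A (w n - w' n)) := by
  have := D.est _ _ (h (n + 1)).1 (h' (n + 1)).1
  rwa [(h n).2, (h' n).2] at this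

theorem sd1_tend {w : ℕ → ℂ} (h : Tendsto (fun n => D.A (w n - c)) atTop (𝓝 0)) :
    Tendsto w atTop (𝓝 c) := by
  have := ((D.A.symm.continuous.tendsto 0).comp h).const_add c
  simpa [Function.comp_def] using this

theorem cX : Continuous D.X := by
  exact D.sd1_cont.fst

theorem cY : Continuous D.Y := by
  exact D.sd1_cont.snd

theorem X_sub (w w' : ℂ) : D.X w - D.X w' = (D.A (w - w')).1 := by
  rw [X, X, ← Prod.fst_sub, ← map_sub, sub_sub_sub_cancel_right]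

theorem Y_sub (w w' : ℂ) : D.Y w - D.Y w' = (D.A (w - w')).2 := by
  rw [Y, Y, ← Prod.snd_sub, ← map_sub, sub_sub_sub_cancel_right]

theorem ext_XY {w w' : ℂ} (h : D.X w = D.X w') (h' : D.Y w = D.Y w') : w = w' := by
  exact sub_left_injective (D.A.injective (Prod.ext h h'))

theorem exists_pt (x y : ℝ) : ∃ w, D.X w = x ∧ D.Y w = y := by
  exact ⟨_, D.sd1_X (x, y), D.sd1_Y (x, y)⟩

theorem Op_open (r : ℝ) : IsOpen (D.Op r) := by
  exact isOpen_lt D.sd1_cont.norm continuous_const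

theorem Op_nhds {r : ℝ} (hr : 0 < r) : D.Op r ∈ 𝓝 c := by
  exact (D.Op_open r).mem_nhds (by simpa [Op] using hr)

theorem Op_sub {r : ℝ} (hr : r ≤ 1) : D.Op r ⊆ D.Bx := by
  exact fun w hw => (le_of_lt hw).trans hr

theorem Op_mono {r r' : ℝ} (hr : r ≤ r') : D.Op r ⊆ D.Op r' := by
  exact fun w hw => lt_of_lt_of_le hw hr

theorem Op_small {U : Set ℂ} (hU : U ∈ 𝓝 c) : ∃ r > 0, r ≤ 1 ∧ D.Op r ⊆ U := by
  have h1 : Continuous fun u : ℝ × ℝ => c + D.A.symm u := by fun_prop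
  obtain ⟨ε, e0, e1⟩ := Metric.mem_nhds_iff.1
    (h1.continuousAt (x := 0) (by simpa using hU))
  refine ⟨min ε 1, lt_min e0 one_pos, min_le_right _ _, fun w hw => ?_⟩
  have := e1 (mem_ball_zero_iff.2 (lt_of_lt_of_le hw (min_le_left _ _)))
  simpa using this

theorem Bx_nhds : D.Bx ∈ 𝓝 c := by
  exact mem_of_superset (D.Op_nhds one_pos) (D.Op_sub le_rfl)

theorem Bx_compact : IsCompact D.Bx := by
  have h1 : Continuous fun u : ℝ × ℝ => c + D.A.symm u := by fun_prop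
  have e : D.Bx = (fun u : ℝ × ℝ => c + D.A.symm u) '' closedBall 0 1 := by
    ext w
    constructor
    · exact fun hw => ⟨D.A (w - c), mem_closedBall_zero_iff.2 hw, by simp⟩
    · rintro ⟨u, hu, rfl⟩
      simpa [Bx] using hu
  rw [e]
  exact (isCompact_closedBall 0 1).image h1

theorem pair_fwd {w w' : ℂ} (h : ∀ n : ℕ, G^[n] w ∈ D.Bx) (h' : ∀ n : ℕ, G^[n] w' ∈ D.Bx)
    (n : ℕ) : |(D.A (G^[n] w - G^[n] w')).1| ≤ |(D.A (G^[n] w - G^[n] w')).2| ∧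
      ‖D.A (G^[n] w - G^[n] w')‖ ≤ ‖D.A (w - w')‖ := by
  have h1 := D.sd1_st_fwd h h'
  have h2 := Cst.cone_fwd (u := fun n => D.A (G^[n] w - G^[n] w')) h1
    fun n => D.sd1_two (h n) (h' n)
  refine ⟨h2 n, (Cst.decay_fwd (u := fun n => D.A (G^[n] w - G^[n] w')) h1 h2 n).trans ?_⟩
  exact mul_le_of_le_one_left (norm_nonneg _)
    (pow_le_one₀ (add_nonneg D.l_nn D.e_nn) D.hl.le)

theorem pair_bwd {w w' : ℕ → ℂ} (h : ∀ n, w n ∈ D.Bx ∧ G (w (n + 1)) = w n)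
    (h' : ∀ n, w' n ∈ D.Bx ∧ G (w' (n + 1)) = w' n) (n : ℕ) :
    |(D.A (w n - w' n)).2| ≤ |(D.A (w n - w' n)).1| ∧
      ‖D.A (w n - w' n)‖ ≤ ‖D.A (w 0 - w' 0)‖ := by
  have h1 := D.sd1_st_bwd h h'
  have h2 := Cst.cone_bwd (u := fun n => D.A (w n - w' n)) h1
    fun n => D.sd1_two (h n).1 (h' n).1
  refine ⟨h2 n, le_trans ?_ (Cst.decay_bwd (u := fun n => D.A (w n - w' n)) h1 h2 n)⟩
  exact le_mul_of_one_le_left (norm_nonneg _) (one_le_pow₀ D.hs.le)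

theorem tend_fwd {w : ℂ} (h : ∀ n : ℕ, G^[n] w ∈ D.Bx) :
    Tendsto (fun n : ℕ => G^[n] w) atTop (𝓝 c) := by
  have h' : ∀ n : ℕ, G^[n] c ∈ D.Bx := fun n => by rw [iterate_fixed D.fix]; exact D.sd1_c
  have h1 := Cst.tend_fwd (u := fun n => D.A (G^[n] w - G^[n] c)) (D.sd1_st_fwd h h')
    fun n => (D.pair_fwd h h' n).1
  simp only [iterate_fixed D.fix] at h1
  exact D.sd1_tend h1

theorem tend_bwd {w : ℕ → ℂ} (h : ∀ n, w n ∈ D.Bx ∧ G (w (n + 1)) = w n) :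
    Tendsto w atTop (𝓝 c) := by
  have h' : ∀ _ : ℕ, c ∈ D.Bx ∧ G c = c := fun _ => ⟨D.sd1_c, D.fix⟩
  exact D.sd1_tend (Cst.tend_bwd (u := fun n => D.A (w n - c))
    (D.sd1_st_bwd (w' := fun _ => c) h h') fun n => (D.pair_bwd (w' := fun _ => c) h h' n).1)

theorem deriv {w : ℂ} (hw : w ∈ D.Op 1) {L : ℂ →L[ℝ] ℂ} (hL : HasFDerivAt G L w) (v : ℂ) :
    D.toCst.St (D.A v) (D.A (L v)) := by
  have h1 : HasDerivAt (fun t : ℝ => w + t • v) v 0 := by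
    simpa using ((hasDerivAt_id (0 : ℝ)).smul_const v).const_add w
  have h2 : HasDerivAt (fun t : ℝ => G (w + t • v)) (L v) 0 :=
    HasFDerivAt.comp_hasDerivAt_of_eq (0 : ℝ) hL h1 (by simp)
  have h3 : HasDerivAt (fun t : ℝ => D.A (G (w + t • v))) (D.A (L v)) 0 :=
    (D.A : ℂ →L[ℝ] ℝ × ℝ).hasFDerivAt.comp_hasDerivAt (0 : ℝ) h2
  have h4 := h3.sub ((hasDerivAt_id (0 : ℝ)).smul_const (D.s * (D.A v).1, D.l * (D.A v).2))
  rw [one_smul] at h4
  refine h4.le_of_lip' (mul_nonneg D.e_nn (norm_nonneg _)) ?_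
  have h5 : ∀ᶠ t : ℝ in 𝓝 0, w + t • v ∈ D.Op 1 :=
    h1.continuousAt.eventually_mem ((D.Op_open 1).mem_nhds (by simpa using hw))
  filter_upwards [h5] with t ht
  have h6 : ‖D.A (G (w + t • v) - G w) - (D.s * (D.A (w + t • v - w)).1,
      D.l * (D.A (w + t • v - w)).2)‖ ≤ D.e * ‖D.A (w + t • v - w)‖ :=
    D.est _ _ (le_of_lt ht) (le_of_lt hw)
  rw [add_sub_cancel_left, map_smul, norm_smul, map_sub] at h6
  convert h6 using 1
  · congr 1
    ext <;> simp <;> ring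
  · rw [sub_zero]; ring

include D in
theorem not_stab : ¬ Stab G c := by
  intro h
  obtain ⟨V, hV, h1⟩ := h _ D.Bx_nhds
  obtain ⟨r, r0, -, r2⟩ := D.Op_small hV
  have h2 : c + D.A.symm (r / 2, 0) ∈ D.Op r := by
    have : |r| / 2 < r := by rw [abs_of_pos r0]; linarith
    simpa [Op, r0] using this
  have h3 := (D.pair_fwd (h1 _ (r2 h2))
    (fun n => by rw [iterate_fixed D.fix]; exact D.sd1_c) 0).1
  simp at h3
  exact r0.ne' h3

/-- one side of a graph is connected -/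
theorem side {γ : ℝ → ℝ} (hγ : Continuous γ) {z : ℂ} (hz : D.X z = γ (D.Y z)) (b : Bool)
    {W : Set ℂ} (hW : W ∈ 𝓝 z) : ∃ C, C ⊆ W ∧ IsPreconnected C ∧
      (∀ w ∈ C, 0 < sg b * (D.X w - γ (D.Y w))) ∧
      ∀ᶠ w in 𝓝 z, 0 < sg b * (D.X w - γ (D.Y w)) → w ∈ C := by
  have h1 : Continuous fun u : ℝ × ℝ => c + D.A.symm (γ u.2 + sg b * u.1, u.2) := by fun_prop
  have h2 : ∀ w, c + D.A.symm (γ (D.Y w) + sg b * (sg b * (D.X w - γ (D.Y w))), D.Y w) = w :=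
    fun w => D.ext_XY (by rw [sd1_X, ← mul_assoc, sd1_sg]; ring) (D.sd1_Y _)
  have h3 : c + D.A.symm (γ (D.Y z) + sg b * 0, D.Y z) = z := by
    have := h2 z
    rwa [hz, sub_self, mul_zero (sg b)] at this
  obtain ⟨ρ, r0, r1⟩ := Metric.mem_nhds_iff.1
    (h1.continuousAt (x := (0, D.Y z)) (by rw [h3]; exact hW))
  refine ⟨(fun u : ℝ × ℝ => c + D.A.symm (γ u.2 + sg b * u.1, u.2)) ''
    (Ioo 0 ρ ×ˢ ball (D.Y z) ρ), ?_, (isPreconnected_Ioo.prod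
      (convex_ball _ _).isPreconnected).image _ h1.continuousOn, ?_, ?_⟩
  · rintro _ ⟨u, hu, rfl⟩
    refine r1 (a := u) ?_
    rw [← ball_prod_same]
    exact ⟨by rw [mem_ball_zero_iff, Real.norm_of_nonneg hu.1.1.le]; exact hu.1.2, hu.2⟩
  · rintro _ ⟨u, hu, rfl⟩
    rw [sd1_X, sd1_Y, add_sub_cancel_left, ← mul_assoc, sd1_sg, one_mul]
    exact hu.1.1
  · have h4 : Continuous fun w => sg b * (D.X w - γ (D.Y w)) :=
      continuous_const.mul (D.cX.sub (hγ.comp D.cY))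
    filter_upwards [h4.continuousAt.eventually_lt (continuousAt_const (y := ρ))
      (by simpa [hz] using r0), D.cY.continuousAt.eventually_mem (ball_mem_nhds _ r0)]
      with w a1 a2 a3
    exact ⟨(sg b * (D.X w - γ (D.Y w)), D.Y w), ⟨⟨a3, a1⟩, a2⟩, h2 w⟩

theorem near (γ : ℝ → ℝ) {z : ℂ} (hz : D.X z = γ (D.Y z)) (b : Bool) :
    ∃ᶠ w in 𝓝 z, sg b * (D.X w - γ (D.Y w)) < 0 := by
  have h1 : Continuous fun t : ℝ => c + D.A.symm (D.X z - sg b * t, D.Y z) := by fun_prop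
  have h2 : Tendsto (fun t : ℝ => c + D.A.symm (D.X z - sg b * t, D.Y z)) (𝓝[>] 0) (𝓝 z) :=
    (h1.tendsto' 0 z (D.ext_XY (by rw [sd1_X]; ring) (D.sd1_Y _))).mono_left nhdsWithin_le_nhds
  refine h2.frequently (Eventually.frequently ?_)
  filter_upwards [self_mem_nhdsWithin] with t ht
  rw [sd1_X, sd1_Y, ← hz, sub_sub_cancel_left, mul_neg, ← mul_assoc, sd1_sg, one_mul]
  exact neg_neg_of_pos ht

end Sd

end Pool.Agent.Lib.MP_6d0683_an
end

-- part Pool.Agent.Lib.MP_6d0683_an.Sph1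
section

/-!
Charts of the sphere.
-/

set_option autoImplicit false

open Set Metric Filter Topology Function

namespace Pool.Agent.Lib.MP_6d0683_an

open MP_3fe454_an.PD MP_3fe454_an.S2

theorem sph1_sq (s : Bool) : sgn s * sgn s = 1 := by
  cases s <;> simp [sgn]

theorem sph1_ht (s : Bool) (z : ℂ) :
    sgn s * (par s z).1.2 = (‖z‖ ^ 2 - 1) / (1 + ‖z‖ ^ 2) := by
  show sgn s * (sgn s * _) = _
  rw [← mul_assoc, sph1_sq, one_mul]

theorem chart_par (s : Bool) (z : ℂ) : chart s (par s z) = z := by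
  have h : 0 < 1 + ‖z‖ ^ 2 := by positivity
  have h1 : 1 - (‖z‖ ^ 2 - 1) / (1 + ‖z‖ ^ 2) = 2 / (1 + ‖z‖ ^ 2) := by
    field_simp
    ring
  unfold chart
  rw [sph1_ht, h1]
  show (1 / (2 / (1 + ‖z‖ ^ 2)) : ℝ) • ((2 / (1 + ‖z‖ ^ 2) : ℝ) • z) = z
  rw [smul_smul, one_div_mul_cancel (by positivity), one_smul]

theorem par_lt (s : Bool) (z : ℂ) : sgn s * (par s z).1.2 < 1 := by
  have h : 0 < 1 + ‖z‖ ^ 2 := by positivity
  rw [sph1_ht, div_lt_one h]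
  linarith

theorem par_chart {s : Bool} {x : Sph} (h : sgn s * x.1.2 < 1) : par s (chart s x) = x := by
  obtain ⟨⟨u, a⟩, hx⟩ := x
  have hx : ‖u‖ ^ 2 + a ^ 2 = 1 := hx
  have h : sgn s * a < 1 := h
  have h0 : 0 < 1 - sgn s * a := sub_pos.2 h
  have h1 : ‖u‖ ^ 2 = (1 - sgn s * a) * (1 + sgn s * a) := by
    have := sph1_sq s
    linear_combination hx + a ^ 2 * this
  have h2 : ‖(1 / (1 - sgn s * a) : ℝ) • u‖ ^ 2 = (1 + sgn s * a) / (1 - sgn s * a) := by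
    rw [norm_smul, Real.norm_eq_abs, mul_pow, sq_abs, h1]
    field_simp
  have h3 : 1 + (1 + sgn s * a) / (1 - sgn s * a) = 2 / (1 - sgn s * a) := by
    field_simp
    ring
  refine Subtype.ext (Prod.ext ?_ ?_)
  · show (2 / (1 + ‖(1 / (1 - sgn s * a) : ℝ) • u‖ ^ 2) : ℝ) • (1 / (1 - sgn s * a) : ℝ) • u = u
    have h4 : 2 / (2 / (1 - sgn s * a)) * (1 / (1 - sgn s * a)) = 1 := by field_simp
    rw [h2, h3, smul_smul, h4, one_smul]
  · show sgn s * ((‖(1 / (1 - sgn s * a) : ℝ) • u‖ ^ 2 - 1) /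
      (1 + ‖(1 / (1 - sgn s * a) : ℝ) • u‖ ^ 2)) = a
    have h4 : ((1 + sgn s * a) / (1 - sgn s * a) - 1) / (2 / (1 - sgn s * a)) = sgn s * a := by
      field_simp
      ring
    rw [h2, h3, h4, ← mul_assoc, sph1_sq, one_mul]

theorem dom_cases (x : Sph) : sgn (hemi x) * x.1.2 ≤ 0 := by
  by_cases h : x.1.2 ≤ 0
  · simp [hemi, sgn, h]
  · have h1 := (not_le.1 h).le
    simp [hemi, sgn, h, h1]

theorem sph1_lt (x : Sph) : sgn (hemi x) * x.1.2 < 1 := (dom_cases x).trans_lt one_pos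

theorem par_nonpos (s : Bool) (z : ℂ) : sgn s * (par s z).1.2 ≤ 0 ↔ ‖z‖ ≤ 1 := by
  have h : 0 < 1 + ‖z‖ ^ 2 := by positivity
  rw [sph1_ht, div_le_iff₀ h, zero_mul, sub_nonpos]
  exact sq_le_one_iff₀ (norm_nonneg z)

theorem par_neg (s : Bool) (z : ℂ) : sgn s * (par s z).1.2 < 0 ↔ ‖z‖ < 1 := by
  have h : 0 < 1 + ‖z‖ ^ 2 := by positivity
  rw [sph1_ht, div_lt_iff₀ h, zero_mul, sub_neg]
  exact sq_lt_one_iff₀ (norm_nonneg z)

theorem mem_image_par {s : Bool} {x : Sph} : x ∈ par s '' Disc ↔ sgn s * x.1.2 ≤ 0 := by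
  constructor
  · rintro ⟨z, hz, rfl⟩
    exact (par_nonpos s z).2 (mem_closedBall_zero_iff.1 hz)
  · intro h
    have h1 := par_chart (h.trans_lt one_pos)
    exact ⟨chart s x, mem_closedBall_zero_iff.2 ((par_nonpos s _).1 (by rw [h1]; exact h)), h1⟩

theorem par_smooth (s : Bool) (n : ℕ) : ContDiff ℝ n fun z => (par s z).1 := by
  have h : ∀ z : ℂ, 1 + ‖z‖ ^ 2 ≠ 0 := fun z => by positivity
  have h1 : ContDiff ℝ n fun z : ℂ => ‖z‖ ^ 2 := contDiff_norm_sq ℝ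
  have h2 : ContDiff ℝ n fun z : ℂ => 1 + ‖z‖ ^ 2 := contDiff_const.add h1
  exact ((contDiff_const.div h2 h).smul contDiff_id).prodMk
    (contDiff_const.mul ((h1.sub contDiff_const).div h2 h))

/-- the chart extends smoothly to the ambient space -/
theorem amb_smooth (s : Bool) (n : ℕ) {u : ℂ × ℝ} (h : sgn s * u.2 < 1) :
    ContDiffAt ℝ n (fun u : ℂ × ℝ => (1 / (1 - sgn s * u.2) : ℝ) • u.1) u := by
  have h1 : ContDiffAt ℝ n (fun u : ℂ × ℝ => 1 - sgn s * u.2) u :=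
    contDiffAt_const.sub (contDiffAt_const.mul contDiffAt_snd)
  have h2 : ContDiffAt ℝ n (fun u : ℂ × ℝ => 1 / (1 - sgn s * u.2)) u :=
    contDiffAt_const.div h1 (sub_pos.2 h).ne'
  exact h2.smul contDiffAt_fst

theorem chart_cont {s : Bool} {x : Sph} (h : sgn s * x.1.2 < 1) : ContinuousAt (chart s) x :=
  (amb_smooth s 0 h).continuousAt.comp continuous_subtype_val.continuousAt

theorem sph1_open (s : Bool) : IsOpen {x : Sph | sgn s * x.1.2 < 1} :=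
  isOpen_lt (continuous_const.mul (continuous_snd.comp continuous_subtype_val)) continuous_const

theorem sph1_cont (s : Bool) : Continuous (par s) :=
  continuous_induced_rng.2 (par_smooth s 0).continuous

theorem par_emb (s : Bool) : IsOpenEmbedding (par s) := by
  refine IsOpenEmbedding.of_continuous_injective_isOpenMap (sph1_cont s)
    (LeftInverse.injective (chart_par s)) fun U hU => ?_
  have e : par s '' U = {x : Sph | sgn s * x.1.2 < 1} ∩ chart s ⁻¹' U := by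
    ext x
    constructor
    · rintro ⟨z, hz, rfl⟩
      exact ⟨par_lt s z, by rwa [mem_preimage, chart_par]⟩
    · exact fun hx => ⟨chart s x, hx.2, par_chart hx.1⟩
  rw [e]
  exact ContinuousOn.isOpen_inter_preimage (fun x hx => (chart_cont hx).continuousWithinAt)
    (sph1_open s) hU

theorem sph_compact : CompactSpace Sph := by
  have h : IsCompact {p : ℂ × ℝ | ‖p.1‖ ^ 2 + p.2 ^ 2 = 1} := by
    refine (isCompact_closedBall (0 : ℂ × ℝ) 1).of_isClosed_subset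
      (isClosed_eq (by fun_prop) continuous_const) fun p hp => ?_
    have hp : ‖p.1‖ ^ 2 + p.2 ^ 2 = 1 := hp
    rw [mem_closedBall_zero_iff, Prod.norm_def, max_le_iff, Real.norm_eq_abs]
    exact ⟨(sq_le_one_iff₀ (norm_nonneg _)).1 (by linarith [sq_nonneg p.2]),
      (sq_le_one_iff_abs_le_one _).1 (by linarith [sq_nonneg ‖p.1‖])⟩
  exact isCompact_iff_compactSpace.1 h

theorem IsCk.cont {k : ℕ} {f : Sph → Sph} (h : IsCk k f) : Continuous f := by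
  refine continuous_iff_continuousAt.2 fun x => ?_
  have h1 : Continuous fun z => f (par (hemi x) z) := continuous_induced_rng.2 (h _).continuous
  refine (h1.continuousAt.comp (chart_cont (sph1_lt x))).congr ?_
  filter_upwards [(sph1_open (hemi x)).mem_nhds (sph1_lt x)] with y hy
  exact congrArg f (par_chart hy)

theorem IsCk.loc {k : ℕ} {f : Sph → Sph} (h : IsCk k f) {s s' : Bool} {z : ℂ}
    (hz : sgn s' * (f (par s z)).1.2 < 1) : ContDiffAt ℝ k (loc s s' f) z := by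
  have h1 := (amb_smooth s' k hz).comp z (f := fun z => (f (par s z)).1) (h s).contDiffAt
  exact h1

/-- the chart domain is kept near a point -/
theorem sph1_ev {k : ℕ} {f : Sph → Sph} (h : IsCk k f) {s s' : Bool} {z : ℂ}
    (hz : sgn s' * (f (par s z)).1.2 < 1) :
    ∀ᶠ w in 𝓝 z, par s' (loc s s' f w) = f (par s w) := by
  have h1 : ∀ᶠ w in 𝓝 z, sgn s' * (f (par s w)).1.2 < 1 :=
    (h.cont.comp (sph1_cont s)).continuousAt.eventually ((sph1_open s').mem_nhds hz)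
  exact h1.mono fun w hw => par_chart hw

theorem IsCk.comp {k : ℕ} {f g : Sph → Sph} (hf : IsCk k f) (hg : IsCk k g) :
    IsCk k (f ∘ g) := by
  refine fun s => contDiff_iff_contDiffAt.2 fun z => ?_
  have hz := sph1_lt (g (par s z))
  refine ((hf (hemi (g (par s z)))).contDiffAt.comp z (hg.loc hz)).congr_of_eventuallyEq ?_
  filter_upwards [sph1_ev hg hz] with w hw
  exact congrArg (fun y => (f y).1) hw.symm

theorem loc_inv {k : ℕ} (hk : 1 ≤ k) {f g : Sph → Sph} (hf : IsCk k f) (hg : IsCk k g)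
    (h : LeftInverse g f) {s s' : Bool} {x : Sph} (hx : sgn s * x.1.2 < 1)
    (hx' : sgn s' * (f x).1.2 < 1) (v : ℂ) :
    fderiv ℝ (loc s' s g) (chart s' (f x)) (fderiv ℝ (loc s s' f) (chart s x) v) = v := by
  have hk0 : (k : WithTop ℕ∞) ≠ 0 := by exact_mod_cast (by omega : k ≠ 0)
  have a1 : sgn s' * (f (par s (chart s x))).1.2 < 1 := by rw [par_chart hx]; exact hx'
  have a2 : sgn s * (g (par s' (chart s' (f x)))).1.2 < 1 := by rw [par_chart hx', h x]; exact hx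
  have e0 : loc s s' f (chart s x) = chart s' (f x) := by unfold loc; rw [par_chart hx]
  have d1 := (hf.loc a1).differentiableAt hk0
  have d2 := (hg.loc a2).differentiableAt hk0
  have e1 : loc s' s g ∘ loc s s' f =ᶠ[𝓝 (chart s x)] id := by
    filter_upwards [sph1_ev hf a1] with w hw
    show chart s (g (par s' (loc s s' f w))) = w
    rw [hw, h, chart_par]
  have e2 := e1.fderiv_eq (𝕜 := ℝ)
  rw [fderiv_comp _ (e0.symm ▸ d2) d1, e0, fderiv_id] at e2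
  exact DFunLike.congr_fun e2 v

end Pool.Agent.Lib.MP_6d0683_an
end
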