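import Pool.Agent.Lib.MP_6d0683_an.Sec
import Pool.Agent.Lib.MP_6d0683_an.Sph1

-- part Pool.Agent.Lib.MP_6d0683_an.Make1
section

/-!
A small shear produces a one sided contact.
-/

set_option autoImplicit false

open Set Metric Filter Topology Function

namespace Pool.Agent.Lib.MP_6d0683_an

open MP_3fe454_an.PD MP_3fe454_an.S2

variable {F : Dis} {M : ℕ}

theorem Lu_compact {c : ℂ} (D : Sd F.f^[M] c) (n0 : ℕ) : IsCompact (Lu F M D n0) := by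
  have e : Lu F M D n0 = F.Λ ∩ ⋂ n, ⋂ _ : n0 ≤ n, F.g^[M * n] ⁻¹' D.Bx := by
    ext y
    simp only [Lu, mem_ofPred_eq, mem_inter_iff, mem_iInter, mem_preimage]
  rw [e]
  exact F.Λ_compact.inter_right (isClosed_iInter fun n => isClosed_iInter fun _ =>
    D.Bx_compact.isClosed.preimage (F.cg.iterate _))

theorem make1_slope {K : Set ℂ} {a k : ℂ → ℝ} {r η : ℝ} (hr : 0 < r) (hη : 0 ≤ η)
    (h2 : InjOn a K) (h3 : ∀ y ∈ K, |k y| ≤ η * |a y|) : ∃ t, |t| ≤ η ∧ ∀ y ∈ K, ∀ y' ∈ K,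
      |a y| = r → |a y'| = r → k y + t * a y = k y' + t * a y' := by
  by_cases h : (∃ p ∈ K, a p = r) ∧ ∃ q ∈ K, a q = -r
  · obtain ⟨⟨p, hp, ep⟩, q, hq, eq⟩ := h
    have a1 := h3 p hp
    have a2 := h3 q hq
    rw [ep, abs_of_pos hr] at a1
    rw [eq, abs_neg, abs_of_pos hr] at a2
    have key : ∀ y ∈ K, |a y| = r → k y + -(k p - k q) / (2 * r) * a y = (k p + k q) / 2 :=
      fun y hy e => by
        rcases eq_or_eq_neg_of_abs_eq e with e | e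
        · rw [h2 hy hp (e.trans ep.symm), ep]
          field_simp
          ring
        · rw [h2 hy hq (e.trans eq.symm), eq]
          field_simp
          ring
    refine ⟨-(k p - k q) / (2 * r), ?_, fun y hy y' hy' e e' => by rw [key y hy e, key y' hy' e']⟩
    rw [abs_div, abs_neg, abs_of_pos (by positivity : 0 < 2 * r), div_le_iff₀ (by positivity)]
    linarith [abs_sub (k p) (k q)]
  · refine ⟨0, by simpa using hη, fun y hy y' hy' e e' => ?_⟩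
    rcases eq_or_eq_neg_of_abs_eq e with e | e <;> rcases eq_or_eq_neg_of_abs_eq e' with e' | e'
    · rw [h2 hy hy' (e.trans e'.symm)]
    · exact absurd ⟨⟨y, hy, e⟩, y', hy', e'⟩ h
    · exact absurd ⟨⟨y', hy', e'⟩, y, hy, e⟩ h
    · rw [h2 hy hy' (e.trans e'.symm)]

theorem rolle {K : Set ℂ} (hK : IsCompact K) {a k : ℂ → ℝ} (ha : Continuous a)
    (hk : Continuous k) {r η : ℝ} (hr : 0 < r) (hη : 0 ≤ η) (h1 : ∀ y ∈ K, |a y| ≤ r)
    (h2 : InjOn a K) (h3 : ∀ y ∈ K, |k y| ≤ η * |a y|) {x : ℂ} (hx : x ∈ K) (h0 : a x = 0) :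
    ∃ t, |t| ≤ η ∧ ∃ y0 ∈ K, |a y0| < r ∧ ∃ b : Bool,
      ∀ y ∈ K, 0 ≤ sg b * (k y + t * a y - (k y0 + t * a y0)) := by
  obtain ⟨t, ht, e⟩ := make1_slope hr hη h2 h3
  have hc : ContinuousOn (fun y => k y + t * a y) K := by fun_prop
  obtain ⟨p, hp, mp⟩ := hK.exists_isMinOn ⟨x, hx⟩ hc
  obtain ⟨q, hq, mq⟩ := hK.exists_isMaxOn ⟨x, hx⟩ hc
  rw [isMinOn_iff] at mp
  rw [isMaxOn_iff] at mq
  refine ⟨t, ht, ?_⟩
  rcases (h1 p hp).lt_or_eq with a1 | a1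
  · exact ⟨p, hp, a1, true, fun y hy => by simpa [sg] using mp y hy⟩
  rcases (h1 q hq).lt_or_eq with a2 | a2
  · exact ⟨q, hq, a2, false, fun y hy => by simpa [sg] using mq y hy⟩
  refine ⟨x, hx, by simpa [h0] using hr, true, fun y hy => ?_⟩
  simpa [sg] using (mq x hx).trans ((e q hq p hp a2 a1).trans_le (mp y hy))

theorem make1_cone (τ : Tang F M) (D : Sd F.f^[M] τ.q) (h : ∀ n : ℕ, τ.o n ∈ D.Op 1) :
    ∃ κ : ℝ, |κ| ≤ 1 ∧ (D.A (τ.a 0)).1 - κ * (D.A (τ.a 0)).2 = 0 := by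
  have h1 : Tendsto (fun n : ℕ => ‖D.A (τ.a n)‖) atTop (𝓝 ‖D.A 0‖) :=
    ((D.A.continuous.tendsto 0).comp (τ.a_top.comp tendsto_natCast_atTop_atTop)).norm
  obtain ⟨C, hC⟩ := h1.bddAbove_range
  have h2 := Cst.cone_fwd (k := D.toCst) (u := fun n : ℕ => D.A (τ.a n)) (fun n => by
    obtain ⟨-, L, hL, -⟩ := lin_iter F M ((F.Λ_norm (τ.mem n)).trans_lt F.r0_lt)
    rw [Nat.cast_succ, τ.sol n]
    exact D.deriv (h n) hL.hasFDerivAt.differentiableAt.hasFDerivAt _)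
    (fun n => hC (mem_range_self n)) 0
  simp only [Nat.cast_zero] at h2
  refine ⟨(D.A (τ.a 0)).1 / (D.A (τ.a 0)).2,
    by rw [abs_div]; exact div_le_one_of_le₀ h2 (abs_nonneg _), ?_⟩
  by_cases e : (D.A (τ.a 0)).2 = 0
  · rw [e, abs_zero, abs_nonpos_iff] at h2
    rw [e, h2, mul_zero, sub_zero]
  · rw [div_mul_cancel₀ _ e, sub_self]

theorem make1_norm {G : ℂ → ℂ} {c : ℂ} (D : Sd G c) (w w' : ℂ) :
    ‖D.A (w - w')‖ = max |D.X w - D.X w'| |D.Y w - D.Y w'| := by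
  rw [D.X_sub, D.Y_sub]
  rfl

theorem make1_two {u v κ ε : ℝ} (hκ : |κ| ≤ 1) (hε : ε ≤ 1 / 2)
    (h : |u - κ * v| ≤ ε * max |u| |v|) : max |u| |v| ≤ 2 * |v| := by
  have h1 : |u| ≤ |u - κ * v| + |κ * v| := by simpa using abs_add_le (u - κ * v) (κ * v)
  have h2 : |κ * v| ≤ |v| := by rw [abs_mul]; exact mul_le_of_le_one_left (abs_nonneg _) hκ
  have h3 := abs_nonneg v
  have h4 := mul_le_mul_of_nonneg_right hε (le_max_of_le_right h3 : 0 ≤ max |u| |v|)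
  rcases max_cases |u| |v| with e | e <;> rw [e.1] at h h4 ⊢ <;> linarith

theorem contact (τ : Tang F M) (D : Sd F.f^[M] τ.q) {γ : ℝ → ℝ} (hγ : D.Gr γ)
    (h : ∀ n : ℕ, τ.o n ∈ D.Op 1) (D' : Sd F.f^[M] τ.p) {n0 : ℕ}
    (h' : ∀ n : ℕ, n0 ≤ n → τ.o (-n) ∈ D'.Op 1) {η : ℝ} (hη : 0 < η) :
    ∃ t : ℝ × ℝ, ‖t‖ < η ∧ ∃ y0 ∈ Lu F M D' n0, dist y0 (τ.o 0) < η ∧
      D.X y0 + (t.1 * (D.Y y0 - D.Y (τ.o 0)) + t.2) = γ (D.Y y0) ∧ ∃ b : Bool,
        ∀ᶠ y in 𝓝 y0, y ∈ Lu F M D' n0 →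
          0 ≤ sg b * (D.X y + (t.1 * (D.Y y - D.Y (τ.o 0)) + t.2) - γ (D.Y y)) := by
  obtain ⟨κ, k1, k2⟩ := make1_cone τ D h
  obtain ⟨ℓ, hℓ⟩ : ∃ ℓ : ℂ →L[ℝ] ℝ, ∀ v, ℓ v = (D.A v).1 - κ * (D.A v).2 :=
    ⟨(ContinuousLinearMap.fst ℝ ℝ ℝ - κ • ContinuousLinearMap.snd ℝ ℝ ℝ).comp
      (D.A : ℂ →L[ℝ] ℝ × ℝ), fun _ => rfl⟩
  obtain ⟨C, c0, hC⟩ := (D.A.symm : ℝ × ℝ →L[ℝ] ℂ).bound
  have c1 : ∀ w w', ‖w - w'‖ ≤ C * max |D.X w - D.X w'| |D.Y w - D.Y w'| := fun w w' => by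
    rw [← make1_norm]
    exact (congrArg norm (D.A.symm_apply_apply _)).symm.trans_le (hC (D.A (w - w')))
  obtain ⟨ε, e0, e1, e2⟩ : ∃ ε : ℝ, 0 < ε ∧ ε ≤ 1 / 2 ∧ ε ≤ η / 8 :=
    ⟨min (1 / 2) (η / 8), by positivity, min_le_left _ _, min_le_right _ _⟩
  have hs := (sec_fwd τ D h ℓ ((hℓ _).trans k2) (div_pos e0 c0)).and
    (sec_bwd τ D' h' ℓ ((hℓ _).trans k2) (div_pos e0 c0))
  have xb : ∀ n : ℕ, (F.f^[M])^[n] (τ.o 0) ∈ D.Bx := fun n => τ.fwd n ▸ D.Op_sub le_rfl (h n)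
  have xl : τ.o 0 ∈ Lu F M D' n0 := ⟨τ.mem 0, fun n hn => τ.bwd n ▸ D'.Op_sub le_rfl (h' n hn)⟩
  have x1 : |D.Y (τ.o 0)| < 1 := (norm_snd_le _).trans_lt (h 0)
  have xg := hγ.2.2.2 _ xb
  generalize τ.o 0 = x at hs xb xl x1 xg ⊢
  obtain ⟨δ, d0, hδ⟩ := Metric.eventually_nhds_iff.1 hs
  obtain ⟨r, r0, r1, r2⟩ : ∃ r : ℝ, 0 < r ∧ r ≤ 1 - |D.Y x| ∧ r ≤ min δ η / (4 * C) :=
    ⟨min (1 - |D.Y x|) (min δ η / (4 * C)), lt_min (by linarith) (by positivity), min_le_left _ _,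
      min_le_right _ _⟩
  have r3 : r ≤ 1 := by linarith [abs_nonneg (D.Y x)]
  have near : ∀ y, |D.Y y - D.Y x| ≤ r → |D.X y - D.X x| ≤ 3 * r → dist y x < min δ η :=
    fun y a b => by
      rw [le_div_iff₀ (by positivity)] at r2
      have := mul_le_mul_of_nonneg_left (max_le b (a.trans (by linarith))) c0.le
      rw [dist_eq_norm]
      nlinarith [c1 y x, mul_pos r0 c0]
  have conv : ∀ y y', |ℓ (y - y')| ≤ ε / C * ‖y - y'‖ →
      |D.X y - D.X y' - κ * (D.Y y - D.Y y')| ≤ ε * max |D.X y - D.X y'| |D.Y y - D.Y y'| :=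
    fun y y' a => by
      rw [hℓ, ← D.X_sub, ← D.Y_sub] at a
      refine a.trans ((mul_le_mul_of_nonneg_left (c1 y y') (div_pos e0 c0).le).trans_eq ?_)
      rw [← mul_assoc, div_mul_cancel₀ _ c0.ne']
  obtain ⟨K, hK⟩ : ∃ K : Set ℂ, ∀ y, y ∈ K ↔
      y ∈ Lu F M D' n0 ∧ |D.Y y - D.Y x| ≤ r ∧ |D.X y - D.X x| ≤ 3 * r := ⟨_, fun _ => Iff.rfl⟩
  have cX := D.cX
  have cY := D.cY
  have cγ := hγ.cont
  have kc : IsCompact K := by
    rw [show K = Lu F M D' n0 ∩ ({y | |D.Y y - D.Y x| ≤ r} ∩ {y | |D.X y - D.X x| ≤ 3 * r}) from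
      Set.ext hK]
    exact (Lu_compact D' n0).inter_right ((isClosed_le (by fun_prop) continuous_const).inter
      (isClosed_le (by fun_prop) continuous_const))
  have xK : x ∈ K := (hK x).2 ⟨xl, by simpa using r0.le, by simpa using r0.le⟩
  have kd : ∀ y ∈ K, dist y x < min δ η := fun y hy => near y ((hK y).1 hy).2.1 ((hK y).1 hy).2.2
  have pair : ∀ y ∈ K, ∀ y' ∈ K,
      |D.X y - D.X y' - κ * (D.Y y - D.Y y')| ≤ ε * max |D.X y - D.X y'| |D.Y y - D.Y y'| :=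
    fun y hy y' hy' => conv y y' ((hδ (y := (y, y')) (max_lt ((kd y hy).trans_le (min_le_left _ _))
      ((kd y' hy').trans_le (min_le_left _ _)))).2 ((hK y).1 hy).1 ((hK y').1 hy').1)
  have two := fun y hy y' hy' => make1_two k1 e1 (pair y hy y' hy')
  have kb : ∀ y ∈ K, |D.X y - γ (D.Y y)| ≤ 3 * ε * |D.Y y - D.Y x| := fun y hy => by
    obtain ⟨z, z1, z2⟩ := D.exists_pt (γ (D.Y y)) (D.Y y)
    have a1 := ((hK y).1 hy).2.1
    have a2 : |D.X z - D.X x| ≤ |D.Y y - D.Y x| := by rw [z1, xg]; exact hγ.1 _ _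
    have a3 : |D.Y z| ≤ 1 := by
      rw [z2]
      linarith [abs_sub_abs_le_abs_sub (D.Y y) (D.Y x)]
    have a4 := conv z x ((hδ (y := (z, x)) (max_lt ((near z (z2 ▸ a1) (by linarith)).trans_le
      (min_le_left _ _)) (by simpa using d0))).1 (hγ.2.2.1 z a3 (by rw [z1, z2])) xb)
    rw [z2, max_eq_right a2, z1] at a4
    have a5 := (pair y hy x xK).trans (mul_le_mul_of_nonneg_left (two y hy x xK) e0.le)
    have a6 := abs_sub (D.X y - D.X x - κ * (D.Y y - D.Y x))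
      (γ (D.Y y) - D.X x - κ * (D.Y y - D.Y x))
    rw [sub_sub_sub_cancel_right, sub_sub_sub_cancel_right] at a6
    linarith
  obtain ⟨t, t1, y0, y1, y2, b, hb⟩ := rolle kc (a := fun y => D.Y y - D.Y x)
    (k := fun y => D.X y - γ (D.Y y)) (by fun_prop) (by fun_prop) r0 (by positivity : 0 ≤ 3 * ε)
    (fun y hy => ((hK y).1 hy).2.1) (fun y hy y' hy' e => by
      have a1 : D.Y y = D.Y y' := sub_left_injective e
      have a2 := (le_max_left _ _).trans (two y hy y' hy')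
      rw [a1, sub_self, abs_zero, mul_zero, abs_nonpos_iff, sub_eq_zero] at a2
      exact D.ext_XY a2 a1) kb xK (sub_self _)
  refine ⟨(t, -(D.X y0 - γ (D.Y y0) + t * (D.Y y0 - D.Y x))), max_lt ?_ ?_, y0, ((hK y0).1 y1).1,
    (kd y0 y1).trans_le (min_le_right _ _), by ring, b, ?_⟩
  · exact t1.trans_lt (by linarith)
  · have a1 := abs_add_le (D.X y0 - γ (D.Y y0)) (t * (D.Y y0 - D.Y x))
    have a2 := kb y0 y1
    have a3 := mul_le_mul_of_nonneg_right t1 (abs_nonneg (D.Y y0 - D.Y x))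
    have a4 := mul_le_mul_of_nonneg_left (y2.le.trans r3) (by positivity : 0 ≤ 3 * ε)
    rw [abs_mul] at a1
    rw [norm_neg, Real.norm_eq_abs]
    linarith
  · have a1 : |D.X y0 - D.X x| < 3 * r :=
      ((le_max_left _ _).trans (two y0 y1 x xK)).trans_lt (by linarith)
    filter_upwards [(by fun_prop : ContinuousAt (fun y => |D.Y y - D.Y x|) y0).eventually_lt
      continuousAt_const y2, (by fun_prop : ContinuousAt (fun y => |D.X y - D.X x|) y0).eventually_lt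
      continuousAt_const a1] with y a2 a3 a4
    convert hb y ((hK y).2 ⟨a4, a2.le, a3.le⟩) using 2
    ring

end Pool.Agent.Lib.MP_6d0683_an
end

-- part Pool.Agent.Lib.MP_6d0683_an.Make2
section

/-!
A one sided contact in a wandering disc is a topological touching.
-/

set_option autoImplicit false

open Set Metric Filter Topology Function

namespace Pool.Agent.Lib.MP_6d0683_an

open MP_3fe454_an.PD MP_3fe454_an.S2

variable {S : Type} [TopologicalSpace S] {X : Sys S} {ψ : ℂ → ℂ} {g : S ≃ₜ S} {M : ℕ}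

theorem sad_of [T2Space S] (h : Pert X.σ X.f ψ g) (hG : Good X.F M) {K : Set ℂ}
    (hK : IsCompact K) (hψ : ∀ z, z ∉ K → ψ z = z) (hP : ∀ c ∈ periodicPts X.F.f, c ∉ K)
    (hKD : K ⊆ Disc) {c : ℂ} (hc : c ∈ periodicPts X.F.f)
    (hs : ∀ U ∈ 𝓝 c, ∃ D : Sd X.F.f^[M] c, D.Bx ⊆ U) : Sad g^[M] g.symm^[M] (X.σ c) := by
  have hΛ := X.F.periodic_mem_Λ hc
  have h1 : ‖c‖ < 1 := (X.F.Λ_norm hΛ).trans_lt X.F.r0_lt
  have h2 : X.f^[M] (X.σ c) = X.σ c := by rw [X.iter (X.F.Λ_sub_Disc hΛ), hG.fix c hc]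
  obtain ⟨k1, k2⟩ := h.keep hG hK hψ hP hKD (X.σ c)
  obtain ⟨D, hD⟩ := hs Disc (closedBall_mem_nhds_of_mem (mem_ball_zero_iff.2 h1))
  refine ⟨k1.2 h2, fun e => D.not_stab ((stab_chart X.emb (fun z hz => X.iter hz M)
    (fun z hz => X.F.iter_mem_Disc hz M) h1).1 (e.germ (k2 h2).1)), fun e => ?_⟩
  obtain ⟨z, hz, hzc, ht⟩ := D.exists_in
  refine not_stab_back (T := X.f^[M]) (LeftInverse.iterate X.f.symm_apply_apply M)
    (X.emb.injective.ne hzc) ?_ (e.germ (k2 h2).2)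
  refine ((X.emb.continuous.tendsto c).comp ht).congr fun n => ?_
  rw [comp_apply, ← iterate_mul, ← iterate_mul, X.iter (hD hz)]

/-- orbits of the perturbed map through a wandering set B which carries the deformation -/
theorem wand_orbits (h : Pert X.σ X.f ψ g) {B : Set ℂ} (hB : B ⊆ Disc)
    (hψ : ∀ z, z ∉ B → ψ z = z) (hw : ∀ z ∈ B, ∀ j : ℕ, 1 ≤ j → X.F.f^[j] z ∉ B) {z : ℂ}
    (hz : z ∈ B) : ψ z ∈ B ∧ (∀ j : ℕ, 1 ≤ j → g^[j] (X.σ z) = X.σ (X.F.f^[j] (ψ z))) ∧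
      (z ∈ X.F.Λ → ∀ j : ℕ, g.symm^[j] (X.σ z) = X.σ (X.F.g^[j] z)) ∧
      ((∀ j : ℕ, ∃ i, j ≤ i ∧ g.symm^[i] (X.σ z) ∈ X.σ '' Disc) → z ∈ X.F.Λ) := by
  have h1 : ∀ z ∈ B, ψ z ∈ B := fun z hz => by
    by_contra k
    exact k ((h.inj (h.mapsD (hB hz)) (hB hz) (hψ _ k)).symm ▸ hz)
  have h2 : ∀ z ∈ B, ∀ j : ℕ, 1 ≤ j → g^[j] (X.σ z) = X.σ (X.F.f^[j] (ψ z)) := by
    intro z hz j hj
    induction j, hj using Nat.le_induction with
    | base => exact (h.ins z (hB hz)).trans (X.cj _ (hB (h1 z hz)))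
    | succ j hj ih =>
      have k := X.F.iter_mem_Disc (hB (h1 z hz)) j
      rw [iterate_succ_apply', iterate_succ_apply', ih, h.ins _ k, hψ _ (hw _ (h1 z hz) j hj),
        X.cj _ k]
  refine ⟨h1 z hz, h2 z hz, fun hΛ j => ?_, fun k => mem_iInter.2 fun j => ?_⟩
  · induction j with
    | zero => rfl
    | succ j ih =>
      have k := X.F.Λ_sub_Disc (X.F.iter_g_mem_Λ hΛ (j + 1))
      have k' : X.F.g^[j + 1] z ∉ B := fun e =>
        hw _ e (j + 1) (by omega) (by rwa [X.F.iter_f_g hΛ])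
      rw [iterate_succ_apply', ih, g.symm_apply_eq, h.ins _ k, hψ _ k', X.cj _ k,
        iterate_succ_apply', X.F.f_g (X.F.iter_g_mem_Λ hΛ j)]
  · obtain ⟨i, hi, w, hw', e⟩ := k j
    have e1 : g^[i] (X.σ w) = X.σ z := by
      rw [e]
      exact LeftInverse.iterate g.apply_symm_apply i _
    have e2 : ∀ l < i, (X.F.f ∘ ψ)^[l] w ∉ B := fun l hl hb => by
      obtain ⟨m, rfl⟩ : ∃ m, i = (m + 1) + l := ⟨i - l - 1, by omega⟩
      rw [iterate_add_apply, h.iter hw', h2 _ hb _ (by omega)] at e1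
      exact hw _ (h1 _ hb) (m + 1) (by omega) (X.emb.injective e1 ▸ hz)
    rw [h.iter hw', ← sys_iter_eq (g := X.F.f) fun l hl => by
      rw [comp_apply, hψ _ (e2 l hl)]] at e1
    exact X.F.Ω_anti hi ⟨w, hw', X.emb.injective e1⟩

theorem touch_of [T2Space S] (h : Pert X.σ X.f ψ g) (hG : Good X.F M) (hc : Continuous ψ)
    {p q : ℂ} (hp : Sad g^[M] g.symm^[M] (X.σ p)) (hq : Sad g^[M] g.symm^[M] (X.σ q))
    (hpq : p ≠ q) (D : Sd X.F.f^[M] q) {γ : ℝ → ℝ} (hγ : D.Gr γ) (D' : Sd X.F.f^[M] p)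
    (hD : D.Bx ⊆ Disc) (hD' : D'.Bx ⊆ Disc) {B : Set ℂ} (hB : B ⊆ D.Op 1)
    (hψ : ∀ z, z ∉ B → ψ z = z) (hw : ∀ z ∈ B, ∀ j : ℕ, 1 ≤ j → X.F.f^[j] z ∉ B) {y0 : ℂ}
    (hy : B ∈ 𝓝 y0) {n0 : ℕ} (hΛ : y0 ∈ X.F.Λ)
    (hb : ∀ n, n0 ≤ n → X.F.g^[M * n] y0 ∈ D'.Op 1) {γ' : ℝ → ℝ} (hγ' : Continuous γ')
    (h0 : D.X y0 = γ' (D.Y y0))
    (h1 : ∀ᶠ z in 𝓝 y0, D.X (ψ z) - γ (D.Y (ψ z)) = D.X z - γ' (D.Y z)) {b : Bool}
    (h2 : ∀ᶠ y in 𝓝 y0, y ∈ Lu X.F M D' n0 → 0 ≤ sg b * (D.X y - γ' (D.Y y))) :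
    Touch g^[M] g.symm^[M] := by
  have hBx : B ⊆ D.Bx := hB.trans (D.Op_sub le_rfl)
  have W := fun z hz => wand_orbits (z := z) h (hBx.trans hD) hψ hw hz
  have hT : ∀ z ∈ B, ∀ j, 1 ≤ j → (g^[M])^[j] (X.σ z) = X.σ ((X.F.f^[M])^[j] (ψ z)) :=
    fun z hz j hj => by
      rw [← iterate_mul, ← iterate_mul, (W z hz).2.1 _ (Nat.mul_pos hG.pos hj)]
  have hH : ∀ z ∈ B, z ∈ X.F.Λ → ∀ j, (g.symm^[M])^[j] (X.σ z) = X.σ (X.F.g^[M * j] z) :=
    fun z hz hz' j => by rw [← iterate_mul, (W z hz).2.2.1 hz']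
  have hy0 : y0 ∈ B := mem_of_mem_nhds hy
  have hY : ∀ w ∈ D.Bx, |D.Y w| ≤ 1 := fun w hw => (norm_snd_le _).trans hw
  have a1 : D.X (ψ y0) = γ (D.Y (ψ y0)) := by
    have := h1.self_of_nhds
    rwa [h0, sub_self, sub_eq_zero] at this
  have a2 := hγ.2.2.1 _ (hY _ (hBx (W y0 hy0).1)) a1
  have a3 : ∀ j, (X.F.f^[M])^[j] (ψ y0) ∈ D.Op 1 := fun j => by
    have k := (D.pair_fwd a2 (w' := q) (fun n => by
      rw [iterate_fixed D.fix]; exact mem_of_mem_nhds D.Bx_nhds) j).2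
    rw [iterate_fixed D.fix] at k
    exact k.trans_lt (hB (W y0 hy0).1)
  have a4 := D.tend_fwd a2
  have a5 : Tendsto (fun n : ℕ => X.F.g^[M * n] y0) atTop (𝓝 p) := by
    refine (tendsto_add_atTop_iff_nat n0).1 (D'.tend_bwd fun n =>
      ⟨D'.Op_sub le_rfl (hb _ (by omega)), ?_⟩)
    rw [show M * (n + 1 + n0) = M + M * (n + n0) by ring, iterate_add_apply,
      X.F.iter_f_g (X.F.iter_g_mem_Λ hΛ _)]
  have hσ := X.emb.continuous
  refine ⟨_, _, X.σ y0, hp, hq, X.emb.injective.ne hpq, ((hσ.tendsto q).comp a4).congr' ?_,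
    ((hσ.tendsto p).comp a5).congr fun n => (hH y0 hy0 hΛ n).symm,
    _, X.emb.image_mem_nhds.2 D.Bx_nhds, _, X.emb.image_mem_nhds.2 D'.Bx_nhds,
    fun V hV hV0 U hU hU0 => ?_⟩
  · filter_upwards [eventually_ge_atTop 1] with n hn
    exact (hT y0 hy0 n hn).symm
  obtain ⟨ρ, hρ, hρ1, hρV⟩ := D.Op_small (hσ.continuousAt.preimage_mem_nhds hV)
  filter_upwards [eventually_ge_atTop 1, eventually_ge_atTop n0,
    eventually_forall_ge_atTop.2 (a4.eventually_mem (D.Op_nhds (half_pos hρ)))]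
    with n hn1 hn2 hn3 W' hW'
  have b1 : ∀ᶠ z in 𝓝 y0, ∀ j < n, (X.F.f^[M])^[j] (ψ z) ∈ D.Op 1 :=
    (eventually_all_finite (finite_lt_nat n)).2 fun j _ =>
      (((X.F.cf.iterate M).iterate j).comp hc).continuousAt.eventually_mem
        ((D.Op_open 1).mem_nhds (a3 j))
  have b2 : ∀ᶠ z in 𝓝 y0, ∀ j < n, n0 ≤ j → X.F.g^[M * j] z ∈ D'.Op 1 :=
    (eventually_all_finite (finite_lt_nat n)).2 fun j _ => eventually_imp_distrib_left.2 fun hj =>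
      (X.F.cg.iterate _).continuousAt.eventually_mem ((D'.Op_open 1).mem_nhds (hb j hj))
  have b3 : ∀ᶠ z in 𝓝 y0, ‖D.A (ψ z - ψ y0)‖ < ρ / 2 :=
    ContinuousAt.eventually_lt (by fun_prop) continuousAt_const (by simpa using hρ)
  obtain ⟨C, c1, c2, c3, c4⟩ := D.side hγ' h0 b
    (inter_mem (inter_mem (hσ.continuousAt.preimage_mem_nhds hW') hy) (b1.and h1))
  refine ⟨X.σ '' C, ?_, c2.image _ hσ.continuousOn, ?_⟩
  · rintro _ ⟨z, hz, rfl⟩
    obtain ⟨⟨k1, k2⟩, k3, k4⟩ := c1 hz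
    refine ⟨k1, fun e => (c3 z hz).ne' ?_⟩
    rw [← k4, hγ.2.2.2 (ψ z) fun j => ?_, sub_self, mul_zero]
    rcases lt_or_ge j n with hj | hj
    · exact D.Op_sub le_rfl (k3 j hj)
    · exact (X.emb.injective.mem_set_image).1 (hT z k2 j (hn1.trans hj) ▸ hV0 (e j hj))
  rw [← X.emb.map_nhds_eq, eventually_map]
  filter_upwards [hy, h1, h2, b2, b3, c4] with z k1 k2 k3 k4 k5 k6 e
  have d1 : z ∈ X.F.Λ := (W z k1).2.2.2 fun j => ⟨M * (j + n), by nlinarith [hG.pos], by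
    rw [iterate_mul]
    exact image_mono hD' (hU0 (e _ (by omega)))⟩
  have d2 : z ∈ Lu X.F M D' n0 := ⟨d1, fun j hj => by
    rcases lt_or_ge j n with hj' | hj'
    · exact D'.Op_sub le_rfl (k4 j hj' hj)
    · exact (X.emb.injective.mem_set_image).1 (hH z k1 d1 j ▸ hU0 (e j hj'))⟩
  rcases (k3 d2).eq_or_lt with d3 | d3
  · have d4 : sg b ≠ 0 := by cases b <;> simp [sg]
    rw [(mul_eq_zero.1 d3.symm).resolve_left d4, sub_eq_zero] at k2
    refine .inl fun j hj => ?_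
    rw [hT z k1 j (hn1.trans hj)]
    exact hρV (hγ.stay hρ1 a2 (hBx (W z k1).1) k5 k2 (hn3 j hj))
  · exact .inr (mem_image_of_mem _ (k6 d3))

end Pool.Agent.Lib.MP_6d0683_an
end

-- part Pool.Agent.Lib.MP_6d0683_an.Make3
section

/-!
A tangency gives a conjugate map with a touching.
-/

set_option autoImplicit false

open Set Metric Filter Topology Function

namespace Pool.Agent.Lib.MP_6d0683_an

open MP_3fe454_an.PD MP_3fe454_an.S2

variable {S : Type} [TopologicalSpace S]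

theorem make3_back {F : Dis} {M n0 : ℕ} {p x y : ℂ} (D : Sd F.f^[M] p) (hx : x ∈ F.Λ)
    (h : ∀ n, n0 ≤ n → F.g^[M * n] x ∈ D.Op (1 / 2)) (hy : y ∈ Lu F M D n0)
    (h0 : ‖D.A (F.g^[M * n0] y - F.g^[M * n0] x)‖ < 1 / 2) (n : ℕ) (hn : n0 ≤ n) :
    F.g^[M * n] y ∈ D.Op 1 := by
  have e : ∀ z ∈ F.Λ, ∀ j, F.f^[M] (F.g^[M * (n0 + (j + 1))] z) = F.g^[M * (n0 + j)] z :=
    fun z hz j => by
      rw [← add_assoc, Nat.mul_succ, add_comm _ M, iterate_add_apply,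
        F.iter_f_g (F.iter_g_mem_Λ hz _)]
  obtain ⟨j, rfl⟩ := Nat.exists_eq_add_of_le hn
  have h1 := (D.pair_bwd (w := fun j => F.g^[M * (n0 + j)] y) (w' := fun j => F.g^[M * (n0 + j)] x)
    (fun j => ⟨hy.2 _ (Nat.le_add_right _ _), e y hy.1 j⟩)
    (fun j => ⟨D.Op_sub (by norm_num) (h _ (Nat.le_add_right _ _)), e x hx j⟩) j).2
  have h2 : ‖D.A (F.g^[M * (n0 + j)] x - p)‖ < 1 / 2 := h _ hn
  have h3 := norm_add_le (D.A (F.g^[M * (n0 + j)] y - F.g^[M * (n0 + j)] x))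
    (D.A (F.g^[M * (n0 + j)] x - p))
  rw [← map_add, sub_add_sub_cancel] at h3
  exact h3.trans_lt (by linarith [h1.trans_lt h0])

theorem make3_core [T2Space S] (X : Sys S) {M : ℕ} (hG : Good X.F M) (τ : Tang X.F M)
    (D : Sd X.F.f^[M] τ.q) (hD : D.Bx ⊆ Disc) (h : ∀ n : ℕ, τ.o n ∈ D.Op 1) :
    ∃ g : S ≃ₜ S, Conj X.f g ∧ Touch g^[M] g.symm^[M] := by
  obtain ⟨γ, hγ⟩ := D.exists_gr
  have n1 : ∀ {c}, c ∈ X.F.Λ → ‖c‖ < 1 := fun hc => (X.F.Λ_norm hc).trans_lt X.F.r0_lt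
  obtain ⟨D', hD'⟩ := τ.p_sd Disc
    (closedBall_mem_nhds_of_mem (mem_ball_zero_iff.2 (n1 (X.F.periodic_mem_Λ τ.p_per))))
  obtain ⟨n0, h'⟩ := eventually_atTop.1 ((τ.bot.comp (tendsto_neg_atTop_atBot.comp
    tendsto_natCast_atTop_atTop)).eventually (D'.Op_nhds one_half_pos))
  have hx := τ.not_per hG
  obtain ⟨ε, hε, hc⟩ : ∃ ε > 0, ¬ Ch X.F.f ε (τ.o 0) (τ.o 0) := by
    by_contra! k
    exact hx (hG.cr _ k)
  obtain ⟨r1, hr1, hw⟩ := wander X.F hε hc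
  obtain ⟨r, hr, ⟨r2, r3⟩, r4, r5⟩ : ∃ r > 0, (r ≤ r1 ∧ ‖τ.o 0‖ + r < 1) ∧
      closedBall (τ.o 0) r ⊆ D.Op 1 ∧ closedBall (τ.o 0) r ⊆ (periodicPts X.F.f)ᶜ := by
    obtain ⟨r, hr, k⟩ := nhds_basis_closedBall.mem_iff.1 (inter_mem ((D.Op_open 1).mem_nhds (h 0))
      (hG.fin.isClosed.isOpen_compl.mem_nhds hx))
    have := n1 (τ.mem 0)
    have k2 := (closedBall_subset_closedBall (min_le_left r (min r1 ((1 - ‖τ.o 0‖) / 2)))).trans k
    refine ⟨_, lt_min hr (lt_min hr1 (by linarith)), ⟨(min_le_right _ _).trans (min_le_left _ _),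
      ?_⟩, subset_inter_iff.1 k2⟩
    linarith [(min_le_right r _).trans (min_le_right r1 ((1 - ‖τ.o 0‖) / 2))]
  obtain ⟨ψ, R, hψ, s1, s2⟩ := exists_shear (τ.o 0) (D.A.symm (1, 0))
    ((ContinuousLinearMap.snd ℝ ℝ ℝ).comp (D.A : ℂ →L[ℝ] ℝ × ℝ)) hr r3
  obtain ⟨η1, hη1, k1⟩ := Metric.eventually_nhds_iff.1 (X.fam _ ψ R hψ)
  have hcont : Continuous fun y =>
      ‖D'.A (X.F.g^[M * n0] y - X.F.g^[M * n0] (τ.o 0))‖ :=
    (D'.A.continuous.comp ((X.F.cg.iterate _).sub continuous_const)).norm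
  obtain ⟨η2, hη2, k2⟩ := Metric.eventually_nhds_iff.1
    (hcont.continuousAt.eventually_lt (continuousAt_const (y := 1 / 2)) (x₀ := τ.o 0) (by simp))
  obtain ⟨t, ht, y, hy, hd, h0, b, h2⟩ := contact τ D hγ h D' (n0 := n0)
    (fun n hn => D'.Op_mono (by norm_num) (h' n hn)) (lt_min hη1 (lt_min hη2 (half_pos hr)))
  obtain ⟨g, hg⟩ := k1 (y := t) (by rw [dist_zero_right]; exact ht.trans_le (min_le_left _ _))
  have hK : closedBall (τ.o 0) r ⊆ Disc := r4.trans ((D.Op_sub le_rfl).trans hD)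
  have hs : ∀ {c}, c ∈ periodicPts X.F.f → _ → Sad g^[M] g.symm^[M] (X.σ c) :=
    sad_of hg hG (isCompact_closedBall _ r) (fun z hz => s1 t z fun k => hz (ball_subset_closedBall k))
      (fun c hc k => r5 k hc) hK
  have hy2 : y ∈ ball (τ.o 0) (r / 2) := hd.trans_le ((min_le_right _ _).trans (min_le_right _ _))
  refine ⟨g, hg.conj, touch_of hg hG ((hψ.smooth 0).continuous.comp (Continuous.prodMk_right t))
    (hs τ.p_per τ.p_sd) (hs τ.q_per τ.q_sd) τ.ne D hγ D' hD hD' (ball_subset_closedBall.trans r4)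
    (s1 t) (fun z hz j hj k => hw _ (fun w => by simpa using hr1) z (ball_subset_ball r2 hz) j hj
      (ball_subset_ball r2 k))
    (isOpen_ball.mem_nhds (ball_subset_ball (half_le_self hr.le) hy2)) hy.1
    (make3_back D' (τ.mem 0) (fun n hn => τ.bwd n ▸ h' n hn) hy
      (k2 (hd.trans_le ((min_le_right _ _).trans (min_le_left _ _)))))
    (γ' := fun u => γ u - (t.1 * (u - D.Y (τ.o 0)) + t.2)) (by have := hγ.cont; fun_prop)
    (eq_sub_of_add_eq h0) ?_ (b := b) (h2.mono fun z hz k => (hz k).trans_eq (by ring))⟩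
  filter_upwards [isOpen_ball.mem_nhds hy2] with z hz
  have e1 : ∀ s : ℝ, D.A (z + s • D.A.symm (1, 0) - τ.q) = D.A (z - τ.q) + (s, 0) := fun s => by
    rw [add_sub_right_comm, map_add, map_smul, ContinuousLinearEquiv.apply_symm_apply]
    simp
  rw [s2 t z (ball_subset_closedBall hz), D.Y_sub]
  simp only [Sd.X, Sd.Y, e1, Prod.fst_add, Prod.snd_add, add_zero, ContinuousLinearMap.comp_apply,
    ContinuousLinearEquiv.coe_coe, ContinuousLinearMap.coe_snd']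
  ring

theorem make [T2Space S] (X : Sys S) {M : ℕ} (hG : Good X.F M) (τ : Tang X.F M) :
    ∃ g : S ≃ₜ S, Conj X.f g ∧ Touch g^[M] g.symm^[M] := by
  obtain ⟨D, hD⟩ := τ.q_sd Disc (closedBall_mem_nhds_of_mem (mem_ball_zero_iff.2
    ((X.F.Λ_norm (X.F.periodic_mem_Λ τ.q_per)).trans_lt X.F.r0_lt)))
  obtain ⟨m, hm⟩ := eventually_atTop.1 (τ.top.eventually (D.Op_nhds one_pos))
  exact make3_core X hG (τ.shift m) D hD fun n => hm _ (le_add_of_nonneg_left n.cast_nonneg)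

end Pool.Agent.Lib.MP_6d0683_an
end

-- part Pool.Agent.Lib.MP_6d0683_an.Gen2
section

/-!
Generic parameters have no one sided contact.
-/

set_option autoImplicit false

open Set Metric Filter Topology Function

namespace Pool.Agent.Lib.MP_6d0683_an

open MP_3fe454_an.PD MP_3fe454_an.S2

variable {S : Type} [TopologicalSpace S]

/-- parameters with a one sided contact on the set L -/
def gen2_Bad {P : Type} (Φ : P × ℂ → ℂ) (L B : Set ℂ) (d : ℂ → ℝ) (s : ℝ) : Set P :=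
  {v | (∀ y ∈ L, 0 ≤ s * d (Φ (v, y))) ∧ ∃ y ∈ L, Φ (v, y) ∈ B ∧ d (Φ (v, y)) = 0}

theorem gen2_closed {P : Type} [TopologicalSpace P] {Φ : P × ℂ → ℂ} (hΦ : Continuous Φ)
    {L B : Set ℂ} (hL : IsCompact L) (hB : IsClosed B) {d : ℂ → ℝ} (hd : Continuous d) (s : ℝ) :
    IsClosed (gen2_Bad Φ L B d s) := by
  have h1 : IsClosed {v : P | ∀ y ∈ L, 0 ≤ s * d (Φ (v, y))} := by
    have e : {v : P | ∀ y ∈ L, 0 ≤ s * d (Φ (v, y))} =
        ⋂ y ∈ L, {v : P | 0 ≤ s * d (Φ (v, y))} := by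
      ext v
      simp
    rw [e]
    exact isClosed_biInter fun y _ => isClosed_le continuous_const (by fun_prop)
  have h2 : IsClosed {v : P | ∃ y ∈ L, Φ (v, y) ∈ B ∧ d (Φ (v, y)) = 0} := by
    have : CompactSpace L := isCompact_iff_compactSpace.1 hL
    have hc : Continuous fun p : P × L => Φ (p.1, (p.2 : ℂ)) := by fun_prop
    have h3 : IsClosed {p : P × L | Φ (p.1, (p.2 : ℂ)) ∈ B ∧ d (Φ (p.1, (p.2 : ℂ))) = 0} :=
      (hB.preimage hc).inter (isClosed_eq (hd.comp hc) continuous_const)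
    have e : {v : P | ∃ y ∈ L, Φ (v, y) ∈ B ∧ d (Φ (v, y)) = 0} =
        Prod.fst '' {p : P × L | Φ (p.1, (p.2 : ℂ)) ∈ B ∧ d (Φ (p.1, (p.2 : ℂ))) = 0} := by
      ext v
      constructor
      · rintro ⟨y, hy, h⟩
        exact ⟨(v, ⟨y, hy⟩), h, rfl⟩
      · rintro ⟨p, hp, rfl⟩
        exact ⟨p.2, p.2.2, hp⟩
    rw [e]
    exact isClosedMap_fst_of_compactSpace _ h3
  exact h1.inter h2

theorem gen2_dense {P : Type} [TopologicalSpace P] {Φ : P × ℂ → ℂ} {L B : Set ℂ} {d : ℂ → ℝ}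
    {s : ℝ} {N : Set P} (hd : ∀ z, d z = 0 → ∃ᶠ w in 𝓝 z, s * d w < 0)
    (hm : ∀ v ∈ N, ∀ y ∈ L, Φ (v, y) ∈ B → 𝓝 (Φ (v, y)) ≤ map (fun v' => Φ (v', y)) (𝓝 v)) :
    Dense (N ∩ gen2_Bad Φ L B d s)ᶜ := by
  intro v
  by_cases hv : v ∈ N ∩ gen2_Bad Φ L B d s
  · obtain ⟨hN, -, y, hy, hB, h0⟩ := hv
    have h1 : ∃ᶠ v' in 𝓝 v, s * d (Φ (v', y)) < 0 :=
      frequently_map.1 ((hd _ h0).filter_mono (hm v hN y hy hB))
    refine mem_closure_iff_frequently.2 (h1.mono fun v' h2 h3 => ?_)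
    exact absurd (h3.2.1 y hy) (not_le.2 h2)
  · exact subset_closure hv

theorem gen2_dcont {G : ℂ → ℂ} (E : SdG G) : Continuous E.d :=
  E.D.cX.sub (E.gr.cont.comp E.D.cY)

theorem Gen.generic {X : Sys S} {M m : ℕ} {ψ : (Fin m → ℂ) × ℂ → ℂ} {R η : ℝ} {K : Set ℂ}
    {𝒟 : Set (SdG X.F.f^[M])} (h : Gen X M m ψ R η K 𝒟) :
    ∃ v, ‖v‖ < η ∧ NoT X.F M (X.F.f ∘ fun z => ψ (v, z)) 𝒟 := by
  have : Countable 𝒟 := h.fin.countable.to_subtype
  have : Countable (TopologicalSpace.countableBasis ℂ) :=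
    (TopologicalSpace.countable_countableBasis ℂ).to_subtype
  have hη := h.η_pos
  let Φ : ℕ → (Fin m → ℂ) × ℂ → ℂ := fun n p => (X.F.f ∘ fun z => ψ (p.1, z))^[M * n] p.2
  let W : 𝒟 × 𝒟 × ℕ × TopologicalSpace.countableBasis ℂ × Bool → Set (Fin m → ℂ) := fun i =>
    ((closedBall 0 (η / 2) ∩ {_v | i.1.1.c ≠ i.2.1.1.c}) ∩
      gen2_Bad (Φ i.2.2.1) (Lu X.F M i.1.1.D 0 ∩ closure i.2.2.2.1.1) i.2.1.1.D.Bx i.2.1.1.d
        (sg i.2.2.2.2))ᶜ
  have hbx : ∀ (E : SdG X.F.f^[M]) y, y ∈ Lu X.F M E.D 0 → y ∈ E.D.Bx := fun E y hy => by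
    simpa using hy.2 0 le_rfl
  have ho : ∀ i, IsOpen (W i) := fun i => by
    refine isOpen_compl_iff.2 ((isClosed_closedBall.inter isClosed_const).inter ?_)
    exact gen2_closed (h.fam.cont X.F _) ((Lu_compact _ 0).inter_right isClosed_closure)
      i.2.1.1.D.Bx_compact.isClosed (gen2_dcont _) _
  have hd : ∀ i, Dense (W i) := fun i => by
    refine gen2_dense (fun z hz => i.2.1.1.D.near i.2.1.1.γ (sub_eq_zero.1 hz) _) ?_
    intro v hv y hy hB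
    have h1 : ‖v‖ < η := by
      have := mem_closedBall_zero_iff.1 hv.1
      linarith
    exact h.move v h1 _ i.1.2 _ i.2.1.2 hv.2 y (hbx _ y hy.1) _ hB
  obtain ⟨v, hv, hW⟩ := (dense_iInter_of_isOpen ho hd).exists_mem_open isOpen_ball
    (nonempty_ball.2 (half_pos hη) : (ball (0 : Fin m → ℂ) (η / 2)).Nonempty)
  have hv' := mem_ball_zero_iff.1 hW
  refine ⟨v, by linarith, ?_⟩
  intro E hE E' hE' hne n y hy hB h0 b hev
  obtain ⟨C, ⟨hC, hCc⟩, hCs⟩ := (closed_nhds_basis y).mem_iff.1 hev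
  obtain ⟨β, hβ, hyβ, hβC⟩ := (TopologicalSpace.isBasis_countableBasis ℂ).mem_nhds_iff.1 hC
  refine mem_iInter.1 hv (⟨E, hE⟩, ⟨E', hE'⟩, n, ⟨β, hβ⟩, b)
    ⟨⟨mem_closedBall_zero_iff.2 hv'.le, hne⟩, ?_, y, ⟨hy, subset_closure hyβ⟩, hB, h0⟩
  intro y' hy'
  exact hCs (closure_minimal hβC hCc hy'.2) hy'.1

end Pool.Agent.Lib.MP_6d0683_an
end

-- part Pool.Agent.Lib.MP_6d0683_an.Gen1
section

/-!
A family which moves all connections between saddles.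
-/

set_option autoImplicit false

open Set Metric Filter Topology Function

namespace Pool.Agent.Lib.MP_6d0683_an

open MP_3fe454_an.PD MP_3fe454_an.S2

variable {S : Type} [TopologicalSpace S]

/-- orbits near the periodic points follow them -/
theorem follow (F : Dis) (hf : (periodicPts F.f).Finite) : ∃ δ > 0,
    (∀ c ∈ periodicPts F.f, ∀ c' ∈ periodicPts F.f, ∀ w ∈ ball c δ, w ∈ ball c' δ → c = c') ∧
    ∀ c ∈ periodicPts F.f, ∀ c' ∈ periodicPts F.f, ∀ w ∈ ball c (2 * δ),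
      F.f w ∈ ball c' δ → c' = F.f c := by
  have hs : ∀ {a : ℝ}, 0 < a → ∀ᶠ δ in 𝓝[>] (0 : ℝ), δ < a := fun ha =>
    (eventually_lt_nhds ha).filter_mono nhdsWithin_le_nhds
  have h1 : ∀ c c' : ℂ, ∀ᶠ δ in 𝓝[>] (0 : ℝ), ∀ w ∈ ball c δ, w ∈ ball c' δ → c = c' := by
    intro c c'
    by_cases e : c = c'
    · exact Eventually.of_forall fun _ _ _ _ => e
    filter_upwards [hs (half_pos (dist_pos.2 e))] with δ hδ w hw hw'
    have := dist_triangle_left c c' w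
    rw [mem_ball] at hw hw'
    linarith
  have h2 : ∀ c c' : ℂ, ∀ᶠ δ in 𝓝[>] (0 : ℝ), ∀ w ∈ ball c (2 * δ),
      F.f w ∈ ball c' δ → c' = F.f c := by
    intro c c'
    by_cases e : c' = F.f c
    · exact Eventually.of_forall fun _ _ _ _ => e
    have hd := half_pos (dist_pos.2 e)
    obtain ⟨ρ, hρ, h⟩ := Metric.continuousAt_iff.1 (F.cf.continuousAt (x := c)) _ hd
    filter_upwards [hs hd, hs (half_pos hρ)] with δ hδ hδ' w hw hw'
    have := dist_triangle_left c' (F.f c) (F.f w)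
    rw [mem_ball] at hw hw'
    have := h (x := w) (by linarith)
    linarith
  obtain ⟨δ, a, b, hδ⟩ := (((eventually_all_finite hf).2 fun c _ =>
    (eventually_all_finite hf).2 fun c' _ => h1 c c').and (((eventually_all_finite hf).2 fun c _ =>
    (eventually_all_finite hf).2 fun c' _ => h2 c c').and self_mem_nhdsWithin)).exists
  exact ⟨δ, hδ, a, b⟩

theorem gen1_norm (F : Dis) (ψ : ℂ → ℂ) (y : ℂ) (j : ℕ) : ‖(F.f ∘ ψ)^[j + 1] y‖ ≤ F.r0 := by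
  rw [iterate_succ_apply']
  exact F.maps _

/-- a translation in a wandering disc moves the later point of the orbit in an open way -/
theorem move_one (X : Sys S) {m : ℕ} {ψ : (Fin m → ℂ) × ℂ → ℂ} {c : ℂ} {r : ℝ} {i : Fin m}
    (h1 : ∀ v w z, z ∉ ball c r → ψ (v + Pi.single i w, z) = ψ (v, z))
    (h2 : ∀ v w z, z ∈ closedBall c (r / 2) → ψ (v + Pi.single i w, z) = ψ (v, z) + w)
    {N : Set (Fin m → ℂ)} (hN : IsOpen N)
    (hp : ∀ v ∈ N, ∃ g, Pert X.σ X.f (fun z => ψ (v, z)) g)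
    (hw : ∀ v ∈ N, ∀ z ∈ ball c r, ∀ j : ℕ, 1 ≤ j → (X.F.f ∘ fun z => ψ (v, z))^[j] z ∉ ball c r)
    {v : Fin m → ℂ} (hv : v ∈ N) {y : ℂ} (hy : ‖y‖ < 1) {j n : ℕ} (hj : j < n)
    (hc : (X.F.f ∘ fun z => ψ (v, z))^[j] y ∈ ball c (r / 2)) :
    𝓝 ((X.F.f ∘ fun z => ψ (v, z))^[n] y) ≤
      map (fun v' => (X.F.f ∘ fun z => ψ (v', z))^[n] y) (𝓝 v) := by
  obtain ⟨k, rfl⟩ : ∃ k, n = k + 1 + j := ⟨n - 1 - j, by omega⟩
  obtain ⟨g, hg⟩ := hp v hv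
  set u := (X.F.f ∘ fun z => ψ (v, z))^[j] y with hu
  have hr : 0 < r / 2 := pos_of_mem_ball hc
  have hc' : u ∈ ball c r := ball_subset_ball (by linarith) hc
  have u1 : ‖u‖ < 1 := by
    rcases j with _ | j
    · exact hy
    · exact (gen1_norm X.F _ y j).trans_lt X.F.r0_lt
  have u2 : ‖ψ (v, u)‖ < 1 := mem_ball_zero_iff.1 (hg.maps (mem_ball_zero_iff.2 u1))
  have ht : Tendsto (fun w : ℂ => v + Pi.single i w) (𝓝 0) (𝓝 v) :=
    (continuous_const.add (continuous_single (A := fun _ => ℂ) i)).tendsto' _ _ (by simp)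
  have key : (fun w => (X.F.f ∘ fun z => ψ (v, z))^[k] (X.F.f (ψ (v, u) + w))) =ᶠ[𝓝 0]
      fun w => (X.F.f ∘ fun z => ψ (v + Pi.single i w, z))^[k + 1 + j] y := by
    filter_upwards [ht.eventually (hN.mem_nhds hv)] with w hw'
    have e1 : (X.F.f ∘ fun z => ψ (v + Pi.single i w, z))^[j] y = u := by
      refine sys_iter_eq fun l hl => congrArg X.F.f (h1 _ _ _ fun h => ?_)
      refine hw v hv _ h (j - l) (by omega) ?_
      rwa [← iterate_add_apply, Nat.sub_add_cancel hl.le]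
    have e2 : (X.F.f ∘ fun z => ψ (v + Pi.single i w, z)) u = X.F.f (ψ (v, u) + w) :=
      congrArg X.F.f (h2 _ _ _ (ball_subset_closedBall hc))
    rw [iterate_add_apply, e1, iterate_succ_apply, ← e2]
    refine sys_iter_eq fun l _ => congrArg X.F.f (h1 _ _ _ ?_).symm
    rw [← iterate_succ_apply]
    exact hw _ hw' u hc' _ (Nat.succ_pos l)
  have m1 : map (fun w => ψ (v, u) + w) (𝓝 0) = 𝓝 (ψ (v, u)) := map_add_left_nhds_zero _
  have m2 : map X.F.f (𝓝 (ψ (v, u))) = 𝓝 (X.F.f (ψ (v, u))) := X.pert_id.map_nhds u2 1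
  have m3 := hg.map_nhds ((X.F.maps (ψ (v, u))).trans_lt X.F.r0_lt) k
  calc 𝓝 ((X.F.f ∘ fun z => ψ (v, z))^[k + 1 + j] y)
      = map (fun w => (X.F.f ∘ fun z => ψ (v, z))^[k] (X.F.f (ψ (v, u) + w))) (𝓝 0) := by
        rw [iterate_add_apply, ← hu, iterate_succ_apply, comp_apply, ← m3, ← m2, ← m1]
        rfl
    _ = map (fun v' => (X.F.f ∘ fun z => ψ (v', z))^[k + 1 + j] y)
          (map (fun w : ℂ => v + Pi.single i w) (𝓝 0)) := by rw [map_congr key]; rfl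
    _ ≤ _ := map_mono ht

theorem gen1_per {f : ℂ → ℂ} {c : ℂ} (h : c ∈ periodicPts f) (j : ℕ) :
    f^[j] c ∈ periodicPts f :=
  let ⟨n, hn, h⟩ := h
  ⟨n, hn, h.apply_iterate j⟩

theorem exists_gen (X : Sys S) {M : ℕ} (hG : Good X.F M) :
    ∃ m ψ R η K 𝒟, Gen X M m ψ R η K 𝒟 := by
  obtain ⟨δ, hδ, f1, f2⟩ := follow X.F hG.fin
  set K0 : Set ℂ := closedBall 0 X.F.r0 \ ⋃ c ∈ periodicPts X.F.f, ball c δ with hK0
  have k1 : IsCompact K0 :=
    (isCompact_closedBall _ _).diff (isOpen_biUnion fun _ _ => isOpen_ball)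
  have k2 : ∀ z ∈ K0, ∃ r > 0, r ≤ δ / 2 ∧ ‖z‖ + r < 1 ∧ ∀ T : ℂ → ℂ,
      (∀ w, ‖T w - X.F.f w‖ < r) → ∀ w ∈ ball z r, ∀ j : ℕ, 1 ≤ j → T^[j] w ∉ ball z r := by
    intro z hz
    have h1 : ¬ ∀ ε > 0, Ch X.F.f ε z z := fun h =>
      hz.2 (mem_biUnion (hG.cr z h) (mem_ball_self hδ))
    push Not at h1
    obtain ⟨ε, hε, h1⟩ := h1
    obtain ⟨ρ, hρ, h2⟩ := wander X.F hε h1
    have h3 := X.F.r0_lt
    have h4 := mem_closedBall_zero_iff.1 hz.1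
    have h5 := min_le_left ρ (min (δ / 2) ((1 - X.F.r0) / 2))
    have h6 := min_le_right ρ (min (δ / 2) ((1 - X.F.r0) / 2))
    have h7 := min_le_right (δ / 2) ((1 - X.F.r0) / 2)
    refine ⟨min ρ (min (δ / 2) ((1 - X.F.r0) / 2)), lt_min hρ (lt_min (by linarith) (by linarith)),
      h6.trans (min_le_left _ _), by linarith, fun T hT w hw j hj h => ?_⟩
    exact h2 T (fun w => (hT w).trans_le h5) w (ball_subset_ball h5 hw) j hj (ball_subset_ball h5 h)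
  choose! r r1 r2 r3 r4 using k2
  obtain ⟨t, t1, t2⟩ := k1.elim_nhds_subcover (fun z => ball z (r z / 2))
    fun z hz => ball_mem_nhds z (half_pos (r1 z hz))
  set c : Fin t.card → ℂ := fun i => t.equivFin.symm i with hc
  have c1 : ∀ i, c i ∈ K0 := fun i => t1 _ (t.equivFin.symm i).2
  obtain ⟨ψ, R, b1, b2, b3, b4⟩ := exists_bump c (fun i => r (c i)) (fun i => r1 _ (c1 i))
    fun i => r3 _ (c1 i)
  set K : Set ℂ := ⋃ i, closedBall (c i) (r (c i)) with hK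
  have k3 : IsCompact K := isCompact_iUnion fun i => isCompact_closedBall _ _
  have k4 : ∀ p ∈ periodicPts X.F.f, p ∉ K := fun p hp h => by
    obtain ⟨i, hi⟩ := mem_iUnion.1 h
    refine (c1 i).2 (mem_biUnion hp ?_)
    have := r2 _ (c1 i)
    rw [mem_closedBall, dist_comm] at hi
    rw [mem_ball]
    linarith
  obtain ⟨η, hη, e⟩ := Metric.eventually_nhds_iff.1 ((X.fam _ ψ R b1).and
    ((b1.small X.F hδ).and (eventually_all.2 fun i => b1.small X.F (r1 _ (c1 i)))))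
  simp only [dist_zero_right] at e
  let A := {p : ℂ // p ∈ periodicPts X.F.f ∧ ∃ E : SdG X.F.f^[M], E.c = p ∧
    ∀ w ∈ E.D.Bx, w ∈ ball (0 : ℂ) 1 ∧ w ∈ ball p δ ∧ ∀ j < M, X.F.f^[j] w ∉ K}
  have : Finite A := (hG.fin.subset (s := _) fun p hp => And.left hp).to_subtype
  choose E E1 E2 using fun p : A => p.2.2
  refine ⟨t.card, ψ, R, η, K, range E, b1, hη, fun v hv => (e hv).1, k3, ?_, ?_, k4,
    finite_range E, fun p hp => ?_, ?_, ?_⟩
  · refine iUnion_subset fun i z hz => mem_closedBall_zero_iff.2 ?_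
    have := r3 _ (c1 i)
    have := norm_le_norm_add_norm_sub' z (c i)
    rw [mem_closedBall, dist_eq_norm] at hz
    linarith
  · exact fun v z hz => b2 v z fun i hi => hz (mem_iUnion.2 ⟨i, ball_subset_closedBall hi⟩)
  · refine (hG.hyp p hp).imp_right fun h => ?_
    have h1 : ∀ᶠ w in 𝓝 p, w ∈ ball (0 : ℂ) 1 ∧ w ∈ ball p δ ∧ ∀ j < M, X.F.f^[j] w ∉ K := by
      refine Eventually.and (isOpen_ball.mem_nhds (mem_ball_zero_iff.2
        ((X.F.Λ_norm (X.F.periodic_mem_Λ hp)).trans_lt X.F.r0_lt)))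
        (Eventually.and (ball_mem_nhds p hδ) ?_)
      exact (eventually_all_finite (finite_lt_nat M)).2 fun j _ =>
        (X.F.cf.iterate j).continuousAt.preimage_mem_nhds
          (k3.isClosed.isOpen_compl.mem_nhds (k4 _ (gen1_per hp j)))
    obtain ⟨D, hD⟩ := h _ h1
    obtain ⟨γ, hγ⟩ := D.exists_gr
    exact ⟨E ⟨p, hp, ⟨p, D, γ, hγ⟩, rfl, fun w hw => hD hw⟩, mem_range_self _, E1 _⟩
  · rintro _ ⟨p, rfl⟩
    exact ⟨fun w hw => (E2 p w hw).1, fun w hw => (E2 p w hw).2.2⟩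
  · rintro v hv _ ⟨p, rfl⟩ _ ⟨q, rfl⟩ hpq y hy n hn
    by_cases h : ∃ j < M * n, (X.F.f ∘ fun z => ψ (v, z))^[j] y ∈ K0
    · obtain ⟨j, hj, h⟩ := h
      obtain ⟨z, hz, h⟩ := mem_iUnion₂.1 (t2 h)
      have h1 : c (t.equivFin ⟨z, hz⟩) = z := by simp [hc]
      refine move_one X (b3 · (t.equivFin ⟨z, hz⟩)) (b4 · (t.equivFin ⟨z, hz⟩))
        (N := ball 0 η) isOpen_ball (fun v hv => (e (mem_ball_zero_iff.1 hv)).1)
        (fun v hv => r4 _ (c1 _) _ fun w => ((e (mem_ball_zero_iff.1 hv)).2.2 _ w).2)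
        (mem_ball_zero_iff.2 hv) (mem_ball_zero_iff.1 (E2 p y hy).1) hj ?_
      rwa [h1]
    push Not at h
    have h1 : ∀ j ≤ M * n,
        (X.F.f ∘ fun z => ψ (v, z))^[j] y ∈ ball (X.F.f^[j] p) δ := by
      intro j
      induction j with
      | zero => exact fun _ => (E2 p y hy).2.1
      | succ j ih =>
        intro hj
        obtain ⟨c', c2, c3⟩ : ∃ c' ∈ periodicPts X.F.f,
            (X.F.f ∘ fun z => ψ (v, z))^[j + 1] y ∈ ball c' δ := by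
          rcases hj.eq_or_lt with hj | hj
          · exact ⟨q, q.2.1, hj ▸ (E2 q _ hn).2.1⟩
          · by_contra hn
            refine h _ hj ⟨mem_closedBall_zero_iff.2 (gen1_norm X.F _ y j), fun h => hn ?_⟩
            obtain ⟨c', c2, c3⟩ := mem_iUnion₂.1 h
            exact ⟨c', c2, c3⟩
        have h2 := mem_ball.1 (ih (by omega))
        have h3 := ((e hv).2.1 ((X.F.f ∘ fun z => ψ (v, z))^[j] y)).1
        have h4 := dist_triangle (ψ (v, (X.F.f ∘ fun z => ψ (v, z))^[j] y))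
          ((X.F.f ∘ fun z => ψ (v, z))^[j] y) (X.F.f^[j] p)
        rw [← dist_eq_norm] at h3
        have h5 := f2 _ (gen1_per p.2.1 j) c' c2 (ψ (v, (X.F.f ∘ fun z => ψ (v, z))^[j] y))
          (mem_ball.2 (by linarith)) (by rwa [iterate_succ_apply'] at c3)
        rwa [iterate_succ_apply' X.F.f, ← h5]
    have h2 := h1 _ le_rfl
    rw [iterate_mul X.F.f, iterate_fixed (hG.fix _ p.2.1)] at h2
    exact absurd ((E1 p).trans ((f1 _ p.2.1 _ q.2.1 _ h2 (E2 q _ hn).2.1).trans (E1 q).symm)) hpq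

end Pool.Agent.Lib.MP_6d0683_an
end

-- part Pool.Agent.Lib.MP_6d0683_an.Orb2
section

/-!
Without tangency the stable and unstable directions span the plane.
-/

set_option autoImplicit false

open Set Metric Filter Topology Function

namespace Pool.Agent.Lib.MP_6d0683_an

open MP_3fe454_an.PD MP_3fe454_an.S2

variable {F : Dis} {M : ℕ}

theorem orb2_top {a : ℤ → ℂ} {c : ℂ} (n0 : ℤ)
    (h : Tendsto (fun k : ℕ => a (n0 + k)) atTop (𝓝 c)) : Tendsto a atTop (𝓝 c) := fun s hs => by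
  obtain ⟨N, hN⟩ := eventually_atTop.1 (h.eventually_mem hs)
  refine eventually_atTop.2 ⟨n0 + N, fun n hn => ?_⟩
  have := hN (n - n0).toNat (by omega)
  rwa [show n0 + ((n - n0).toNat : ℤ) = n by omega] at this

theorem orb2_bot {a : ℤ → ℂ} {c : ℂ} (n0 : ℤ)
    (h : Tendsto (fun k : ℕ => a (n0 - k)) atTop (𝓝 c)) : Tendsto a atBot (𝓝 c) := fun s hs => by
  obtain ⟨N, hN⟩ := eventually_atTop.1 (h.eventually_mem hs)
  refine eventually_atBot.2 ⟨n0 - N, fun n hn => ?_⟩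
  have := hN (n0 - n).toNat (by omega)
  rwa [show n0 - ((n0 - n).toNat : ℤ) = n by omega] at this

theorem orb2_neg : Tendsto (fun n : ℕ => -(n : ℤ)) atTop atBot :=
  tendsto_neg_atTop_atBot.comp tendsto_natCast_atTop_atTop

theorem orb2_bdd (A : ℂ ≃L[ℝ] ℝ × ℝ) {a : ℕ → ℂ} (h : Tendsto a atTop (𝓝 0)) :
    ∃ C, ∀ n, ‖A (a n)‖ ≤ C := by
  obtain ⟨C, hC⟩ := ((A.continuous.tendsto 0).comp h).norm.bddAbove_range
  exact ⟨C, fun n => hC ⟨n, rfl⟩⟩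

theorem orb2_span {x y : ℂ} (hx : x ≠ 0) (h : ∀ t : ℝ, t • x ≠ y) (v : ℂ) :
    ∃ s t : ℝ, s • x + t • y = v := by
  have h1 := ((LinearIndependent.pair_iff' hx).2 h).span_eq_top_of_card_eq_finrank'
    (by simp)
  rw [← Submodule.mem_span_pair, ← Matrix.range_cons_cons_empty x y ![], h1]
  trivial

theorem exists_top {q : ℂ} (D : Sd F.f^[M] q) {o : ℤ → ℂ} (hm : ∀ n, ‖o n‖ < 1)
    (ht : Tendsto o atTop (𝓝 q)) :
    ∃ a, Sol F.f^[M] o a ∧ a 0 ≠ 0 ∧ Tendsto a atTop (𝓝 0) := by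
  obtain ⟨n0, h0⟩ := eventually_atTop.1 (ht.eventually_mem (D.Op_nhds one_pos))
  have st : ∀ (k : ℕ) (v : ℝ × ℝ), D.toCst.St v
      (D.A (fderiv ℝ F.f^[M] (o (n0 + k)) (D.A.symm v))) := fun k v => by
    simpa using D.deriv (h0 (n0 + k) (by omega)) (strict_iter F M (hm _)).1.hasFDerivAt (D.A.symm v)
  obtain ⟨u, u0, u1, u2⟩ := Cst.exists_fwd _ (fun k => by fun_prop) st 1
  obtain ⟨a, a1, a2⟩ := sol_exists (F := F) (M := M) hm n0 (D.A.symm (u 0))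
  have h1 : ∀ k : ℕ, a (n0 + k) = D.A.symm (u k) := fun k => by
    induction k with
    | zero => simpa using a2
    | succ k ih => rw [Nat.cast_succ, ← add_assoc, a1, ih, u1, D.A.symm_apply_apply]
  refine ⟨a, a1, fun e => ?_, orb2_top n0 ?_⟩
  · rw [a1.zero hm e n0, eq_comm, map_eq_zero_iff _ D.A.symm.injective] at a2
    simp [a2] at u0
  · simpa only [h1, map_zero, comp_def] using (D.A.symm.continuous.tendsto 0).comp
      (Cst.tend_fwd (fun n => u1 n ▸ st n (u n)) u2)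

theorem exists_bot {p : ℂ} (D : Sd F.f^[M] p) {o : ℤ → ℂ} (hm : ∀ n, ‖o n‖ < 1)
    (ht : Tendsto o atBot (𝓝 p)) :
    ∃ a, Sol F.f^[M] o a ∧ a 0 ≠ 0 ∧ Tendsto a atBot (𝓝 0) := by
  obtain ⟨n0, h0⟩ := eventually_atBot.1 (ht.eventually_mem (D.Op_nhds one_pos))
  choose L hL using fun n => fderiv_equiv F M (hm n)
  have st : ∀ (k : ℕ) (v : ℝ × ℝ), D.toCst.St v
      (D.A.symm.trans ((L (n0 - (k + 1 : ℕ))).trans D.A) v) := fun k v => by
    have := D.deriv (L := L (n0 - (k + 1 : ℕ))) (h0 (n0 - (k + 1 : ℕ)) (by omega))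
      (hL _ ▸ (strict_iter F M (hm _)).1.hasFDerivAt) (D.A.symm v)
    rwa [D.A.apply_symm_apply] at this
  obtain ⟨u, u0, u1, u2⟩ := Cst.exists_bwd _ st
  obtain ⟨a, a1, a2⟩ := sol_exists (F := F) (M := M) hm n0 (D.A.symm (u 0))
  have h1 : ∀ k : ℕ, a (n0 - k) = D.A.symm (u k) := fun k => by
    induction k with
    | zero => simpa using a2
    | succ k ih =>
      have h2 := a1 (n0 - (k + 1 : ℕ))
      rw [show n0 - (k + 1 : ℕ) + 1 = n0 - k by omega, ih, ← u1 k, ← hL] at h2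
      exact (L (n0 - (k + 1 : ℕ))).injective (h2.symm.trans (D.A.symm_apply_apply _))
  refine ⟨a, a1, fun e => ?_, orb2_bot n0 ?_⟩
  · rw [a1.zero hm e n0, eq_comm, map_eq_zero_iff _ D.A.symm.injective] at a2
    exact u0 a2
  · simpa only [h1, map_zero, comp_def] using (D.A.symm.continuous.tendsto 0).comp
      (Cst.tend_bwd (fun n => u1 n ▸ st n (u (n + 1))) u2)

theorem no_homo {p : ℂ} (D : Sd F.f^[M] p) (hp : ‖p‖ < 1) {a : ℤ → ℂ}
    (ha : Sol F.f^[M] (fun _ => p) a) (h1 : Tendsto a atTop (𝓝 0))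
    (h2 : Tendsto a atBot (𝓝 0)) : a 0 = 0 := by
  have st : ∀ n, D.toCst.St (D.A (a n)) (D.A (a (n + 1))) := fun n => ha n ▸
    D.deriv (mem_of_mem_nhds (D.Op_nhds one_pos)) (strict_iter F M hp).1.hasFDerivAt (a n)
  obtain ⟨C, hC⟩ := orb2_bdd D.A (h1.comp tendsto_natCast_atTop_atTop)
  obtain ⟨C', hC'⟩ := orb2_bdd D.A (h2.comp orb2_neg)
  have h3 := Cst.cone_bwd (k := D.toCst) (fun n => by
    have := st (-(n + 1 : ℕ))
    rwa [show -((n + 1 : ℕ) : ℤ) + 1 = -n by omega] at this) hC' 0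
  exact (map_eq_zero_iff _ D.A.injective).1 (Cst.zero_fwd (k := D.toCst) (fun n => st n) hC h3)

theorem split (hG : Good F M) (hT : IsEmpty (Tang F M)) {o : ℤ → ℂ} (ho : Orb F o) (v : ℂ) :
    ∃ a b, Sol F.f o a ∧ Sol F.f o b ∧ a 0 + b 0 = v ∧ Tendsto a atTop (𝓝 0) ∧
      Tendsto b atBot (𝓝 0) := by
  obtain ⟨p, hp, q, hq, hb, ht, he⟩ := orb_lim hG ho
  have hm : ∀ n, ‖o n‖ < 1 := fun n => (F.Λ_norm (ho n).1).trans_lt F.r0_lt
  have hm' : ∀ n : ℤ, ‖o (M * n)‖ < 1 := fun n => hm _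
  have lift : ∀ w, ∃ a, Sol F.f o a ∧ a 0 = w := sol_exists (F := F) (M := 1) hm 0
  have orb : ∀ n : ℤ, o (M * (n + 1)) = F.f^[M] (o (M * n)) := fun n => by
    rw [mul_add_one, ho.add]
  have snk : Snk F.f^[M] q → ∃ a b, Sol F.f o a ∧ Sol F.f o b ∧ a 0 + b 0 = v ∧
      Tendsto a atTop (𝓝 0) ∧ Tendsto b atBot (𝓝 0) := fun T => by
    obtain ⟨a, a1, a2⟩ := lift v
    refine ⟨a, 0, a1, fun n => (map_zero _).symm, (add_zero _).trans a2,
      a1.top ho hG.pos (orb2_top 0 ?_), tendsto_const_nhds⟩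
    simp only [zero_add]
    exact T.decay (ht.comp tendsto_natCast_atTop_atTop)
      (fun n => (strict_iter F M (hm _)).1.hasFDerivAt) fun n => a1.pow ho M n
  rcases hG.hyp q hq with ⟨⟨T⟩⟩ | sq
  · exact snk T
  rcases hG.hyp p hp with ⟨⟨T⟩⟩ | sp
  · have h1 := T.back (w := fun n : ℕ => o (M * -n)) (fun n => by
      rw [← orb, show -((n + 1 : ℕ) : ℤ) + 1 = -n by omega]) (hb.comp orb2_neg) 0
    have h2 : ∀ n : ℕ, o (M * n) = p := fun n => by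
      induction n with
      | zero => exact h1
      | succ n ih => rw [Nat.cast_succ, orb, ih, T.fix]
    have h3 : q = p := tendsto_nhds_unique (ht.comp tendsto_natCast_atTop_atTop)
      (tendsto_const_nhds.congr fun n => (h2 n).symm)
    exact snk (h3 ▸ T)
  obtain ⟨Dq, -⟩ := sq univ univ_mem
  obtain ⟨Dp, -⟩ := sp univ univ_mem
  obtain ⟨a1, k1, k2, k3⟩ := exists_top Dq hm' ht
  obtain ⟨b1, l1, l2, l3⟩ := exists_bot Dp hm' hb
  obtain ⟨s, t, e⟩ := orb2_span k2 (y := b1 0) (fun t e => by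
    have h1 : Tendsto b1 atTop (𝓝 0) := by
      rw [← (k1.smul t).ext hm' l1 e]
      exact smul_zero (A := ℂ) t ▸ k3.const_smul t
    by_cases hpq : p = q
    · refine l2 (no_homo Dp (he hpq 0 ▸ hm' 0) ?_ h1 l3)
      simpa only [he hpq] using l1
    · exact hT.false ⟨p, q, _, b1, hpq, hp, hq, sp, sq, fun n => (ho _).1, orb, ht, hb, l1, l2,
        h1, l3⟩) v
  obtain ⟨a, a2, a3⟩ := lift (s • a1 0)
  obtain ⟨b, b2, b3⟩ := lift (t • b1 0)
  refine ⟨a, b, a2, b2, by rw [a3, b3, e], a2.top ho hG.pos ?_, b2.bot ho hG.pos ?_⟩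
  · rw [(a2.pow ho M).ext hm' (k1.smul s) (n0 := 0) (by simpa using a3)]
    exact smul_zero (A := ℂ) s ▸ k3.const_smul s
  · rw [(b2.pow ho M).ext hm' (l1.smul t) (n0 := 0) (by simpa using b3)]
    exact smul_zero (A := ℂ) t ▸ l3.const_smul t

end Pool.Agent.Lib.MP_6d0683_an
end
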