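import Pool.Agent.Lib.MP_6d0683_an.Sph1
import Pool.Agent.Lib.MP_3fe454_an.PD.MkDis
import Pool.Agent.Shared.Brouwer.Basic
import Pool.Agent.Lib.MP_6d0683_an.Rb2

-- part Pool.Agent.Lib.MP_6d0683_an.Sph2
section

/-!
Small deformations of a stable diffeomorphism.
-/

set_option autoImplicit false

open Set Metric Filter Topology Function

namespace Pool.Agent.Lib.MP_6d0683_an

open MP_3fe454_an.PD MP_3fe454_an.S2

section

variable {P : Type} [NormedAddCommGroup P] [NormedSpace ℝ P] {ψ : P × ℂ → ℂ} {r : ℝ}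

theorem sph2_jets {E : Type} [NormedAddCommGroup E] [NormedSpace ℝ E] {k : ℕ} {Φ : P × ℂ → E}
    (hΦ : ContDiff ℝ k Φ) {ε : ℝ} (hε : 0 < ε) : ∀ᶠ t in 𝓝 (0 : P), ∀ i ≤ k,
      ∀ z ∈ closedBall (0 : ℂ) 1, ‖iteratedFDeriv ℝ i (fun w => Φ (0, w) - Φ (t, w)) z‖ ≤ ε := by
  refine (eventually_all_finite (finite_le_nat k)).2 fun i (hi : i ≤ k) => ?_
  have hi' : (i : WithTop ℕ∞) ≤ k := by exact_mod_cast hi
  have h1 : ContDiff ℝ k fun p : P × ℂ => Φ (0, p.2) - Φ p := by fun_prop
  have h2 : ∀ (t : P) (z : ℂ), iteratedFDeriv ℝ i (fun w => Φ (0, w) - Φ (t, w)) z =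
      (iteratedFDeriv ℝ i (fun p : P × ℂ => Φ (0, p.2) - Φ p) (t, z)).compContinuousLinearMap
        fun _ => ContinuousLinearMap.inr ℝ P ℂ := fun t z => by
    have h3 := (ContinuousLinearMap.inr ℝ P ℂ).iteratedFDeriv_comp_right
      (f := fun u => (fun p : P × ℂ => Φ (0, p.2) - Φ p) (u + (t, 0)))
      (h1.comp (contDiff_id.add contDiff_const)) z hi'
    rw [iteratedFDeriv_comp_add_right (f := fun p : P × ℂ => Φ (0, p.2) - Φ p)] at h3
    simpa [Function.comp_def] using h3
  have h3 : Continuous fun p : P × ℂ =>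
      ‖iteratedFDeriv ℝ i (fun w => Φ (0, w) - Φ (p.1, w)) p.2‖ := by
    simp only [h2]
    exact ((ContinuousMultilinearMap.compContinuousLinearMapL
      fun _ : Fin i => ContinuousLinearMap.inr ℝ P ℂ).continuous.comp
        (h1.continuous_iteratedFDeriv hi')).norm
  refine (isCompact_closedBall (0 : ℂ) 1).eventually_forall_of_forall_eventually fun z _ => ?_
  exact (h3.continuousAt.eventually_lt continuousAt_const (by simpa using hε)).mono
    fun _ h => h.le

theorem Fam.homeo (h : Fam ψ r) : ∀ᶠ t in 𝓝 (0 : P), ∃ e : ℂ ≃ₜ ℂ, (∀ z, e z = ψ (t, z)) ∧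
    ∀ n : ℕ, ContDiff ℝ n e.symm := by
  filter_upwards [sph2_jets (h.smooth 1) one_half_pos] with t ht
  have h1 : ∀ n : ℕ, ContDiff ℝ n fun w => ψ (t, w) := fun n =>
    (h.smooth n).comp (contDiff_const.prodMk contDiff_id)
  have h2 : Differentiable ℝ fun w => w - ψ (t, w) :=
    differentiable_id.sub ((h1 1).differentiable (by simp))
  have h3 : ∀ z, ‖fderiv ℝ (fun w => w - ψ (t, w)) z‖ ≤ 1 / 2 := fun z => by
    by_cases hz : ‖z‖ ≤ 1
    · simpa only [norm_iteratedFDeriv_one, h.zero] using ht 1 le_rfl z (mem_closedBall_zero_iff.2 hz)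
    · have : (fun w => w - ψ (t, w)) =ᶠ[𝓝 z] fun _ => 0 := by
        filter_upwards [continuous_norm.continuousAt.eventually (lt_mem_nhds (not_le.1 hz))]
          with w hw
        rw [h.supp t w (h.r_lt.trans hw).le, sub_self]
      rw [this.fderiv_eq]
      simp
  have h4 : ApproximatesLinearOn (fun w => ψ (t, w))
      (ContinuousLinearEquiv.refl ℝ ℂ : ℂ →L[ℝ] ℂ) univ (1 / 2) := by
    rw [ApproximatesLinearOn.approximatesLinearOn_iff_lipschitzOnWith, lipschitzOnWith_univ]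
    have := (lipschitzWith_of_nnnorm_fderiv_le (C := 1 / 2) h2 h3).neg
    rw [show (fun w => ψ (t, w)) - ⇑(ContinuousLinearEquiv.refl ℝ ℂ : ℂ →L[ℝ] ℂ) =
      -fun w => w - ψ (t, w) from funext fun w => by simp]
    exact this
  refine ⟨h4.toHomeomorph _ (Or.inr (by simp; norm_num)), fun _ => rfl, fun n => ?_⟩
  refine Homeomorph.contDiff_symm _ (f₀' := fun z => ContinuousLinearEquiv.ofUnit
    (Units.oneSub _ ((h3 z).trans_lt one_half_lt_one))) (fun z => ?_) (h1 n)
  have := (hasFDerivAt_id z).sub (h2 z).hasFDerivAt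
  simp only [id, Pi.sub_def, sub_sub_cancel] at this
  exact this

/-- the extension of a map of the plane to the sphere by the identity -/
noncomputable def ext (e : ℂ → ℂ) (x : Sph) : Sph :=
  if x.1.2 ≤ 0 then par true (e (chart true x)) else x

theorem ext_par {e : ℂ → ℂ} (hr : r < 1) (he : ∀ z, r ≤ ‖z‖ → e z = z) (z : ℂ) :
    ext e (par true z) = par true (e z) := by
  rw [ext, chart_par]
  split_ifs with h
  · rfl
  · rw [he z (hr.le.trans (not_le.1 fun k => h ?_).le)]
    simpa [sgn] using (par_nonpos true z).2 k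

theorem sph2_lt {x : Sph} (h : x.1.2 < 1) : sgn true * x.1.2 < 1 := by simpa [sgn] using h

theorem sph2_chart {E : Type} [NormedAddCommGroup E] [NormedSpace ℝ E] {n : ℕ} {Y : E → Sph}
    (hY : ContDiff ℝ n fun p => (Y p).1) {s : Bool} {p : E} (h : sgn s * (Y p).1.2 < 1) :
    ContDiffAt ℝ n (fun p => chart s (Y p)) p ∧ ∀ᶠ q in 𝓝 p, par s (chart s (Y q)) = Y q :=
  ⟨((amb_smooth s n h).comp p hY.contDiffAt :),
    (((continuous_const.mul hY.continuous.snd).continuousAt (x := p)).eventually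
      (gt_mem_nhds h)).mono fun _ h => par_chart h⟩

theorem ext_smooth {n : ℕ} (h : ContDiff ℝ n ψ) (hr : r < 1)
    (he : ∀ t z, r ≤ ‖z‖ → ψ (t, z) = z) (s : Bool) :
    ContDiff ℝ n fun p : P × ℂ => (ext (fun z => ψ (p.1, z)) (par s p.2)).1 := by
  refine contDiff_iff_contDiffAt.2 fun p => ?_
  have h1 : ContDiff ℝ n fun p : P × ℂ => (par s p.2).1 := (par_smooth s n).comp contDiff_snd
  rcases lt_or_ge (par s p.2).1.2 1 with h2 | h2
  · obtain ⟨h3, h4⟩ := sph2_chart h1 (sph2_lt h2)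
    refine ((par_smooth true n).contDiffAt.comp p
      (h.contDiffAt.comp p (contDiffAt_fst.prodMk h3))).congr_of_eventuallyEq (h4.mono fun q hq => ?_)
    simp only [Function.comp_apply]
    rw [← ext_par hr (he q.1), hq]
  · refine h1.contDiffAt.congr_of_eventuallyEq (((h1.continuous.snd.continuousAt (x := p)).eventually
      (lt_mem_nhds (one_pos.trans_le h2))).mono fun q hq => ?_)
    simp only [ext, if_neg (not_le.2 hq)]

theorem ck_family {k : ℕ} {f : Sph → Sph} (hf : IsCk k f) (h : Fam ψ r) (s : Bool) :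
    ContDiff ℝ k fun p : P × ℂ => (f (ext (fun z => ψ (p.1, z)) (par s p.2))).1 := by
  have h1 := ext_smooth (h.smooth k) h.r_lt h.supp s
  refine contDiff_iff_contDiffAt.2 fun p => ?_
  obtain ⟨h3, h4⟩ := sph2_chart h1 (p := p) ((dom_cases _).trans_lt one_pos)
  refine ((hf (hemi (ext (fun z => ψ (p.1, z)) (par s p.2)))).contDiffAt.comp p
    h3).congr_of_eventuallyEq (h4.mono fun q hq => ?_)
  simp only [Function.comp_apply, hq]

theorem jets_close {E : Type} [NormedAddCommGroup E] [NormedSpace ℝ E] {k : ℕ} {Φ : P × ℂ → E}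
    (hΦ : ContDiff ℝ k Φ) {ε : ℝ} (hε : 0 < ε) : ∀ᶠ t in 𝓝 (0 : P), ∀ i ≤ k,
      ∀ z ∈ closedBall (0 : ℂ) 1, ‖iteratedFDeriv ℝ i (fun w => Φ (0, w) - Φ (t, w)) z‖ ≤ ε := by
  exact sph2_jets hΦ hε

theorem sph2_ck {k : ℕ} {e : ℂ → ℂ} (h : ContDiff ℝ k e) (hr : r < 1)
    (he : ∀ z, r ≤ ‖z‖ → e z = z) : IsCk k (ext e) := fun s => by
  have h1 := ext_smooth (ψ := fun p : ℝ × ℂ => e p.2) (h.comp contDiff_snd) hr (fun _ => he) s
  have h2 : ContDiff ℝ k fun z : ℂ => ((0 : ℝ), z) := contDiff_const.prodMk contDiff_id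
  have h3 := h1.comp h2
  simp only [Function.comp_def] at h3
  exact h3

theorem sph2_inv {e e' : ℂ → ℂ} (hr : r < 1) (he : ∀ z, r ≤ ‖z‖ → e z = z)
    (he' : ∀ z, r ≤ ‖z‖ → e' z = z) (h : LeftInverse e' e) : LeftInverse (ext e') (ext e) :=
  fun x => by
    by_cases hx : x.1.2 ≤ 0
    · conv_lhs => rw [← par_chart (sph2_lt (hx.trans_lt one_pos)), ext_par hr he, ext_par hr he', h]
      exact par_chart (sph2_lt (hx.trans_lt one_pos))
    · simp only [ext, if_neg hx]

theorem stable_fam {k : ℕ} {f : Sph ≃ₜ Sph} (hf : IsDiffeo k f) (hs : Stable k f) (h : Fam ψ r) :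
    ∀ᶠ t in 𝓝 (0 : P), ∃ g : Sph ≃ₜ Sph, Pert (par true) f (fun z => ψ (t, z)) g := by
  obtain ⟨ε, hε, hs⟩ := hs
  filter_upwards [h.homeo, jets_close (ck_family hf.1 h true) hε,
    jets_close (ck_family hf.1 h false) hε] with t ⟨e, he, hk⟩ j1 j2
  have e0 : ∀ x, ext (fun z => z) x = x := fun x => by
    rw [ext]
    split_ifs with hx
    · exact par_chart (sph2_lt (hx.trans_lt one_pos))
    · rfl
  have e1 : (fun z => ψ (t, z)) = e := funext fun z => (he z).symm
  have e2 : ∀ z, r ≤ ‖z‖ → e z = z := fun z hz => (he z).trans (h.supp t z hz)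
  have e3 : ∀ z, r ≤ ‖z‖ → e.symm z = z := fun z hz => e.symm_apply_eq.2 (e2 z hz).symm
  have e4 : ∀ z, r ≤ ‖e z‖ → e z = z := fun z hz => e.injective (e2 _ hz)
  simp only [h.zero, e0, e1] at j1 j2
  have c1 : IsCk k (ext e) :=
    sph2_ck (e1 ▸ (h.smooth k).comp (contDiff_const.prodMk contDiff_id)) h.r_lt e2
  have c2 : IsCk k (ext e.symm) := sph2_ck (hk k) h.r_lt e3
  let Ψ : Sph ≃ₜ Sph := ⟨⟨ext e, ext e.symm, sph2_inv h.r_lt e2 e3 e.symm_apply_apply,
    sph2_inv h.r_lt e3 e2 e.apply_symm_apply⟩, c1.cont, c2.cont⟩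
  rw [e1]
  refine ⟨Ψ.trans f, hs _ ⟨hf.1.comp c1, c2.comp hf.2⟩ fun s => ?_, fun z hz => ?_,
    fun z hz => ?_, fun z _ => congrArg f (ext_par h.r_lt e2 z), fun x hx => congrArg f ?_⟩
  · cases s
    exacts [j2, j1]
  · rcases le_or_gt r ‖e z‖ with k | k
    · rwa [e4 z k]
    · exact mem_ball_zero_iff.2 (k.trans h.r_lt)
  · rcases le_or_gt r ‖e z‖ with k | k
    · rwa [e4 z k]
    · exact mem_closedBall_zero_iff.2 (k.trans h.r_lt).le
  · exact if_neg fun k => hx (mem_image_par.2 (by simpa [sgn] using k))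

end

end Pool.Agent.Lib.MP_6d0683_an
end

-- part Pool.Agent.Lib.MP_6d0683_an.Sph3
section

/-!
The abstract setting holds on the sphere.
-/

set_option autoImplicit false

open Set Metric Filter Topology Function

namespace Pool.Agent.Lib.MP_6d0683_an

open MP_3fe454_an.PD MP_3fe454_an.S2

variable {k : ℕ} {f : Sph ≃ₜ Sph}

theorem south_maps (hS : ∀ x : Sph, x.1.2 ≤ 0 → (f x).1.2 < 0) {z : ℂ} (hz : z ∈ Disc) :
    ‖loc true true f z‖ < 1 ∧ f (par true z) = par true (loc true true f z) := by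
  have h1 : (f (par true z)).1.2 < 0 := by
    apply hS
    simpa [sgn] using (par_nonpos true z).2 (mem_closedBall_zero_iff.1 hz)
  have h2 : par true (loc true true f z) = f (par true z) :=
    par_chart (by simp only [sgn, if_true]; linarith)
  refine ⟨(par_neg true _).1 ?_, h2.symm⟩
  rw [h2]
  simpa [sgn] using h1

theorem north_maps (hS : ∀ x : Sph, x.1.2 ≤ 0 → (f x).1.2 < 0) {z : ℂ} (hz : z ∈ Disc) :
    ‖loc false false f.symm z‖ < 1 ∧
      f.symm (par false z) = par false (loc false false f.symm z) := by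
  have h0 : 0 ≤ (par false z).1.2 := by
    simpa [sgn] using (par_nonpos false z).2 (mem_closedBall_zero_iff.1 hz)
  have h1 : 0 < (f.symm (par false z)).1.2 := by
    by_contra h
    have := hS _ (not_lt.1 h)
    rw [f.apply_symm_apply] at this
    linarith
  have h2 : par false (loc false false f.symm z) = f.symm (par false z) :=
    par_chart (by simp only [sgn, Bool.false_eq_true, if_false]; linarith)
  refine ⟨(par_neg false _).1 ?_, h2.symm⟩
  rw [h2]
  simpa [sgn] using h1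

theorem south_dis (hk : 2 ≤ k) (hf : IsDiffeo k f)
    (hS : ∀ x : Sph, x.1.2 ≤ 0 → (f x).1.2 < 0)
    (hd : ∀ z ∈ closedBall (0 : ℂ) 1, |(fderiv ℝ (loc true true f) z).det| < 1) :
    ∃ F : Dis, ∀ z ∈ Disc, F.f z = loc true true f z := by
  have hlt : ∀ z ∈ Disc, sgn true * (f (par true z)).1.2 < 1 := fun z hz => by
    rw [(south_maps hS hz).2]
    exact par_lt _ _
  have h2 : ∀ z ∈ Disc, ContDiffAt ℝ 2 (loc true true f) z := fun z hz =>
    (hf.1.loc (hlt z hz)).of_le (by exact_mod_cast hk)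
  have h1 : ∀ z ∈ Disc, ContDiffAt ℝ 1 (fderiv ℝ (loc true true f)) z := fun z hz =>
    (h2 z hz).fderiv_right (by norm_num)
  have h0 : ContinuousOn (fderiv ℝ (fderiv ℝ (loc true true f))) Disc := fun z hz =>
    ((h1 z hz).fderiv_right (m := 0) (by norm_num)).continuousAt.continuousWithinAt
  obtain ⟨C, hC⟩ := (isCompact_closedBall (0 : ℂ) 1).exists_bound_of_continuousOn
    (E := ℂ →L[ℝ] ℂ →L[ℝ] ℂ) h0
  refine exists_dis (loc true true f) (fderiv ℝ (loc true true f)) C 1 one_pos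
    (fun z hz => ((h2 z hz).differentiableAt (by norm_num)).hasFDerivAt.hasFDerivWithinAt)
    (fun z hz w hw => ?_) (fun z hz w hw h => ?_)
    (fun z hz => mem_ball_zero_iff.2 (south_maps hS hz).1) fun z hz => ⟨?_, hd z hz⟩
  · rw [Real.rpow_one]
    exact (convex_closedBall (0 : ℂ) 1).norm_image_sub_le_of_norm_fderiv_le
      (fun x hx => (h1 x hx).differentiableAt (by norm_num)) hC hw hz
  · have e : f (par true z) = f (par true w) := by
      rw [(south_maps hS hz).2, (south_maps hS hw).2, h]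
    rw [← chart_par true z, f.injective e, chart_par]
  · have h := loc_inv (s := true) (s' := true) (x := par true z) (by omega) hf.1 hf.2
      f.symm_apply_apply (par_lt _ _) (hlt z hz)
    rw [chart_par] at h
    have e : (fderiv ℝ (loc true true f.symm) (chart true (f (par true z))) : ℂ →ₗ[ℝ] ℂ) ∘ₗ
        (fderiv ℝ (loc true true f) z : ℂ →ₗ[ℝ] ℂ) = LinearMap.id := LinearMap.ext h
    have e2 := congrArg LinearMap.det e
    rw [LinearMap.det_comp, LinearMap.det_id] at e2
    exact right_ne_zero_of_mul_eq_one e2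

theorem exists_sys (hk : 2 ≤ k) (hf : IsDiffeo k f) (hs : Stable k f)
    (hS : ∀ x : Sph, x.1.2 ≤ 0 → (f x).1.2 < 0)
    (hd : ∀ z ∈ closedBall (0 : ℂ) 1, |(fderiv ℝ (loc true true f) z).det| < 1)
    {θ : ℝ} (hθ : θ < 1) (hN : ∀ z ∈ closedBall (0 : ℂ) 1, ∀ w ∈ closedBall (0 : ℂ) 1,
      ‖loc false false f.symm z - loc false false f.symm w‖ ≤ θ * ‖z - w‖) :
    ∃ X : Sys Sph, X.σ = par true ∧ X.f = f ∧ ∀ z ∈ Disc, X.F.f z = loc true true f z := by
  obtain ⟨F, hF⟩ := south_dis hk hf hS hd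
  set H := loc false false f.symm with hH
  have hm : MapsTo H Disc Disc := fun z hz =>
    mem_closedBall_zero_iff.2 (north_maps hS hz).1.le
  have hcj : ∀ z ∈ Disc, f.symm (par false z) = par false (H z) := fun z hz =>
    (north_maps hS hz).2
  have hit : ∀ z ∈ Disc, ∀ n : ℕ, f.symm^[n] (par false z) = par false (H^[n] z) := by
    intro z hz n
    induction n with
    | zero => rfl
    | succ n ih => rw [iterate_succ_apply', iterate_succ_apply', ih, hcj _ (hm.iterate n hz)]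
  have hθ0 : 0 ≤ max θ 0 := le_max_right _ _
  have hθ1 : max θ 0 < 1 := max_lt hθ one_pos
  have hlip : ∀ z ∈ Disc, ∀ w ∈ Disc, ∀ n : ℕ,
      ‖H^[n] z - H^[n] w‖ ≤ max θ 0 ^ n * ‖z - w‖ := by
    intro z hz w hw n
    induction n with
    | zero => simp
    | succ n ih =>
      rw [iterate_succ_apply', iterate_succ_apply', pow_succ', mul_assoc]
      refine (hN _ (hm.iterate n hz) _ (hm.iterate n hw)).trans ?_
      exact mul_le_mul (le_max_left _ _) ih (norm_nonneg _) hθ0
  have heq : ∀ z ∈ Disc, ∀ w ∈ Disc, ∀ n : ℕ, 0 < n → H^[n] z = z → H^[n] w = w → z = w := by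
    intro z hz w hw n hn e1 e2
    have h := hlip z hz w hw n
    rw [e1, e2] at h
    have h1 : max θ 0 ^ n < 1 := pow_lt_one₀ hθ0 hθ1 hn.ne'
    have h2 := norm_nonneg (z - w)
    exact sub_eq_zero.1 (norm_eq_zero.1 (by nlinarith))
  have hnorth : ∀ x : Sph, x ∉ par true '' Disc → ∃ z : ℂ, ‖z‖ < 1 ∧ par false z = x := by
    intro x hx
    rw [mem_image_par] at hx
    have h1 : sgn false * x.1.2 < 0 := by simpa [sgn] using hx
    have h2 := par_chart (s := false) (x := x) (by linarith)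
    exact ⟨chart false x, (par_neg false _).1 (by rw [h2]; exact h1), h2⟩
  have hper : ∀ z ∈ Disc, ∀ n : ℕ, f^[n] (par false z) = par false z → H^[n] z = z := by
    intro z hz n h
    have h1 : f.symm^[n] (f^[n] (par false z)) = par false z :=
      (LeftInverse.iterate f.symm_apply_apply n) _
    rw [h, hit z hz] at h1
    rw [← chart_par false (H^[n] z), h1, chart_par]
  refine ⟨⟨par true, f, F, par_emb true, fun z hz => ?_, fun x hx hp => ?_, ?_,
    fun P _ _ ψ r h => stable_fam hf hs h⟩, rfl, rfl, hF⟩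
  · rw [hF z hz]
    exact (south_maps hS hz).2
  · obtain ⟨z, hz, rfl⟩ := hnorth x hx
    have hz' : z ∈ Disc := mem_closedBall_zero_iff.2 hz.le
    obtain ⟨n, hn, hp⟩ := hp
    have h1 := hper z hz' n hp
    have h2 : H z = z := heq _ (hm hz') _ hz' n hn
      (by rw [← iterate_succ_apply, iterate_succ_apply', h1]) h1
    refine ⟨?_, (stab_chart (par_emb false) hcj hm hz).2 fun U hU => ?_⟩
    · have h3 := hcj z hz'
      rw [h2] at h3
      exact (f.symm_apply_eq.1 h3).symm
    · have hD : Disc ∈ 𝓝 z := closedBall_mem_nhds_of_mem (mem_ball_zero_iff.2 hz)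
      obtain ⟨ε, hε, hb⟩ := Metric.mem_nhds_iff.1 (inter_mem hU hD)
      refine ⟨ball z ε, ball_mem_nhds z hε, fun y hy n => (hb ?_).1⟩
      have h3 := hlip y (hb hy).2 z hz' n
      rw [iterate_fixed h2] at h3
      rw [mem_ball, dist_eq_norm] at hy ⊢
      exact (h3.trans (mul_le_of_le_one_left (norm_nonneg _) (pow_le_one₀ hθ0 hθ1.le))).trans_lt hy
  · refine Set.Subsingleton.finite fun x hx y hy => ?_
    obtain ⟨z, hz, rfl⟩ := hnorth x hx.1
    obtain ⟨w, hw, rfl⟩ := hnorth y hy.1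
    have hz' : z ∈ Disc := mem_closedBall_zero_iff.2 hz.le
    have hw' : w ∈ Disc := mem_closedBall_zero_iff.2 hw.le
    rw [heq z hz' w hw' 1 one_pos (hper z hz' 1 hx.2) (hper w hw' 1 hy.2)]

end Pool.Agent.Lib.MP_6d0683_an
end

-- part Pool.Agent.Lib.MP_6d0683_an.Sph4
section

/-!
From the chart to the sphere.
-/

set_option autoImplicit false

open Set Metric Filter Topology Function

namespace Pool.Agent.Lib.MP_6d0683_an

open MP_3fe454_an.PD MP_3fe454_an.S2

variable {k : ℕ} {f : Sph ≃ₜ Sph}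

theorem sph4_t (t : ℝ) : sgn true * t = t := by simp [sgn]

theorem sph4_f (t : ℝ) : sgn false * t = -t := by simp [sgn]

theorem sph4_cont : Continuous fun x : Sph => x.1.2 := continuous_snd.comp continuous_subtype_val

theorem sph4_cpt (s : Bool) : IsCompact {x : Sph | sgn s * x.1.2 ≤ 0} := by
  have := sph_compact
  exact (isClosed_le (continuous_const.mul sph4_cont) continuous_const).isCompact

theorem sph4_uc (s : Bool) {ε : ℝ} (hε : 0 < ε) : ∃ δ > 0, ∀ x y : Sph, sgn s * x.1.2 ≤ 0 →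
    sgn s * y.1.2 ≤ 0 → dist x y < δ → ‖chart s x - chart s y‖ < ε := by
  have h : UniformContinuousOn (chart s) {x : Sph | sgn s * x.1.2 ≤ 0} :=
    (sph4_cpt s).uniformContinuousOn_of_continuous fun x hx =>
      (chart_cont (lt_of_le_of_lt hx one_pos)).continuousWithinAt
  obtain ⟨δ, hδ, h1⟩ := Metric.uniformContinuousOn_iff.1 h ε hε
  exact ⟨δ, hδ, fun x y hx hy hd => by simpa [dist_eq_norm] using h1 x hx y hy hd⟩

theorem sph4_stay (hS : ∀ x : Sph, x.1.2 ≤ 0 → (f x).1.2 < 0) : ∃ κ > 0, ∀ u v : Sph,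
    u.1.2 ≤ 0 → dist (f u) v < κ → v.1.2 < 0 := by
  obtain ⟨κ, hκ, h⟩ := (sph4_cpt true).exists_forall_le' (f := fun x => -(f x).1.2) (a := 0)
    (sph4_cont.comp f.continuous).neg.continuousOn fun x hx =>
      neg_pos.2 (hS x (by simpa [sph4_t] using hx))
  refine ⟨κ, hκ, fun u v hu hd => ?_⟩
  have h1 := h u (by simpa [sph4_t] using hu)
  have h2 : dist (f u).1.2 v.1.2 ≤ dist (f u) v := by
    rw [Subtype.dist_eq, Prod.dist_eq]
    exact le_max_right _ _
  rw [Real.dist_eq] at h2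
  have h3 := (abs_le.1 h2).1
  linarith

theorem sph4_mem {s : Bool} {x : Sph} (hx : sgn s * x.1.2 ≤ 0) : chart s x ∈ Disc := by
  rw [mem_closedBall_zero_iff, ← par_nonpos s, par_chart (lt_of_le_of_lt hx one_pos)]
  exact hx

theorem sph4_lt {s : Bool} {x : Sph} (hx : sgn s * x.1.2 < 0) : ‖chart s x‖ < 1 := by
  rw [← par_neg s, par_chart (hx.trans one_pos)]
  exact hx

theorem sph4_loc {s s' : Bool} (g : Sph → Sph) {x : Sph} (hx : sgn s * x.1.2 ≤ 0) :
    loc s s' g (chart s x) = chart s' (g x) := by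
  rw [loc, par_chart (lt_of_le_of_lt hx one_pos)]

theorem sph4_sol {L : ℤ → ℂ → ℂ} (hL : ∀ n, Surjective (L n)) (v : ℂ) :
    ∃ b : ℤ → ℂ, (∀ n, b (n + 1) = L n (b n)) ∧ b 0 = v := by
  choose R hR using hL
  let p : ℕ → ℂ := fun m => Nat.rec v (fun j w => L j w) m
  let q : ℕ → ℂ := fun m => Nat.rec v (fun j w => R (-(j + 1 : ℕ)) w) m
  refine ⟨fun n => if 0 ≤ n then p n.toNat else q (-n).toNat, fun n => ?_, rfl⟩
  rcases le_or_gt 0 n with h | h
  · obtain ⟨m, rfl⟩ := Int.eq_ofNat_of_zero_le h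
    have h1 : (0 : ℤ) ≤ m + 1 := by omega
    have h2 : ((m : ℤ) + 1).toNat = m + 1 := by omega
    simp only [h, h1, h2, if_true, Int.toNat_natCast]
    rfl
  · obtain ⟨m, rfl⟩ : ∃ m : ℕ, n = -(m + 1 : ℕ) := ⟨(-n - 1).toNat, by omega⟩
    have h2 : (-(-((m + 1 : ℕ) : ℤ))).toNat = m + 1 := by omega
    simp only [h.not_ge, h2, if_false]
    have h3 : L (-(m + 1 : ℕ)) (q (m + 1)) = q m := hR _ _
    rw [h3]
    rcases Nat.eq_zero_or_pos m with rfl | hm
    · rfl
    · have h4 : ¬ (0 : ℤ) ≤ -((m + 1 : ℕ) : ℤ) + 1 := by omega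
      have h5 : (-(-((m + 1 : ℕ) : ℤ) + 1)).toNat = m := by omega
      simp only [h4, h5, if_false]

theorem cr_south (hS : ∀ x : Sph, x.1.2 ≤ 0 → (f x).1.2 < 0) {T : ℂ → ℂ}
    (hT : ∀ z ∈ Disc, T z = loc true true f z) {x : Sph} (hx : x.1.2 ≤ 0)
    (h : ∀ ε > 0, Relation.TransGen (fun u v => dist (f u) v < ε) x x) :
    ∀ ε > 0, Ch T ε (chart true x) (chart true x) := by
  intro ε hε
  obtain ⟨δ, hδ, h1⟩ := sph4_uc true hε
  obtain ⟨κ, hκ, h2⟩ := sph4_stay hS
  have step : ∀ u v : Sph, u.1.2 ≤ 0 → dist (f u) v < min δ κ →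
      v.1.2 ≤ 0 ∧ ‖T (chart true u) - chart true v‖ < ε := fun u v hu hd => by
    have hv := (h2 u v hu (hd.trans_le (min_le_right _ _))).le
    have hu' : sgn true * u.1.2 ≤ 0 := by rwa [sph4_t]
    refine ⟨hv, ?_⟩
    rw [hT _ (sph4_mem hu'), sph4_loc _ hu']
    exact h1 _ _ (by rw [sph4_t]; exact (hS u hu).le) (by rwa [sph4_t])
      (hd.trans_le (min_le_left _ _))
  have key : ∀ y, Relation.TransGen (fun u v => dist (f u) v < min δ κ) x y →
      y.1.2 ≤ 0 ∧ Ch T ε (chart true x) (chart true y) := fun y hy => by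
    induction hy with
    | single hy => exact ⟨(step _ _ hx hy).1, .single (step _ _ hx hy).2⟩
    | tail _ hy ih => exact ⟨(step _ _ ih.1 hy).1, .tail ih.2 (step _ _ ih.1 hy).2⟩
  exact (key x (h _ (lt_min hδ hκ))).2

theorem cr_north (hS : ∀ x : Sph, x.1.2 ≤ 0 → (f x).1.2 < 0) {θ : ℝ} (hθ : θ < 1)
    (hN : ∀ z ∈ closedBall (0 : ℂ) 1, ∀ w ∈ closedBall (0 : ℂ) 1,
      ‖loc false false f.symm z - loc false false f.symm w‖ ≤ θ * ‖z - w‖) :
    {x : Sph | 0 < x.1.2 ∧
      ∀ ε > 0, Relation.TransGen (fun u v => dist (f u) v < ε) x x}.Subsingleton := by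
  have := sph_compact
  set H := loc false false f.symm with hH
  set τ := max θ 0 with hτ
  have τ0 : 0 ≤ τ := le_max_right _ _
  have τ1 : τ < 1 := max_lt hθ one_pos
  have hN' : ∀ z ∈ Disc, ∀ w ∈ Disc, ‖H z - H w‖ ≤ τ * ‖z - w‖ := fun z hz w hw =>
    (hN z hz w hw).trans (mul_le_mul_of_nonneg_right (le_max_left _ _) (norm_nonneg _))
  obtain ⟨κ, hκ, h2⟩ := sph4_stay hS
  have fix : ∀ x : Sph, 0 < x.1.2 →
      (∀ ε > 0, Relation.TransGen (fun u v => dist (f u) v < ε) x x) →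
      H (chart false x) = chart false x := by
    intro x hx h
    have main : ∀ η > 0, ‖chart false x - H (chart false x)‖ ≤
        τ * ‖chart false x - H (chart false x)‖ + η := by
      intro η hη
      have hη' : 0 < η * (1 - τ) / 2 := by have := sub_pos.2 τ1; positivity
      obtain ⟨δ, hδ, h1⟩ := sph4_uc false hη'
      obtain ⟨δ', hδ', h3⟩ := Metric.uniformContinuous_iff.1
        (CompactSpace.uniformContinuous_of_continuous f.symm.continuous) δ hδ
      have step : ∀ u v : Sph, 0 < v.1.2 → dist (f u) v < min δ' κ → 0 < u.1.2 ∧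
          ‖chart false u - H (chart false u)‖ ≤
            τ * ‖chart false v - H (chart false v)‖ + η * (1 - τ) := fun u v hv hd => by
        have hu : 0 < u.1.2 := by
          by_contra hu
          exact (h2 u v (not_lt.1 hu) (hd.trans_le (min_le_right _ _))).not_gt hv
        refine ⟨hu, ?_⟩
        have hu' : sgn false * u.1.2 ≤ 0 := by rw [sph4_f]; linarith
        have hv' : sgn false * v.1.2 ≤ 0 := by rw [sph4_f]; linarith
        have hw : sgn false * (f.symm v).1.2 ≤ 0 := by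
          rw [sph4_f]
          by_contra hh
          have h4 := hS (f.symm v) (by linarith)
          rw [f.apply_symm_apply] at h4
          exact h4.not_gt hv
        have h5 := h3 (hd.trans_le (min_le_left _ _))
        rw [f.symm_apply_apply] at h5
        have h6 := h1 _ _ hu' hw h5
        have e : H (chart false v) = chart false (f.symm v) := sph4_loc _ hv'
        rw [← e] at h6
        have m1 := sph4_mem hu'
        have m2 := sph4_mem hv'
        have m3 : H (chart false v) ∈ Disc := e ▸ sph4_mem hw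
        have h7 := hN' _ m2 _ m3
        have h8 := hN' _ m3 _ m1
        rw [norm_sub_rev (H (chart false v)) (chart false u)] at h8
        have h9 := norm_sub_le_norm_sub_add_norm_sub (chart false u) (H (chart false v))
          (H (chart false u))
        have h10 := norm_sub_le_norm_sub_add_norm_sub (H (chart false v))
          (H (H (chart false v))) (H (chart false u))
        have h11 : τ * ‖chart false u - H (chart false v)‖ ≤ ‖chart false u - H (chart false v)‖ :=
          mul_le_of_le_one_left (norm_nonneg _) τ1.le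
        linarith
      have key : ∀ u, Relation.TransGen (fun u v => dist (f u) v < min δ' κ) u x → 0 < u.1.2 ∧
          ‖chart false u - H (chart false u)‖ ≤
            τ * ‖chart false x - H (chart false x)‖ + η := fun u hu => by
        induction hu using Relation.TransGen.head_induction_on with
        | single hu =>
          refine ⟨(step _ _ hx hu).1, (step _ _ hx hu).2.trans ?_⟩
          nlinarith
        | head hu _ ih =>
          refine ⟨(step _ _ ih.1 hu).1, (step _ _ ih.1 hu).2.trans ?_⟩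
          have h4 := mul_le_mul_of_nonneg_left ih.2 τ0
          have h5 : τ * (τ * ‖chart false x - H (chart false x)‖) ≤
              τ * ‖chart false x - H (chart false x)‖ :=
            mul_le_of_le_one_left (by positivity) τ1.le
          nlinarith
      exact (key x (h _ (lt_min hδ' hκ))).2
    have h4 := le_of_forall_pos_le_add main
    have h5 : ‖chart false x - H (chart false x)‖ = 0 := by
      have := norm_nonneg (chart false x - H (chart false x))
      nlinarith
    exact (sub_eq_zero.1 (norm_eq_zero.1 h5)).symm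
  rintro x ⟨hx, hx'⟩ y ⟨hy, hy'⟩
  have hx1 : sgn false * x.1.2 ≤ 0 := by rw [sph4_f]; linarith
  have hy1 : sgn false * y.1.2 ≤ 0 := by rw [sph4_f]; linarith
  have h4 := hN' _ (sph4_mem hx1) _ (sph4_mem hy1)
  rw [fix x hx hx', fix y hy hy'] at h4
  have h5 : ‖chart false x - chart false y‖ = 0 := by
    have := norm_nonneg (chart false x - chart false y)
    nlinarith
  rw [← par_chart (lt_of_le_of_lt hx1 one_pos), ← par_chart (lt_of_le_of_lt hy1 one_pos),
    sub_eq_zero.1 (norm_eq_zero.1 h5)]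

theorem der_north (hk : 1 ≤ k) (hf : IsDiffeo k f) (hS : ∀ x : Sph, x.1.2 ≤ 0 → (f x).1.2 < 0)
    {θ : ℝ} (hθ : θ < 1) (hN : ∀ z ∈ closedBall (0 : ℂ) 1, ∀ w ∈ closedBall (0 : ℂ) 1,
      ‖loc false false f.symm z - loc false false f.symm w‖ ≤ θ * ‖z - w‖)
    {x : ℤ → Sph} (hx : ∀ n, x (n + 1) = f (x n)) {n1 : ℤ} (h1 : 0 < (x n1).1.2) (v : ℂ) :
    ∃ b : ℤ → ℂ, (∀ n, b (n + 1) = der f (x n) (b n)) ∧ b 0 = v ∧ Tendsto b atBot (𝓝 0) := by
  set τ := max θ 0 with hτ
  have τ0 : 0 ≤ τ := le_max_right _ _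
  have τ1 : τ < 1 := max_lt hθ one_pos
  have dom : ∀ y : Sph, sgn (hemi y) * y.1.2 < 1 := fun y => (dom_cases y).trans_lt one_pos
  have hsur : ∀ n, Surjective (der f (x n)) := fun n w => by
    have h := loc_inv hk hf.2 hf.1 f.apply_symm_apply (dom (f (x n))) (dom (f.symm (f (x n)))) w
    rw [f.symm_apply_apply] at h
    exact ⟨_, h⟩
  obtain ⟨b, hb, hb0⟩ := sph4_sol (L := fun n => der f (x n)) hsur v
  refine ⟨b, hb, hb0, ?_⟩
  have north : ∀ m : ℕ, 0 < (x (n1 - m)).1.2 := fun m => by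
    induction m with
    | zero => simpa using h1
    | succ m ih =>
      by_contra hh
      have h2 := hS _ (not_lt.1 hh)
      rw [← hx, show n1 - (m + 1 : ℕ) + 1 = n1 - m by push_cast; ring] at h2
      exact h2.not_gt ih
  have hem : ∀ m : ℕ, hemi (x (n1 - m)) = false := fun m => by
    simpa [hemi] using north m
  have dec : ∀ m : ℕ, ‖b (n1 - m)‖ ≤ τ ^ m * ‖b n1‖ := fun m => by
    induction m with
    | zero => simp
    | succ m ih =>
      have e : n1 - (m + 1 : ℕ) + 1 = n1 - m := by push_cast; ring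
      have e1 : f (x (n1 - (m + 1 : ℕ))) = x (n1 - m) := by rw [← hx, e]
      have h := loc_inv hk hf.1 hf.2 f.symm_apply_apply (dom (x (n1 - (m + 1 : ℕ))))
        (dom (f (x (n1 - (m + 1 : ℕ))))) (b (n1 - (m + 1 : ℕ)))
      have e2 := hb (n1 - (m + 1 : ℕ))
      rw [der, e] at e2
      rw [← e2, e1, hem, hem] at h
      have hz : ‖chart false (x (n1 - m))‖ < 1 :=
        sph4_lt (by rw [sph4_f]; exact neg_neg_of_pos (north m))
      have hn : ‖fderiv ℝ (loc false false f.symm) (chart false (x (n1 - m)))‖ ≤ τ := by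
        refine norm_fderiv_le_of_lip' ℝ τ0 ?_
        filter_upwards [closedBall_mem_nhds_of_mem (mem_ball_zero_iff.2 hz)] with w hw
        exact (hN w hw _ (mem_closedBall_zero_iff.2 hz.le)).trans
          (mul_le_mul_of_nonneg_right (le_max_left _ _) (norm_nonneg _))
      rw [← h, pow_succ', mul_assoc]
      exact (ContinuousLinearMap.le_opNorm _ _).trans (mul_le_mul hn ih (norm_nonneg _) τ0)
  have t1 : Tendsto (fun n : ℤ => (n1 - n).toNat) atBot atTop :=
    tendsto_atTop.2 fun m => (eventually_le_atBot (n1 - m)).mono fun n hn => by omega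
  have t2 := ((tendsto_pow_atTop_nhds_zero_of_lt_one τ0 τ1).comp t1).mul_const ‖b n1‖
  rw [zero_mul] at t2
  refine squeeze_zero_norm' ?_ t2
  filter_upwards [eventually_le_atBot n1] with n hn
  have h := dec (n1 - n).toNat
  rwa [show n1 - ((n1 - n).toNat : ℤ) = n by omega] at h

theorem final_of (hk : 1 ≤ k) (hf : IsDiffeo k f) (hS : ∀ x : Sph, x.1.2 ≤ 0 → (f x).1.2 < 0)
    {θ : ℝ} (hθ : θ < 1) (hN : ∀ z ∈ closedBall (0 : ℂ) 1, ∀ w ∈ closedBall (0 : ℂ) 1,
      ‖loc false false f.symm z - loc false false f.symm w‖ ≤ θ * ‖z - w‖) {T : ℂ → ℂ}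
    (hT : ∀ z ∈ Disc, T z = loc true true f z) (h1 : {x | ∀ ε > 0, Ch T ε x x}.Finite)
    (h2 : ∀ o : ℤ → ℂ, (∀ n, o n ∈ Disc) → (∀ n, o (n + 1) = T (o n)) → ∀ v, ∃ a b,
      Sol T o a ∧ Sol T o b ∧ a 0 + b 0 = v ∧ Tendsto a atTop (𝓝 0) ∧ Tendsto b atBot (𝓝 0)) :
    MorseSmale f := by
  refine ⟨((h1.image (par true)).union (cr_north hS hθ hN).finite).subset fun x hx => ?_,
    fun x hx v => ?_⟩
  · rcases le_or_gt x.1.2 0 with h | h
    · exact .inl ⟨chart true x, cr_south hS hT h hx,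
        par_chart (by rw [sph4_t]; exact h.trans_lt one_pos)⟩
    · exact .inr ⟨h, hx⟩
  by_cases h : ∀ n, (x n).1.2 ≤ 0
  · have hs : ∀ n, sgn true * (x n).1.2 ≤ 0 := fun n => by rw [sph4_t]; exact h n
    have hlt : ∀ n, ‖chart true (x n)‖ < 1 := fun n => by
      refine sph4_lt ?_
      rw [sph4_t, ← sub_add_cancel n 1, hx]
      exact hS _ (h _)
    have hem : ∀ n, hemi (x n) = true := fun n => by simpa [hemi] using h n
    have hd : ∀ n, der f (x n) = fderiv ℝ T (chart true (x n)) := fun n => by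
      rw [der, ← hx, hem, hem]
      refine EventuallyEq.fderiv_eq ?_
      filter_upwards [closedBall_mem_nhds_of_mem (mem_ball_zero_iff.2 (hlt n))] with w hw
      exact (hT w hw).symm
    obtain ⟨a, b, ha, hb, e, t1, t2⟩ := h2 (fun n => chart true (x n)) (fun n => sph4_mem (hs n))
      (fun n => by rw [hT _ (sph4_mem (hs n)), sph4_loc _ (hs n), hx]) v
    exact ⟨a, b, fun n => by rw [hd]; exact ha n, fun n => by rw [hd]; exact hb n, e, t1, t2⟩
  · obtain ⟨n1, h3⟩ := not_forall.1 h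
    obtain ⟨b, hb, e, t⟩ := der_north hk hf hS hθ hN hx (not_le.1 h3) v
    exact ⟨0, b, fun n => by simp, hb, by simpa using e, tendsto_const_nhds, t⟩

end Pool.Agent.Lib.MP_6d0683_an
end

-- part Pool.Agent.Lib.MP_6d0683_an.Rb7
section

/-!
Maps of the sphere close to the identity are onto.
-/

set_option autoImplicit false

open Set Metric Filter Topology Function

namespace Pool.Agent.Lib.MP_6d0683_an

private theorem rb7_uc (s : Bool) : ∃ δ > 0, ∀ x y : Sph, sgn s * x.1.2 ≤ 4 / 5 →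
    sgn s * y.1.2 ≤ 4 / 5 → dist x y < δ → ‖chart s x - chart s y‖ < 1 := by
  have := sph_compact
  have h : UniformContinuousOn (chart s) {x : Sph | sgn s * x.1.2 ≤ 4 / 5} :=
    (isClosed_le (continuous_const.mul sph4_cont)
      continuous_const).isCompact.uniformContinuousOn_of_continuous fun x hx =>
      (chart_cont (lt_of_le_of_lt hx (by norm_num))).continuousWithinAt
  obtain ⟨δ, hδ, h1⟩ := Metric.uniformContinuousOn_iff.1 h 1 one_pos
  exact ⟨δ, hδ, fun x y hx hy hd => by simpa [dist_eq_norm] using h1 x hx y hy hd⟩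

theorem onto_sph : ∃ ε > 0, ∀ H : Sph → Sph, Continuous H → (∀ x, dist (H x) x ≤ ε) →
    Surjective H := by
  obtain ⟨δ, hδ, h1⟩ := rb7_uc true
  obtain ⟨δ', hδ', h2⟩ := rb7_uc false
  refine ⟨min (1 / 5) (min δ δ' / 2), by positivity, fun H hH hd y => ?_⟩
  obtain ⟨s, hs⟩ : ∃ s, sgn s * y.1.2 ≤ 0 := ⟨_, dom_cases y⟩
  have h0 : ‖chart s y‖ ≤ 1 := mem_closedBall_zero_iff.1 (sph4_mem hs)
  have ht : ∀ z ∈ closedBall (0 : ℂ) 2, sgn s * (par s z).1.2 ≤ 3 / 5 := fun z hz => by
    have h3 := mem_closedBall_zero_iff.1 hz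
    rw [sph1_ht, div_le_iff₀ (by positivity)]
    nlinarith [norm_nonneg z]
  have ht' : ∀ z ∈ closedBall (0 : ℂ) 2, sgn s * (H (par s z)).1.2 ≤ 4 / 5 := fun z hz => by
    have h3 : dist (H (par s z)).1.2 (par s z).1.2 ≤ dist (H (par s z)) (par s z) := by
      rw [Subtype.dist_eq, Prod.dist_eq]
      exact le_max_right _ _
    have h4 := abs_le.1 (h3.trans ((hd _).trans (min_le_left _ _)))
    have h5 := ht z hz
    cases s
    · rw [sph4_f] at h5 ⊢
      linarith [h4.1]
    · rw [sph4_t] at h5 ⊢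
      linarith [h4.2]
  have hn : ∀ z ∈ closedBall (0 : ℂ) 2, ‖chart s (H (par s z)) - z‖ < 1 := fun z hz => by
    have h3 : dist (H (par s z)) (par s z) < min δ δ' :=
      ((hd _).trans (min_le_right _ _)).trans_lt (half_lt_self (lt_min hδ hδ'))
    have h4 := (ht z hz).trans (by norm_num : (3 / 5 : ℝ) ≤ 4 / 5)
    have h5 := ht' z hz
    conv_lhs => rw [← chart_par s z, par_chart (par_lt s z)]
    cases s
    · exact h2 _ _ h5 h4 (h3.trans_le (min_le_right _ _))
    · exact h1 _ _ h5 h4 (h3.trans_le (min_le_left _ _))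
  obtain ⟨z, hz, e⟩ := Shared.Brouwer.brouwer two_pos
    (fun z => chart s y - (chart s (H (par s z)) - z))
    (continuousOn_const.sub (ContinuousOn.sub (fun z hz =>
      (ContinuousAt.comp (f := fun z => H (par s z))
        (chart_cont ((ht' z hz).trans_lt (by norm_num)))
        (hH.comp (sph1_cont s)).continuousAt).continuousWithinAt) continuousOn_id))
    fun z hz => mem_closedBall_zero_iff.2 ((norm_sub_le _ _).trans (by linarith [hn z hz]))
  refine ⟨par s z, ?_⟩
  rw [← par_chart ((ht' z hz).trans_lt (by norm_num)), ← par_chart (hs.trans_lt one_pos)]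
  exact congrArg (par s) (by linear_combination -e)

end Pool.Agent.Lib.MP_6d0683_an
end

-- part Pool.Agent.Lib.MP_6d0683_an.Rb3
section

/-!
Maps of the sphere extended to the ambient euclidean space.
-/

set_option autoImplicit false

open Set Metric Filter Topology Function

namespace Pool.Agent.Lib.MP_6d0683_an

/-- the ambient euclidean space -/
abbrev Amb : Type := WithLp 2 (ℂ × ℝ)

/-- coordinates of the ambient space -/
noncomputable def co : Amb ≃L[ℝ] ℂ × ℝ := WithLp.prodContinuousLinearEquiv 2 ℝ ℂ ℝ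

theorem co_norm (p : Amb) : ‖p‖ ^ 2 = ‖(co p).1‖ ^ 2 + (co p).2 ^ 2 := by
  rw [WithLp.prod_norm_sq_eq_of_L2, Real.norm_eq_abs, sq_abs]
  rfl

/-- the inclusion of the sphere -/
noncomputable def inc : C(Sph, Amb) := ⟨fun x => co.symm x.1, by fun_prop⟩

theorem inc_apply (x : Sph) : inc x = co.symm x.1 := rfl

open scoped Classical in
/-- the radial projection -/
noncomputable def pr (p : Amb) : Sph :=
  if h : p = 0 then par true 0 else ⟨co (‖p‖⁻¹ • p), by
    rw [← co_norm, norm_smul, norm_inv, norm_norm, inv_mul_cancel₀ (norm_ne_zero_iff.2 h),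
      one_pow]⟩

/-- the extension of a map of the sphere -/
noncomputable def hat (g : Sph → Sph) (p : Amb) : Amb := inc (g (pr p))

theorem inc_norm (x : Sph) : ‖inc x‖ = 1 := by
  rw [← sq_eq_sq₀ (norm_nonneg _) zero_le_one, co_norm, inc_apply, co.apply_symm_apply, x.2,
    one_pow]

theorem inc_ne (x : Sph) {u : Amb} (hu : ‖u‖ ≤ 1 / 2) : inc x + u ≠ 0 := by
  intro h
  have h1 := inc_norm x
  rw [eq_neg_of_add_eq_zero_left h, norm_neg] at h1
  linarith

theorem rb3_ne (x : Sph) : inc x ≠ 0 := norm_ne_zero_iff.1 (by rw [inc_norm]; exact one_ne_zero)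

theorem rb3_pr {p : Amb} (hp : p ≠ 0) : (pr p).1 = co (‖p‖⁻¹ • p) := by
  rw [pr, dif_neg hp]

theorem pr_inc (x : Sph) : pr (inc x) = x := by
  refine Subtype.ext ?_
  rw [rb3_pr (rb3_ne x), inc_norm, inv_one, one_smul, inc_apply, co.apply_symm_apply]

theorem dist_le_inc (x y : Sph) : dist x y ≤ ‖inc x - inc y‖ := by
  have h := co_norm (inc x - inc y)
  rw [map_sub, inc_apply, inc_apply, co.apply_symm_apply, co.apply_symm_apply, ← inc_apply,
    ← inc_apply] at h
  rw [Subtype.dist_eq, dist_eq_norm, Prod.norm_def, max_le_iff, Real.norm_eq_abs]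
  exact ⟨abs_le_of_sq_le_sq' (by nlinarith [sq_nonneg (x.1 - y.1).2]) (norm_nonneg _) |>.2,
    abs_le_of_sq_le_sq (by nlinarith [sq_nonneg ‖(x.1 - y.1).1‖]) (norm_nonneg _)⟩

theorem inc_emb : IsEmbedding inc := by
  exact co.symm.toHomeomorph.isEmbedding.comp IsEmbedding.subtypeVal

theorem pr_smooth (n : ℕ) {p : Amb} (hp : p ≠ 0) : ContDiffAt ℝ n (fun q => (pr q).1) p := by
  refine (co.contDiff.contDiffAt.comp p ((((contDiffAt_norm ℝ hp).inv
    (norm_ne_zero_iff.2 hp))).smul contDiffAt_id)).congr_of_eventuallyEq ?_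
  filter_upwards [isOpen_ne.mem_nhds hp] with q hq
  exact rb3_pr hq

/-- near a point the projection is read in a chart -/
theorem pr_chart (n : ℕ) {s : Bool} {p : Amb} (hp : p ≠ 0) (h : sgn s * (pr p).1.2 < 1) :
    ContDiffAt ℝ n (fun q => chart s (pr q)) p ∧
      ∀ᶠ q in 𝓝 p, par s (chart s (pr q)) = pr q := by
  have hc : ContinuousAt pr p := tendsto_subtype_rng.2 (pr_smooth 0 hp).continuousAt
  exact ⟨(amb_smooth s n h).comp p (f := fun q => (pr q).1) (pr_smooth n hp),
    (hc.eventually ((sph1_open s).mem_nhds h)).mono fun q hq => par_chart hq⟩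

theorem hat_smooth {k : ℕ} {g : Sph → Sph} (hg : IsCk k g) {p : Amb} (hp : p ≠ 0) :
    ContDiffAt ℝ k (hat g) p := by
  obtain ⟨h1, h2⟩ := pr_chart k hp (sph1_lt (pr p))
  refine (co.symm.contDiff.contDiffAt.comp p
    ((hg (hemi (pr p))).contDiffAt.comp p h1)).congr_of_eventuallyEq ?_
  filter_upwards [h2] with q hq
  simp only [hat, inc_apply, comp_apply, hq]

theorem rb3_cont {g : Sph → Sph} (hg : IsCk 1 g) {p : Amb} (hp : p ≠ 0) :
    ContinuousAt (fderiv ℝ (hat g)) p :=
  ((hat_smooth hg hp).fderiv_right (m := 0) (by simp)).continuousAt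

theorem hat_cont {g : Sph → Sph} (hg : IsCk 1 g) :
    Continuous fun x : Sph => fderiv ℝ (hat g) (inc x) := by
  exact continuous_iff_continuousAt.2 fun x =>
    (rb3_cont hg (rb3_ne x)).comp inc.continuous.continuousAt

theorem hat_lip {g : Sph → Sph} (hg : IsCk 2 g) : ∃ C : ℝ, ∀ a b : Sph,
    ‖fderiv ℝ (hat g) (inc a) - fderiv ℝ (hat g) (inc b)‖ ≤ C * ‖inc a - inc b‖ := by
  have := sph_compact
  have h : LocallyLipschitzOn (range inc) (fderiv ℝ (hat g)) := by
    rintro _ ⟨x, rfl⟩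
    obtain ⟨K, t, ht, hK⟩ := ((hat_smooth hg (rb3_ne x)).fderiv_right (m := 1)
      (by norm_num)).exists_lipschitzOnWith
    exact ⟨K, t, mem_nhdsWithin_of_mem_nhds ht, hK⟩
  obtain ⟨K, hK⟩ := h.exists_lipschitzOnWith_of_compact (isCompact_range inc.continuous)
  exact ⟨K, fun a b => hK.norm_sub_le (mem_range_self a) (mem_range_self b)⟩

theorem hat_strict {g : Sph → Sph} (hg : IsCk 1 g) {κ : ℝ} (hκ : 0 < κ) : ∃ ρ > 0,
    ∀ (x : Sph) (u v : Amb), ‖u‖ ≤ ρ → ‖v‖ ≤ ρ → ‖hat g (inc x + u) - hat g (inc x + v) -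
      fderiv ℝ (hat g) (inc x) (u - v)‖ ≤ κ * ‖u - v‖ := by
  have hK : IsCompact (closedBall (0 : Amb) 2 \ ball 0 (1 / 2)) :=
    (isCompact_closedBall _ _).diff isOpen_ball
  have hne : ∀ p ∈ closedBall (0 : Amb) 2 \ ball 0 (1 / 2), p ≠ 0 := fun p hp e =>
    hp.2 (e ▸ mem_ball_self (by norm_num))
  obtain ⟨δ, hδ, h⟩ := Metric.uniformContinuousOn_iff_le.1 (hK.uniformContinuousOn_of_continuous
    fun p hp => (rb3_cont hg (hne p hp)).continuousWithinAt) κ hκ
  refine ⟨min δ (1 / 2), by positivity, fun x u v hu hv => ?_⟩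
  have hm : ∀ p ∈ closedBall (inc x) (min δ (1 / 2)),
      p ∈ closedBall (0 : Amb) 2 \ ball 0 (1 / 2) := fun p hp => by
    have h1 := abs_le.1 ((abs_norm_sub_norm_le p (inc x)).trans
      ((mem_closedBall_iff_norm.1 hp).trans (min_le_right _ _)))
    rw [inc_norm] at h1
    exact ⟨mem_closedBall_zero_iff.2 (by linarith), fun h2 => by
      linarith [mem_ball_zero_iff.1 h2]⟩
  have key := (convex_closedBall (inc x)
    (min δ (1 / 2))).norm_image_sub_le_of_norm_hasFDerivWithin_le' (f := hat g)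
    (f' := fderiv ℝ (hat g)) (φ := fderiv ℝ (hat g) (inc x)) (C := κ)
    (fun p hp => ((hat_smooth hg (hne p (hm p hp))).differentiableAt
      (by simp)).hasFDerivAt.hasFDerivWithinAt)
    (fun p hp => by
      rw [← dist_eq_norm]
      exact h _ (hm p hp) _ (hm _ (mem_closedBall_self (by positivity)))
        ((mem_closedBall.1 hp).trans (min_le_left _ _)))
    (x := inc x + v) (y := inc x + u) (by simpa using hv) (by simpa using hu)
  simpa only [add_sub_add_left_eq_sub] using key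

end Pool.Agent.Lib.MP_6d0683_an
end

-- part Pool.Agent.Lib.MP_6d0683_an.Rb4
section

/-!
Closeness in the ambient space.
-/

set_option autoImplicit false

open Set Metric Filter Topology Function

namespace Pool.Agent.Lib.MP_6d0683_an

theorem rb4_ne {p : Amb} (hp : p ∈ closedBall (0 : Amb) 2 \ ball 0 (1 / 2)) : p ≠ 0 := fun e =>
  hp.2 (e ▸ mem_ball_self (by norm_num))

theorem rb4_bound (s : Bool) : ∃ M : ℝ, ∀ p ∈ closedBall (0 : Amb) 2 \ ball 0 (1 / 2),
    sgn s * (pr p).1.2 ≤ 0 → ‖fderiv ℝ (fun q => chart s (pr q)) p‖ ≤ M := by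
  have hK : IsCompact (closedBall (0 : Amb) 2 \ ball 0 (1 / 2)) :=
    (isCompact_closedBall _ _).diff isOpen_ball
  have h1 : ContinuousOn (fun p : Amb => sgn s * (pr p).1.2)
      (closedBall (0 : Amb) 2 \ ball 0 (1 / 2)) := fun p hp =>
    (continuousAt_const.mul (pr_smooth 0 (rb4_ne hp)).continuousAt.snd).continuousWithinAt
  have h2 := hK.of_isClosed_subset (h1.preimage_isClosed_of_isClosed hK.isClosed
    (isClosed_Iic (a := 0))) inter_subset_left
  obtain ⟨M, hM⟩ := h2.exists_bound_of_continuousOn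
    (f := fderiv ℝ fun q => chart s (pr q)) fun p hp =>
      (((pr_chart 1 (rb4_ne hp.1) (lt_of_le_of_lt hp.2 one_pos)).1.fderiv_right (m := 0)
        (by simp)).continuousAt).continuousWithinAt
  exact ⟨M, fun p hp h => hM p ⟨hp, h⟩⟩

theorem rb4_disc (x : Sph) : chart (hemi x) x ∈ closedBall (0 : ℂ) 1 := by
  rw [mem_closedBall_zero_iff, ← par_nonpos (hemi x), par_chart (sph1_lt x)]
  exact dom_cases x

theorem rb4_val {f g : Sph → Sph} {ε : ℝ} (h : Close 1 ε f g) (x : Sph) :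
    ‖(f x).1 - (g x).1‖ ≤ ε := by
  have h1 := h (hemi x) 0 zero_le_one _ (rb4_disc x)
  rwa [norm_iteratedFDeriv_zero, par_chart (sph1_lt x)] at h1

theorem rb4_der {f g : Sph → Sph} {ε M : ℝ} (hf : IsCk 1 f) (hg : IsCk 1 g) (h : Close 1 ε f g)
    {p : Amb} (hp : p ≠ 0) (hM : ‖fderiv ℝ (fun q => chart (hemi (pr p)) (pr q)) p‖ ≤ M) :
    ∃ D : Amb →L[ℝ] Amb, HasFDerivAt (fun q => hat f q - hat g q) D p ∧
      ‖D‖ ≤ ‖(co.symm : ℂ × ℝ →L[ℝ] Amb)‖ * (ε * M) := by
  obtain ⟨h1, h2⟩ := pr_chart 1 hp (sph1_lt (pr p))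
  have h3 := h (hemi (pr p)) 1 le_rfl _ (rb4_disc (pr p))
  rw [norm_iteratedFDeriv_one] at h3
  have h4 := (((hf (hemi (pr p))).sub (hg (hemi (pr p)))).differentiable (by simp)
    (chart (hemi (pr p)) (pr p))).hasFDerivAt
  have h5 := (co.symm : ℂ × ℝ →L[ℝ] Amb).hasFDerivAt.comp p
    (h4.comp p (f := fun q => chart (hemi (pr p)) (pr q))
      (h1.differentiableAt (by simp)).hasFDerivAt)
  refine ⟨_, h5.congr_of_eventuallyEq ?_, ?_⟩
  · filter_upwards [h2] with q hq
    simp only [hat, inc_apply, comp_apply, hq, ContinuousLinearEquiv.coe_coe, map_sub]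
  · refine (ContinuousLinearMap.opNorm_comp_le _ _).trans
      (mul_le_mul_of_nonneg_left ((ContinuousLinearMap.opNorm_comp_le _ _).trans ?_)
        (norm_nonneg _))
    exact mul_le_mul h3 hM (norm_nonneg _) ((norm_nonneg _).trans h3)

theorem hat_close : ∃ C > 0, ∀ (f g : Sph → Sph) (ε : ℝ), IsCk 1 f → IsCk 1 g → Close 1 ε f g →
    ∀ x : Sph, ‖hat g (inc x) - hat f (inc x)‖ ≤ C * ε ∧
      ∀ u v : Amb, ‖u‖ ≤ 1 / 2 → ‖v‖ ≤ 1 / 2 →
        ‖hat g (inc x + u) - hat g (inc x + v) - (hat f (inc x + u) - hat f (inc x + v))‖ ≤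
          C * ε * ‖u - v‖ := by
  choose M hM using rb4_bound
  obtain ⟨N, hN⟩ : ∃ N, N = ‖(co.symm : ℂ × ℝ →L[ℝ] Amb)‖ := ⟨_, rfl⟩
  have N0 : 0 ≤ N := hN ▸ norm_nonneg _
  refine ⟨(N + 1) * (1 + |M true| + |M false|), by positivity, fun f g ε hf hg h x => ⟨?_, ?_⟩⟩
  · have h1 := rb4_val h x
    have ε0 : 0 ≤ ε := (norm_nonneg _).trans h1
    have h2 := (co.symm : ℂ × ℝ →L[ℝ] Amb).le_of_opNorm_le_of_le hN.ge h1
    rw [ContinuousLinearEquiv.coe_coe, map_sub] at h2
    rw [hat, hat, pr_inc, norm_sub_rev, inc_apply, inc_apply]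
    refine h2.trans (mul_le_mul_of_nonneg_right ?_ ε0)
    nlinarith [abs_nonneg (M true), abs_nonneg (M false)]
  · intro u v hu hv
    have ε0 : 0 ≤ ε := (norm_nonneg _).trans (rb4_val h x)
    have hm : ∀ p ∈ closedBall (inc x) (1 / 2), p ∈ closedBall (0 : Amb) 2 \ ball 0 (1 / 2) :=
      fun p hp => by
        have h1 := abs_le.1 ((abs_norm_sub_norm_le p (inc x)).trans (mem_closedBall_iff_norm.1 hp))
        rw [inc_norm] at h1
        exact ⟨mem_closedBall_zero_iff.2 (by linarith), fun h2 => by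
          linarith [mem_ball_zero_iff.1 h2]⟩
    have h1 : ∀ p ∈ closedBall (inc x) (1 / 2), ∃ D : Amb →L[ℝ] Amb,
        HasFDerivAt (fun q => hat f q - hat g q) D p ∧
          ‖D‖ ≤ (N + 1) * (1 + |M true| + |M false|) * ε := fun p hp => by
      have h2 : M (hemi (pr p)) ≤ 1 + |M true| + |M false| := by
        cases hemi (pr p) <;>
          linarith [le_abs_self (M true), le_abs_self (M false), abs_nonneg (M true),
            abs_nonneg (M false)]
      obtain ⟨D, h3, h4⟩ := rb4_der hf hg h (rb4_ne (hm p hp))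
        ((hM _ p (hm p hp) (dom_cases _)).trans h2)
      refine ⟨D, h3, h4.trans ?_⟩
      rw [← hN, mul_assoc, mul_comm ε]
      gcongr
      exact le_add_of_nonneg_right zero_le_one
    choose! D h2 h3 using h1
    have key := (convex_closedBall (inc x) (1 / 2)).norm_image_sub_le_of_norm_hasFDerivWithin_le
      (fun p hp => (h2 p hp).hasFDerivWithinAt) h3 (x := inc x + u) (y := inc x + v)
      (by simpa using hu) (by simpa using hv)
    rw [add_sub_add_left_eq_sub, norm_sub_rev v u] at key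
    exact (congrArg norm (by abel)).le.trans key

end Pool.Agent.Lib.MP_6d0683_an
end

-- part Pool.Agent.Lib.MP_6d0683_an.Rb6
section

/-!
Transversality in the ambient space.
-/

set_option autoImplicit false

open Set Metric Filter Topology Function

namespace Pool.Agent.Lib.MP_6d0683_an

/-- the parametrisations with values in the ambient space -/
noncomputable def rb6I (s : Bool) (w : ℂ) : Amb := inc (par s w)

theorem rb6_smooth (s : Bool) : ContDiff ℝ 1 (rb6I s) := co.symm.contDiff.comp (par_smooth s 1)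

/-- their derivatives -/
noncomputable def rb6P (x : Sph) : ℂ →L[ℝ] Amb := fderiv ℝ (rb6I (hemi x)) (chart (hemi x) x)

theorem rb6_der (x : Sph) : HasFDerivAt (rb6I (hemi x)) (rb6P x) (chart (hemi x) x) :=
  ((rb6_smooth _).differentiable one_ne_zero _).hasFDerivAt

theorem rb6_bdd : ∃ C, ∀ x, ‖rb6P x‖ ≤ C := by
  have h : ∀ s, ∃ C, ∀ z ∈ closedBall (0 : ℂ) 1, ‖fderiv ℝ (rb6I s) z‖ ≤ C := fun s =>
    (isCompact_closedBall 0 1).exists_bound_of_continuousOn
      ((rb6_smooth s).continuous_fderiv one_ne_zero).continuousOn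
  choose C hC using h
  refine ⟨max (C true) (C false), fun x => (hC _ _ ?_).trans ?_⟩
  · rw [mem_closedBall_zero_iff, ← par_nonpos (hemi x), par_chart (sph1_lt x)]
    exact dom_cases x
  · cases hemi x <;> simp

theorem rb6_ne (x : Sph) : inc x ≠ 0 := by simpa using inc_ne x (u := 0) (by simp)

theorem rb6_hat {f : Sph → Sph} (hf : IsCk 1 f) (x : Sph) :
    HasFDerivAt (hat f) (fderiv ℝ (hat f) (inc x)) (rb6I (hemi x) (chart (hemi x) x)) := by
  rw [rb6I, par_chart (sph1_lt x)]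
  exact ((hat_smooth hf (rb6_ne x)).differentiableAt (by simp)).hasFDerivAt

theorem rb6_step {f : Sph → Sph} (hf : IsCk 1 f) (x : Sph) (v : ℂ) :
    fderiv ℝ (hat f) (inc x) (rb6P x v) = rb6P (f x) (der f x v) := by
  have e : par (hemi x) (chart (hemi x) x) = x := par_chart (sph1_lt x)
  have hz : sgn (hemi (f x)) * (f (par (hemi x) (chart (hemi x) x))).1.2 < 1 := by
    rw [e]
    exact sph1_lt _
  have ev : hat f ∘ rb6I (hemi x) =ᶠ[𝓝 (chart (hemi x) x)]
      rb6I (hemi (f x)) ∘ loc (hemi x) (hemi (f x)) f := by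
    filter_upwards [sph1_ev hf hz] with w hw
    simp only [comp, hat, rb6I, pr_inc, hw]
  have h2 : HasFDerivAt (rb6I (hemi (f x))) (rb6P (f x))
      (loc (hemi x) (hemi (f x)) f (chart (hemi x) x)) := by
    rw [loc, e]
    exact rb6_der _
  have h3 : HasFDerivAt (loc (hemi x) (hemi (f x)) f) (der f x) (chart (hemi x) x) :=
    ((hf.loc hz).differentiableAt (by simp)).hasFDerivAt
  have := ((rb6_hat hf x).comp _ (rb6_der x)).unique ((h2.comp _ h3).congr_of_eventuallyEq ev)
  exact congrArg (fun T : ℂ →L[ℝ] Amb => T v) this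

theorem rb6_tan {f : Sph → Sph} (hf : IsCk 1 f) (x : Sph) (u : Amb) :
    ∃ v, fderiv ℝ (hat f) (inc x) u = fderiv ℝ (hat f) (inc x) (rb6P x v) := by
  obtain ⟨h1, h2⟩ := pr_chart 1 (s := hemi x) (rb6_ne x) (by rw [pr_inc]; exact sph1_lt x)
  have h3 := (h1.differentiableAt (by simp)).hasFDerivAt
  have ev : hat f =ᶠ[𝓝 (inc x)] (hat f ∘ rb6I (hemi x)) ∘ fun q => chart (hemi x) (pr q) := by
    filter_upwards [h2] with w hw
    simp only [comp, hat, rb6I, pr_inc, hw]
  have h4 : HasFDerivAt (hat f ∘ rb6I (hemi x)) ((fderiv ℝ (hat f) (inc x)).comp (rb6P x))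
      (chart (hemi x) (pr (inc x))) := by
    rw [pr_inc]
    exact (rb6_hat hf x).comp _ (rb6_der x)
  have := ((HasFDerivAt.comp (f := fun q => chart (hemi x) (pr q)) (inc x) h4
    h3).congr_of_eventuallyEq ev).fderiv
  exact ⟨_, congrArg (fun T : Amb →L[ℝ] Amb => T u) this⟩

theorem hat_tr {f : Sph → Sph} (hf : IsCk 1 f) (h : MorseSmale f) (o : ℤ → Sph)
    (ho : ∀ n, o (n + 1) = f (o n)) (u : Amb) : ∃ a b : ℤ → Amb,
      (∀ n, a (n + 1) = fderiv ℝ (hat f) (inc (o n)) (a n)) ∧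
      (∀ n, b (n + 1) = fderiv ℝ (hat f) (inc (o n)) (b n)) ∧
      fderiv ℝ (hat f) (inc (o 0)) u = a 1 + b 1 ∧ Tendsto a atTop (𝓝 0) ∧
      Tendsto b atBot (𝓝 0) := by
  obtain ⟨v, hv⟩ := rb6_tan hf (o 0) u
  obtain ⟨a, b, ha, hb, e, ta, tb⟩ := h.2 o ho v
  obtain ⟨C, hC⟩ := rb6_bdd
  have st : ∀ c : ℤ → ℂ, (∀ n, c (n + 1) = der f (o n) (c n)) → ∀ n, rb6P (o (n + 1)) (c (n + 1)) =
      fderiv ℝ (hat f) (inc (o n)) (rb6P (o n) (c n)) := fun c hc n => by
    rw [rb6_step hf, hc, ho]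
  have lim : ∀ (c : ℤ → ℂ) (l : Filter ℤ), Tendsto c l (𝓝 0) →
      Tendsto (fun n => rb6P (o n) (c n)) l (𝓝 0) := fun c l hc =>
    squeeze_zero_norm (fun n => (rb6P (o n)).le_of_opNorm_le (hC _) (c n))
      (by simpa using hc.norm.const_mul C)
  refine ⟨fun n => rb6P (o n) (a n), fun n => rb6P (o n) (b n), st a ha, st b hb, ?_, lim a _ ta,
    lim b _ tb⟩
  rw [hv, ← e, map_add, map_add, ← st a ha, ← st b hb, zero_add]

end Pool.Agent.Lib.MP_6d0683_an
end

-- part Pool.Agent.Lib.MP_6d0683_an.Rb5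
section

/-!
Morse-Smale diffeomorphisms of class C^2 of the sphere are C^1 structurally stable.
-/

set_option autoImplicit false

open Set Metric Filter Topology Function

namespace Pool.Agent.Lib.MP_6d0683_an

theorem IsCk.mono {k j : ℕ} {f : Sph → Sph} (h : IsCk k f) (hj : j ≤ k) : IsCk j f :=
  fun s => (h s).of_le (by exact_mod_cast hj)

theorem stableAP_of {f : Sph ≃ₜ Sph} (hf : IsCk 2 f) (h : MorseSmale f) : StableAP 1 f := by
  haveI := sph_compact
  have hf1 := hf.mono one_le_two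
  let K : Coc Sph Amb := ⟨f, ⟨_, hat_cont hf1⟩, hat_tr hf1 h⟩
  obtain ⟨C, hC⟩ := hat_lip hf
  obtain ⟨κ, hκ, h1⟩ := K.robbin inc hC
  obtain ⟨ρ, hρ, h2⟩ := hat_strict hf1 (half_pos hκ)
  obtain ⟨C', hC', h3⟩ := hat_close
  obtain ⟨ε0, hε0, h4⟩ := onto_sph
  intro η hη
  obtain ⟨r, hr, r1, r2, r3, r4⟩ : ∃ r > 0, 2 * r ≤ ρ ∧ r ≤ 1 / 2 ∧ r ≤ ε0 ∧ r < η :=
    ⟨min (min (ρ / 2) (1 / 2)) (min ε0 (η / 2)), by positivity,
      by linarith [min_le_left (min (ρ / 2) (1 / 2)) (min ε0 (η / 2)), min_le_left (ρ / 2) (1 / 2)],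
      (min_le_left _ _).trans (min_le_right _ _), (min_le_right _ _).trans (min_le_left _ _),
      ((min_le_right _ _).trans (min_le_right _ _)).trans_lt (half_lt_self hη)⟩
  obtain ⟨ε, hε, h5⟩ := h1 r hr
  have hh : ∀ (g : Sph → Sph) (x : Sph), hat g (inc x) = inc (g x) := fun g x => by
    rw [hat, pr_inc]
  refine ⟨min ε (κ / 2) / C', by positivity, fun g hg hfg => ?_⟩
  have h6 := h3 f g _ hf1 hg.1 hfg
  rw [mul_div_cancel₀ _ hC'.ne'] at h6
  obtain ⟨ξ, k1, k2, k3⟩ := h5 (hat g)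
    (fun x u hu => (hat_smooth hg.1 (inc_ne x (hu.trans r2))).continuousAt)
    (fun x => by
      have := (h6 x).1
      rw [hh f] at this
      exact this.trans (min_le_left _ _))
    (fun x u v hu hv => by
      have e1 := (h6 x).2 u v (hu.trans r2) (hv.trans r2)
      have e2 := h2 x u v (by linarith) (by linarith)
      have e3 : min ε (κ / 2) * ‖u - v‖ ≤ κ / 2 * ‖u - v‖ := by
        gcongr
        exact min_le_right _ _
      have e4 := norm_add_le_of_le e1 e2
      rw [sub_add_sub_cancel] at e4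
      exact e4.trans (by linarith))
    (fun a b hab => by
      have e2 := h2 a 0 (inc b - inc a) (by simpa using hρ.le) (by rw [norm_sub_rev]; linarith)
      rw [add_zero, add_sub_cancel, zero_sub, neg_sub, hh, hh] at e2
      exact e2.trans (by gcongr; exact half_le_self hκ.le))
  have e1 : ∀ x, inc (f x) + ξ (f x) = inc (g (pr (inc x + ξ x))) := k2
  have e2 : ∀ y, inc (pr (inc y + ξ y)) = inc y + ξ y := fun y => by
    obtain ⟨x, rfl⟩ := f.surjective y
    rw [e1, pr_inc]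
  have e3 : ∀ x, pr (inc (f x) + ξ (f x)) = g (pr (inc x + ξ x)) := fun x => by rw [e1, pr_inc]
  have e4 : Continuous fun y => pr (inc y + ξ y) := by
    rw [inc_emb.continuous_iff]
    exact (inc.continuous.add ξ.continuous).congr fun y => (e2 y).symm
  have e5 : ∀ y, dist (pr (inc y + ξ y)) y ≤ r := fun y => by
    refine (dist_le_inc _ _).trans ?_
    rw [e2, add_sub_cancel_left]
    exact (ξ.norm_coe_le_norm y).trans k1
  have e6 : Injective fun y => pr (inc y + ξ y) := fun a b hab => by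
    refine inc_emb.injective (k3 (fun n => (f ^ n) a) (fun n => (f ^ n) b)
      (Coc.orb_succ f a) (Coc.orb_succ f b) fun n => ?_)
    rw [← e2, ← e2 ((f ^ n) b)]
    refine congrArg inc ?_
    induction n using Int.induction_on with
    | zero => exact hab
    | succ n ih => rw [Coc.orb_succ, Coc.orb_succ, e3, e3, ih]
    | pred n ih =>
      refine g.injective ?_
      rw [← e3, ← e3, ← Coc.orb_succ, ← Coc.orb_succ, sub_add_cancel, ih]
  exact ⟨e4.homeoOfEquivCompactToT2 (f := Equiv.ofBijective _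
    ⟨e6, h4 _ e4 fun x => (e5 x).trans r3⟩), e3, fun x => (e5 x).trans_lt r4⟩

end Pool.Agent.Lib.MP_6d0683_an
end
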