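import Pool.Agent.Lib.MP_6d0683_an.Sph1
import Pool.Agent.Lib.MP_3fe454_an.S2.Part2
import Pool.Agent.Lib.MP_3fe454_an.S2.CL2
import Pool.Agent.Lib.MP_3fe454_an.S2.Loc1
import Pool.Agent.Lib.MP_3fe454_an.S2.Mdl3
import Pool.Agent.Lib.MP_6d0683_an.Sec
import Pool.Agent.Lib.MP_3fe454_an.S2.Final
import Pool.Agent.Lib.MP_6d0683_an.Orb2
import Pool.Agent.Lib.MP_6d0683_an.Gen3
import Pool.Agent.Lib.MP_6d0683_an.Rb5

-- part Pool.Agent.Lib.MP_6d0683_an.CR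
section

/-!
With finitely many periodic points and no cascade, chain recurrent points are periodic.
-/

set_option autoImplicit false

open Set Metric Filter Topology Function

namespace Pool.Agent.Lib.MP_6d0683_an

open MP_3fe454_an.PD MP_3fe454_an.S2

variable {F : Dis}

theorem cr_shrink (B : Box F) {q : ℂ} (h1 : B.Full) (h2 : B.Cone) (h3 : B.X q = 0)
    (h4 : B.Y q = 0) (h5 : B.Gt q = q) {U : Set ℂ} (hU : U ∈ 𝓝 q) :
    ∃ B' : Box F, B'.M = B.M ∧ B'.Full ∧ B'.Cone ∧ B'.X q = 0 ∧ B'.Y q = 0 ∧ B'.Gt q = q ∧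
      B'.S ⊆ U := by
  have e0 : B.Ψ.symm 0 = q := B.Ψ.symm_apply_eq.2 (Prod.ext h3.symm h4.symm)
  obtain ⟨a0, ha0, hb⟩ := Metric.nhds_basis_closedBall.mem_iff.1
    (B.Ψ.symm.continuous.continuousAt.preimage_mem_nhds (e0.symm ▸ hU))
  obtain ⟨a, ha, a1, a2⟩ : ∃ a : ℝ, 0 < a ∧ a ≤ 1 ∧ a ≤ a0 :=
    ⟨min 1 a0, lt_min one_pos ha0, min_le_left _ _, min_le_right _ _⟩
  have hi : 0 < a⁻¹ := inv_pos.2 ha
  obtain ⟨A', hA'⟩ : ∃ A' : ℂ ≃L[ℝ] ℝ × ℝ, ∀ v, A' v = a⁻¹ • B.A v :=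
    ⟨((LinearEquiv.smulOfNeZero ℝ ℂ _ hi.ne').trans B.A.toLinearEquiv).toContinuousLinearEquiv,
      fun v => B.A.map_smul _ v⟩
  have hn : ∀ v, ‖A' v‖ = a⁻¹ * ‖B.A v‖ := fun v => by
    rw [hA', norm_smul, Real.norm_of_nonneg hi.le]
  let Ψ : ℂ ≃ₜ ℝ × ℝ := B.Ψ.trans (Homeomorph.smulOfNeZero a⁻¹ hi.ne')
  have p1 : ∀ w, (Ψ w).1 = a⁻¹ * (B.Ψ w).1 := fun _ => rfl
  have p2 : ∀ w, (Ψ w).2 = a⁻¹ * (B.Ψ w).2 := fun _ => rfl
  have ab : ∀ t : ℝ, |a⁻¹ * t| = a⁻¹ * |t| := fun t => by rw [abs_mul, abs_of_pos hi]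
  have sm : ∀ t : ℝ, |a⁻¹ * t| ≤ 1 → |t| ≤ a := fun t h => by
    rwa [ab, inv_mul_le_iff₀ ha, mul_one] at h
  let B' : Box F :=
    { M := B.M, A := A', Ψ := Ψ, Gt := B.Gt
      φ := ((OrderIso.mulLeft₀ a ha).trans B.φ).trans (OrderIso.mulLeft₀ a⁻¹ hi)
      lam := B.lam, sig := B.sig, M_pos := B.M_pos, lam_pos := B.lam_pos, lam_lt := B.lam_lt
      one_le_sig := B.one_le_sig, mul_lt := B.mul_lt
      lev := fun w => by
        show a⁻¹ * (B.Ψ (B.Gt w)).1 = a⁻¹ * B.φ (a * (a⁻¹ * (B.Ψ w).1))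
        rw [mul_inv_cancel_left₀ ha.ne', B.lev]
      mono := fun w w' k1 k2 => mul_lt_mul_of_pos_left
        (B.mono w w' (mul_left_cancel₀ hi.ne' k1) (lt_of_mul_lt_mul_left k2 hi.le)) hi
      contr := fun w => by
        rw [p2, p2, ab, ab, mul_left_comm]
        exact mul_le_mul_of_nonneg_left (B.contr w) hi.le
      lip := fun w w' => by
        rw [hn, hn, mul_left_comm]
        exact mul_le_mul_of_nonneg_left (B.lip w w') hi.le
      base := fun w => by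
        have : Ψ.symm ((Ψ w).1, 0) = B.Ψ.symm ((B.Ψ w).1, 0) := by
          refine Ψ.symm_apply_eq.2 (Prod.ext ?_ ?_)
          · rw [p1, p1, B.Ψ.apply_symm_apply]
          · rw [p2, B.Ψ.apply_symm_apply, mul_zero]
        rw [this, hn, p2, ab]
        exact mul_le_mul_of_nonneg_left (B.base w) hi.le
      sub := fun w k1 k2 => B.sub w ((sm _ k1).trans a1) ((sm _ k2).trans a1)
      ag := fun w k1 k2 _ => h1 w ⟨(sm _ k1).trans a1, (sm _ k2).trans a1⟩ }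
  have hS : B'.S ⊆ B.S := fun w k => ⟨(sm _ k.1).trans a1, (sm _ k.2).trans a1⟩
  obtain ⟨s0, l0, e, c1, c2, c3, c4, c5, c6⟩ := h2
  refine ⟨B', rfl, fun w hw => h1 w (hS hw), ⟨s0, l0, e, c1, c2, c3, c4, fun w hw w' hw' => ?_,
    fun w w' k1 k2 => ?_⟩, ?_, ?_, h5, fun w hw => ?_⟩
  · have k := mul_le_mul_of_nonneg_left (c5 w (hS hw) w' (hS hw')) hi.le
    show ‖A' _ - (s0 * (A' _).1, l0 * (A' _).2)‖ ≤ e * ‖A' _‖
    rw [hn, mul_left_comm]
    refine le_trans (le_of_eq ?_) k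
    rw [← Real.norm_of_nonneg hi.le, ← norm_smul, hA', hA']
    congr 1
    ext <;> simp only [Prod.fst_sub, Prod.snd_sub, Prod.smul_fst, Prod.smul_snd, smul_eq_mul] <;>
      ring
  · have k := c6 w w' ((mul_eq_zero.1 k1).resolve_left hi.ne')
      ((mul_eq_zero.1 k2).resolve_left hi.ne')
    show a⁻¹ * B.X w - a⁻¹ * B.X w' = (A' _).1
    rw [hA', ← mul_sub, k]
    rfl
  · show a⁻¹ * B.X q = 0
    rw [h3, mul_zero]
  · show a⁻¹ * B.Y q = 0
    rw [h4, mul_zero]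
  · have : B.Ψ w ∈ closedBall (0 : ℝ × ℝ) a0 := mem_closedBall_zero_iff.2
      (norm_prod_le_iff.2 ⟨(sm _ hw.1).trans a2, (sm _ hw.2).trans a2⟩)
    simpa using hb this

theorem cr_atlas (hp : HP F) (hf : (periodicPts F.f).Finite) {x : ℂ} (hx : x ∉ periodicPts F.f) :
    ∃ (At : Atlas F) (M0 : ℕ), At.Fin M0 ∧ ∀ q B, At.L q = Sum.inr B →
      B.X q = 0 ∧ x ∉ B.S ∧ ∀ c ∈ B.S, c ∈ periodicPts F.f → c = q := by
  obtain ⟨N, hN, h⟩ := hp.bounded
  have : ∀ q : periodicPts F.f, ∃ L : Loc F, L.M = 2 * N ∧ L.OK q ∧ ∀ B, L = Sum.inr B →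
      B.X q = 0 ∧ x ∉ B.S ∧ ∀ c ∈ B.S, c ∈ periodicPts F.f → c = q := fun q => by
    obtain ⟨L, h1, h2, h3⟩ := exists_loc F hN (h q q.2)
    rcases L with T | B
    · exact ⟨_, h1, h2, fun _ k => nomatch k⟩
    · have hU : (insert x (periodicPts F.f \ {(q : ℂ)}))ᶜ ∈ 𝓝 (q : ℂ) :=
        ((hf.subset sdiff_subset).insert x).isClosed.isOpen_compl.mem_nhds (by
          rintro (k | k)
          · exact hx (k ▸ q.2)
          · exact k.2 rfl)
      obtain ⟨B', b1, b2, b3, b4, b5, b6, b7⟩ :=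
        cr_shrink B h2.1 h2.2.1 (h3 B rfl) h2.2.2.2.1 h2.2.2.2.2 hU
      refine ⟨Sum.inr B', b1.trans h1, ⟨b2, b3, by rw [b4]; norm_num, b5, b6⟩, fun B2 k => ?_⟩
      obtain rfl := Sum.inr.inj k
      exact ⟨b4, fun k => b7 k (mem_insert _ _), fun c k k' =>
        by_contra fun k2 => b7 k (Or.inr ⟨k', k2⟩)⟩
  choose L h1 h2 h3 using this
  haveI := hf.to_subtype
  exact ⟨⟨L, h2⟩, 2 * N, ⟨finite_range L, h1⟩, h3⟩

theorem cr_mono {T : ℂ → ℂ} {ε ε' : ℝ} (h : ε ≤ ε') {a b : ℂ} (k : Ch T ε a b) : Ch T ε' a b :=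
  Relation.TransGen.mono (r := fun u v => ‖T u - v‖ < ε) (p := fun u v => ‖T u - v‖ < ε')
    (fun _ _ k => lt_of_lt_of_le k h) a b k

theorem cr_seq {r : ℂ → ℂ → Prop} {a b : ℂ} (h : Relation.TransGen r a b) :
    ∃ (n : ℕ) (y : ℕ → ℂ), 0 < n ∧ y 0 = a ∧ y n = b ∧ ∀ i < n, r (y i) (y (i + 1)) := by
  induction h with
  | @single b h =>
    refine ⟨1, fun i => if i = 0 then a else b, one_pos, rfl, rfl, fun i hi => ?_⟩
    obtain rfl : i = 0 := by omega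
    exact h
  | @tail b c _ h ih =>
    obtain ⟨n, y, h0, h1, h2, h3⟩ := ih
    refine ⟨n + 1, fun i => if i ≤ n then y i else c, by omega, by simp [h1], by simp,
      fun i hi => ?_⟩
    rcases (Nat.le_of_lt_succ hi).eq_or_lt with e | e
    · subst e
      simpa [h2] using h
    · simp only [if_pos e.le, if_pos (Nat.succ_le_of_lt e)]
      exact h3 i e

theorem cr_pow {x : ℂ} (hx : ∀ ε > 0, Ch F.f ε x x) (M : ℕ) :
    x ∈ Disc ∧ ∀ ε > 0, Ch F.f^[M] ε x x := by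
  have hr : 0 < 1 - F.r0 := sub_pos.2 F.r0_lt
  have hD : ∀ u v : ℂ, ‖F.f u - v‖ < 1 - F.r0 → v ∈ Disc := fun u v h => by
    have := norm_sub_norm_le v (F.f u)
    rw [norm_sub_rev] at this
    exact mem_closedBall_zero_iff.2 (by linarith [F.maps u])
  refine ⟨?_, fun ε hε => ?_⟩
  · obtain ⟨u, -, h⟩ := Relation.TransGen.tail'_iff.1 (hx _ hr)
    exact hD _ _ h
  have hM : 0 < F.M := one_pos.trans_le F.one_le_M
  have sh : ∀ j : ℕ, ∃ C > 0, ∀ (δ : ℝ) (y : ℕ → ℂ), (∀ i, y i ∈ Disc) →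
      (∀ i, ‖F.f (y i) - y (i + 1)‖ < δ) → ∀ i, ‖F.f^[j] (y i) - y (i + j)‖ < C * δ := by
    intro j
    induction j with
    | zero => exact ⟨1, one_pos, fun δ y _ h i => by
        simpa using (norm_nonneg _).trans_lt (h 0)⟩
    | succ j ih =>
      obtain ⟨C, hC, ih⟩ := ih
      refine ⟨F.M * C + 1, by positivity, fun δ y h1 h2 i => ?_⟩
      have a1 := lin_lip F (F.iter_mem_Disc (h1 i) j) (h1 (i + j))
      have a2 := mul_lt_mul_of_pos_left (ih δ y h1 h2 i) hM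
      have a3 := norm_sub_le_norm_sub_add_norm_sub (F.f (F.f^[j] (y i))) (F.f (y (i + j)))
        (y (i + j + 1))
      rw [iterate_succ_apply', ← add_assoc]
      nlinarith [h2 (i + j)]
  obtain ⟨C, hC, sh⟩ := sh M
  obtain ⟨n, y, h0, h1, h2, h3⟩ := cr_seq (hx (min (ε / C) (1 - F.r0)) (lt_min (by positivity) hr))
  have k1 : ∀ i, ‖F.f (y (i % n)) - y ((i + 1) % n)‖ < min (ε / C) (1 - F.r0) := fun i => by
    have := h3 _ (Nat.mod_lt i h0)
    rw [← Nat.mod_add_mod]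
    rcases (Nat.succ_le_of_lt (Nat.mod_lt i h0)).eq_or_lt with e | e
    · have e' : i % n + 1 = n := e
      rw [e', h2] at this
      rwa [e', Nat.mod_self, h1]
    · rwa [Nat.mod_eq_of_lt e]
  have k2 : ∀ i, y (i % n) ∈ Disc := fun i => by
    have := hD _ _ ((k1 (i + (n - 1))).trans_le (min_le_right _ _))
    rwa [show i + (n - 1) + 1 = i + n by omega, Nat.add_mod_right] at this
  have k3 := sh (ε / C) (fun i => y (i % n)) k2 fun i => (k1 i).trans_le (min_le_left _ _)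
  rw [mul_div_cancel₀ _ hC.ne'] at k3
  have k4 : ∀ j : ℕ, Ch F.f^[M] ε x (y ((M * (j + 1)) % n)) := fun j => by
    induction j with
    | zero => exact .single (by simpa [h1] using k3 0)
    | succ j ih => exact ih.tail (by simpa [Nat.mul_succ] using k3 (M * (j + 1)))
  have := k4 (n - 1)
  rwa [show n - 1 + 1 = n by omega, Nat.mul_mod_left, h1] at this

theorem cr_lim {T : ℂ → ℂ} (hT : Continuous T) {x y : ℂ}
    (h : ∀ ε > 0, ∃ᶠ w in 𝓝 y, Ch T ε w x) : ∀ ε > 0, Ch T ε y x := fun ε hε => by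
  obtain ⟨w, h1, h2⟩ := ((h (ε / 2) (by positivity)).and_eventually
    (hT.continuousAt.eventually (ball_mem_nhds (T y) (show 0 < ε / 2 by positivity)))).exists
  obtain ⟨c, h3, h4⟩ := Relation.TransGen.head'_iff.1 h1
  refine Relation.TransGen.head' (b := c) ?_ (Relation.ReflTransGen.mono
    (r := fun u v => ‖T u - v‖ < ε / 2) (fun _ _ k => lt_trans k (by linarith)) _ _ h4)
  have := norm_sub_le_norm_sub_add_norm_sub (T y) (T w) c
  have h5 : ‖T w - T y‖ < ε / 2 := by rwa [← dist_eq_norm]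
  rw [norm_sub_rev] at h5
  linarith

theorem cr_fwd {T : ℂ → ℂ} (hT : Continuous T) {x y : ℂ} (hx : ∀ ε > 0, Ch T ε x x)
    (h : ∀ ε > 0, Ch T ε y x) : ∀ ε > 0, Ch T ε (T y) x := by
  refine cr_lim hT fun ε hε => Metric.nhds_basis_ball.frequently_iff.2 fun δ hδ => ?_
  obtain ⟨c, h3, h4⟩ := Relation.TransGen.head'_iff.1 (h (min ε δ) (lt_min hε hδ))
  refine ⟨c, ?_, ?_⟩
  · rw [mem_ball, dist_eq_norm, norm_sub_rev]
    exact h3.trans_le (min_le_right _ _)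
  · rcases Relation.reflTransGen_iff_eq_or_transGen.1 h4 with e | e
    · exact e ▸ hx ε hε
    · exact cr_mono (min_le_left _ _) e

theorem cr_hit (hp : HP F) {M0 : ℕ} (hM : 0 < M0) {z : ℂ} (hD : z ∈ Disc) :
    ∃ q ∈ periodicPts F.f, MapClusterPt q atTop fun k : ℕ => F.f^[M0 * k] z := by
  have hu : ∀ k : ℕ, F.f^[M0 * k] z ∈ Disc := fun k => F.iter_mem_Disc hD _
  have hle : map (fun k : ℕ => F.f^[M0 * k] z) atTop ≤ 𝓟 Disc :=
    le_principal_iff.2 (show ∀ᶠ k in atTop, F.f^[M0 * k] z ∈ Disc from Eventually.of_forall hu)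
  have hs : {c | MapClusterPt c atTop fun k : ℕ => F.f^[M0 * k] z} ⊆ Disc := fun c hc =>
    isClosed_closedBall.closure_subset (mem_closure_iff_clusterPt.2 (ClusterPt.mono hc hle))
  obtain ⟨q, hq, hq'⟩ := hp.iter hM
    (X := {c | MapClusterPt c atTop fun k : ℕ => F.f^[M0 * k] z})
    ((isCompact_closedBall (0 : ℂ) 1).of_isClosed_subset isClosed_setOfPred_clusterPt hs)
    (((isCompact_closedBall (0 : ℂ) 1).exists_mapClusterPt hle).imp fun _ a => a.2) hs (by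
      intro c hc
      have a1 := MapClusterPt.continuousAt_comp (F.cf.iterate M0).continuousAt hc
      have a2 : ((F.f^[M0]) ∘ fun k : ℕ => F.f^[M0 * k] z) =
          (fun k : ℕ => F.f^[M0 * k] z) ∘ fun k => k + 1 := by
        funext k
        show F.f^[M0] (F.f^[M0 * k] z) = F.f^[M0 * (k + 1)] z
        rw [← iterate_add_apply, add_comm M0, ← Nat.mul_succ]
      rw [a2] at a1
      exact a1.of_comp (tendsto_add_atTop_nat 1))
  exact ⟨q, hq', hq⟩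

theorem cr_trap (T : Trap F) {x : ℂ} (h : ∀ ε > 0, Ch F.f^[T.M] ε T.q x) : x = T.q := by
  have hC : 0 < T.C := by
    have := (T.low 1).trans (T.up 1)
    rw [norm_one] at this
    linarith [T.c_pos]
  have h1 : 0 < 1 - T.θ := sub_pos.2 T.θ_lt
  have key : ∀ ρ > 0, ρ ≤ T.r → T.N (x - T.q) ≤ ρ := fun ρ h0 hr => by
    have step : ∀ u v, T.N (u - T.q) ≤ ρ → ‖F.f^[T.M] u - v‖ < (1 - T.θ) * ρ / T.C →
        T.N (v - T.q) ≤ ρ := fun u v k1 k2 => by
      have a1 := T.contr u T.q (k1.trans hr) (by simpa using T.r_pos.le)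
      rw [T.fix] at a1
      have a2 := map_add_le_add T.N (v - F.f^[T.M] u) (F.f^[T.M] u - T.q)
      rw [sub_add_sub_cancel] at a2
      have a3 := T.up (v - F.f^[T.M] u)
      rw [norm_sub_rev] at a3
      rw [lt_div_iff₀ hC] at k2
      nlinarith [mul_le_mul_of_nonneg_left k1 T.θ_pos.le]
    have k := h _ (show 0 < (1 - T.θ) * ρ / T.C by positivity)
    clear h
    induction k with
    | single k => exact step _ _ (by simpa using h0.le) k
    | tail _ k ih => exact step _ _ ih k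
  have a2 : T.N (x - T.q) ≤ 0 := le_of_forall_pos_le_add fun ρ h0 => by
    rw [zero_add]
    exact (key _ (lt_min h0 T.r_pos) (min_le_right _ _)).trans (min_le_left _ _)
  exact sub_eq_zero.1 (norm_le_zero_iff.1 (nonpos_of_mul_nonpos_right ((T.low _).trans a2) T.c_pos))

theorem cr_exit (B : Box F) (hB : B.Full) {q x : ℂ} (hX : B.X q = 0) (hY : B.Y q = 0)
    (hx : x ∉ B.S) (h : ∀ ε > 0, Ch F.f^[B.M] ε q x) :
    ∃ v, |B.X v| ≤ 1 / 4 ∧ B.Y v = 0 ∧ 1 / 4 ≤ |B.φ (B.X v)| ∧ ∀ ε > 0, Ch F.f^[B.M] ε v x := by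
  have cG := F.cf.iterate B.M
  have key : ∀ η > 0, η ≤ 1 → ∃ w, |B.X w| ≤ 1 / 4 ∧ |B.Y w| ≤ η ∧ Ch F.f^[B.M] η w x ∧
      ∃ c, ‖F.f^[B.M] w - c‖ < η ∧ 1 / 4 ≤ |B.X c| := fun η h0 h1 => by
    have hl : 0 < (1 - B.lam) * η := mul_pos (sub_pos.2 B.lam_lt) h0
    obtain ⟨δ, d0, d1⟩ := Metric.uniformContinuousOn_iff.1
      ((isCompact_closedBall (0 : ℂ) 2).uniformContinuousOn_of_continuous B.cY.continuousOn) _ hl
    obtain ⟨ε, e0, e1, e2⟩ : ∃ ε : ℝ, 0 < ε ∧ ε ≤ δ ∧ ε ≤ η :=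
      ⟨min δ η, lt_min d0 h0, min_le_left _ _, min_le_right _ _⟩
    have ht : ∀ u v, |B.X u| ≤ 1 / 4 → |B.Y u| ≤ η → ‖F.f^[B.M] u - v‖ < ε → |B.Y v| ≤ η := by
      intro u v k1 k2 k3
      have hu : u ∈ B.S := ⟨by linarith, k2.trans h1⟩
      have a0 := mem_closedBall_zero_iff.1
        (F.iter_mem_Disc (ball_subset_closedBall (B.S_sub hu)) B.M)
      have a1 := norm_sub_norm_le v (F.f^[B.M] u)
      rw [norm_sub_rev] at a1
      have a2 := d1 v (mem_closedBall_zero_iff.2 (by linarith)) (F.f^[B.M] u)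
        (mem_closedBall_zero_iff.2 (by linarith)) (by rw [dist_comm, dist_eq_norm]; linarith)
      have a3 := B.Y_Gt_abs u
      rw [← hB u hu] at a3
      rw [Real.dist_eq] at a2
      have a4 := abs_sub_abs_le_abs_sub (B.Y v) (B.Y (F.f^[B.M] u))
      nlinarith [mul_le_mul_of_nonneg_left k2 B.lam_pos.le]
    have : ∀ a, Ch F.f^[B.M] ε a x → |B.X a| ≤ 1 / 4 → |B.Y a| ≤ η → ∃ w, |B.X w| ≤ 1 / 4 ∧
        |B.Y w| ≤ η ∧ Ch F.f^[B.M] ε w x ∧ ∃ c, ‖F.f^[B.M] w - c‖ < ε ∧ 1 / 4 ≤ |B.X c| := by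
      intro a ha
      induction ha using Relation.TransGen.head_induction_on with
      | @single a k =>
        refine fun k1 k2 => ⟨a, k1, k2, .single k, x, k, by_contra fun k3 => hx ⟨?_, ?_⟩⟩
        · linarith [not_le.1 k3]
        · exact (ht _ _ k1 k2 k).trans h1
      | @head a c k k' ih =>
        intro k1 k2
        rcases le_total |B.X c| (1 / 4) with e | e
        · exact ih e (ht _ _ k1 k2 k)
        · exact ⟨a, k1, k2, .head k k', c, k, e⟩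
    obtain ⟨w, w1, w2, w3, c, c1, c2⟩ :=
      this q (h ε e0) (by rw [hX]; norm_num) (by rw [hY]; simpa using h0.le)
    exact ⟨w, w1, w2, cr_mono e2 w3, c, c1.trans_le e2, c2⟩
  have p1 : ∀ k : ℕ, 1 / ((k : ℝ) + 1) ≤ 1 := fun k =>
    (div_le_one (by positivity)).2 (by linarith [k.cast_nonneg (α := ℝ)])
  choose w w1 w2 w3 c c1 c2 using fun k : ℕ => key (1 / ((k : ℝ) + 1)) (by positivity) (p1 k)
  obtain ⟨v, hv, ι, hι, ht⟩ := B.S_compact.tendsto_subseq (x := w)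
    fun k => ⟨by linarith [w1 k], (w2 k).trans (p1 k)⟩
  have t0 : Tendsto (fun k => 1 / ((ι k : ℝ) + 1)) atTop (𝓝 0) :=
    tendsto_one_div_add_atTop_nhds_zero_nat.comp hι.tendsto_atTop
  refine ⟨v, le_of_tendsto' ((B.cX.abs.tendsto v).comp ht) fun k => w1 _,
    abs_nonpos_iff.1 (le_of_tendsto_of_tendsto' ((B.cY.abs.tendsto v).comp ht) t0 fun k => w2 _),
    ?_, cr_lim cG fun ε hε => ht.frequently ?_⟩
  · have t1 : Tendsto (fun k => c (ι k)) atTop (𝓝 (F.f^[B.M] v)) := by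
      have := ((cG.tendsto v).comp ht).sub (squeeze_zero_norm (fun k => (c1 (ι k)).le) t0)
      simpa using this
    rw [← B.X_Gt, ← hB v hv]
    exact ge_of_tendsto' ((B.cX.abs.tendsto _).comp t1) fun k => c2 _
  · exact ((t0.eventually (gt_mem_nhds hε)).mono fun k hk => cr_mono hk.le (w3 _)).frequently

theorem cr_gap (B : Box F) (h0 : B.φ 0 = 0) (hf : ∀ ξ, B.φ ξ = ξ → |ξ| ≤ 1 → ξ = 0) {t : ℝ}
    (h1 : |t| ≤ 1 / 4) (h2 : 1 / 4 ≤ |B.φ t|) : ∃ sh, B.Gap 0 sh ∧ 0 < sg sh * t := by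
  have cφ : Continuous B.φ := B.φ.continuous
  obtain ⟨sh, k1, k2⟩ : ∃ sh, 0 < sg sh * t ∧ 0 ≤ sg sh * (B.φ t - t) := by
    rw [abs_le] at h1
    rcases le_abs.1 h2 with e | e
    · exact ⟨true, by simpa [sg] using B.φ.lt_iff_lt.1 (by rw [h0]; linarith),
        by simp only [sg, if_true]; linarith⟩
    · exact ⟨false, by simpa [sg] using B.φ.lt_iff_lt.1 (by rw [h0]; linarith),
        by simp only [sg, Bool.false_eq_true, if_false]; linarith⟩
  refine ⟨sh, fun x hx => by_contra fun k => ?_, k1⟩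
  have s1 := mkq_sq sh
  have e1 : sg sh * (sg sh * t) = t := by rw [← mul_assoc, s1, one_mul]
  have k3 : sg sh * t ≤ 1 / 2 := (le_abs_self _).trans (by rw [mkq_abs]; linarith)
  obtain ⟨y, hy, e⟩ := isPreconnected_Ioc.intermediate_value hx ⟨k1, k3⟩
    (f := fun x => sg sh * (B.φ (0 + sg sh * x) - (0 + sg sh * x))) (by fun_prop)
    (show (0 : ℝ) ∈ Icc _ _ from ⟨not_lt.1 k, by simpa only [zero_add, e1] using k2⟩)
  have s2 : sg sh ≠ 0 := fun k => by simp [k] at s1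
  have e2 := hf _ (sub_eq_zero.1 ((mul_eq_zero.1 e).resolve_left s2))
    (by rw [zero_add, mkq_abs, abs_of_pos hy.1]; linarith [hy.2])
  rw [zero_add] at e2
  exact hy.1.ne' ((mul_eq_zero.1 e2).resolve_left s2)

theorem cr_per (F : Dis) (hp : HP F) (hf : (periodicPts F.f).Finite) {x : ℂ}
    (hx : ∀ ε > 0, Ch F.f ε x x) : x ∈ periodicPts F.f := by
  by_contra hn
  obtain ⟨At, M0, hA, hs⟩ := cr_atlas hp hf hn
  obtain ⟨hD, hG⟩ := cr_pow hx M0
  have cG := F.cf.iterate M0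
  have hM : 0 < M0 := by
    obtain ⟨q, hq⟩ := hp.per_nonempty
    exact hA.2 ⟨q, hq⟩ ▸ At.M_pos _
  have nxt : ∀ v ∈ Disc, (∀ ε > 0, Ch F.f^[M0] ε v x) → ∃ q : periodicPts F.f,
      (∀ ε > 0, Ch F.f^[M0] ε q x) ∧ MapClusterPt (q : ℂ) atTop fun k : ℕ => F.f^[M0 * k] v := by
    intro v hv h
    obtain ⟨q, hq, hc⟩ := cr_hit hp hM hv
    have : ∀ k : ℕ, ∀ ε > 0, Ch F.f^[M0] ε (F.f^[M0 * k] v) x := fun k => by
      induction k with
      | zero => exact h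
      | succ k ih =>
        rw [Nat.mul_succ, add_comm, iterate_add_apply]
        exact cr_fwd cG hG ih
    exact ⟨⟨q, hq⟩, cr_lim cG fun ε hε => 
      Metric.nhds_basis_ball.frequently_iff.2 fun δ hδ =>
        (mapClusterPt_iff_frequently.1 hc _ (ball_mem_nhds q hδ)).exists.elim
          fun k hk => ⟨_, hk, this k ε hε⟩, hc⟩
  have step : ∀ s : {q : periodicPts F.f // ∀ ε > 0, Ch F.f^[M0] ε q x},
      ∃ (s' : {q : periodicPts F.f // ∀ ε > 0, Ch F.f^[M0] ε q x}) (sh : Bool) (Q : Quad F),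
        At.IsQ s.1 sh true Q ∧ (s'.1 : ℂ) ∈ Q.om := by
    rintro ⟨q, hq⟩
    have ok := At.ok q
    have hM' := hA.2 q
    rw [Atlas.M] at hM'
    rcases hL : At.L q with T | B <;> rw [hL] at ok hM'
    · obtain rfl : T.M = M0 := hM'
      have e : T.q = q := ok
      exact absurd (((cr_trap T (e ▸ hq)).trans e) ▸ q.2) hn
    · obtain rfl : B.M = M0 := hM'
      obtain ⟨b1, -, -, b4, b5⟩ := ok
      obtain ⟨s1, s2, s3⟩ := hs q B hL
      obtain ⟨v, v1, v2, v3, v4⟩ := cr_exit B b1 s1 b4 s2 hq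
      have h0 : B.φ 0 = 0 := by rw [← s1, ← B.X_Gt, b5]
      obtain ⟨sh, g1, g2⟩ := cr_gap B h0 (fun ξ k1 k2 => by
        have := s3 (B.pt ξ 0) ⟨by rwa [B.X_pt], by simp [B.Y_pt]⟩ ⟨_, B.M_pos, B.fix_pt k1 k2⟩
        rw [← s1, ← this, B.X_pt]) v1 v3
      obtain ⟨Q, hQ⟩ := B.exists_quad b1 (ξ := 0) (by norm_num) h0 g1 true
      obtain ⟨q', k1, k2⟩ := nxt v (ball_subset_closedBall
        (B.S_sub ⟨by linarith, by simp [v2]⟩)) v4
      have e := Q.loc_mem (z := v) (by rw [(hQ.2.2 v).1]; linarith) (by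
        rw [(hQ.2.2 v).1]
        have := (le_abs_self _).trans ((mkq_abs sh (B.X v)).le.trans v1)
        linarith) (by rw [(hQ.2.2 v).2, v2, mul_zero])
      refine ⟨⟨q', k1⟩, sh, Q, ⟨B, hL, s1.symm ▸ hQ⟩,
        Q.om_of_cluster (s := -Q.dep (Q.X v)) ?_⟩
      rwa [← e, hQ.1]
  choose nx sh Q h1 h2 using step
  obtain ⟨q0, hq0, -⟩ := nxt x hD hG
  obtain ⟨s, hs⟩ : ∃ s : ℕ → {q : periodicPts F.f // ∀ ε > 0, Ch F.f^[M0] ε q x},
      ∀ n, s (n + 1) = nx (s n) :=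
    ⟨fun n => nx^[n] ⟨q0, hq0⟩, fun n => iterate_succ_apply' _ _ _⟩
  haveI := hf.to_subtype
  obtain ⟨i, j, hij, e⟩ := Finite.exists_lt_map_eq_of_forall_mem
    (f := fun n : ℕ => s n) (t := univ) (fun _ => trivial) finite_univ
  obtain ⟨i0, k, k0, -, -, k1, k2⟩ := min_repeat s hij e
  obtain ⟨l, -, h⟩ := cl_branch (M := M0) k0 (fun l => Q (s (i0 + l)))
    (fun l _ => (h1 _).M.trans (hA.2 _))
    (fun l _ => by rw [(h1 _).p, ← add_assoc, hs]; exact h2 _)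
    (by rw [add_zero, k1])
    (fun a ha b hb hab => disjoint_iff_inter_eq_empty.2 (not_nonempty_iff_eq_empty.1 fun hm =>
      hab (k2 a ha b hb (Subtype.ext ((h1 _).gam_meet (h1 _) hm).1))))
  exact no_SA hp hA (h1 _) h

end Pool.Agent.Lib.MP_6d0683_an
end

-- part Pool.Agent.Lib.MP_6d0683_an.Hyp3
section

/-!
All periodic points are hyperbolic.
-/

set_option autoImplicit false

open Set Metric Filter Topology Function

namespace Pool.Agent.Lib.MP_6d0683_an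

open MP_3fe454_an.PD MP_3fe454_an.S2

variable {S : Type} [TopologicalSpace S]

theorem hyp_pow {L : ℂ →L[ℝ] ℂ} (h0 : L.det ≠ 0) (h1 : |L.det| < 1) (h : Hyp L) {j : ℕ}
    (hj : 0 < j) : Hyp (L ^ j) := by
  intro v hv
  have e : ((L * L) ^ j) v = v := by rwa [(Commute.refl L).mul_pow]
  rcases lin_dich L h0 h1 with ⟨N, θ, c, C, a0, a1, a2, a3, -, a5⟩ | ⟨A, s, l, a0, a1, a2, a3⟩
  · have k : ∀ i : ℕ, N (((L * L) ^ i) v) ≤ θ ^ i * N v := fun i => by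
      induction i with
      | zero => simp
      | succ i ih =>
        rw [pow_succ', pow_succ', mul_assoc θ]
        exact (a5 _).trans (mul_le_mul_of_nonneg_left ih a0.le)
    have k1 := k j
    rw [e] at k1
    exact norm_le_zero_iff.1 (nonpos_of_mul_nonpos_right
      ((a3 v).trans (by nlinarith [pow_lt_one₀ a0.le a1 hj.ne'])) a2)
  · have k : ∀ i : ℕ, A (((L * L) ^ i) v) = (s ^ i * (A v).1, l ^ i * (A v).2) := fun i => by
      induction i with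
      | zero => simp
      | succ i ih =>
        rw [pow_succ', pow_succ', pow_succ', mul_assoc s, mul_assoc l]
        exact (a3 (((L * L) ^ i) v)).trans (by rw [ih])
    have k1 := k j
    rw [e] at k1
    have k2 : (A v).2 = 0 := eq_zero_of_mul_eq_self_left
      (pow_lt_one₀ a1.le (by nlinarith) hj.ne').ne (congrArg Prod.snd k1).symm
    rcases a0.eq_or_lt with rfl | hs
    · exact h v (A.injective ((a3 v).trans (Prod.ext (one_mul _) (by rw [k2, mul_zero]))))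
    · exact A.map_eq_zero_iff.1 (Prod.ext (eq_zero_of_mul_eq_self_left
        (one_lt_pow₀ hs hj.ne').ne' (congrArg Prod.fst k1).symm) k2)

theorem fderiv_pow (F : Dis) {d : ℕ} {z : ℂ} (hz : ‖z‖ < 1) (hd : F.f^[d] z = z) (j : ℕ) :
    fderiv ℝ F.f^[d * j] z = fderiv ℝ F.f^[d] z ^ j := by
  obtain ⟨-, L, hL, -⟩ := lin_iter F d hz
  rw [iterate_mul, (hL.hasFDerivAt.iterate hd j).fderiv, hL.hasFDerivAt.fderiv]

theorem hyp_all [T2Space S] (X : Sys S) (n : ℕ) (hn : 0 < n) :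
    {z | X.F.f^[n] z = z}.Finite ∧ ∀ z, X.F.f^[n] z = z → Hyp (fderiv ℝ X.F.f^[n] z) := by
  induction n using Nat.strong_induction_on with
  | _ n ih =>
    have key : ∀ z, X.F.f^[n] z = z → minimalPeriod X.F.f z < n →
        Hyp (fderiv ℝ X.F.f^[n] z) := fun z hz hl => by
      have h0 := IsPeriodicPt.minimalPeriod_pos hn hz
      obtain ⟨j, hj⟩ := IsPeriodicPt.minimalPeriod_dvd hz
      have h1 := loc1_norm_lt X.F hn hz
      obtain ⟨L, hL, h2, h3⟩ := iter_strict X.F _ h0 h1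
      have h4 := (ih _ hl h0).2 z iterate_minimalPeriod
      rw [hj, fderiv_pow X.F h1 iterate_minimalPeriod]
      rw [hL.hasFDerivAt.fderiv] at h4 ⊢
      exact hyp_pow h2 h3 h4 (Nat.pos_of_mul_pos_left (hj ▸ hn))
    have hf := fin_fix X hn fun z hz hl v hv => key z hz hl v (by rw [hv, hv])
    exact ⟨hf, fun z hz =>
      (IsPeriodicPt.minimalPeriod_le hn hz).eq_or_lt.elim (hyp_min X hn hf) (key z hz)⟩

theorem Sys.good [T2Space S] (X : Sys S) (h : ¬ Cascade X.f) : ∃ M, Good X.F M := by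
  have hp := hp_of_no_cascade X.F (X.no_cascade h)
  obtain ⟨N, hN, h1⟩ := hp.bounded
  obtain ⟨h2, h3⟩ := hyp_all X N hN
  have h4 : ∀ c ∈ periodicPts X.F.f, X.F.f^[N * 2] c = c := fun c hc =>
    IsPeriodicPt.mul_const (h1 c hc) 2
  refine ⟨N * 2, by omega, h2.subset h1, h4, fun c hc => ?_,
    fun _ => cr_per X.F hp (h2.subset h1)⟩
  obtain ⟨L, hL, h5, h6⟩ := iter_strict X.F N hN (loc1_norm_lt X.F hN (h1 c hc))
  have h7 := h3 c (h1 c hc)
  rw [hL.hasFDerivAt.fderiv] at h7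
  have h8 : HasStrictFDerivAt X.F.f^[N * 2] (L ^ 2) c := by
    rw [iterate_mul]
    exact hL.iterate (h1 c hc) 2
  rw [sq] at h8
  rcases lin_dich L h5 h6 with ⟨P, θ, a, C, a0, a1, a2, a3, a4, a5⟩ | ⟨A, s, l, a0, a1, a2, a3⟩
  · exact Or.inl (exists_snk h8 (h4 c hc) P a0.le a1 a2 a3 a4 a5)
  · refine Or.inr (exists_sd h8 (h4 c hc) A (a0.lt_of_ne ?_) a1.le (by nlinarith) a3)
    rintro rfl
    simpa using h7 (A.symm (1, 0)) (A.injective ((a3 _).trans (by simp)))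

end Pool.Agent.Lib.MP_6d0683_an
end

-- part Pool.Agent.Lib.MP_6d0683_an.Main
section

/-!
The theorem in the chart.
-/

set_option autoImplicit false

open Set Metric Filter Topology Function

namespace Pool.Agent.Lib.MP_6d0683_an

open MP_3fe454_an.PD MP_3fe454_an.S2

variable {S : Type} [TopologicalSpace S]

theorem no_tang [T2Space S] (X : Sys S) {M : ℕ} (hG : Good X.F M) : IsEmpty (Tang X.F M) := by
  refine ⟨fun τ => ?_⟩
  obtain ⟨g, h1, h2⟩ := make X hG τ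
  obtain ⟨m, ψ, R, η, K, 𝒟, h⟩ := exists_gen X hG
  obtain ⟨v, hv, hn⟩ := h.generic
  obtain ⟨g', h3⟩ := h.pert v hv
  exact no_touch h3 hG ((h.fam.smooth 0).continuous.comp (by fun_prop)) h.K_cpt (h.off v) h.K_per
    h.K_sub h.all h.box hn ((h1.symm.trans h3.conj).touch M h2)

theorem main_sys [T2Space S] (X : Sys S) (h : ¬ Cascade X.f) :
    {x | ∀ ε > 0, Ch X.F.f ε x x}.Finite ∧ ∀ o : ℤ → ℂ, (∀ n, o n ∈ Disc) →
      (∀ n, o (n + 1) = X.F.f (o n)) → ∀ v, ∃ a b, Sol X.F.f o a ∧ Sol X.F.f o b ∧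
        a 0 + b 0 = v ∧ Tendsto a atTop (𝓝 0) ∧ Tendsto b atBot (𝓝 0) := by
  obtain ⟨M, hG⟩ := X.good h
  exact ⟨hG.fin.subset hG.cr, fun o h1 h2 v =>
    split hG (no_tang X hG) (fun n => ⟨orb_mem h1 h2 n, h2 n⟩) v⟩

end Pool.Agent.Lib.MP_6d0683_an
end

-- part Pool.Agent.Lib.MP_6d0683_an.Fin
section

/-!
Stable maps without cascade are Morse-Smale; trivial implications between the stabilities.
-/

set_option autoImplicit false

open Set Metric Function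

namespace Pool.Agent.Lib.MP_6d0683_an

theorem morse_smale (k : ℕ) (hk : 2 ≤ k) (f : Sph ≃ₜ Sph) (hf : IsDiffeo k f) (hs : Stable k f)
    (hS : ∀ x : Sph, x.1.2 ≤ 0 → (f x).1.2 < 0)
    (hd : ∀ z ∈ closedBall (0 : ℂ) 1, |(fderiv ℝ (loc true true f) z).det| < 1)
    (hN : ∃ θ : ℝ, θ < 1 ∧ ∀ z ∈ closedBall (0 : ℂ) 1, ∀ w ∈ closedBall (0 : ℂ) 1,
      ‖loc false false f.symm z - loc false false f.symm w‖ ≤ θ * ‖z - w‖)
    (hc : ¬ ∃ m : ℕ, 1 ≤ m ∧ ∀ j : ℕ, ∃ x, minimalPeriod f x = m * 2 ^ j) :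
    MorseSmale f := by
  obtain ⟨θ, hθ, hN⟩ := hN
  obtain ⟨X, -, rfl, h3⟩ := exists_sys hk hf hs hS hd hθ hN
  obtain ⟨h1, h2⟩ := main_sys X hc
  exact final_of (by omega) hf hS hθ hN h3 h1 h2

theorem StableAP.stable {k : ℕ} {f : Sph ≃ₜ Sph} (h : StableAP k f) : Stable k f := by
  obtain ⟨ε, hε, h1⟩ := h 1 one_pos
  exact ⟨ε, hε, fun g h2 h3 => (h1 g h2 h3).imp fun _ h4 => h4.1⟩

theorem Stable.up {j k : ℕ} (hj : j ≤ k) {f : Sph ≃ₜ Sph} (h : Stable j f) : Stable k f := by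
  obtain ⟨ε, hε, h1⟩ := h
  exact ⟨ε, hε, fun g h2 h3 =>
    h1 g ⟨h2.1.mono hj, h2.2.mono hj⟩ fun s i hi => h3 s i (hi.trans hj)⟩

theorem StableAP.up {j k : ℕ} (hj : j ≤ k) {f : Sph ≃ₜ Sph} (h : StableAP j f) :
    StableAP k f := fun η hη => by
  obtain ⟨ε, hε, h1⟩ := h η hη
  exact ⟨ε, hε, fun g h2 h3 =>
    h1 g ⟨h2.1.mono hj, h2.2.mono hj⟩ fun s i hi => h3 s i (hi.trans hj)⟩

end Pool.Agent.Lib.MP_6d0683_an
end
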